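import Mathlib
import Pool.Agent.LIM.Defs
import Pool.Agent.LIM.NullS

set_option autoImplicit false

/-!
# Preperiodic points of morphisms of projective space in families: definitions
-/

namespace Pool.Agent.PNH

open NumberField
open Pool.Agent.LIM (Null GF)
open Pool.Agent.FamK (ev)
open Pool.Agent.FAM (Cube)

/-- `N + 1` polynomials in `N + 1` variables. -/
abbrev Tup (N : ℕ) (A : Type) [CommRing A] : Type :=
  Fin (N + 1) → MvPolynomial (Fin (N + 1)) A

/-- The map `x ↦ (F_0(x), …, F_N(x))`. -/
noncomputable def app {N : ℕ} {A : Type} [CommRing A] (F : Tup N A) (x : Fin (N + 1) → A) :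
    Fin (N + 1) → A :=
  fun i => MvPolynomial.eval x (F i)

/-- Change of the ring of coefficients. -/
noncomputable def mp {N : ℕ} {A B : Type} [CommRing A] [CommRing B] (f : A →+* B) (F : Tup N A) :
    Tup N B :=
  fun i => MvPolynomial.map f (F i)

/-- The vectors `x` and `y` are proportional. -/
def Par {N : ℕ} {A : Type} [CommRing A] (x y : Fin (N + 1) → A) : Prop :=
  ∀ i j, x i * y j = x j * y i

/-- The first nonzero coordinate of `x` is `1`: every point of the projective space over a field has
exactly one such representative. -/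
def Nrm {N : ℕ} {A : Type} [CommRing A] (x : Fin (N + 1) → A) : Prop :=
  ∃ i, x i = 1 ∧ ∀ j, j < i → x j = 0

/-- The coordinates of `x` lie in an extension of degree at most `D` of `k`. -/
def DegLe (k : Type) {L : Type} [Field k] [Field L] [Algebra k L] {N : ℕ} (D : ℕ)
    (x : Fin (N + 1) → L) : Prop :=
  ∃ θ : L, (minpoly k θ).natDegree ≤ D ∧ ∀ i, x i ∈ IntermediateField.adjoin k {θ}

/-- `F` is a tuple of forms of degree `d` without a common zero over the algebraic closure of `k`
other than `0`: a morphism of projective space of degree `d`. -/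
def IsMor {N : ℕ} (d : ℕ) (k : Type) [Field k] (F : Tup N k) : Prop :=
  (∀ i, (F i).IsHomogeneous d) ∧
    ∀ x : Fin (N + 1) → AlgebraicClosure k, app (mp (algebraMap k (AlgebraicClosure k)) F) x = 0 →
      x = 0

/-- The preperiodic points of `F` over the algebraic closure of `k` which are defined over an
extension of degree at most `D` of `k`. -/
def Pre (k : Type) [Field k] {N : ℕ} (D : ℕ) (F : Tup N k) :
    Set (Fin (N + 1) → AlgebraicClosure k) :=
  {x | Nrm x ∧ DegLe k D x ∧ ∃ a b : ℕ, a < b ∧
    Par ((app (mp (algebraMap k (AlgebraicClosure k)) F))^[a] x)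
      ((app (mp (algebraMap k (AlgebraicClosure k)) F))^[b] x)}

/-- The same with `b ≤ B`. -/
def PreB (k : Type) [Field k] {N : ℕ} (D B : ℕ) (F : Tup N k) :
    Set (Fin (N + 1) → AlgebraicClosure k) :=
  {x | Nrm x ∧ DegLe k D x ∧ ∃ a b : ℕ, a < b ∧ b ≤ B ∧
    Par ((app (mp (algebraMap k (AlgebraicClosure k)) F))^[a] x)
      ((app (mp (algebraMap k (AlgebraicClosure k)) F))^[b] x)}

/-- `c X_j ^ e` lies in the ideal generated by the `F_i`, for every `j`. -/
def Cert {N : ℕ} {A : Type} [CommRing A] (F : Tup N A) (c : A) (e : ℕ) : Prop :=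
  ∀ j, ∃ G : Tup N A, ∑ i, G i * F i = MvPolynomial.C c * MvPolynomial.X j ^ e

/-- The member at `s` of a family of tuples. -/
noncomputable def mem {K : Type} [Field K] {N r : ℕ} (s : Fin r → ℤ)
    (F : Tup N (MvPolynomial (Fin r) (𝓞 K))) : Tup N K :=
  mp ((algebraMap (𝓞 K) K).comp (ev s)) F

/-- The generic member of a family of tuples. -/
noncomputable def gen {K : Type} [Field K] [NumberField K] {N r : ℕ}
    (F : Tup N (MvPolynomial (Fin r) (𝓞 K))) : Tup N (GF r K) :=
  mp (algebraMap (MvPolynomial (Fin r) (𝓞 K)) (GF r K)) F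

section basic

variable {N : ℕ} {A B : Type} [CommRing A] [CommRing B]

theorem mp_mp {C : Type} [CommRing C] (f : A →+* B) (g : B →+* C) (F : Tup N A) :
    mp g (mp f F) = mp (g.comp f) F := by
  funext i
  exact MvPolynomial.map_map f g (F i)

theorem app_mp (f : A →+* B) (F : Tup N A) (x : Fin (N + 1) → A) :
    app (mp f F) (fun i => f (x i)) = fun i => f (app F x i) := by
  funext i
  unfold app mp
  rw [MvPolynomial.eval_map, MvPolynomial.eval₂_eq', MvPolynomial.eval_eq', map_sum]
  refine Finset.sum_congr rfl fun m _ => ?_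
  rw [map_mul, map_prod]
  simp only [map_pow]

theorem iter_mp (f : A →+* B) (F : Tup N A) (n : ℕ) (x : Fin (N + 1) → A) :
    (app (mp f F))^[n] (fun i => f (x i)) = fun i => f ((app F)^[n] x i) := by
  induction n generalizing x with
  | zero => rfl
  | succ n ih => rw [Function.iterate_succ_apply, Function.iterate_succ_apply, app_mp, ih]

theorem app_smul (d : ℕ) (F : Tup N A) (hF : ∀ i, (F i).IsHomogeneous d) (c : A)
    (x : Fin (N + 1) → A) : app F (c • x) = c ^ d • app F x := by
  funext i
  change MvPolynomial.eval (c • x) (F i) = c ^ d * MvPolynomial.eval x (F i)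
  rw [MvPolynomial.eval_eq', MvPolynomial.eval_eq', Finset.mul_sum]
  refine Finset.sum_congr rfl fun m hm => ?_
  have hd : ∑ j, m j = d := by
    have h : m.degree = d := by
      by_contra h
      exact MvPolynomial.mem_support_iff.1 hm ((hF i).coeff_eq_zero h)
    rw [← h, Finsupp.degree_eq_sum]
  simp only [Pi.smul_apply, smul_eq_mul, mul_pow]
  rw [Finset.prod_mul_distrib, Finset.prod_pow_eq_pow_sum, hd]
  ring

theorem iter_smul (d : ℕ) (F : Tup N A) (hF : ∀ i, (F i).IsHomogeneous d) (n : ℕ) (c : A)
    (x : Fin (N + 1) → A) : (app F)^[n] (c • x) = c ^ d ^ n • (app F)^[n] x := by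
  induction n generalizing c x with
  | zero => simp
  | succ n ih =>
    rw [Function.iterate_succ_apply, Function.iterate_succ_apply, app_smul d F hF, ih, ← pow_mul,
      pow_succ']

theorem hom_mp (d : ℕ) (f : A →+* B) (F : Tup N A) (hF : ∀ i, (F i).IsHomogeneous d) (i) :
    (mp f F i).IsHomogeneous d := (hF i).map f

theorem Par.symm {x y : Fin (N + 1) → A} (h : Par x y) : Par y x := fun i j => by
  rw [mul_comm, h j i, mul_comm]

theorem Par.refl (x : Fin (N + 1) → A) : Par x x := fun _ _ => mul_comm _ _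

theorem Par.smul_left {x y : Fin (N + 1) → A} (c : A) (h : Par x y) : Par (c • x) y := by
  intro i j
  have := h i j
  simp only [Pi.smul_apply, smul_eq_mul]
  linear_combination c * this

theorem Par.map {x y : Fin (N + 1) → A} (f : A →+* B) (h : Par x y) :
    Par (fun i => f (x i)) (fun i => f (y i)) := by
  intro i j
  rw [← map_mul, ← map_mul, h i j]

theorem Par.exists_smul {k : Type} [Field k] {x y : Fin (N + 1) → k} (h : Par x y) (hx : x ≠ 0) :
    ∃ c : k, y = c • x := by
  obtain ⟨i, hi⟩ : ∃ i, x i ≠ 0 := by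
    by_contra h0
    exact hx (funext fun i => by_contra fun h1 => h0 ⟨i, h1⟩)
  refine ⟨y i / x i, funext fun j => ?_⟩
  simp only [Pi.smul_apply, smul_eq_mul]
  field_simp
  linear_combination h i j

theorem Nrm.ne_zero [Nontrivial A] {x : Fin (N + 1) → A} (h : Nrm x) : x ≠ 0 := by
  rintro rfl
  obtain ⟨i, hi, -⟩ := h
  exact zero_ne_one hi

theorem Nrm.map {x : Fin (N + 1) → A} (f : A →+* B) (h : Nrm x) : Nrm (fun i => f (x i)) := by
  obtain ⟨i, hi, hj⟩ := h
  exact ⟨i, (congrArg f hi).trans (map_one f), fun j h => (congrArg f (hj j h)).trans (map_zero f)⟩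

/-- Proportional normalised vectors are equal. -/
theorem Nrm.eq_of_par {k : Type} [Field k] {x y : Fin (N + 1) → k} (hx : Nrm x) (hy : Nrm y)
    (h : Par x y) : x = y := by
  obtain ⟨c, rfl⟩ := h.exists_smul hx.ne_zero
  obtain ⟨i, hi, hi'⟩ := hx
  obtain ⟨j, hj, hj'⟩ := hy
  simp only [Pi.smul_apply, smul_eq_mul] at hj hj'
  have hc : c ≠ 0 := by
    rintro rfl
    rw [zero_mul] at hj
    exact zero_ne_one hj
  rcases lt_trichotomy i j with h1 | h1 | h1
  · have := hj' i h1
    rw [hi, mul_one] at this
    exact absurd this hc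
  · subst h1
    rw [hi, mul_one] at hj
    rw [hj, one_smul]
  · rw [hi' j h1, mul_zero] at hj
    exact absurd hj zero_ne_one

/-- Every nonzero vector has a normalised multiple. -/
theorem exists_nrm {k : Type} [Field k] (x : Fin (N + 1) → k) (hx : x ≠ 0) :
    ∃ c : k, c ≠ 0 ∧ Nrm (c • x) := by
  classical
  have hne : (Finset.univ.filter fun i => x i ≠ 0).Nonempty := by
    by_contra h0
    rw [Finset.not_nonempty_iff_eq_empty, Finset.filter_eq_empty_iff] at h0
    exact hx (funext fun i => not_not.1 (h0 (Finset.mem_univ i)))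
  have hm := Finset.min'_mem _ hne
  set i := (Finset.univ.filter fun i => x i ≠ 0).min' hne with hi
  have hxi : x i ≠ 0 := (Finset.mem_filter.1 hm).2
  refine ⟨(x i)⁻¹, inv_ne_zero hxi, i, ?_, fun j hj => ?_⟩
  · simp [hxi]
  · have : x j = 0 := by
      by_contra h
      exact absurd (Finset.min'_le _ j (Finset.mem_filter.2 ⟨Finset.mem_univ j, h⟩))
        (not_le.2 hj)
    simp [this]

theorem Cert.mp {F : Tup N A} {c : A} {e : ℕ} (f : A →+* B) (h : Cert F c e) :
    Cert (mp f F) (f c) e := by
  intro j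
  obtain ⟨G, hG⟩ := h j
  refine ⟨PNH.mp f G, ?_⟩
  have := congrArg (MvPolynomial.map f) hG
  simpa [PNH.mp, map_sum, map_mul] using this

/-- With a certificate there is no common zero. -/
theorem Cert.eq_zero [IsDomain A] {F : Tup N A} {c : A} {e : ℕ} (h : Cert F c e) (hc : c ≠ 0)
    (x : Fin (N + 1) → A) (hx : app F x = 0) : x = 0 := by
  funext j
  obtain ⟨G, hG⟩ := h j
  have := congrArg (MvPolynomial.eval x) hG
  rw [map_sum] at this
  have h0 : ∑ i, MvPolynomial.eval x (G i * F i) = 0 := by
    refine Finset.sum_eq_zero fun i _ => ?_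
    rw [map_mul]
    have : MvPolynomial.eval x (F i) = 0 := congrFun hx i
    rw [this, mul_zero]
  rw [h0, map_mul, map_pow, MvPolynomial.eval_C, MvPolynomial.eval_X] at this
  exact eq_zero_of_pow_eq_zero ((mul_eq_zero.1 this.symm).resolve_left hc)

end basic

end Pool.Agent.PNH
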