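import Pool.Agent.PNH.Defs

set_option autoImplicit false

/-!
# Primitive vectors over a valuation ring
-/

namespace Pool.Agent.PNH

theorem prim_app {N : ℕ} {R : Type} [CommRing R] [IsDomain R] [ValuationRing R] (F : Tup N R)
    (c : R) (e : ℕ) (hc : IsUnit c) (h : Cert F c e) (x : Fin (N + 1) → R)
    (hx : ∃ i, IsUnit (x i)) : ∃ i, IsUnit (app F x i) := by
  obtain ⟨j, hj⟩ := hx
  obtain ⟨G, hG⟩ := h j
  have h1 := congrArg (MvPolynomial.eval x) hG
  rw [map_sum, map_mul, map_pow, MvPolynomial.eval_C, MvPolynomial.eval_X] at h1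
  by_contra hn
  push Not at hn
  have h2 : c * x j ^ e ∈ IsLocalRing.maximalIdeal R := by
    rw [← h1]
    refine Ideal.sum_mem _ fun i _ => ?_
    rw [map_mul]
    exact Ideal.mul_mem_left _ _ ((IsLocalRing.mem_maximalIdeal _).2 (hn i))
  exact (IsLocalRing.mem_maximalIdeal _).1 h2 (hc.mul (hj.pow e))

theorem prim_par {N : ℕ} {R : Type} [CommRing R] [IsDomain R] [ValuationRing R]
    (x y : Fin (N + 1) → R) (hx : ∃ i, IsUnit (x i)) (hy : ∃ i, IsUnit (y i)) (h : Par x y) :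
    ∃ u : R, IsUnit u ∧ y = u • x := by
  obtain ⟨i, hi⟩ := hx
  obtain ⟨v, hv⟩ := hi
  have h1 : y = (y i * (v⁻¹ : Rˣ)) • x := by
    funext j
    have h2 : (v : R) * (v⁻¹ : Rˣ) = 1 := Units.mul_inv v
    have h3 := h i j
    rw [← hv] at h3
    simp only [Pi.smul_apply, smul_eq_mul]
    linear_combination (-(y j)) * h2 + ((v⁻¹ : Rˣ) : R) * h3
  refine ⟨_, ?_, h1⟩
  obtain ⟨j, hj⟩ := hy
  rw [h1] at hj
  simp only [Pi.smul_apply, smul_eq_mul] at hj
  exact isUnit_of_mul_isUnit_left hj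

theorem exists_prim {N : ℕ} {L : Type} [Field L] (V : ValuationSubring L) (x : Fin (N + 1) → L)
    (hx : x ≠ 0) : ∃ (c : L) (y : Fin (N + 1) → V), c ≠ 0 ∧ (∃ i, y i = 1) ∧
      x = c • fun i => (y i : L) := by
  obtain ⟨i, -, hi⟩ := Finset.exists_max_image (Finset.univ : Finset (Fin (N + 1)))
    (fun i => V.valuation (x i)) ⟨0, Finset.mem_univ _⟩
  have hxi : x i ≠ 0 := by
    intro h0
    refine hx (funext fun j => ?_)
    have h1 := hi j (Finset.mem_univ j)
    rw [h0, map_zero, le_zero_iff, map_eq_zero] at h1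
    exact h1
  have hmem : ∀ j, x j / x i ∈ V := by
    intro j
    rw [← V.valuation_le_one_iff, map_div₀]
    have h2 : V.valuation (x i) ≠ 0 := by rwa [Ne, map_eq_zero]
    exact div_le_one_of_le₀ (hi j (Finset.mem_univ j)) zero_le
  refine ⟨x i, fun j => ⟨x j / x i, hmem j⟩, hxi, ⟨i, Subtype.ext (div_self hxi)⟩, ?_⟩
  funext j
  simp only [Pi.smul_apply, smul_eq_mul]
  field_simp

end Pool.Agent.PNH
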