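import Mathlib
import Pool.Agent.PNH.Defs

set_option autoImplicit false

/-!
# Elements that lie in all valuation rings over a subfield are algebraic
-/

namespace Pool.Agent.PNH

theorem algebraic_of_val {k L : Type} [Field k] [Field L] [Algebra k L] (x : L)
    (h : ∀ V : ValuationSubring L, (∀ a : k, algebraMap k L a ∈ V) → x ∈ V) :
    IsAlgebraic k x := by
  rw [isAlgebraic_iff_isIntegral]
  by_contra hx
  have : IsIntegrallyClosedIn (integralClosure k L).toSubring L :=
    inferInstanceAs (IsIntegrallyClosedIn (integralClosure k L) L)
  obtain ⟨V, hV, hxV⟩ := Subring.exists_le_valuationSubring_of_isIntegrallyClosedIn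
    (R := (integralClosure k L).toSubring) (x := x) hx
  exact hxV (h V fun a => hV ((integralClosure k L).algebraMap_mem a))

end Pool.Agent.PNH
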