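import Mathlib
import Pool.Agent.PNH.Defs
import Pool.Agent.PNH.Val
import Pool.Agent.PNH.Prm

set_option autoImplicit false

/-!
# Preperiodic points are algebraic over the field of definition
-/

namespace Pool.Agent.PNH

/-- An element of a valuation ring whose power has its value in the ring. -/
theorem AlgA.mem_of_pow {L : Type} [Field L] (V : ValuationSubring L) (t : L) (m : ℕ) (hm : 0 < m)
    (h : t ^ m ∈ V) : t ∈ V := by
  have h1 : IsIntegral V (t ^ m) := isIntegral_algebraMap (x := (⟨t ^ m, h⟩ : V))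
  obtain ⟨y, hy⟩ := IsIntegrallyClosed.isIntegral_iff.1 (IsIntegral.of_pow hm h1)
  rw [← hy]
  exact y.2

/-- A valuation ring over `k` contains the elements algebraic over `k`. -/
theorem AlgA.mem_of_algebraic {k L : Type} [Field k] [Field L] [Algebra k L] (V : ValuationSubring L)
    (hV : ∀ a : k, algebraMap k L a ∈ V) (x : L) (h : IsAlgebraic k x) : x ∈ V := by
  obtain ⟨p, hp, hpx⟩ := h.isIntegral
  have h1 : IsIntegral V x := by
    refine ⟨p.map ((algebraMap k L).codRestrict V hV), hp.map _, ?_⟩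
    rw [Polynomial.eval₂_map]
    exact hpx
  obtain ⟨y, hy⟩ := IsIntegrallyClosed.isIntegral_iff.1 h1
  rw [← hy]
  exact y.2

theorem alg {k L : Type} [Field k] [Field L] [Algebra k L] {N d : ℕ} (hd : 2 ≤ d) (F : Tup N k)
    (hF : ∀ i, (F i).IsHomogeneous d) (c : k) (e : ℕ) (hc : c ≠ 0) (h : Cert F c e)
    (x : Fin (N + 1) → L) (hx : ∃ i, x i = 1) (a b : ℕ) (hab : a < b)
    (hp : Par ((app (mp (algebraMap k L) F))^[a] x) ((app (mp (algebraMap k L) F))^[b] x)) :
    ∀ i, IsAlgebraic k (x i) := by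
  set FL := mp (algebraMap k L) F with hFL
  obtain ⟨i₀, hi₀⟩ := hx
  have hx0 : x ≠ 0 := by
    rintro rfl
    exact zero_ne_one hi₀
  have hcL : algebraMap k L c ≠ 0 := (map_ne_zero _).2 hc
  have hcert : Cert FL (algebraMap k L c) e := h.mp _
  have hne : ∀ n, (app FL)^[n] x ≠ 0 := by
    intro n
    induction n with
    | zero => exact hx0
    | succ n ih =>
      rw [Function.iterate_succ_apply']
      exact fun h0 => ih (hcert.eq_zero hcL _ h0)
  obtain ⟨l, hl⟩ := hp.exists_smul (hne a)
  have hl0 : l ≠ 0 := by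
    rintro rfl
    exact hne b (by rw [hl, zero_smul])
  have hdab : d ^ a < d ^ b := Nat.pow_lt_pow_right (by omega) hab
  have key : ∀ V : ValuationSubring L, (∀ a : k, algebraMap k L a ∈ V) →
      ∃ (t : L) (y : Fin (N + 1) → V) (u u' : V), t ≠ 0 ∧ (∀ i, x i = t * y i) ∧ t⁻¹ ∈ V ∧
        u * u' = 1 ∧ l = t ^ (d ^ b - d ^ a) * u := by
    intro V hV
    obtain ⟨t, y, ht, hy, hxy⟩ := exists_prim V x hx0
    set φ : k →+* V := (algebraMap k L).codRestrict V hV with hφ
    have hmp : mp V.subtype (mp φ F) = FL := by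
      rw [mp_mp, hFL]
      rfl
    have hit : ∀ n, (app FL)^[n] (fun i => (y i : L)) =
        fun i => (((app (mp φ F))^[n] y i : V) : L) := by
      intro n
      have := iter_mp V.subtype (mp φ F) n y
      rw [hmp] at this
      exact this
    have hprim : ∀ n, ∃ i, IsUnit ((app (mp φ F))^[n] y i) := by
      intro n
      induction n with
      | zero =>
        obtain ⟨i, hi⟩ := hy
        exact ⟨i, by rw [Function.iterate_zero, id_eq, hi]; exact isUnit_one⟩
      | succ n ih =>
        rw [Function.iterate_succ_apply']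
        exact prim_app (mp φ F) (φ c) e ((IsUnit.mk0 c hc).map φ) (h.mp φ) _ ih
    have hitx : ∀ n i, (app FL)^[n] x i = t ^ d ^ n * (((app (mp φ F))^[n] y i : V) : L) := by
      intro n i
      rw [hxy, iter_smul d FL (fun i => hom_mp d _ F hF i), hit]
      rfl
    have hrel : ∀ i, t ^ d ^ b * (((app (mp φ F))^[b] y i : V) : L) =
        l * (t ^ d ^ a * (((app (mp φ F))^[a] y i : V) : L)) := by
      intro i
      rw [← hitx, ← hitx, hl]
      rfl
    have hpar : Par ((app (mp φ F))^[a] y) ((app (mp φ F))^[b] y) := by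
      intro i j
      apply Subtype.ext
      have h1 := hrel i
      have h2 := hrel j
      have h3 : t ^ d ^ b ≠ 0 := pow_ne_zero _ ht
      apply mul_left_cancel₀ h3
      push_cast
      linear_combination ((((app (mp φ F))^[a] y i : V) : L)) * h2 -
        ((((app (mp φ F))^[a] y j : V) : L)) * h1
    obtain ⟨u, hu, hu1⟩ := prim_par _ _ (hprim a) (hprim b) hpar
    obtain ⟨u', hu'⟩ := hu.exists_right_inv
    refine ⟨t, y, u, u', ht, fun i => by rw [hxy]; rfl, ?_, hu', ?_⟩
    · have h1 : t * y i₀ = 1 := by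
        rw [← hi₀, hxy]
        rfl
      rw [← eq_inv_of_mul_eq_one_right h1]
      exact (y i₀).2
    · obtain ⟨i, hi⟩ := hprim a
      have h1 := hrel i
      rw [hu1] at h1
      have h2 : (((app (mp φ F))^[a] y i : V) : L) ≠ 0 := by
        intro h0
        have h3 : (app (mp φ F))^[a] y i = 0 := Subtype.ext h0
        rw [h3] at hi
        exact not_isUnit_zero hi
      have h4 : t ^ d ^ a ≠ 0 := pow_ne_zero _ ht
      have h5 : t ^ d ^ b = t ^ (d ^ b - d ^ a) * t ^ d ^ a := by
        rw [← pow_add]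
        congr 1
        omega
      rw [h5] at h1
      simp only [Pi.smul_apply, smul_eq_mul] at h1
      push_cast at h1
      apply mul_right_cancel₀ h4
      apply mul_right_cancel₀ h2
      linear_combination -h1
  have hlinv : IsAlgebraic k l⁻¹ := by
    refine algebraic_of_val _ fun V hV => ?_
    obtain ⟨t, y, u, u', ht, -, ht', hu, hlu⟩ := key V hV
    have hu2 : (u : L) * u' = 1 := by
      exact_mod_cast congrArg (Subtype.val) hu
    have h1 : l⁻¹ = t⁻¹ ^ (d ^ b - d ^ a) * u' := by
      rw [hlu, inv_pow]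
      have h3 : (u : L) ≠ 0 := left_ne_zero_of_mul_eq_one hu2
      have h4 : t ^ (d ^ b - d ^ a) ≠ 0 := pow_ne_zero _ ht
      rw [mul_inv, ← eq_inv_of_mul_eq_one_right hu2]
    rw [h1]
    exact mul_mem (pow_mem ht' _) u'.2
  have hlalg : IsAlgebraic k l := IsAlgebraic.inv_iff.1 hlinv
  intro i
  refine algebraic_of_val _ fun V hV => ?_
  obtain ⟨t, y, u, u', ht, hxt, ht', hu, hlu⟩ := key V hV
  have hu2 : (u : L) * u' = 1 := by
    exact_mod_cast congrArg (Subtype.val) hu
  have h1 : t ^ (d ^ b - d ^ a) ∈ V := by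
    have h2 : t ^ (d ^ b - d ^ a) = l * u' := by
      rw [hlu, mul_assoc, hu2, mul_one]
    rw [h2]
    exact mul_mem (AlgA.mem_of_algebraic V hV l hlalg) u'.2
  rw [hxt i]
  exact mul_mem (AlgA.mem_of_pow V t _ (by omega) h1) (y i).2

end Pool.Agent.PNH
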