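import Mathlib
import Pool.Agent.PNH.Defs

set_option autoImplicit false

/-!
# The certificate of the Nullstellensatz
-/

namespace Pool.Agent.PNH

open MvPolynomial

attribute [local instance] MvPolynomial.algebraMvPolynomial

/-- The Nullstellensatz over the field of fractions, in a form without denominators. -/
theorem exists_cert {A : Type} [CommRing A] [IsDomain A] {N : ℕ} (F : Tup N A)
    (h : ∀ x : Fin (N + 1) → AlgebraicClosure (FractionRing A),
      app (mp (algebraMap A (AlgebraicClosure (FractionRing A))) F) x = 0 → x = 0) :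
    ∃ (c : A) (e : ℕ), c ≠ 0 ∧ Cert F c e := by
  classical
  set k := FractionRing A with hk
  set Fk : Tup N k := mp (algebraMap A k) F with hFk
  set I : Ideal (MvPolynomial (Fin (N + 1)) k) := Ideal.span (Set.range Fk) with hI
  -- a power of every coordinate lies in the ideal
  have hrad : ∀ j, (X j : MvPolynomial (Fin (N + 1)) k) ∈ I.radical := by
    intro j
    rw [← vanishingIdeal_zeroLocus_eq_radical (K := AlgebraicClosure k) I,
      mem_vanishingIdeal_iff]
    intro x hx
    have hx0 : x = 0 := by
      refine h x (funext fun i => ?_)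
      have h1 := (mem_zeroLocus_iff.1 hx) (Fk i) (Ideal.subset_span ⟨i, rfl⟩)
      change MvPolynomial.eval x (MvPolynomial.map (algebraMap A (AlgebraicClosure k)) (F i)) = 0
      rw [MvPolynomial.eval_map]
      rw [MvPolynomial.aeval_def] at h1
      have h2 : Fk i = MvPolynomial.map (algebraMap A k) (F i) := rfl
      rw [h2, MvPolynomial.eval₂_map, ← IsScalarTower.algebraMap_eq] at h1
      exact h1
    rw [aeval_X, hx0]
    rfl
  choose e he using fun j => (Ideal.mem_radical_iff.1 (hrad j))
  set E := ∑ j, e j with hE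
  have hmem : ∀ j, ∃ G : Fin (N + 1) → MvPolynomial (Fin (N + 1)) k,
      ∑ i, G i * Fk i = X j ^ E := by
    intro j
    have h1 : (X j : MvPolynomial (Fin (N + 1)) k) ^ E ∈ I := by
      have h2 : e j ≤ E := Finset.single_le_sum (f := e) (fun _ _ => Nat.zero_le _)
        (Finset.mem_univ j)
      rw [← Nat.sub_add_cancel h2, pow_add]
      exact I.mul_mem_left _ (he j)
    rw [hI] at h1
    obtain ⟨G, hG⟩ := (Ideal.mem_span_range_iff_exists_fun).1 h1
    exact ⟨G, hG⟩
  choose G hG using hmem
  -- clear the denominators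
  obtain ⟨b, hb⟩ := IsLocalization.exist_integer_multiples_of_finite
    ((nonZeroDivisors A).map (C (σ := Fin (N + 1)) : A →+* MvPolynomial (Fin (N + 1)) A))
    (S := MvPolynomial (Fin (N + 1)) k) (fun p : Fin (N + 1) × Fin (N + 1) => G p.1 p.2)
  obtain ⟨b, c, hc, rfl⟩ := b
  have hc0 : c ≠ 0 := nonZeroDivisors.ne_zero hc
  refine ⟨c, E, hc0, fun j => ?_⟩
  choose Q hQ using hb
  refine ⟨fun i => Q (j, i), ?_⟩
  have hinj : Function.Injective (MvPolynomial.map (σ := Fin (N + 1)) (algebraMap A k)) :=
    MvPolynomial.map_injective _ (IsFractionRing.injective A k)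
  apply hinj
  rw [map_sum]
  have h1 : ∀ i, MvPolynomial.map (algebraMap A k) (Q (j, i) * F i) =
      C (algebraMap A k c) * (G j i * Fk i) := by
    intro i
    have h2 : MvPolynomial.map (algebraMap A k) (Q (j, i)) = C (algebraMap A k c) * G j i := by
      have h3 := hQ (j, i)
      have h4 : (algebraMap (MvPolynomial (Fin (N + 1)) A) (MvPolynomial (Fin (N + 1)) k))
          (Q (j, i)) = MvPolynomial.map (algebraMap A k) (Q (j, i)) := by
        rw [MvPolynomial.algebraMap_def]
      rw [← h4, h3, Algebra.smul_def]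
      congr 1
      rw [MvPolynomial.algebraMap_def]
      exact MvPolynomial.map_C _ _
    rw [map_mul, h2, mul_assoc]
    rfl
  rw [Finset.sum_congr rfl fun i _ => h1 i, ← Finset.mul_sum, hG j, map_mul, map_pow, map_X, map_C]

end Pool.Agent.PNH
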