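import Mathlib
import Pool.Agent.PNH.Defs

set_option autoImplicit false

/-!
# The embedding of the generic field into an ultraproduct, and two families: definitions
-/

namespace Pool.Agent.PNH

open NumberField
open Pool.Agent.LIM (Null GF)
open Pool.Agent.FamK (ev)

/-- The value at `s` of an element of `𝓞 K[s]`, in the algebraic closure of `K`. -/
noncomputable def val {K : Type} [Field K] {r : ℕ} (P : MvPolynomial (Fin r) (𝓞 K))
    (s : Fin r → ℤ) : AlgebraicClosure K :=
  algebraMap K (AlgebraicClosure K) (algebraMap (𝓞 K) K (ev s P))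

/-- `j` is the embedding of the generic field into the ultraproduct. -/
def IsEmb {K : Type} [Field K] [NumberField K] {r : ℕ} (U : Ultrafilter (Fin r → ℤ))
    (j : AlgebraicClosure (GF r K) →+* (U : Filter (Fin r → ℤ)).Germ (AlgebraicClosure K)) : Prop :=
  ∀ P : MvPolynomial (Fin r) (𝓞 K),
    j (algebraMap (GF r K) _ (algebraMap _ (GF r K) P)) =
      ((val P : (Fin r → ℤ) → AlgebraicClosure K) :
        (U : Filter (Fin r → ℤ)).Germ (AlgebraicClosure K))

/-- The vectors `ξ s` represent the vector `x`. -/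
def Rep {K : Type} [Field K] [NumberField K] {r N : ℕ} {U : Ultrafilter (Fin r → ℤ)}
    (j : AlgebraicClosure (GF r K) →+* (U : Filter (Fin r → ℤ)).Germ (AlgebraicClosure K))
    (x : Fin (N + 1) → AlgebraicClosure (GF r K))
    (ξ : (Fin r → ℤ) → Fin (N + 1) → AlgebraicClosure K) : Prop :=
  ∀ i, j (x i) = (((fun s => ξ s i) : (Fin r → ℤ) → AlgebraicClosure K) :
    (U : Filter (Fin r → ℤ)).Germ (AlgebraicClosure K))

/-- The tuple `(c x_0^d + x_N^d, x_0^d, …, x_(N-1)^d)`. -/
noncomputable def shi {A : Type} [CommRing A] (N d : ℕ) (c : A) : Tup N A := fun i =>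
  if i = 0 then MvPolynomial.C c * MvPolynomial.X 0 ^ d + MvPolynomial.X (Fin.last N) ^ d
  else MvPolynomial.X (i - 1) ^ d

/-- The family of all `N + 1`-tuples of forms of degree `d`; the parameters are the coefficients,
numbered by `e`. -/
noncomputable def univ {A : Type} [CommRing A] {N d r : ℕ}
    (e : Fin r ≃ Fin (N + 1) × {α : Fin (N + 1) →₀ ℕ // α.degree = d}) :
    Tup N (MvPolynomial (Fin r) A) := fun i =>
  ∑ t : Fin r, if (e t).1 = i then MvPolynomial.monomial (e t).2.1 (MvPolynomial.X t) else 0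

end Pool.Agent.PNH
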