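import Mathlib
import Pool.Agent.PNH.Defs
import Pool.Agent.PNH.Emb

set_option autoImplicit false

/-!
# Transfer between the generic member and almost all members
-/

namespace Pool.Agent.PNH

open NumberField Filter
open Pool.Agent.LIM (Null GF)
open Pool.Agent.FamK (ev)

namespace Tra

variable {K : Type} [Field K] [NumberField K] {r N : ℕ} {U : Ultrafilter (Fin r → ℤ)}

/-- A finite disjunction is decided by an ultrafilter. -/
theorem exists_iff {α ι : Type} [Finite ι] (U : Ultrafilter α) (P : ι → α → Prop) :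
    (∀ᶠ s in (U : Filter α), ∃ i, P i s) ↔ ∃ i, ∀ᶠ s in (U : Filter α), P i s := by
  constructor
  · intro h
    by_contra h0
    have h1 : ∀ i, ∀ᶠ s in (U : Filter α), ¬ P i s := fun i =>
      Ultrafilter.eventually_not.2 fun h2 => h0 ⟨i, h2⟩
    obtain ⟨s, ⟨i, hi⟩, h3⟩ := (h.and (eventually_all.2 h1)).exists
    exact h3 i hi
  · rintro ⟨i, hi⟩
    exact hi.mono fun s hs => ⟨i, hs⟩

/-- The values as a ring homomorphism. -/
noncomputable def valHom (K : Type) [Field K] (r : ℕ) :
    MvPolynomial (Fin r) (𝓞 K) →+* ((Fin r → ℤ) → AlgebraicClosure K) :=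
  RingHom.pi fun s => (algebraMap K (AlgebraicClosure K)).comp ((algebraMap (𝓞 K) K).comp (ev s))

theorem rep_app
    (j : AlgebraicClosure (GF r K) →+* (U : Filter (Fin r → ℤ)).Germ (AlgebraicClosure K))
    (hj : IsEmb U j) (F : Tup N (MvPolynomial (Fin r) (𝓞 K)))
    (x : Fin (N + 1) → AlgebraicClosure (GF r K))
    (ξ : (Fin r → ℤ) → Fin (N + 1) → AlgebraicClosure K) (h : Rep j x ξ) :
    Rep j (app (mp (algebraMap (GF r K) _) (gen F)) x)
      (fun s => app (mp (algebraMap K _) (mem s F)) (ξ s)) := by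
  intro i
  have hc : j.comp ((algebraMap (GF r K) (AlgebraicClosure (GF r K))).comp
      (algebraMap (MvPolynomial (Fin r) (𝓞 K)) (GF r K))) =
      (Germ.coeRingHom (U : Filter (Fin r → ℤ))).comp (valHom K r) := by
    ext P
    · exact hj _
    · exact hj _
  have hx : (fun i => j (x i)) = fun i => (Germ.coeRingHom (U : Filter (Fin r → ℤ)))
      (fun s => ξ s i) := _root_.funext fun i => h i
  have h1 : j (app (mp (algebraMap (GF r K) _) (gen F)) x i) =
      MvPolynomial.eval₂ (j.comp ((algebraMap (GF r K) (AlgebraicClosure (GF r K))).comp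
        (algebraMap (MvPolynomial (Fin r) (𝓞 K)) (GF r K)))) (fun i => j (x i)) (F i) := by
    unfold app mp gen mp
    rw [MvPolynomial.map_map, MvPolynomial.eval_map, MvPolynomial.hom_eval₂]
  rw [h1, hc, hx]
  have h2 : MvPolynomial.eval₂ ((Germ.coeRingHom (U : Filter (Fin r → ℤ))).comp (valHom K r))
      (fun i => (Germ.coeRingHom (U : Filter (Fin r → ℤ))) (fun s => ξ s i)) (F i) =
      (Germ.coeRingHom (U : Filter (Fin r → ℤ)))
        (MvPolynomial.eval₂ (valHom K r) (fun i s => ξ s i) (F i)) := by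
    rw [MvPolynomial.hom_eval₂]
  rw [h2]
  have h3 : MvPolynomial.eval₂ (valHom K r) (fun i s => ξ s i) (F i) =
      fun s => app (mp (algebraMap K _) (mem s F)) (ξ s) i := by
    refine _root_.funext fun s => ?_
    have h4 := MvPolynomial.hom_eval₂ (F i) (valHom K r)
      (Pi.evalRingHom (fun _ : Fin r → ℤ => AlgebraicClosure K) s) (fun i s => ξ s i)
    refine Eq.trans h4 ?_
    unfold app mp mem mp
    rw [MvPolynomial.map_map, MvPolynomial.eval_map]
    rfl
  rw [h3]
  rfl

theorem rep_iter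
    (j : AlgebraicClosure (GF r K) →+* (U : Filter (Fin r → ℤ)).Germ (AlgebraicClosure K))
    (hj : IsEmb U j) (F : Tup N (MvPolynomial (Fin r) (𝓞 K)))
    (x : Fin (N + 1) → AlgebraicClosure (GF r K))
    (ξ : (Fin r → ℤ) → Fin (N + 1) → AlgebraicClosure K) (h : Rep j x ξ) (n : ℕ) :
    Rep j ((app (mp (algebraMap (GF r K) _) (gen F)))^[n] x)
      (fun s => (app (mp (algebraMap K _) (mem s F)))^[n] (ξ s)) := by
  induction n with
  | zero => exact h
  | succ n ih =>
    simp only [Function.iterate_succ_apply']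
    exact rep_app j hj F _ _ ih

theorem germ_eq {α L : Type} (U : Ultrafilter α) (f g : α → L) :
    ((f : (U : Filter α).Germ L) = (g : (U : Filter α).Germ L)) ↔
      ∀ᶠ s in (U : Filter α), f s = g s := Germ.coe_eq

theorem rep_par'
    (j : AlgebraicClosure (GF r K) →+* (U : Filter (Fin r → ℤ)).Germ (AlgebraicClosure K))
    (x y : Fin (N + 1) → AlgebraicClosure (GF r K))
    (ξ ζ : (Fin r → ℤ) → Fin (N + 1) → AlgebraicClosure K) (h : Rep j x ξ) (h' : Rep j y ζ) :
    Par x y ↔ ∀ᶠ s in (U : Filter (Fin r → ℤ)), Par (ξ s) (ζ s) := by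
  unfold Par
  rw [eventually_all]
  refine forall_congr' fun i => ?_
  rw [eventually_all]
  refine forall_congr' fun i' => ?_
  rw [← j.injective.eq_iff, map_mul, map_mul, h i, h i', h' i, h' i', ← Germ.coe_mul,
    ← Germ.coe_mul, germ_eq]
  rfl

end Tra

theorem rep_nrm {K : Type} [Field K] [NumberField K] {r N : ℕ} {U : Ultrafilter (Fin r → ℤ)}
    (j : AlgebraicClosure (GF r K) →+* (U : Filter (Fin r → ℤ)).Germ (AlgebraicClosure K))
    (x : Fin (N + 1) → AlgebraicClosure (GF r K))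
    (ξ : (Fin r → ℤ) → Fin (N + 1) → AlgebraicClosure K) (h : Rep j x ξ) :
    Nrm x ↔ ∀ᶠ s in (U : Filter (Fin r → ℤ)), Nrm (ξ s) := by
  unfold Nrm
  rw [Tra.exists_iff]
  refine exists_congr fun i => ?_
  rw [eventually_and, eventually_all]
  refine and_congr ?_ (forall_congr' fun i' => ?_)
  · rw [← j.injective.eq_iff, map_one, h i, ← Germ.coe_one, Tra.germ_eq]
    rfl
  · rw [eventually_imp_distrib_left]
    refine imp_congr_right fun _ => ?_
    rw [← j.injective.eq_iff, map_zero, h i', ← Germ.coe_zero, Tra.germ_eq]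
    rfl

theorem rep_par {K : Type} [Field K] [NumberField K] {r N : ℕ} {U : Ultrafilter (Fin r → ℤ)}
    (j : AlgebraicClosure (GF r K) →+* (U : Filter (Fin r → ℤ)).Germ (AlgebraicClosure K))
    (hj : IsEmb U j) (F : Tup N (MvPolynomial (Fin r) (𝓞 K)))
    (x : Fin (N + 1) → AlgebraicClosure (GF r K))
    (ξ : (Fin r → ℤ) → Fin (N + 1) → AlgebraicClosure K) (h : Rep j x ξ) (a b : ℕ) :
    Par ((app (mp (algebraMap (GF r K) _) (gen F)))^[a] x)
      ((app (mp (algebraMap (GF r K) _) (gen F)))^[b] x) ↔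
    ∀ᶠ s in (U : Filter (Fin r → ℤ)),
      Par ((app (mp (algebraMap K _) (mem s F)))^[a] (ξ s))
        ((app (mp (algebraMap K _) (mem s F)))^[b] (ξ s)) :=
  Tra.rep_par' j _ _ _ _ (Tra.rep_iter j hj F x ξ h a) (Tra.rep_iter j hj F x ξ h b)

theorem rep_eq {K : Type} [Field K] [NumberField K] {r N : ℕ} {U : Ultrafilter (Fin r → ℤ)}
    (j : AlgebraicClosure (GF r K) →+* (U : Filter (Fin r → ℤ)).Germ (AlgebraicClosure K))
    (x y : Fin (N + 1) → AlgebraicClosure (GF r K))
    (ξ ζ : (Fin r → ℤ) → Fin (N + 1) → AlgebraicClosure K) (h : Rep j x ξ) (h' : Rep j y ζ) :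
    x = y ↔ ∀ᶠ s in (U : Filter (Fin r → ℤ)), ξ s = ζ s := by
  simp only [funext_iff]
  rw [eventually_all]
  refine forall_congr' fun i => ?_
  rw [← j.injective.eq_iff, h i, h' i, Tra.germ_eq]

end Pool.Agent.PNH
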