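import Mathlib
import Pool.Agent.PNH.Defs
import Pool.Agent.PNH.Emb
import Pool.Agent.PNH.Tra
import Pool.Agent.PNH.Alg
import Pool.Agent.PNH.Cer

set_option autoImplicit false

/-!
# Points of bounded type of almost all members come from the generic member
-/

namespace Pool.Agent.PNH

open NumberField Filter
open Pool.Agent.LIM (Null GF)
open Pool.Agent.FamK (ev)

namespace Gen

/-- An algebraic element of an overfield lies in the image of the algebraic closure. -/
theorem mem_range {k L : Type} [Field k] [Field L] (j : AlgebraicClosure k →+* L)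
    (y : L) (p : Polynomial k) (hp : p ≠ 0)
    (hy : p.eval₂ (j.comp (algebraMap k (AlgebraicClosure k))) y = 0) : ∃ x, j x = y := by
  have hs : (p.map (algebraMap k (AlgebraicClosure k))).Splits := IsAlgClosed.splits _
  have h1 := hs.eq_prod_roots
  have h2 : (p.map (algebraMap k (AlgebraicClosure k))).eval₂ j y = 0 := by
    rw [Polynomial.eval₂_map]
    exact hy
  rw [h1, Polynomial.eval₂_mul, Polynomial.eval₂_C, Polynomial.eval₂_multiset_prod,
    Multiset.map_map] at h2
  rcases mul_eq_zero.mp h2 with h3 | h3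
  · rw [map_eq_zero, Polynomial.leadingCoeff_eq_zero,
      Polynomial.map_eq_zero_iff (algebraMap k (AlgebraicClosure k)).injective] at h3
    exact absurd h3 hp
  · rw [Multiset.prod_eq_zero_iff, Multiset.mem_map] at h3
    obtain ⟨x, _, hx⟩ := h3
    refine ⟨x, ?_⟩
    simp only [Function.comp_apply, Polynomial.eval₂_sub, Polynomial.eval₂_X,
      Polynomial.eval₂_C] at hx
    exact (sub_eq_zero.mp hx).symm

variable {K : Type} [Field K] [NumberField K] {r N : ℕ} {U : Ultrafilter (Fin r → ℤ)}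

/-- The iterates in the ultraproduct. -/
theorem iter_germ
    (j : AlgebraicClosure (GF r K) →+* (U : Filter (Fin r → ℤ)).Germ (AlgebraicClosure K))
    (hj : IsEmb U j) (F : Tup N (MvPolynomial (Fin r) (𝓞 K)))
    (ξ : (Fin r → ℤ) → Fin (N + 1) → AlgebraicClosure K) (n : ℕ) :
    (app (mp (j.comp (algebraMap (GF r K) (AlgebraicClosure (GF r K)))) (gen F)))^[n]
      (fun i => (Germ.coeRingHom (U : Filter (Fin r → ℤ))) (fun s => ξ s i)) =
    fun i => (Germ.coeRingHom (U : Filter (Fin r → ℤ)))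
      (fun s => (app (mp (algebraMap K _) (mem s F)))^[n] (ξ s) i) := by
  have hc : (j.comp (algebraMap (GF r K) (AlgebraicClosure (GF r K)))).comp
      (algebraMap (MvPolynomial (Fin r) (𝓞 K)) (GF r K)) =
      (Germ.coeRingHom (U : Filter (Fin r → ℤ))).comp (Tra.valHom K r) := by
    ext P
    · exact hj _
    · exact hj _
  have h1 : mp (j.comp (algebraMap (GF r K) (AlgebraicClosure (GF r K)))) (gen F) =
      mp (Germ.coeRingHom (U : Filter (Fin r → ℤ))) (mp (Tra.valHom K r) F) := by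
    unfold gen
    rw [mp_mp, mp_mp, hc]
  rw [h1, iter_mp (Germ.coeRingHom (U : Filter (Fin r → ℤ))) (mp (Tra.valHom K r) F) n
    (fun i s => ξ s i)]
  refine _root_.funext fun i => ?_
  refine congrArg (Germ.coeRingHom (U : Filter (Fin r → ℤ))) ?_
  refine _root_.funext fun s => ?_
  have h2 := iter_mp (Pi.evalRingHom (fun _ : Fin r → ℤ => AlgebraicClosure K) s)
    (mp (Tra.valHom K r) F) n (fun i s => ξ s i)
  rw [mp_mp] at h2
  have h3 : mp ((Pi.evalRingHom (fun _ : Fin r → ℤ => AlgebraicClosure K) s).comp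
      (Tra.valHom K r)) F = mp (algebraMap K (AlgebraicClosure K)) (mem s F) := by
    unfold mem
    rw [mp_mp]
    rfl
  rw [h3] at h2
  exact (congrFun h2 i).symm

end Gen

theorem exists_gen {K : Type} [Field K] [NumberField K] {r N d : ℕ} (hd : 2 ≤ d)
    {U : Ultrafilter (Fin r → ℤ)}
    (j : AlgebraicClosure (GF r K) →+* (U : Filter (Fin r → ℤ)).Germ (AlgebraicClosure K))
    (hj : IsEmb U j) (F : Tup N (MvPolynomial (Fin r) (𝓞 K))) (hF : IsMor d (GF r K) (gen F))
    (a b : ℕ) (hab : a < b) (ξ : (Fin r → ℤ) → Fin (N + 1) → AlgebraicClosure K)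
    (h : ∀ᶠ s in (U : Filter (Fin r → ℤ)), Nrm (ξ s) ∧
      Par ((app (mp (algebraMap K _) (mem s F)))^[a] (ξ s))
        ((app (mp (algebraMap K _) (mem s F)))^[b] (ξ s))) :
    ∃ x : Fin (N + 1) → AlgebraicClosure (GF r K), Rep j x ξ := by
  -- the certificate
  obtain ⟨c, e, hc, hcert⟩ := exists_cert F (fun x hx => hF.2 x (by
    unfold gen
    rw [mp_mp, ← IsScalarTower.algebraMap_eq]
    exact hx))
  have hcert' : Cert (gen F) (algebraMap (MvPolynomial (Fin r) (𝓞 K)) (GF r K) c) e :=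
    hcert.mp _
  have hc' : algebraMap (MvPolynomial (Fin r) (𝓞 K)) (GF r K) c ≠ 0 := by
    intro h0
    exact hc ((map_eq_zero_iff _ (IsFractionRing.injective _ (GF r K))).mp h0)
  letI : Algebra (GF r K) ((U : Filter (Fin r → ℤ)).Germ (AlgebraicClosure K)) :=
    (j.comp (algebraMap (GF r K) (AlgebraicClosure (GF r K)))).toAlgebra
  obtain ⟨X, hX⟩ : ∃ X : Fin (N + 1) → (U : Filter (Fin r → ℤ)).Germ (AlgebraicClosure K),
      (fun i => (Germ.coeRingHom (U : Filter (Fin r → ℤ))) (fun s => ξ s i)) = X := ⟨_, rfl⟩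
  have hX1 : ∃ i, X i = 1 := by
    have h1 : ∀ᶠ s in (U : Filter (Fin r → ℤ)), ∃ i, ξ s i = 1 :=
      h.mono fun s hs => hs.1.imp fun i hi => hi.1
    rw [Tra.exists_iff] at h1
    obtain ⟨i, hi⟩ := h1
    refine ⟨i, ?_⟩
    rw [← hX]
    exact (Tra.germ_eq U (fun s => ξ s i) 1).mpr hi
  have hpar : Par
      ((app (mp (algebraMap (GF r K) ((U : Filter (Fin r → ℤ)).Germ (AlgebraicClosure K)))
        (gen F)))^[a] X)
      ((app (mp (algebraMap (GF r K) ((U : Filter (Fin r → ℤ)).Germ (AlgebraicClosure K)))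
        (gen F)))^[b] X) := by
    have h1 := Gen.iter_germ j hj F ξ a
    have h2 := Gen.iter_germ j hj F ξ b
    rw [hX] at h1 h2
    intro i i'
    have h3 : ∀ᶠ s in (U : Filter (Fin r → ℤ)),
        (app (mp (algebraMap K _) (mem s F)))^[a] (ξ s) i *
          (app (mp (algebraMap K _) (mem s F)))^[b] (ξ s) i' =
        (app (mp (algebraMap K _) (mem s F)))^[a] (ξ s) i' *
          (app (mp (algebraMap K _) (mem s F)))^[b] (ξ s) i :=
      h.mono fun s hs => hs.2 i i'
    have h4 := congrFun h1 i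
    have h5 := congrFun h1 i'
    have h6 := congrFun h2 i
    have h7 := congrFun h2 i'
    refine (congrArg₂ (· * ·) h4 h7).trans (Eq.trans ?_ (congrArg₂ (· * ·) h5 h6).symm)
    exact (Tra.germ_eq U _ _).mpr h3
  have halg := alg hd (gen F) hF.1 _ e hc' hcert' X hX1 a b hab hpar
  have hex : ∀ i, ∃ x, j x = X i := by
    intro i
    obtain ⟨p, hp, hpy⟩ := halg i
    exact Gen.mem_range j (X i) p hp hpy
  choose x hx using hex
  refine ⟨x, fun i => ?_⟩
  rw [hx i, ← hX]
  rfl

end Pool.Agent.PNH
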