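import Mathlib
import Pool.Agent.PNH.Defs
import Pool.Agent.PNH.Emb

set_option autoImplicit false

/-!
# Iterates of homogeneous maps up to proportionality
-/

namespace Pool.Agent.PNH

open NumberField
open Pool.Agent.LIM (Null GF)
open Pool.Agent.FamK (ev)

section par

variable {N : ℕ} {k : Type} [Field k]

theorem Par.trans {x y z : Fin (N + 1) → k} (hy : y ≠ 0) (h : Par x y) (h' : Par y z) :
    Par x z := by
  obtain ⟨a, rfl⟩ := h.symm.exists_smul hy
  exact h'.smul_left a

theorem Par.smul_right {x y : Fin (N + 1) → k} (c : k) (h : Par x y) : Par x (c • y) :=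
  (h.symm.smul_left c).symm

theorem Par.of_smul_left {x y : Fin (N + 1) → k} {c : k} (hc : c ≠ 0) (h : Par (c • x) y) :
    Par x y := by
  have := h.smul_left c⁻¹
  rwa [smul_smul, inv_mul_cancel₀ hc, one_smul] at this

variable {d : ℕ} (F : Tup N k) (hF : ∀ i, (F i).IsHomogeneous d)

include hF in
theorem Par.iter {x y : Fin (N + 1) → k} (hx : x ≠ 0) (h : Par x y) (n : ℕ) :
    Par ((app F)^[n] x) ((app F)^[n] y) := by
  obtain ⟨c, rfl⟩ := h.exists_smul hx
  rw [iter_smul d F hF]
  exact (Par.refl _).smul_right _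

theorem iter_ne_zero (h0 : ∀ x, app F x = 0 → x = 0) (n : ℕ) {x : Fin (N + 1) → k} (hx : x ≠ 0) :
    (app F)^[n] x ≠ 0 := by
  induction n generalizing x with
  | zero => exact hx
  | succ n ih =>
    rw [Function.iterate_succ_apply]
    exact ih fun h => hx (h0 x h)

include hF in
/-- A point fixed by the `n`-th iterate is fixed by the iterates with index divisible by `n`. -/
theorem par_iter_mul (h0 : ∀ x, app F x = 0 → x = 0) {x : Fin (N + 1) → k} (hx : x ≠ 0) (n : ℕ)
    (h : Par ((app F)^[n] x) x) (m : ℕ) : Par ((app F)^[n * m] x) x := by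
  induction m with
  | zero => exact Par.refl x
  | succ m ih =>
    have e : n * (m + 1) = n * m + n := by ring
    rw [e, Function.iterate_add_apply]
    have h1 := Par.iter F hF (iter_ne_zero F h0 n hx) h (n * m)
    exact h1.trans (iter_ne_zero F h0 _ hx) ih

end par

theorem hom_of_gen {K : Type} [Field K] [NumberField K] {N r d : ℕ}
    (F : Tup N (MvPolynomial (Fin r) (𝓞 K))) (h : ∀ i, (gen F i).IsHomogeneous d) (i) :
    (F i).IsHomogeneous d := by
  intro m hm
  refine h i ?_
  unfold gen mp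
  rw [MvPolynomial.coeff_map]
  exact fun h0 => hm ((map_eq_zero_iff _
    (IsFractionRing.injective (MvPolynomial (Fin r) (𝓞 K)) (GF r K))).1 h0)

theorem degLe_iter {k L : Type} [Field k] [Field L] [Algebra k L] {N D : ℕ} (F : Tup N k)
    (x : Fin (N + 1) → L) (hx : DegLe k D x) (n : ℕ) :
    DegLe k D ((app (mp (algebraMap k L) F))^[n] x) := by
  obtain ⟨θ, hθ, hxθ⟩ := hx
  refine ⟨θ, hθ, ?_⟩
  induction n generalizing x with
  | zero => exact hxθ
  | succ n ih =>
    rw [Function.iterate_succ_apply]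
    refine ih _ fun i => ?_
    change MvPolynomial.eval x (MvPolynomial.map (algebraMap k L) (F i)) ∈ _
    rw [MvPolynomial.eval_map, MvPolynomial.eval₂_eq']
    refine sum_mem fun m _ => mul_mem (IntermediateField.algebraMap_mem _ _) (prod_mem fun j _ =>
      pow_mem (hxθ j) _)

/-- A member of the family has no common zero outside the zeros of the certificate. -/
theorem mem_eq_zero {K : Type} [Field K] [NumberField K] {N r : ℕ}
    (F : Tup N (MvPolynomial (Fin r) (𝓞 K))) (c : MvPolynomial (Fin r) (𝓞 K)) (e : ℕ)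
    (hc : Cert F c e) (s : Fin r → ℤ) (hs : ev s c ≠ 0)
    (x : Fin (N + 1) → AlgebraicClosure K)
    (h : app (mp (algebraMap K (AlgebraicClosure K)) (mem s F)) x = 0) : x = 0 := by
  have h1 := (hc.mp ((algebraMap (𝓞 K) K).comp (ev s))).mp (algebraMap K (AlgebraicClosure K))
  refine h1.eq_zero ?_ x h
  rw [map_ne_zero_iff _ (algebraMap K (AlgebraicClosure K)).injective]
  change algebraMap (𝓞 K) K (ev s c) ≠ 0
  exact (map_ne_zero_iff _ (IsFractionRing.injective (𝓞 K) K)).2 hs

theorem exists_cert_gen {K : Type} [Field K] [NumberField K] {N r d : ℕ}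
    (F : Tup N (MvPolynomial (Fin r) (𝓞 K))) (hF : IsMor d (GF r K) (gen F)) :
    ∀ x : Fin (N + 1) → AlgebraicClosure (GF r K),
      app (mp (algebraMap (MvPolynomial (Fin r) (𝓞 K)) (AlgebraicClosure (GF r K))) F) x = 0 →
        x = 0 := by
  intro x hx
  refine hF.2 x ?_
  unfold gen
  rw [mp_mp, ← IsScalarTower.algebraMap_eq]
  exact hx

theorem preB_subset (k : Type) [Field k] {N : ℕ} (D B : ℕ) (F : Tup N k) :
    PreB k D B F ⊆ Pre k D F := fun _ h =>
  ⟨h.1, h.2.1, by obtain ⟨a, b, h1, _, h2⟩ := h.2.2; exact ⟨a, b, h1, h2⟩⟩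

theorem preB_mono (k : Type) [Field k] {N : ℕ} (D : ℕ) {B B' : ℕ} (hB : B ≤ B') (F : Tup N k) :
    PreB k D B F ⊆ PreB k D B' F := fun _ h =>
  ⟨h.1, h.2.1, by obtain ⟨a, b, h1, h2, h3⟩ := h.2.2; exact ⟨a, b, h1, h2.trans hB, h3⟩⟩

/-- Divisors of a unit value are units. -/
theorem inv_mem_of_dvd {K : Type} [Field K] [NumberField K] {r : ℕ} (V : ValuationSubring (AlgebraicClosure K))
    (hV : ∀ x : 𝓞 K, algebraMap (𝓞 K) (AlgebraicClosure K) x ∈ V)
    (δ Q : MvPolynomial (Fin r) (𝓞 K)) (h : δ ∣ Q) (s : Fin r → ℤ) (hs : ev s Q ≠ 0)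
    (hQ : (val Q s)⁻¹ ∈ V) : (val δ s)⁻¹ ∈ V := by
  obtain ⟨P, rfl⟩ := h
  have e1 : val (δ * P) s = val δ s * val P s := by
    unfold val
    rw [map_mul, map_mul, map_mul]
  have hP : val P s ≠ 0 := by
    intro h0
    have h1 : ev s P = 0 := by
      unfold val at h0
      rw [map_eq_zero_iff _ (algebraMap K (AlgebraicClosure K)).injective,
        map_eq_zero_iff _ (IsFractionRing.injective (𝓞 K) K)] at h0
      exact h0
    exact hs (by rw [map_mul, h1, mul_zero])
  have e2 : (val δ s)⁻¹ = (val (δ * P) s)⁻¹ * val P s := by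
    rw [e1, mul_inv, mul_assoc, inv_mul_cancel₀ hP, mul_one]
  rw [e2]
  refine V.mul_mem _ _ hQ ?_
  have := hV (ev s P)
  rwa [IsScalarTower.algebraMap_apply (𝓞 K) K (AlgebraicClosure K)] at this

end Pool.Agent.PNH
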