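import Mathlib
import Pool.Agent.PNH.Defs
import Pool.Agent.PNH.Emb
import Pool.Agent.LIM.Hit
import Pool.Agent.LIM.Spr
import Pool.Agent.LIM.Pig

set_option autoImplicit false

/-!
# Transfer of the degree between the generic member and almost all members
-/

namespace Pool.Agent.PNH

open NumberField Filter Polynomial
open Pool.Agent.LIM (Null GF toK toG)
open Pool.Agent.FamK (ev spec)

namespace DegAux

variable {K : Type} [Field K] [NumberField K] {r : ℕ} {U : Ultrafilter (Fin r → ℤ)}

/-- The value at `s`, as a ring homomorphism. -/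
noncomputable def valH (K : Type) [Field K] {r : ℕ} (s : Fin r → ℤ) :
    MvPolynomial (Fin r) (𝓞 K) →+* AlgebraicClosure K :=
  (algebraMap K (AlgebraicClosure K)).comp ((algebraMap (𝓞 K) K).comp (ev s))

omit [NumberField K] in
theorem exists_coe (x : (U : Filter (Fin r → ℤ)).Germ (AlgebraicClosure K)) :
    ∃ t : (Fin r → ℤ) → AlgebraicClosure K,
      x = (t : (U : Filter (Fin r → ℤ)).Germ (AlgebraicClosure K)) :=
  Filter.Germ.inductionOn x fun f => ⟨f, rfl⟩

theorem transfer (j : AlgebraicClosure (GF r K) →+* (U : Filter (Fin r → ℤ)).Germ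
      (AlgebraicClosure K)) (hj : IsEmb U j) (P : (MvPolynomial (Fin r) (𝓞 K))[X])
    (θ : AlgebraicClosure (GF r K)) (t : (Fin r → ℤ) → AlgebraicClosure K)
    (ht : j θ = (t : (U : Filter (Fin r → ℤ)).Germ (AlgebraicClosure K))) :
    j (aeval θ (toG P)) = ((fun s => aeval (t s) (toK (spec s P)) :
      (Fin r → ℤ) → AlgebraicClosure K) : (U : Filter (Fin r → ℤ)).Germ (AlgebraicClosure K)) := by
  have h1 : ∀ P : (MvPolynomial (Fin r) (𝓞 K))[X], aeval θ (toG P) =
      eval₂ ((algebraMap (GF r K) (AlgebraicClosure (GF r K))).comp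
        (algebraMap (MvPolynomial (Fin r) (𝓞 K)) (GF r K))) θ P := fun P => by
    rw [aeval_def]
    unfold toG
    rw [eval₂_map]
  have h2 : ∀ (P : (MvPolynomial (Fin r) (𝓞 K))[X]) (s : Fin r → ℤ),
      aeval (t s) (toK (spec s P)) = eval₂ (valH K s) (t s) P := fun P s => by
    rw [aeval_def]
    unfold toK spec
    rw [eval₂_map, eval₂_map]
    rfl
  rw [h1]
  simp only [h2]
  induction P using Polynomial.induction_on' with
  | add p q hp hq =>
    rw [eval₂_add, map_add, hp, hq, ← Filter.Germ.coe_add]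
    congr 1
    funext s
    rw [Pi.add_apply, eval₂_add]
  | monomial n a =>
    rw [eval₂_monomial, map_mul, map_pow, ht, RingHom.comp_apply, hj a, ← Filter.Germ.coe_pow,
      ← Filter.Germ.coe_mul]
    congr 1
    funext s
    rw [Pi.mul_apply, Pi.pow_apply, eval₂_monomial]
    rfl

theorem eventually_ne {j : AlgebraicClosure (GF r K) →+* (U : Filter (Fin r → ℤ)).Germ
      (AlgebraicClosure K)} (hj : IsEmb U j) (P : MvPolynomial (Fin r) (𝓞 K)) (hP : P ≠ 0) :
    ∀ᶠ s in (U : Filter (Fin r → ℤ)), val P s ≠ 0 := by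
  by_contra h
  rw [Ultrafilter.eventually_not, not_not] at h
  have h1 : j (algebraMap (GF r K) _ (algebraMap _ (GF r K) P)) = 0 := by
    rw [hj P, ← Filter.Germ.coe_zero]
    exact Filter.Germ.coe_eq.2 h
  rw [map_eq_zero, map_eq_zero, IsFractionRing.to_map_eq_zero_iff] at h1
  exact hP h1

theorem mem_adjoin {ι : Type} (j : AlgebraicClosure (GF r K) →+* (U : Filter (Fin r → ℤ)).Germ
      (AlgebraicClosure K)) (hj : IsEmb U j) (z : ι → AlgebraicClosure (GF r K))
    (ζ : ι → (Fin r → ℤ) → AlgebraicClosure K)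
    (hz : ∀ i, j (z i) = (ζ i : (U : Filter (Fin r → ℤ)).Germ (AlgebraicClosure K)))
    (y : AlgebraicClosure (GF r K)) (hy : y ∈ IntermediateField.adjoin (GF r K) (Set.range z))
    (t : (Fin r → ℤ) → AlgebraicClosure K)
    (ht : j y = (t : (U : Filter (Fin r → ℤ)).Germ (AlgebraicClosure K))) :
    ∀ᶠ s in (U : Filter (Fin r → ℤ)),
      t s ∈ IntermediateField.adjoin K (Set.range fun i => ζ i s) := by
  have hsub : ∀ (f g : (Fin r → ℤ) → AlgebraicClosure K),
      (f : (U : Filter (Fin r → ℤ)).Germ (AlgebraicClosure K)) =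
        (g : (U : Filter (Fin r → ℤ)).Germ (AlgebraicClosure K)) →
      (∀ᶠ s in (U : Filter (Fin r → ℤ)),
        f s ∈ IntermediateField.adjoin K (Set.range fun i => ζ i s)) →
      ∀ᶠ s in (U : Filter (Fin r → ℤ)),
        g s ∈ IntermediateField.adjoin K (Set.range fun i => ζ i s) := by
    intro f g hfg hf
    filter_upwards [hf, Filter.Germ.coe_eq.1 hfg] with s h1 h2
    rwa [← h2]
  revert t
  induction hy using IntermediateField.adjoin_induction with
  | mem x hx =>
    obtain ⟨i, rfl⟩ := hx
    intro t ht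
    refine hsub (ζ i) t ((hz i).symm.trans ht) (Eventually.of_forall fun s => ?_)
    exact IntermediateField.subset_adjoin _ _ ⟨i, rfl⟩
  | algebraMap c =>
    intro t ht
    obtain ⟨P, Q, hQ, rfl⟩ := IsFractionRing.div_surjective (A := MvPolynomial (Fin r) (𝓞 K)) c
    refine hsub (fun s => val P s / val Q s) t ?_ (Eventually.of_forall fun s => ?_)
    · rw [← ht, map_div₀, map_div₀, hj P, hj Q, ← Filter.Germ.coe_div]
      rfl
    · exact div_mem (IntermediateField.algebraMap_mem _ _) (IntermediateField.algebraMap_mem _ _)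
  | add a b _ _ ha hb =>
    intro t ht
    obtain ⟨f, hf⟩ := exists_coe (j a)
    obtain ⟨g, hg⟩ := exists_coe (j b)
    refine hsub (f + g) t ?_ ?_
    · rw [← ht, map_add, hf, hg, Filter.Germ.coe_add]
    · filter_upwards [ha f hf, hb g hg] with s h1 h2
      exact add_mem h1 h2
  | inv a _ ha =>
    intro t ht
    obtain ⟨f, hf⟩ := exists_coe (j a)
    refine hsub f⁻¹ t ?_ ?_
    · rw [← ht, map_inv₀, hf, Filter.Germ.coe_inv]
    · filter_upwards [ha f hf] with s h1
      exact inv_mem h1
  | mul a b _ _ ha hb =>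
    intro t ht
    obtain ⟨f, hf⟩ := exists_coe (j a)
    obtain ⟨g, hg⟩ := exists_coe (j b)
    refine hsub (f * g) t ?_ ?_
    · rw [← ht, map_mul, hf, hg, Filter.Germ.coe_mul]
    · filter_upwards [ha f hf, hb g hg] with s h1 h2
      exact mul_mem h1 h2

/-- A cleared minimal polynomial. -/
theorem exists_min (θ : AlgebraicClosure (GF r K)) :
    ∃ P : (MvPolynomial (Fin r) (𝓞 K))[X], P.natDegree = (minpoly (GF r K) θ).natDegree ∧
      P ≠ 0 ∧ Irreducible (toG P) ∧ aeval θ (toG P) = 0 := by
  have hθ : IsIntegral (GF r K) θ := (Algebra.IsAlgebraic.isAlgebraic θ).isIntegral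
  obtain ⟨c, P, hc, hP⟩ := LIM.Spr.clear (A := MvPolynomial (Fin r) (𝓞 K)) (minpoly (GF r K) θ)
  have hc' : algebraMap (MvPolynomial (Fin r) (𝓞 K)) (GF r K) c ≠ 0 := by
    rwa [ne_eq, IsFractionRing.to_map_eq_zero_iff]
  have hG : toG P = C (algebraMap (MvPolynomial (Fin r) (𝓞 K)) (GF r K) c) *
      minpoly (GF r K) θ := hP
  have hinj : Function.Injective (algebraMap (MvPolynomial (Fin r) (𝓞 K)) (GF r K)) :=
    IsFractionRing.injective _ _
  have hdeg : (toG P).natDegree = P.natDegree := natDegree_map_eq_of_injective hinj P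
  have hunit : IsUnit (C (algebraMap (MvPolynomial (Fin r) (𝓞 K)) (GF r K) c)) :=
    isUnit_C.2 (IsUnit.mk0 _ hc')
  refine ⟨P, ?_, ?_, ?_, ?_⟩
  · rw [← hdeg, hG, natDegree_C_mul hc']
  · rintro rfl
    have h0 : toG (0 : (MvPolynomial (Fin r) (𝓞 K))[X]) = 0 := Polynomial.map_zero _
    rw [h0] at hG
    exact mul_ne_zero (C_ne_zero.2 hc') (minpoly.ne_zero hθ) hG.symm
  · rw [hG]
    exact (irreducible_isUnit_mul hunit).2 (minpoly.irreducible hθ)
  · rw [hG, map_mul, minpoly.aeval, mul_zero]

theorem eventually_zero {j : AlgebraicClosure (GF r K) →+* (U : Filter (Fin r → ℤ)).Germ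
      (AlgebraicClosure K)} (hj : IsEmb U j) (P : (MvPolynomial (Fin r) (𝓞 K))[X])
    (θ : AlgebraicClosure (GF r K)) (t : (Fin r → ℤ) → AlgebraicClosure K)
    (ht : j θ = (t : (U : Filter (Fin r → ℤ)).Germ (AlgebraicClosure K)))
    (h0 : aeval θ (toG P) = 0) :
    ∀ᶠ s in (U : Filter (Fin r → ℤ)), aeval (t s) (toK (spec s P)) = 0 := by
  have h := transfer j hj P θ t ht
  rw [h0, map_zero, ← Filter.Germ.coe_zero] at h
  exact (Filter.Germ.coe_eq.1 h).mono fun s hs => hs.symm

end DegAux

open DegAux in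
theorem rep_deg {K : Type} [Field K] [NumberField K] {r N : ℕ} {U : Ultrafilter (Fin r → ℤ)}
    (hU : ∀ T : Set (Fin r → ℤ), Null T → Tᶜ ∈ U)
    (j : AlgebraicClosure (GF r K) →+* (U : Filter (Fin r → ℤ)).Germ (AlgebraicClosure K))
    (hj : IsEmb U j) (D : ℕ) (x : Fin (N + 1) → AlgebraicClosure (GF r K))
    (ξ : (Fin r → ℤ) → Fin (N + 1) → AlgebraicClosure K) (h : Rep j x ξ) :
    DegLe (GF r K) D x ↔ ∀ᶠ s in (U : Filter (Fin r → ℤ)), DegLe K D (ξ s) := by
  constructor
  · rintro ⟨θ, hθ, hx⟩
    obtain ⟨t, ht⟩ := exists_coe (j θ)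
    obtain ⟨P, hPdeg, hP0, -, hPθ⟩ := exists_min θ
    have h1 := eventually_zero hj P θ t ht hPθ
    have h2 := eventually_ne hj P.leadingCoeff (leadingCoeff_ne_zero.2 hP0)
    have h3 : ∀ᶠ s in (U : Filter (Fin r → ℤ)), ∀ i,
        ξ s i ∈ IntermediateField.adjoin K (Set.range fun _ : Unit => t s) := by
      rw [eventually_all]
      intro i
      refine mem_adjoin j hj (fun _ : Unit => θ) (fun _ => t) (fun _ => ht) (x i) ?_
        (fun s => ξ s i) (h i)
      rw [Set.range_const]
      exact hx i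
    filter_upwards [h1, h2, h3] with s hs1 hs2 hs3
    refine ⟨t s, ?_, fun i => ?_⟩
    · have hlc : (toK (spec s P)).coeff P.natDegree ≠ 0 := by
        intro h0
        apply hs2
        have e : (toK (spec s P)).coeff P.natDegree =
            algebraMap (𝓞 K) K (ev s P.leadingCoeff) := by
          unfold toK spec
          rw [coeff_map, coeff_map]
          rfl
        rw [e] at h0
        unfold val
        rw [h0, map_zero]
      have hne : toK (spec s P) ≠ 0 := by
        intro h0
        rw [h0, coeff_zero] at hlc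
        exact hlc rfl
      have hle : (toK (spec s P)).natDegree ≤ P.natDegree :=
        natDegree_map_le.trans natDegree_map_le
      calc (minpoly K (t s)).natDegree ≤ (toK (spec s P)).natDegree :=
            natDegree_le_of_dvd (minpoly.dvd K (t s) hs1) hne
        _ ≤ P.natDegree := hle
        _ = _ := hPdeg
        _ ≤ D := hθ
    · have := hs3 i
      rwa [Set.range_const] at this
  · intro hD
    have hchar : CharZero (GF r K) := inferInstance
    set E := IntermediateField.adjoin (GF r K) (Set.range x) with hE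
    have hfin : FiniteDimensional (GF r K) E :=
      IntermediateField.finiteDimensional_adjoin fun y _ =>
        (Algebra.IsAlgebraic.isAlgebraic y).isIntegral
    obtain ⟨α, hα⟩ := Field.exists_primitive_element (GF r K) E
    have hgen : IntermediateField.adjoin (GF r K) {(α : AlgebraicClosure (GF r K))} = E := by
      have h1 := congrArg (IntermediateField.map E.val) hα
      rw [IntermediateField.adjoin_map, ← AlgHom.fieldRange_eq_map,
        IntermediateField.fieldRange_val, Set.image_singleton] at h1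
      exact h1
    obtain ⟨t, ht⟩ := exists_coe (j (α : AlgebraicClosure (GF r K)))
    obtain ⟨P, hPdeg, hP0, hirr, hPθ⟩ := exists_min (α : AlgebraicClosure (GF r K))
    have h1 := eventually_zero hj P _ t ht hPθ
    have h2 : ∀ᶠ s in (U : Filter (Fin r → ℤ)),
        t s ∈ IntermediateField.adjoin K (Set.range fun i => ξ s i) :=
      mem_adjoin j hj x (fun i s => ξ s i) h α α.2 t ht
    have hP1 : 1 ≤ P.natDegree := by
      rw [hPdeg]
      exact minpoly.natDegree_pos (Algebra.IsAlgebraic.isAlgebraic _).isIntegral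
    have h3 : ∀ᶠ s in (U : Filter (Fin r → ℤ)),
        (spec s P).natDegree = P.natDegree ∧ Irreducible (toK (spec s P)) := by
      have := hU _ (LIM.hit P hP1 hirr)
      filter_upwards [this] with s hs
      exact not_not.1 hs
    obtain ⟨s, ⟨θ, hθ, hθx⟩, hs1, hs2, hs3, hs4⟩ := (hD.and (h1.and (h2.and h3))).exists
    refine ⟨α, ?_, fun i => ?_⟩
    · have h5 : t s ∈ IntermediateField.adjoin K {θ} := by
        refine (IntermediateField.adjoin_le_iff.2 ?_) hs2
        rintro _ ⟨i, rfl⟩
        exact hθx i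
      have h6 : (minpoly K (t s)).natDegree ≤ (minpoly K θ).natDegree :=
        LIM.Pig.degree_le K h5
      have h7 : Associated (minpoly K (t s)) (toK (spec s P)) :=
        (minpoly.irreducible (Algebra.IsAlgebraic.isAlgebraic _).isIntegral).associated_of_dvd
          hs4 (minpoly.dvd K (t s) hs1)
      have h8 : (minpoly K (t s)).natDegree = (toK (spec s P)).natDegree :=
        natDegree_eq_of_degree_eq (degree_eq_degree_of_associated h7)
      have h9 : (toK (spec s P)).natDegree = (spec s P).natDegree :=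
        natDegree_map_eq_of_injective (FaithfulSMul.algebraMap_injective (𝓞 K) K) _
      rw [← hPdeg, ← hs3, ← h9, ← h8]
      exact h6.trans hθ
    · rw [hgen]
      exact IntermediateField.subset_adjoin _ _ ⟨i, rfl⟩

end Pool.Agent.PNH
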