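import Pool.Agent.PNH.Alg

set_option autoImplicit false

/-!
# Finitely many points of bounded type
-/

namespace Pool.Agent.PNH

open Filter

theorem finite_type {k : Type} [Field k] [IsAlgClosed k] {N d : ℕ} (hd : 2 ≤ d) (F : Tup N k)
    (hF : ∀ i, (F i).IsHomogeneous d) (c : k) (e : ℕ) (hc : c ≠ 0) (h : Cert F c e) (a b : ℕ)
    (hab : a < b) :
    {x : Fin (N + 1) → k | Nrm x ∧ Par ((app F)^[a] x) ((app F)^[b] x)}.Finite := by
  classical
  by_contra hinf
  rw [← Set.Infinite] at hinf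
  let x : ℕ → Fin (N + 1) → k := fun n => (hinf.natEmbedding _ n : Fin (N + 1) → k)
  have hxinj : Function.Injective x := fun m n hmn =>
    (hinf.natEmbedding _).injective (Subtype.ext hmn)
  have hxS : ∀ n, Nrm (x n) ∧ Par ((app F)^[a] (x n)) ((app F)^[b] (x n)) := fun n =>
    (hinf.natEmbedding _ n).2
  -- the ultrapower
  let U : Filter ℕ := (hyperfilter ℕ : Filter ℕ)
  let q : (ℕ → k) →+* U.Germ k := Germ.coeRingHom U
  let κ : k →+* (ℕ → k) := Pi.constRingHom ℕ k
  let _ : Algebra k (U.Germ k) := (q.comp κ).toAlgebra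
  have hmap : algebraMap k (U.Germ k) = q.comp κ := rfl
  let ξ : Fin (N + 1) → ℕ → k := fun i n => x n i
  -- iterates
  have hit : ∀ (m : ℕ) (n : ℕ) (i : Fin (N + 1)),
      (app (mp κ F))^[m] ξ i n = (app F)^[m] (x n) i := by
    intro m n i
    have h1 := iter_mp (Pi.evalRingHom (fun _ : ℕ => k) n) (mp κ F) m ξ
    have h2 : mp (Pi.evalRingHom (fun _ : ℕ => k) n) (mp κ F) = F := by
      rw [mp_mp]
      funext j
      have : (Pi.evalRingHom (fun _ : ℕ => k) n).comp κ = RingHom.id k := rfl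
      rw [this]
      exact MvPolynomial.map_id (F j)
    rw [h2] at h1
    exact (congrFun h1 i).symm
  have hpar : Par ((app (mp κ F))^[a] ξ) ((app (mp κ F))^[b] ξ) := by
    intro i j
    funext n
    simp only [Pi.mul_apply, hit]
    exact (hxS n).2 i j
  have hpar' : Par ((app (mp (algebraMap k (U.Germ k)) F))^[a] fun i => q (ξ i))
      ((app (mp (algebraMap k (U.Germ k)) F))^[b] fun i => q (ξ i)) := by
    rw [hmap, ← mp_mp, iter_mp, iter_mp]
    exact hpar.map q
  -- a coordinate is one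
  obtain ⟨i₀, hi₀⟩ : ∃ i, ∀ᶠ n in U, x n i = 1 := by
    rw [← Ultrafilter.eventually_exists_iff]
    exact Eventually.of_forall fun n => by
      obtain ⟨i, hi, -⟩ := (hxS n).1
      exact ⟨i, hi⟩
  have h1 : ∃ i, q (ξ i) = 1 := by
    refine ⟨i₀, ?_⟩
    have : ((ξ i₀ : ℕ → k) : U.Germ k) = ((fun _ => 1 : ℕ → k) : U.Germ k) :=
      Germ.coe_eq.2 hi₀
    exact this
  have halg := alg hd F hF c e hc h (fun i => q (ξ i)) h1 a b hab hpar'
  have hconst : ∀ i, ∃ y : k, ∀ᶠ n in U, x n i = y := by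
    intro i
    obtain ⟨y, hy⟩ : ∃ y : k, algebraMap k (U.Germ k) y = q (ξ i) := by
      have h2 : IsIntegral k (q (ξ i)) := (halg i).isIntegral
      exact minpoly.mem_range_of_degree_eq_one k _
        (IsAlgClosed.degree_eq_one_of_irreducible k (minpoly.irreducible h2))
    refine ⟨y, ?_⟩
    have h3 : ((ξ i : ℕ → k) : U.Germ k) = ((fun _ => y : ℕ → k) : U.Germ k) := hy.symm
    exact Germ.coe_eq.1 h3
  choose y hy using hconst
  have hall : ∀ᶠ n in U, x n = y := by
    have := eventually_all.2 hy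
    exact this.mono fun n hn => funext hn
  have hfin : {n : ℕ | x n = y}.Finite := Set.Subsingleton.finite fun m hm n hn =>
    hxinj (hm.trans hn.symm)
  exact hfin.notMem_hyperfilter hall

end Pool.Agent.PNH
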