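import Mathlib
import Pool.Agent.PNH.Defs
import Pool.Agent.PNH.Emb
import Pool.Agent.LIM.NullS

set_option autoImplicit false

/-!
# The embedding of the algebraic closure of the generic field into an ultraproduct
-/

namespace Pool.Agent.PNH

open NumberField Filter
open Pool.Agent.LIM (Null GF)
open Pool.Agent.FamK (ev)

theorem exists_ultra {r : ℕ} (S : Set (Fin r → ℤ)) (hS : ¬ Null S) :
    ∃ U : Ultrafilter (Fin r → ℤ), S ∈ U ∧ ∀ T : Set (Fin r → ℤ), Null T → Tᶜ ∈ U := by
  let G : Filter (Fin r → ℤ) :=
    { sets := {A | Null (S ∩ Aᶜ)}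
      univ_sets := by
        simp only [Set.mem_ofPred_eq, Set.compl_univ, Set.inter_empty]
        exact LIM.null_empty
      sets_of_superset := by
        intro A B hA hAB
        exact LIM.Null.mono (Set.inter_subset_inter_right _ (Set.compl_subset_compl.mpr hAB)) hA
      inter_sets := by
        intro A B hA hB
        have h := LIM.Null.union hA hB
        simp only [Set.mem_ofPred_eq]
        rw [Set.compl_inter, Set.inter_union_distrib_left]
        exact h }
  have hG : ∀ A, A ∈ G ↔ Null (S ∩ Aᶜ) := fun A => Iff.rfl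
  have hne : G.NeBot := by
    rw [neBot_iff, Ne, ← empty_mem_iff_bot, hG, Set.compl_empty, Set.inter_univ]
    exact hS
  refine ⟨Ultrafilter.of G, ?_, fun T hT => ?_⟩
  · refine Ultrafilter.of_le G ?_
    rw [hG, Set.inter_compl_self]
    exact LIM.null_empty
  · refine Ultrafilter.of_le G ?_
    rw [hG, compl_compl]
    exact LIM.Null.mono Set.inter_subset_right hT

/-- An ultrapower of an algebraically closed field is algebraically closed. -/
theorem germ_algClosed {α k : Type} [Field k] [IsAlgClosed k] (U : Ultrafilter α) :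
    IsAlgClosed ((U : Filter α).Germ k) := by
  refine IsAlgClosed.of_exists_root _ fun p hp hirr => ?_
  have hdeg : 0 < p.natDegree := hirr.natDegree_pos
  let π : (α → k) →+* (U : Filter α).Germ k := Germ.coeRingHom _
  choose c hc using fun i : ℕ => Quotient.exists_rep (p.coeff i)
  let P : Polynomial (α → k) := Polynomial.X ^ p.natDegree +
    ∑ i ∈ Finset.range p.natDegree, Polynomial.C (c i) * Polynomial.X ^ i
  have hP : P.map π = p := by
    conv_rhs => rw [hp.as_sum]
    simp only [P, Polynomial.map_add, Polynomial.map_pow, Polynomial.map_X, Polynomial.map_sum,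
      Polynomial.map_mul, Polynomial.map_C]
    refine congrArg _ (Finset.sum_congr rfl fun i _ => ?_)
    have h1 : π (c i) = p.coeff i := hc i
    rw [h1]
  have hq : ∀ s, ∃ x : k, (P.map (Pi.evalRingHom (fun _ : α => k) s)).eval x = 0 := by
    intro s
    have h1 : (P.map (Pi.evalRingHom (fun _ : α => k) s)).degree = p.natDegree := by
      simp only [P, Polynomial.map_add, Polynomial.map_pow, Polynomial.map_X, Polynomial.map_sum,
        Polynomial.map_mul, Polynomial.map_C]
      rw [Polynomial.degree_add_eq_left_of_degree_lt, Polynomial.degree_X_pow]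
      rw [Polynomial.degree_X_pow]
      refine (Polynomial.degree_sum_le _ _).trans_lt ?_
      rw [Finset.sup_lt_iff (WithBot.bot_lt_coe _)]
      intro i hi
      exact (Polynomial.degree_C_mul_X_pow_le _ _).trans_lt
        (WithBot.coe_lt_coe.mpr (Finset.mem_range.mp hi))
    exact IsAlgClosed.exists_root _ (by
      rw [h1]
      exact_mod_cast hdeg.ne')
  choose x hx using hq
  refine ⟨π x, ?_⟩
  have h1 : p.eval (π x) = π (P.eval x) := by
    conv_lhs => rw [← hP, Polynomial.eval_map]
    rw [Polynomial.eval₂_hom]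
  have h2 : P.eval x = 0 := by
    funext s
    have h3 := hx s
    rw [Polynomial.eval_map] at h3
    have h4 : Polynomial.eval₂ (Pi.evalRingHom (fun _ : α => k) s)
        ((Pi.evalRingHom (fun _ : α => k) s) x) P =
        (Pi.evalRingHom (fun _ : α => k) s) (P.eval x) := Polynomial.eval₂_hom _ _
    exact h4.symm.trans h3
  rw [h1, h2, map_zero]

/-- The values of the elements of `𝓞 K[s]`, as a ring homomorphism to the ultrapower. -/
noncomputable def valHom (K : Type) [Field K] [NumberField K] {r : ℕ}
    (U : Ultrafilter (Fin r → ℤ)) :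
    MvPolynomial (Fin r) (𝓞 K) →+* (U : Filter (Fin r → ℤ)).Germ (AlgebraicClosure K) :=
  (Germ.coeRingHom (U : Filter (Fin r → ℤ))).comp (RingHom.pi fun s =>
    ((algebraMap K (AlgebraicClosure K)).comp (algebraMap (𝓞 K) K)).comp (ev s))

theorem valHom_apply {K : Type} [Field K] [NumberField K] {r : ℕ}
    (U : Ultrafilter (Fin r → ℤ)) (P : MvPolynomial (Fin r) (𝓞 K)) :
    valHom K U P = ((val P : (Fin r → ℤ) → AlgebraicClosure K) :
        (U : Filter (Fin r → ℤ)).Germ (AlgebraicClosure K)) :=
  rfl

theorem val_eq_zero {K : Type} [Field K] [NumberField K] {r : ℕ}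
    (P : MvPolynomial (Fin r) (𝓞 K)) (s : Fin r → ℤ) : val P s = 0 ↔ ev s P = 0 := by
  unfold val
  rw [map_eq_zero_iff _ (algebraMap K (AlgebraicClosure K)).injective,
    map_eq_zero_iff _ (RingOfIntegers.coe_injective (K := K))]

theorem valHom_injective {K : Type} [Field K] [NumberField K] {r : ℕ}
    (U : Ultrafilter (Fin r → ℤ)) (hU : ∀ T : Set (Fin r → ℤ), Null T → Tᶜ ∈ U) :
    Function.Injective (valHom K U) := by
  rw [injective_iff_map_eq_zero]
  intro P hP
  by_contra hP0
  have h1 : {s : Fin r → ℤ | val P s = 0} ∈ U := by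
    rw [valHom_apply] at hP
    exact Germ.coe_eq.mp hP
  have h2 := hU _ (LIM.null_zeros P hP0)
  have h3 : (∅ : Set (Fin r → ℤ)) ∈ U := by
    refine Filter.mem_of_superset (Filter.inter_mem h1 h2) ?_
    rintro s ⟨hs, hs'⟩
    exact hs' ((val_eq_zero P s).mp hs)
  exact U.empty_notMem h3

theorem exists_emb {K : Type} [Field K] [NumberField K] {r : ℕ} (U : Ultrafilter (Fin r → ℤ))
    (hU : ∀ T : Set (Fin r → ℤ), Null T → Tᶜ ∈ U) :
    ∃ j : AlgebraicClosure (GF r K) →+* (U : Filter (Fin r → ℤ)).Germ (AlgebraicClosure K),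
      IsEmb U j := by
  have hac : IsAlgClosed ((U : Filter (Fin r → ℤ)).Germ (AlgebraicClosure K)) := germ_algClosed U
  let β : GF r K →+* (U : Filter (Fin r → ℤ)).Germ (AlgebraicClosure K) :=
    IsFractionRing.lift (valHom_injective (K := K) U hU)
  let _ : Algebra (GF r K) ((U : Filter (Fin r → ℤ)).Germ (AlgebraicClosure K)) := β.toAlgebra
  let j : AlgebraicClosure (GF r K) →ₐ[GF r K]
    (U : Filter (Fin r → ℤ)).Germ (AlgebraicClosure K) := IsAlgClosed.lift
  refine ⟨(j : AlgebraicClosure (GF r K) →+* _), fun P => ?_⟩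
  have h1 : j (algebraMap (GF r K) _ (algebraMap _ (GF r K) P)) =
      β (algebraMap _ (GF r K) P) := j.commutes _
  have h2 : β (algebraMap _ (GF r K) P) = valHom K U P := IsFractionRing.lift_algebraMap _ P
  exact h1.trans h2

theorem exists_rep {K : Type} [Field K] [NumberField K] {r N : ℕ} {U : Ultrafilter (Fin r → ℤ)}
    (j : AlgebraicClosure (GF r K) →+* (U : Filter (Fin r → ℤ)).Germ (AlgebraicClosure K))
    (x : Fin (N + 1) → AlgebraicClosure (GF r K)) :
    ∃ ξ : (Fin r → ℤ) → Fin (N + 1) → AlgebraicClosure K, Rep j x ξ := by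
  choose η hη using fun i => Quotient.exists_rep (j (x i))
  exact ⟨fun s i => η i s, fun i => (hη i).symm⟩

end Pool.Agent.PNH
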