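import Mathlib
import Pool.Agent.PNH.Cer
import Pool.Agent.PNH.Deg
import Pool.Agent.PNH.Fty
import Pool.Agent.PNH.Gen
import Pool.Agent.PNH.ParL
import Pool.Agent.PNH.Tra
import Pool.Agent.PNH.Ult

set_option autoImplicit false

/-!
# Preperiodic points of bounded type: members against the generic member
-/

namespace Pool.Agent.PNH

open NumberField Filter
open Pool.Agent.LIM (Null GF)
open Pool.Agent.FamK (ev)

/-- A certificate for the family whose generic member is a morphism. -/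
theorem cert_of_gen {K : Type} [Field K] [NumberField K] {r N d : ℕ}
    (F : Tup N (MvPolynomial (Fin r) (𝓞 K))) (hF : IsMor d (GF r K) (gen F)) :
    ∃ (c : MvPolynomial (Fin r) (𝓞 K)) (e : ℕ), c ≠ 0 ∧ Cert F c e :=
  exists_cert F (exists_cert_gen F hF)

theorem mor_mem {K : Type} [Field K] [NumberField K] {r N d : ℕ}
    (F : Tup N (MvPolynomial (Fin r) (𝓞 K))) (hF : IsMor d (GF r K) (gen F)) :
    Null {s : Fin r → ℤ | ¬ IsMor d K (mem s F)} := by
  obtain ⟨c, e, hc, hC⟩ := cert_of_gen F hF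
  refine LIM.Null.mono (fun s hs => ?_) (LIM.null_zeros c hc)
  by_contra h0
  refine hs ⟨fun i => hom_mp d _ F (hom_of_gen F hF.1) i, fun x hx => ?_⟩
  refine Cert.eq_zero ((hC.mp ((algebraMap (𝓞 K) K).comp (ev s))).mp
    (algebraMap K (AlgebraicClosure K))) (fun h1 => h0 ?_) x hx
  rw [map_eq_zero] at h1
  exact (map_eq_zero_iff _ (RingOfIntegers.coe_injective (K := K))).1 h1

theorem preB_gen {K : Type} [Field K] [NumberField K] {r N d : ℕ} (hd : 2 ≤ d) (D B : ℕ)
    (F : Tup N (MvPolynomial (Fin r) (𝓞 K))) (hF : IsMor d (GF r K) (gen F)) :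
    (PreB (GF r K) D B (gen F)).Finite ∧
    Null {s : Fin r → ℤ | ¬ ((PreB K D B (mem s F)).Finite ∧
      (PreB K D B (mem s F)).ncard = (PreB (GF r K) D B (gen F)).ncard)} := by
  classical
  have hfin : (PreB (GF r K) D B (gen F)).Finite := by
    obtain ⟨c, e, hc, hC⟩ := cert_of_gen F hF
    have hC2 : Cert (mp (algebraMap (GF r K) (AlgebraicClosure (GF r K))) (gen F)) _ e :=
      (hC.mp (algebraMap (MvPolynomial (Fin r) (𝓞 K)) (GF r K))).mp
        (algebraMap (GF r K) (AlgebraicClosure (GF r K)))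
    have hc2 : algebraMap (GF r K) (AlgebraicClosure (GF r K))
        (algebraMap (MvPolynomial (Fin r) (𝓞 K)) (GF r K) c) ≠ 0 := by
      rw [Ne, map_eq_zero, map_eq_zero_iff _
        (IsFractionRing.injective (MvPolynomial (Fin r) (𝓞 K)) (GF r K))]
      exact hc
    have key : ∀ t : Fin (B + 1) × Fin (B + 1), {x : Fin (N + 1) → AlgebraicClosure (GF r K) |
        Nrm x ∧ t.1 < t.2 ∧
        Par ((app (mp (algebraMap (GF r K) (AlgebraicClosure (GF r K))) (gen F)))^[t.1] x)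
          ((app (mp (algebraMap (GF r K) (AlgebraicClosure (GF r K))) (gen F)))^[t.2] x)}.Finite := by
      intro t
      by_cases ht : t.1 < t.2
      · refine (finite_type hd _ (fun i => hom_mp d _ _ hF.1 i) _ e hc2 hC2 t.1 t.2 ht).subset ?_
        rintro x ⟨h1, -, h2⟩
        exact ⟨h1, h2⟩
      · refine Set.finite_empty.subset ?_
        rintro x ⟨-, h, -⟩
        exact absurd h ht
    refine (Set.finite_iUnion key).subset ?_
    rintro x ⟨h1, -, a, b, hab, hb, hp⟩
    refine Set.mem_iUnion.2 ⟨(⟨a, by omega⟩, ⟨b, by omega⟩), h1, ?_, hp⟩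
    exact Fin.mk_lt_mk.2 hab
  refine ⟨hfin, ?_⟩
  by_contra hS
  obtain ⟨U, hSU, hU⟩ := exists_ultra _ hS
  obtain ⟨j, hj⟩ := exists_emb (K := K) U hU
  set P := PreB (GF r K) D B (gen F) with hP
  have := hfin.fintype
  choose ξ hξ using fun x : Fin (N + 1) → AlgebraicClosure (GF r K) => exists_rep (K := K) j x
  -- the representatives of generic points are points of the members
  have h1 : ∀ x ∈ P, ∀ᶠ s in (U : Filter (Fin r → ℤ)), ξ x s ∈ PreB K D B (mem s F) := by
    rintro x ⟨hx1, hx2, a, b, hab, hb, hp⟩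
    filter_upwards [(rep_nrm j x (ξ x) (hξ x)).1 hx1, (rep_deg hU j hj D x (ξ x) (hξ x)).1 hx2,
      (rep_par j hj F x (ξ x) (hξ x) a b).1 hp] with s h1 h2 h3
    exact ⟨h1, h2, a, b, hab, hb, h3⟩
  -- they are different
  have h2 : ∀ x ∈ P, ∀ y ∈ P, x ≠ y → ∀ᶠ s in (U : Filter (Fin r → ℤ)), ξ x s ≠ ξ y s := by
    intro x _ y _ hxy
    exact Ultrafilter.eventually_not.2 fun h =>
      hxy ((rep_eq j x y (ξ x) (ξ y) (hξ x) (hξ y)).2 h)
  -- they are all the points of the members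
  have h3 : ∀ᶠ s in (U : Filter (Fin r → ℤ)), ∀ y ∈ PreB K D B (mem s F),
      ∃ x ∈ P, ξ x s = y := by
    by_contra h0
    rw [← Ultrafilter.eventually_not] at h0
    have h4 : ∀ s : Fin r → ℤ, ∃ y : Fin (N + 1) → AlgebraicClosure K,
        (¬ ∀ y ∈ PreB K D B (mem s F), ∃ x ∈ P, ξ x s = y) →
        y ∈ PreB K D B (mem s F) ∧ ∀ x ∈ P, ξ x s ≠ y := by
      intro s
      by_cases h : ∀ y ∈ PreB K D B (mem s F), ∃ x ∈ P, ξ x s = y
      · exact ⟨0, fun h' => absurd h h'⟩
      · push Not at h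
        obtain ⟨y, hy1, hy2⟩ := h
        exact ⟨y, fun _ => ⟨hy1, hy2⟩⟩
    choose η hη using h4
    have h5 : ∀ᶠ s in (U : Filter (Fin r → ℤ)), ∃ t : Fin (B + 1) × Fin (B + 1), t.1 < t.2 ∧
        Par ((app (mp (algebraMap K (AlgebraicClosure K)) (mem s F)))^[t.1] (η s))
          ((app (mp (algebraMap K (AlgebraicClosure K)) (mem s F)))^[t.2] (η s)) := by
      filter_upwards [h0] with s hs
      obtain ⟨⟨-, -, a, b, hab, hb, hp⟩, -⟩ := hη s hs
      exact ⟨(⟨a, by omega⟩, ⟨b, by omega⟩), Fin.mk_lt_mk.2 hab, hp⟩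
    rw [Ultrafilter.eventually_exists_iff] at h5
    obtain ⟨⟨a, b⟩, h5⟩ := h5
    have hab : (a : ℕ) < b := by
      obtain ⟨s, hs⟩ := h5.exists
      exact hs.1
    obtain ⟨x, hx⟩ := exists_gen hd j hj F hF a b hab η (by
      filter_upwards [h0, h5] with s hs hs5
      exact ⟨(hη s hs).1.1, hs5.2⟩)
    have hxP : x ∈ P := by
      refine ⟨(rep_nrm j x η hx).2 ?_, (rep_deg hU j hj D x η hx).2 ?_, a, b, hab,
        Nat.lt_succ_iff.1 b.2, (rep_par j hj F x η hx a b).2 ?_⟩
      · filter_upwards [h0] with s hs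
        exact (hη s hs).1.1
      · filter_upwards [h0] with s hs
        exact (hη s hs).1.2.1
      · filter_upwards [h5] with s hs
        exact hs.2
    have h6 := (rep_eq j x x (ξ x) η (hξ x) hx).1 rfl
    obtain ⟨s, hs1, hs2⟩ := (h6.and h0).exists
    exact (hη s hs2).2 x hxP hs1
  have h1' : ∀ᶠ s in (U : Filter (Fin r → ℤ)), ∀ x ∈ P, ξ x s ∈ PreB K D B (mem s F) :=
    (eventually_all_finite hfin).2 h1
  have h2' : ∀ᶠ s in (U : Filter (Fin r → ℤ)), ∀ x ∈ P, ∀ y ∈ P, x ≠ y → ξ x s ≠ ξ y s := by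
    refine (eventually_all_finite hfin).2 fun x hx => (eventually_all_finite hfin).2 fun y hy => ?_
    by_cases hxy : x = y
    · exact Eventually.of_forall fun s h => absurd hxy h
    · filter_upwards [h2 x hx y hy hxy] with s hs _ using hs
  obtain ⟨s, ⟨hs1, hs2⟩, hs3, hs4⟩ := ((h1'.and h2').and (h3.and hSU)).exists
  refine hs4 ?_
  have himg : PreB K D B (mem s F) = (fun x => ξ x s) '' P := by
    ext y
    constructor
    · intro hy
      obtain ⟨x, hx, hxy⟩ := hs3 y hy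
      exact ⟨x, hx, hxy⟩
    · rintro ⟨x, hx, rfl⟩
      exact hs1 x hx
  rw [himg]
  refine ⟨hfin.image _, Set.InjOn.ncard_image fun x hx y hy hxy => ?_⟩
  by_contra h
  exact hs2 x hx y hy h hxy

end Pool.Agent.PNH
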