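import Mathlib
import Pool.Agent.PNH.Defs
import Pool.Agent.LIM.ExVal

set_option autoImplicit false

/-!
# The family of all tuples of forms with coefficients in a lattice of algebraic integers
-/

namespace Pool.Agent.PNH

open NumberField
open Pool.Agent.LIM (Null GF)

/-- The family of all `N + 1`-tuples of forms of degree `d` whose coefficients are integral
combinations of the `ω_j`; the parameters are the coefficients of these combinations, numbered by
`e`. -/
noncomputable def univO {K : Type} [Field K] {N d r m : ℕ} (ω : Fin m → 𝓞 K)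
    (e : Fin r ≃ (Fin (N + 1) × {α : Fin (N + 1) →₀ ℕ // α.degree = d}) × Fin m) :
    Tup N (MvPolynomial (Fin r) (𝓞 K)) := fun i =>
  ∑ t : Fin r, if (e t).1.1 = i then MvPolynomial.monomial (e t).1.2.1
    (MvPolynomial.C (ω (e t).2) * MvPolynomial.X t) else 0

namespace UniO

section general

variable {L Γ : Type} [Field L] [LinearOrderedCommGroupWithZero Γ] (v : Valuation L Γ) {N d : ℕ}

theorem monomial_le (x : Fin (N + 1) → L) (M : Γ) (hM : ∀ i, v (x i) ≤ M)
    (α : Fin (N + 1) →₀ ℕ) (h : α.degree = d) : v (∏ i, x i ^ α i) ≤ M ^ d := by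
  rw [map_prod, ← h, Finsupp.degree_eq_sum, ← Finset.prod_pow_eq_pow_sum]
  refine Finset.prod_le_prod' fun i _ => ?_
  rw [map_pow]
  exact pow_le_pow_left' (hM i) _

/-- A tuple with dominating diagonal coefficients has no common zero. -/
theorem no_zero (g : Γ) (hg : 1 < g) (F : Tup N L) (hF : ∀ i, (F i).IsHomogeneous d)
    (h1 : ∀ i, v ((F i).coeff (Finsupp.single i d)) = g)
    (h2 : ∀ i (α : Fin (N + 1) →₀ ℕ), α.degree = d → α ≠ Finsupp.single i d →
      v ((F i).coeff α) ≤ 1) (x : Fin (N + 1) → L) (hx : app F x = 0) : x = 0 := by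
  classical
  by_contra hne
  obtain ⟨i, -, hi⟩ := Finset.exists_max_image Finset.univ (fun i => v (x i))
    Finset.univ_nonempty
  have hmax : ∀ j, v (x j) ≤ v (x i) := fun j => hi j (Finset.mem_univ j)
  have hxi : v (x i) ≠ 0 := by
    intro h0
    apply hne
    funext j
    have := hmax j
    rw [h0, le_zero_iff, map_eq_zero] at this
    exact this
  have hg0 : g ≠ 0 := (zero_lt_one.trans hg).ne'
  have h3 : MvPolynomial.eval x (F i) = 0 := congrFun hx i
  rw [MvPolynomial.eval_eq'] at h3
  have hmem : Finsupp.single i d ∈ (F i).support := by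
    rw [MvPolynomial.mem_support_iff]
    intro h0
    have := h1 i
    rw [h0, map_zero] at this
    exact hg0 this.symm
  have hmain : v ((F i).coeff (Finsupp.single i d) * ∏ j, x j ^ (Finsupp.single i d) j) =
      g * v (x i) ^ d := by
    rw [map_mul, h1, Finset.prod_eq_single i]
    · rw [Finsupp.single_eq_same, map_pow]
    · intro j _ hj
      rw [Finsupp.single_eq_of_ne hj, pow_zero]
    · intro h
      exact absurd (Finset.mem_univ _) h
  have h4 : v (∑ α ∈ (F i).support, (F i).coeff α * ∏ j, x j ^ α j) =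
      v ((F i).coeff (Finsupp.single i d) * ∏ j, x j ^ (Finsupp.single i d) j) := by
    refine v.map_sum_eq_of_lt hmem fun α hα => ?_
    rw [Finset.mem_sdiff, Finset.mem_singleton] at hα
    have hdeg : α.degree = d := by
      by_contra h
      exact MvPolynomial.mem_support_iff.1 hα.1 ((hF i).coeff_eq_zero h)
    rw [hmain, map_mul]
    calc v ((F i).coeff α) * v (∏ j, x j ^ α j) ≤ 1 * v (x i) ^ d :=
          mul_le_mul' (h2 i α hdeg hα.2) (monomial_le v x _ hmax α hdeg)
      _ < g * v (x i) ^ d :=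
          mul_lt_mul_of_pos_right hg (pow_pos (zero_lt_iff.2 hxi) d)
  rw [h3, map_zero, hmain] at h4
  exact mul_ne_zero hg0 (pow_ne_zero d hxi) h4.symm

end general

variable {K : Type} [Field K] {N d r m : ℕ} (ω : Fin m → 𝓞 K)
  (e : Fin r ≃ (Fin (N + 1) × {α : Fin (N + 1) →₀ ℕ // α.degree = d}) × Fin m)

theorem coeff_univO (p : Fin (N + 1) × {α : Fin (N + 1) →₀ ℕ // α.degree = d}) :
    (univO ω e p.1).coeff p.2.1 =
      ∑ j : Fin m, MvPolynomial.C (ω j) * MvPolynomial.X (e.symm (p, j)) := by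
  classical
  unfold univO
  rw [MvPolynomial.coeff_sum]
  have h1 : ∀ t : Fin r, (if (e t).1.1 = p.1 then MvPolynomial.monomial (e t).1.2.1
      (MvPolynomial.C (ω (e t).2) * MvPolynomial.X t) else 0 :
        MvPolynomial (Fin (N + 1)) (MvPolynomial (Fin r) (𝓞 K))).coeff p.2.1 =
      if (e t).1 = p then MvPolynomial.C (ω (e t).2) * MvPolynomial.X t else 0 := by
    intro t
    by_cases h : (e t).1.1 = p.1
    · rw [if_pos h, MvPolynomial.coeff_monomial]
      by_cases h' : (e t).1.2.1 = p.2.1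
      · rw [if_pos h', if_pos (Prod.ext h (Subtype.ext h'))]
      · rw [if_neg h', if_neg fun h'' => h' (by rw [h''])]
    · rw [if_neg h, MvPolynomial.coeff_zero, if_neg fun h'' => h (by rw [h''])]
  simp only [h1]
  rw [← Finset.sum_filter]
  refine Finset.sum_bij' (fun t _ => (e t).2) (fun j _ => e.symm (p, j))
    (fun _ _ => Finset.mem_univ _) (fun j _ => ?_) (fun t ht => ?_) (fun j _ => ?_)
    (fun t ht => ?_)
  · rw [Finset.mem_filter]
    exact ⟨Finset.mem_univ _, by rw [Equiv.apply_symm_apply]⟩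
  · rw [← (Finset.mem_filter.1 ht).2]
    exact e.symm_apply_apply t
  · rw [Equiv.apply_symm_apply]
  · have h2 : e.symm (p, (e t).2) = t := by
      rw [← (Finset.mem_filter.1 ht).2]
      exact e.symm_apply_apply t
    rw [h2]

theorem hom_univO (i : Fin (N + 1)) : (univO ω e i).IsHomogeneous d := by
  classical
  unfold univO
  refine MvPolynomial.IsHomogeneous.sum _ _ _ fun t _ => ?_
  split_ifs with h
  · exact MvPolynomial.isHomogeneous_monomial _ (e t).1.2.2
  · exact MvPolynomial.isHomogeneous_zero _ _ _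

/-- Weight valuations for the coefficients of the generic member. -/
theorem exists_wt [NumberField K] (hω : ∃ j, ω j ≠ 0)
    (w : Fin (N + 1) × {α : Fin (N + 1) →₀ ℕ // α.degree = d} → ℕ) :
    ∃ (Γ : Type) (_ : LinearOrderedCommGroupWithZero Γ)
      (v : Valuation (AlgebraicClosure (GF r K)) Γ) (g : Γ), 1 < g ∧
      (∀ c : GF r K, c ≠ 0 → ∃ m : ℤ, v (algebraMap (GF r K) _ c) = g ^ m) ∧
      (∀ p, 1 ≤ w p → v ((mp (algebraMap (GF r K) (AlgebraicClosure (GF r K)))
        (gen (univO ω e)) p.1).coeff p.2.1) = g ^ w p) ∧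
      (∀ p, w p = 0 → v ((mp (algebraMap (GF r K) (AlgebraicClosure (GF r K)))
        (gen (univO ω e)) p.1).coeff p.2.1) ≤ 1) := by
  classical
  obtain ⟨j₀, hj₀⟩ := hω
  obtain ⟨Γ, hΓ, v, g, hg, h1, h2, h3, -⟩ := LIM.Ex.exists_val K r
    (fun t => if (e t).2 = j₀ then w (e t).1 else 0)
  have hcoef : ∀ p : Fin (N + 1) × {α : Fin (N + 1) →₀ ℕ // α.degree = d},
      (mp (algebraMap (GF r K) (AlgebraicClosure (GF r K))) (gen (univO ω e)) p.1).coeff p.2.1 =
        ∑ j : Fin m, algebraMap (MvPolynomial (Fin r) (𝓞 K)) (AlgebraicClosure (GF r K))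
          (MvPolynomial.C (ω j) * MvPolynomial.X (e.symm (p, j))) := by
    intro p
    unfold gen
    rw [mp_mp, ← IsScalarTower.algebraMap_eq]
    unfold mp
    rw [MvPolynomial.coeff_map, coeff_univO, map_sum]
  have hC : ∀ j, v (algebraMap (MvPolynomial (Fin r) (𝓞 K)) (AlgebraicClosure (GF r K))
      (MvPolynomial.C (ω j))) ≤ 1 := by
    intro j
    by_cases h : ω j = 0
    · rw [h, map_zero, map_zero, map_zero]
      exact zero_le_one
    · refine (h3 (MvPolynomial.C (ω j)) (fun h' => h ?_) ?_).le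
      · exact MvPolynomial.C_injective _ _ (by rw [h', map_zero])
      · intro i hi
        rw [MvPolynomial.vars_C] at hi
        exact absurd hi (Finset.notMem_empty _)
  have hC0 : v (algebraMap (MvPolynomial (Fin r) (𝓞 K)) (AlgebraicClosure (GF r K))
      (MvPolynomial.C (ω j₀))) = 1 := by
    refine h3 (MvPolynomial.C (ω j₀)) (fun h' => hj₀ ?_) ?_
    · exact MvPolynomial.C_injective _ _ (by rw [h', map_zero])
    · intro i hi
      rw [MvPolynomial.vars_C] at hi
      exact absurd hi (Finset.notMem_empty _)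
  have hterm : ∀ (p : Fin (N + 1) × {α : Fin (N + 1) →₀ ℕ // α.degree = d}) (j : Fin m),
      v (algebraMap (MvPolynomial (Fin r) (𝓞 K)) (AlgebraicClosure (GF r K))
        (MvPolynomial.C (ω j) * MvPolynomial.X (e.symm (p, j)))) ≤
        g ^ (if j = j₀ then w p else 0) := by
    intro p j
    rw [map_mul, map_mul, h1]
    simp only [Equiv.apply_symm_apply]
    exact mul_le_of_le_one_left' (hC j)
  refine ⟨Γ, hΓ, v, g, hg, h2, fun p hp => ?_, fun p hp => ?_⟩
  · rw [hcoef, v.map_sum_eq_of_lt (Finset.mem_univ j₀)]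
    · rw [map_mul, map_mul, h1, hC0, one_mul]
      simp only [Equiv.apply_symm_apply, if_true]
    · intro j hj
      rw [Finset.mem_sdiff, Finset.mem_singleton] at hj
      have h4 : v (algebraMap (MvPolynomial (Fin r) (𝓞 K)) (AlgebraicClosure (GF r K))
          (MvPolynomial.C (ω j₀) * MvPolynomial.X (e.symm (p, j₀)))) = g ^ w p := by
        rw [map_mul, map_mul, h1, hC0, one_mul]
        simp only [Equiv.apply_symm_apply, if_true]
      rw [h4]
      refine (hterm p j).trans_lt ?_
      rw [if_neg hj.2, pow_zero]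
      exact one_lt_pow₀ hg (by omega)
  · rw [hcoef]
    refine v.map_sum_le fun j _ => (hterm p j).trans ?_
    rw [hp]
    simp

end UniO

theorem univO_mor {K : Type} [Field K] [NumberField K] {N d r m : ℕ} (ω : Fin m → 𝓞 K)
    (hω : ∃ j, ω j ≠ 0)
    (e : Fin r ≃ (Fin (N + 1) × {α : Fin (N + 1) →₀ ℕ // α.degree = d}) × Fin m) :
    IsMor d (GF r K) (gen (univO ω e)) := by
  classical
  have hgen : ∀ i, (gen (univO ω e) i).IsHomogeneous d :=
    fun i => hom_mp d _ _ (UniO.hom_univO ω e) i
  refine ⟨hgen, fun x hx => ?_⟩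
  obtain ⟨Γ, hΓ, v, g, hg, -, h2, h3⟩ := UniO.exists_wt ω e hω
    (fun p => if p.2.1 = Finsupp.single p.1 d then 1 else 0)
  refine UniO.no_zero v g hg (mp (algebraMap (GF r K) (AlgebraicClosure (GF r K)))
    (gen (univO ω e))) (fun i => hom_mp d _ _ hgen i) (fun i => ?_)
    (fun i α hα hne => ?_) x hx
  · have h4 := h2 (i, ⟨Finsupp.single i d, by simp⟩) (by simp)
    simpa using h4
  · have h4 := h3 (i, ⟨α, hα⟩) (by simp [hne])
    exact h4

end Pool.Agent.PNH
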