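import Mathlib
import Pool.Agent.PNH.Defs

set_option autoImplicit false

/-!
# A dynamical argument over a valued field: periodic points are fixed
-/

namespace Pool.Agent.PNH

namespace Dyn

variable {L Γ : Type} [Field L] [LinearOrderedCommGroupWithZero Γ] {N d : ℕ}

/-- The coordinate `0` dominates. -/
def InV (v : Valuation L Γ) (g : Γ) (x : Fin (N + 1) → L) : Prop :=
  x 0 ≠ 0 ∧ ∀ i : Fin (N + 1), i ≠ 0 → g * v (x i) ≤ v (x 0)

theorem InV.le {v : Valuation L Γ} {g : Γ} (hg : 1 < g) {x : Fin (N + 1) → L}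
    (h : InV v g x) (i : Fin (N + 1)) : v (x i) ≤ v (x 0) := by
  by_cases hi : i = 0
  · rw [hi]
  · exact (le_mul_of_one_le_left' hg.le).trans (h.2 i hi)

theorem InV.of_smul {v : Valuation L Γ} {g : Γ} {x : Fin (N + 1) → L} (c : L)
    (h : InV v g (c • x)) : InV v g x := by
  obtain ⟨h1, h2⟩ := h
  simp only [Pi.smul_apply, smul_eq_mul] at h1 h2
  have hc : c ≠ 0 := left_ne_zero_of_mul h1
  refine ⟨right_ne_zero_of_mul h1, fun i hi => ?_⟩
  have h3 := h2 i hi
  rw [map_mul, map_mul, mul_left_comm] at h3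
  exact le_of_mul_le_mul_left h3 (zero_lt_iff.mpr ((v.ne_zero_iff).mpr hc))

theorem mono_le (v : Valuation L Γ) (y : Fin (N + 1) → L) (M : Γ) (h : ∀ k, v (y k) ≤ M)
    (α : Fin (N + 1) →₀ ℕ) : v (∏ k, y k ^ α k) ≤ M ^ α.degree := by
  rw [map_prod, Finsupp.degree_eq_sum, ← Finset.prod_pow_eq_pow_sum]
  refine Finset.prod_le_prod' fun k _ => ?_
  rw [map_pow]
  exact pow_le_pow_left' (h k) _

theorem prod_single (y : Fin (N + 1) → L) (j : Fin (N + 1)) (n : ℕ) :
    ∏ k, y k ^ (Finsupp.single j n) k = y j ^ n := by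
  rw [Finset.prod_eq_single j]
  · rw [Finsupp.single_eq_same]
  · intro k _ hk
    rw [Finsupp.single_eq_of_ne hk, pow_zero]
  · intro h
    exact absurd (Finset.mem_univ j) h

/-- The hypotheses on the coefficients. -/
structure Hyp (v : Valuation L Γ) (g : Γ) (d E : ℕ) (F : Tup N L) : Prop where
  hg : 1 < g
  hd : 1 ≤ d
  hN : 1 ≤ N
  hE : 1 ≤ E
  hF : ∀ i, (F i).IsHomogeneous d
  hc : v ((F 0).coeff (Finsupp.single 0 d)) = g ^ (E + 1)
  ha : ∀ i : Fin (N + 1), v ((F (i + 1)).coeff (Finsupp.single i d)) = g ^ E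
  hs : ∀ (i : Fin (N + 1)) (α : Fin (N + 1) →₀ ℕ), (i = 0 → α ≠ Finsupp.single 0 d) →
      (∀ j : Fin (N + 1), i = j + 1 → α ≠ Finsupp.single j d) → v ((F i).coeff α) ≤ 1

variable {v : Valuation L Γ} {g : Γ} {E : ℕ} {F : Tup N L}

theorem Hyp.coeff_le (H : Hyp v g d E F) (i : Fin (N + 1)) (α : Fin (N + 1) →₀ ℕ)
    (h : i = 0 → α ≠ Finsupp.single 0 d) : v ((F i).coeff α) ≤ g ^ E := by
  by_cases h1 : ∀ j : Fin (N + 1), i = j + 1 → α ≠ Finsupp.single j d
  · exact (H.hs i α h h1).trans (one_le_pow_of_one_le' H.hg.le E)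
  · push Not at h1
    obtain ⟨j, hj, hα⟩ := h1
    rw [hj, hα, H.ha j]

theorem Hyp.degree (H : Hyp v g d E F) (i : Fin (N + 1)) (α : Fin (N + 1) →₀ ℕ)
    (h : α ∈ (F i).support) : α.degree = d := by
  by_contra h1
  exact MvPolynomial.mem_support_iff.1 h ((H.hF i).coeff_eq_zero h1)

theorem Hyp.eval_le (H : Hyp v g d E F) (i : Fin (N + 1)) (hi : i ≠ 0) (y : Fin (N + 1) → L)
    (M : Γ) (h : ∀ k, v (y k) ≤ M) : v (app F y i) ≤ g ^ E * M ^ d := by
  unfold app
  rw [MvPolynomial.eval_eq']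
  refine v.map_sum_le fun α hα => ?_
  rw [map_mul]
  refine mul_le_mul' (H.coeff_le i α fun h0 => absurd h0 hi) ?_
  have h1 := mono_le v y M h α
  rwa [H.degree i α hα] at h1

theorem gE_pos (hg : 1 < g) (E : ℕ) : (0 : Γ) < g ^ E :=
  zero_lt_iff.mpr (pow_ne_zero _ (zero_lt_one.trans hg).ne')

/-- The coordinate `0` is maximal: then the image is in the region. -/
theorem Hyp.dom (H : Hyp v g d E F) (y : Fin (N + 1) → L) (hy : y 0 ≠ 0)
    (h : ∀ k, v (y k) ≤ v (y 0)) :
    v (app F y 0) = g ^ (E + 1) * v (y 0) ^ d ∧ InV v g (app F y) := by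
  have hy0 : (0 : Γ) < v (y 0) ^ d := zero_lt_iff.mpr (pow_ne_zero _ ((v.ne_zero_iff).mpr hy))
  have h1 : v (app F y 0) = g ^ (E + 1) * v (y 0) ^ d := by
    unfold app
    rw [MvPolynomial.eval_eq']
    have hmem : Finsupp.single 0 d ∈ (F 0).support := by
      rw [MvPolynomial.mem_support_iff, ← v.ne_zero_iff]
      have h2 := H.hc
      unfold MvPolynomial.coeff at h2 ⊢
      rw [h2]
      exact (gE_pos H.hg _).ne'
    have hval : v ((F 0).coeff (Finsupp.single 0 d) *
        ∏ k, y k ^ (Finsupp.single (0 : Fin (N + 1)) d) k) = g ^ (E + 1) * v (y 0) ^ d := by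
      rw [map_mul, H.hc, prod_single, map_pow]
    rw [← hval]
    refine v.map_sum_eq_of_lt hmem fun α hα => ?_
    rw [Finset.mem_sdiff, Finset.mem_singleton] at hα
    rw [hval, map_mul]
    have h2 := mono_le v y _ h α
    rw [H.degree 0 α hα.1] at h2
    refine (mul_le_mul' (H.coeff_le 0 α fun _ => hα.2) h2).trans_lt ?_
    refine mul_lt_mul_of_pos_right ?_ hy0
    exact pow_lt_pow_right₀ H.hg (Nat.lt_succ_self E)
  refine ⟨h1, ?_, fun i hi => ?_⟩
  · rw [← v.ne_zero_iff, h1]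
    exact (mul_pos (gE_pos H.hg _) hy0).ne'
  · rw [h1, pow_succ', mul_assoc]
    exact mul_le_mul_right (H.eval_le i hi y _ h) g

/-- A maximal coordinate `j ≠ N` gives a maximal coordinate `j + 1` among those `≠ 0`. -/
theorem Hyp.shift (H : Hyp v g d E F) (y : Fin (N + 1) → L) (j : Fin (N + 1)) (hj : j + 1 ≠ 0)
    (hy : y j ≠ 0) (h : ∀ k, v (y k) ≤ v (y j)) :
    v (app F y (j + 1)) = g ^ E * v (y j) ^ d := by
  have hy0 : (0 : Γ) < v (y j) ^ d := zero_lt_iff.mpr (pow_ne_zero _ ((v.ne_zero_iff).mpr hy))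
  unfold app
  rw [MvPolynomial.eval_eq']
  have hmem : Finsupp.single j d ∈ (F (j + 1)).support := by
    rw [MvPolynomial.mem_support_iff, ← v.ne_zero_iff]
    have h2 := H.ha j
    unfold MvPolynomial.coeff at h2 ⊢
    rw [h2]
    exact (gE_pos H.hg _).ne'
  have hval : v ((F (j + 1)).coeff (Finsupp.single j d) *
      ∏ k, y k ^ (Finsupp.single j d) k) = g ^ E * v (y j) ^ d := by
    rw [map_mul, H.ha, prod_single, map_pow]
  rw [← hval]
  refine v.map_sum_eq_of_lt hmem fun α hα => ?_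
  rw [Finset.mem_sdiff, Finset.mem_singleton] at hα
  rw [hval, map_mul]
  have h2 := mono_le v y _ h α
  rw [H.degree _ α hα.1] at h2
  have h3 : v ((F (j + 1)).coeff α) ≤ 1 := by
    refine H.hs (j + 1) α (fun h0 => absurd h0 hj) fun j' hj' => ?_
    have h4 : j' = j := (add_right_cancel hj').symm
    rw [h4]
    exact hα.2
  refine (mul_le_mul' h3 h2).trans_lt ?_
  refine mul_lt_mul_of_pos_right ?_ hy0
  exact one_lt_pow₀ H.hg (by have := H.hE; omega)

/-- The coordinate `N` is maximal and there is no resonance. -/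
theorem Hyp.last (H : Hyp v g d E F) (y : Fin (N + 1) → L) (hy : y (Fin.last N) ≠ 0)
    (h : ∀ k, v (y k) ≤ v (y (Fin.last N)))
    (hv : v (y 0) ^ d * g ≠ v (y (Fin.last N)) ^ d) :
    g ^ E * v (y (Fin.last N)) ^ d ≤ v (app F y 0) := by
  have hy0 : (0 : Γ) < v (y (Fin.last N)) ^ d :=
    zero_lt_iff.mpr (pow_ne_zero _ ((v.ne_zero_iff).mpr hy))
  have hl : (Fin.last N) + 1 = 0 := Fin.last_add_one N
  have ha := H.ha (Fin.last N)
  rw [hl] at ha
  unfold app
  rw [MvPolynomial.eval_eq']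
  have hmemN : Finsupp.single (Fin.last N) d ∈ (F 0).support := by
    rw [MvPolynomial.mem_support_iff, ← v.ne_zero_iff]
    have h2 := ha
    unfold MvPolynomial.coeff at h2 ⊢
    rw [h2]
    exact (gE_pos H.hg _).ne'
  have hmem0 : Finsupp.single 0 d ∈ (F 0).support := by
    rw [MvPolynomial.mem_support_iff, ← v.ne_zero_iff]
    have h2 := H.hc
    unfold MvPolynomial.coeff at h2 ⊢
    rw [h2]
    exact (gE_pos H.hg _).ne'
  have hvalN : v ((F 0).coeff (Finsupp.single (Fin.last N) d) *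
      ∏ k, y k ^ (Finsupp.single (Fin.last N) d) k) = g ^ E * v (y (Fin.last N)) ^ d := by
    rw [map_mul, ha, prod_single, map_pow]
  have hval0 : v ((F 0).coeff (Finsupp.single 0 d) *
      ∏ k, y k ^ (Finsupp.single (0 : Fin (N + 1)) d) k) = g ^ (E + 1) * v (y 0) ^ d := by
    rw [map_mul, H.hc, prod_single, map_pow]
  have hne : g ^ (E + 1) * v (y 0) ^ d ≠ g ^ E * v (y (Fin.last N)) ^ d := by
    rw [pow_succ, mul_assoc]
    intro h1
    have h2 := mul_left_cancel₀ (gE_pos H.hg E).ne' h1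
    rw [mul_comm] at h2
    exact hv h2
  have hother : ∀ α ∈ (F 0).support, α ≠ Finsupp.single 0 d → α ≠ Finsupp.single (Fin.last N) d →
      v ((F 0).coeff α * ∏ k, y k ^ α k) < g ^ E * v (y (Fin.last N)) ^ d := by
    intro α hα h1 h2
    rw [map_mul]
    have h3 := mono_le v y _ h α
    rw [H.degree 0 α hα] at h3
    have h4 : v ((F 0).coeff α) ≤ 1 := by
      refine H.hs 0 α (fun _ => h1) fun j' hj' => ?_
      have h5 : j' = Fin.last N := by
        rw [← hl] at hj'
        exact (add_right_cancel hj').symm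
      rw [h5]
      exact h2
    refine (mul_le_mul' h4 h3).trans_lt ?_
    refine mul_lt_mul_of_pos_right ?_ hy0
    exact one_lt_pow₀ H.hg (by have := H.hE; omega)
  rcases lt_or_gt_of_ne hne with h1 | h1
  · refine le_of_eq ?_
    rw [← hvalN]
    refine Eq.symm ?_
    refine v.map_sum_eq_of_lt hmemN fun α hα => ?_
    rw [Finset.mem_sdiff, Finset.mem_singleton] at hα
    rw [hvalN]
    by_cases h2 : α = Finsupp.single 0 d
    · rw [h2, hval0]
      exact h1
    · exact hother α hα.1 h2 hα.2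
  · refine h1.le.trans (le_of_eq ?_)
    rw [← hval0]
    refine Eq.symm ?_
    refine v.map_sum_eq_of_lt hmem0 fun α hα => ?_
    rw [Finset.mem_sdiff, Finset.mem_singleton] at hα
    rw [hval0]
    by_cases h2 : α = Finsupp.single (Fin.last N) d
    · rw [h2, hvalN]
      exact h1
    · exact (hother α hα.1 hα.2 h2).trans h1

theorem Hyp.reach (H : Hyp v g d E F) (t : ℕ) : ∀ (j : Fin (N + 1)) (x : Fin (N + 1) → L),
    (∀ n : ℕ, (app F)^[n] x (Fin.last N) ≠ 0 →
      v ((app F)^[n] x 0) ^ d * g ≠ v ((app F)^[n] x (Fin.last N)) ^ d) →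
    (j : ℕ) + t = N → x j ≠ 0 → (∀ i, v (x i) ≤ v (x j)) →
      ∃ n, InV v g ((app F)^[n] x) := by
  have hge : ∀ i : Fin (N + 1), i ≠ 0 → ∃ j, i = j + 1 := fun i _ => ⟨i - 1, by
    rw [sub_add_cancel]⟩
  induction t with
  | zero =>
    intro j x hv hj hx h
    have hj' : j = Fin.last N := Fin.ext (by simpa using hj)
    subst hj'
    have h0 := H.last x hx h (hv 0 hx)
    have h1 : ∀ i, v (app F x i) ≤ v (app F x 0) := by
      intro i
      by_cases hi : i = 0
      · rw [hi]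
      · exact (H.eval_le i hi x _ h).trans h0
    have h2 : app F x 0 ≠ 0 := by
      rw [← v.ne_zero_iff]
      refine (lt_of_lt_of_le ?_ h0).ne'
      exact mul_pos (gE_pos H.hg _) (zero_lt_iff.mpr (pow_ne_zero d ((v.ne_zero_iff).mpr hx)))
    exact ⟨2, (H.dom _ h2 h1).2⟩
  | succ t ih =>
    intro j x hv hj hx h
    have hjN : j ≠ Fin.last N := by
      intro h0
      rw [h0, Fin.val_last] at hj
      omega
    have hj1 : j + 1 ≠ 0 := by
      intro h0
      exact hjN (add_right_cancel (h0.trans (Fin.last_add_one N).symm))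
    have hval := H.shift x j hj1 hx h
    have hne : app F x (j + 1) ≠ 0 := by
      rw [← v.ne_zero_iff, hval]
      exact mul_ne_zero (gE_pos H.hg _).ne' (pow_ne_zero d ((v.ne_zero_iff).mpr hx))
    have hle : ∀ i : Fin (N + 1), i ≠ 0 → v (app F x i) ≤ v (app F x (j + 1)) := by
      intro i hi
      rw [hval]
      exact H.eval_le i hi x _ h
    rcases le_or_gt (v (app F x 0)) (v (app F x (j + 1))) with h0 | h0
    · obtain ⟨n, hn⟩ := ih (j + 1) (app F x) (fun n hn => hv (n + 1) hn) (by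
        have h3 : ((j + 1 : Fin (N + 1)) : ℕ) = j + 1 := by
          refine Fin.val_add_one_of_lt ?_
          exact lt_of_le_of_ne (Fin.le_last j) hjN
        omega) hne (fun i => by
        by_cases hi : i = 0
        · rw [hi]
          exact h0
        · exact hle i hi)
      exact ⟨n + 1, hn⟩
    · refine ⟨2, (H.dom (app F x) ?_ fun i => ?_).2⟩
      · rw [← v.ne_zero_iff]
        exact (lt_of_le_of_lt zero_le h0).ne'
      · by_cases hi : i = 0
        · rw [hi]
        · exact (hle i hi).trans h0.le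

theorem pow_sub_le (v : Valuation L Γ) (P ε : Γ) (A B : L) (hA : v A ≤ P) (hB : v B ≤ P)
    (h : v (A - B) ≤ ε * P) (n : ℕ) : v (A ^ n - B ^ n) ≤ ε * P ^ n := by
  induction n with
  | zero => simp
  | succ n ih =>
    have h1 : A ^ (n + 1) - B ^ (n + 1) = A ^ n * (A - B) + (A ^ n - B ^ n) * B := by ring
    rw [h1]
    refine (v.map_add _ _).trans (max_le ?_ ?_)
    · rw [map_mul, map_pow]
      refine (mul_le_mul' (pow_le_pow_left' hA n) h).trans (le_of_eq ?_)
      rw [pow_succ, mul_left_comm]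
    · rw [map_mul]
      refine (mul_le_mul' ih hB).trans (le_of_eq ?_)
      rw [pow_succ, mul_assoc]

theorem prod_sub_le (v : Valuation L Γ) (P ε : Γ) (X Y : Fin (N + 1) → L)
    (hX : ∀ k, v (X k) ≤ P) (hY : ∀ k, v (Y k) ≤ P) (h : ∀ k, v (X k - Y k) ≤ ε * P)
    (α : Fin (N + 1) →₀ ℕ) (s : Finset (Fin (N + 1))) :
    v (∏ k ∈ s, X k ^ α k - ∏ k ∈ s, Y k ^ α k) ≤ ε * P ^ ∑ k ∈ s, α k := by
  classical
  induction s using Finset.induction_on with
  | empty => simp
  | insert a s ha ih =>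
    rw [Finset.prod_insert ha, Finset.prod_insert ha, Finset.sum_insert ha, pow_add]
    have h1 : X a ^ α a * ∏ k ∈ s, X k ^ α k - Y a ^ α a * ∏ k ∈ s, Y k ^ α k =
        X a ^ α a * (∏ k ∈ s, X k ^ α k - ∏ k ∈ s, Y k ^ α k) +
          (X a ^ α a - Y a ^ α a) * ∏ k ∈ s, Y k ^ α k := by ring
    rw [h1]
    refine (v.map_add _ _).trans (max_le ?_ ?_)
    · rw [map_mul, map_pow]
      refine (mul_le_mul' (pow_le_pow_left' (hX a) _) ih).trans (le_of_eq ?_)
      rw [mul_left_comm]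
    · rw [map_mul, map_prod]
      have h2 : ∏ k ∈ s, v (Y k ^ α k) ≤ P ^ ∑ k ∈ s, α k := by
        rw [← Finset.prod_pow_eq_pow_sum]
        refine Finset.prod_le_prod' fun k _ => ?_
        rw [map_pow]
        exact pow_le_pow_left' (hY k) _
      refine (mul_le_mul' (pow_sub_le v P ε _ _ (hX a) (hY a) (h a) _) h2).trans (le_of_eq ?_)
      rw [mul_assoc]

/-- The difference of two values. -/
theorem Hyp.sub_le (H : Hyp v g d E F) (P ε : Γ) (X Y : Fin (N + 1) → L)
    (hX : ∀ k, v (X k) ≤ P) (hY : ∀ k, v (Y k) ≤ P) (h : ∀ k, v (X k - Y k) ≤ ε * P)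
    (h0 : X 0 = Y 0) (i : Fin (N + 1)) : v (app F X i - app F Y i) ≤ g ^ E * (ε * P ^ d) := by
  unfold app
  rw [MvPolynomial.eval_eq', MvPolynomial.eval_eq', ← Finset.sum_sub_distrib]
  refine v.map_sum_le fun α hα => ?_
  rw [← mul_sub, map_mul]
  by_cases h1 : i = 0 → α ≠ Finsupp.single 0 d
  · refine mul_le_mul' (H.coeff_le i α h1) ?_
    have h2 := prod_sub_le v P ε X Y hX hY h α Finset.univ
    rwa [← Finsupp.degree_eq_sum, H.degree i α hα] at h2
  · push Not at h1
    rw [h1.2, prod_single, prod_single, h0, sub_self, map_zero, mul_zero]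
    exact zero_le

/-- The map contracts the region. -/
theorem Hyp.contr (H : Hyp v g d E F) (ε : Γ) (x y : Fin (N + 1) → L) (hx : InV v g x)
    (hy : InV v g y) (h : ∀ i, v (x i * y 0 - x 0 * y i) ≤ ε * (v (x 0) * v (y 0))) (i) :
    v (app F x i * app F y 0 - app F x 0 * app F y i) * g ≤
      ε * (v (app F x 0) * v (app F y 0)) := by
  have hx1 := (H.dom x hx.1 (hx.le H.hg)).1
  have hy1 := (H.dom y hy.1 (hy.le H.hg)).1
  by_cases hi : i = 0
  · rw [hi, mul_comm (app F x 0), sub_self, map_zero, zero_mul]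
    exact zero_le
  obtain ⟨P, hP⟩ : ∃ P, v (x 0) * v (y 0) = P := ⟨_, rfl⟩
  have hP0 : (0 : Γ) < P := by
    rw [← hP]
    exact mul_pos (zero_lt_iff.mpr ((v.ne_zero_iff).mpr hx.1))
      (zero_lt_iff.mpr ((v.ne_zero_iff).mpr hy.1))
  have hX : app F (y 0 • x) = y 0 ^ d • app F x := app_smul d F H.hF _ _
  have hY : app F (x 0 • y) = x 0 ^ d • app F y := app_smul d F H.hF _ _
  have bX : ∀ k, v ((y 0 • x) k) ≤ P := by
    intro k
    rw [Pi.smul_apply, smul_eq_mul, map_mul, ← hP, mul_comm]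
    exact mul_le_mul_left (hx.le H.hg k) _
  have bY : ∀ k, v ((x 0 • y) k) ≤ P := by
    intro k
    rw [Pi.smul_apply, smul_eq_mul, map_mul, ← hP]
    exact mul_le_mul_right (hy.le H.hg k) _
  have bXY : ∀ k, v ((y 0 • x) k - (x 0 • y) k) ≤ ε * P := by
    intro k
    rw [Pi.smul_apply, Pi.smul_apply, smul_eq_mul, smul_eq_mul, mul_comm (y 0), ← hP]
    exact h k
  have e0 : (y 0 • x) 0 = (x 0 • y) 0 := by
    simp only [Pi.smul_apply, smul_eq_mul]
    ring
  have h1 := H.sub_le P ε _ _ bX bY bXY e0 i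
  have h2 := H.sub_le P ε _ _ bX bY bXY e0 0
  have h3 := H.eval_le i hi (x 0 • y) P bY
  have h4 : v (app F (x 0 • y) 0) = g ^ (E + 1) * P ^ d := by
    rw [hY, Pi.smul_apply, smul_eq_mul, map_mul, map_pow, hy1, ← hP, mul_pow]
    rw [mul_left_comm]
  have e1 : (x 0 * y 0) ^ d * (app F x i * app F y 0 - app F x 0 * app F y i) =
      (app F (y 0 • x) i - app F (x 0 • y) i) * app F (x 0 • y) 0 -
        app F (x 0 • y) i * (app F (y 0 • x) 0 - app F (x 0 • y) 0) := by
    rw [hX, hY]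
    simp only [Pi.smul_apply, smul_eq_mul]
    ring
  have h5 : v ((x 0 * y 0) ^ d * (app F x i * app F y 0 - app F x 0 * app F y i)) ≤
      g ^ (E + 1) * g ^ E * (ε * P ^ d * P ^ d) := by
    rw [e1]
    refine (v.map_sub _ _).trans (max_le ?_ ?_)
    · rw [map_mul, h4]
      refine (mul_le_mul_left h1 _).trans (le_of_eq ?_)
      simp only [mul_assoc, mul_comm, mul_left_comm]
    · rw [map_mul]
      refine (mul_le_mul' h3 h2).trans ?_
      have h6 : g ^ E * P ^ d * (g ^ E * (ε * P ^ d)) =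
          g ^ E * (g ^ E * (ε * P ^ d * P ^ d)) := by
        simp only [mul_comm, mul_left_comm]
      rw [h6, mul_assoc (g ^ (E + 1))]
      exact mul_le_mul_left (pow_le_pow_right₀ H.hg.le (Nat.le_succ E)) _
  have h7 : v ((x 0 * y 0) ^ d) = P ^ d := by rw [map_pow, map_mul, hP]
  rw [map_mul, h7] at h5
  have h8 : v (app F x i * app F y 0 - app F x 0 * app F y i) ≤
      g ^ (E + 1) * g ^ E * (ε * P ^ d) := by
    refine le_of_mul_le_mul_left (a := P ^ d) ?_ (pow_pos hP0 d)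
    refine h5.trans (le_of_eq ?_)
    simp only [mul_assoc, mul_comm, mul_left_comm]
  refine (mul_le_mul_left h8 g).trans (le_of_eq ?_)
  rw [hx1, hy1, ← hP, mul_pow, pow_succ]
  simp only [mul_assoc, mul_comm, mul_left_comm]

theorem Hyp.iter_mem (H : Hyp v g d E F) (x : Fin (N + 1) → L) (hx : InV v g x) (n : ℕ) :
    InV v g ((app F)^[n] x) := by
  induction n with
  | zero => exact hx
  | succ n ih =>
    rw [Function.iterate_succ_apply']
    exact (H.dom _ ih.1 (ih.le H.hg)).2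

theorem Hyp.contr_iter (H : Hyp v g d E F) (ε : Γ) (x y : Fin (N + 1) → L) (hx : InV v g x)
    (hy : InV v g y) (h : ∀ i, v (x i * y 0 - x 0 * y i) ≤ ε * (v (x 0) * v (y 0))) (n : ℕ) :
    ∀ i, v ((app F)^[n] x i * (app F)^[n] y 0 - (app F)^[n] x 0 * (app F)^[n] y i) * g ^ n ≤
      ε * (v ((app F)^[n] x 0) * v ((app F)^[n] y 0)) := by
  induction n with
  | zero =>
    intro i
    simpa using h i
  | succ n ih =>
    intro i
    have hgn : (0 : Γ) < g ^ n := gE_pos H.hg n
    have h1 := H.contr (ε * (g ^ n)⁻¹) ((app F)^[n] x) ((app F)^[n] y) (H.iter_mem x hx n)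
      (H.iter_mem y hy n) (fun i => by
        refine le_of_mul_le_mul_right ((ih i).trans (le_of_eq ?_)) hgn
        rw [mul_right_comm ε, mul_assoc _ (g ^ n)⁻¹, inv_mul_cancel₀ hgn.ne', mul_one]) i
    simp only [Function.iterate_succ_apply']
    rw [pow_succ, ← mul_assoc, mul_right_comm]
    refine (mul_le_mul_left h1 _).trans (le_of_eq ?_)
    rw [mul_right_comm ε, mul_assoc _ (g ^ n)⁻¹, inv_mul_cancel₀ hgn.ne', mul_one]

/-- A periodic point of the region is fixed. -/
theorem Hyp.fix (H : Hyp v g d E F) (x : Fin (N + 1) → L) (hx : InV v g x) (n : ℕ) (hn : 1 ≤ n)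
    (hp : Par ((app F)^[n] x) x) : Par (app F x) x := by
  have hy : InV v g (app F x) := H.iter_mem x hx 1
  have hvx : (0 : Γ) < v (x 0) := zero_lt_iff.mpr ((v.ne_zero_iff).mpr hx.1)
  have hvy : (0 : Γ) < v (app F x 0) := zero_lt_iff.mpr ((v.ne_zero_iff).mpr hy.1)
  obtain ⟨i0, hi0⟩ := Finite.exists_max fun i => v (x i * app F x 0 - x 0 * app F x i)
  by_cases h0 : x i0 * app F x 0 - x 0 * app F x i0 = 0
  · have hall : ∀ i, x i * app F x 0 = x 0 * app F x i := by
      intro i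
      have h1 := hi0 i
      simp only [h0, map_zero] at h1
      have h2 : v (x i * app F x 0 - x 0 * app F x i) = 0 := le_antisymm h1 zero_le
      exact sub_eq_zero.1 ((map_eq_zero v).1 h2)
    intro i j
    refine mul_left_cancel₀ hx.1 ?_
    linear_combination x i * hall j - x j * hall i
  · exfalso
    obtain ⟨c, hc⟩ := hp.symm.exists_smul (fun h => hx.1 (by rw [h]; rfl))
    have hc0 : c ≠ 0 := by
      intro h
      have h1 := (H.iter_mem x hx n).1
      rw [hc, h, zero_smul] at h1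
      exact h1 rfl
    have hcy : (app F)^[n] (app F x) = c ^ d • app F x := by
      rw [← Function.iterate_succ_apply, Function.iterate_succ_apply', hc, app_smul d F H.hF]
    have hP : (0 : Γ) < v (x 0) * v (app F x 0) := mul_pos hvx hvy
    have h1 := H.contr_iter
      (v (x i0 * app F x 0 - x 0 * app F x i0) * (v (x 0) * v (app F x 0))⁻¹) x (app F x) hx hy
      (fun i => by
        rw [mul_assoc, inv_mul_cancel₀ hP.ne', mul_one]
        exact hi0 i) n i0
    rw [hc, hcy] at h1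
    simp only [Pi.smul_apply, smul_eq_mul] at h1
    have e1 : c * x i0 * (c ^ d * app F x 0) - c * x 0 * (c ^ d * app F x i0) =
        c ^ (d + 1) * (x i0 * app F x 0 - x 0 * app F x i0) := by ring
    have e2 : v (c * x 0) * v (c ^ d * app F x 0) =
        v (c ^ (d + 1)) * (v (x 0) * v (app F x 0)) := by
      rw [← map_mul, ← map_mul, ← map_mul]
      congr 1
      ring
    rw [e1, e2, mul_left_comm _ (v (c ^ (d + 1))), mul_assoc _ _ (v (x 0) * v (app F x 0)),
      inv_mul_cancel₀ hP.ne', mul_one, map_mul] at h1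
    have h2 : (0 : Γ) < v (c ^ (d + 1)) * v (x i0 * app F x 0 - x 0 * app F x i0) :=
      mul_pos (zero_lt_iff.mpr ((v.ne_zero_iff).mpr (pow_ne_zero _ hc0)))
        (zero_lt_iff.mpr ((v.ne_zero_iff).mpr h0))
    have h3 : g ^ n ≤ 1 := by
      refine le_of_mul_le_mul_left (a := v (c ^ (d + 1)) *
        v (x i0 * app F x 0 - x 0 * app F x i0)) ?_ h2
      rw [mul_one]
      exact h1
    exact absurd h3 (not_le.2 (one_lt_pow₀ H.hg (by omega)))

/-- The powers of the period. -/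
theorem iter_par (hF : ∀ i, (F i).IsHomogeneous d) (x : Fin (N + 1) → L) (hx : x ≠ 0) (n : ℕ)
    (hp : Par ((app F)^[n] x) x) (k : ℕ) : ∃ c : L, (app F)^[n * k] x = c • x := by
  obtain ⟨c, hc⟩ := hp.symm.exists_smul hx
  induction k with
  | zero => exact ⟨1, by rw [mul_zero, Function.iterate_zero, id_eq, one_smul]⟩
  | succ k ih =>
    obtain ⟨b, hb⟩ := ih
    refine ⟨b ^ d ^ n * c, ?_⟩
    have h1 : n * (k + 1) = n + n * k := by ring
    rw [h1, Function.iterate_add_apply, hb, iter_smul d F hF, hc, mul_smul]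

end Dyn

open Dyn in
/-- A periodic point which meets no resonance is fixed. -/
theorem fixed_of_periodic {L Γ : Type} [Field L] [LinearOrderedCommGroupWithZero Γ]
    (v : Valuation L Γ) (g : Γ) (hg : 1 < g) {N d : ℕ} (hN : 1 ≤ N) (hd : 2 ≤ d) (F : Tup N L)
    (hF : ∀ i, (F i).IsHomogeneous d) (E : ℕ) (hE : 1 ≤ E)
    (hc : v ((F 0).coeff (Finsupp.single 0 d)) = g ^ (E + 1))
    (ha : ∀ i : Fin (N + 1), v ((F (i + 1)).coeff (Finsupp.single i d)) = g ^ E)
    (hs : ∀ (i : Fin (N + 1)) (α : Fin (N + 1) →₀ ℕ), (i = 0 → α ≠ Finsupp.single 0 d) →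
      (∀ j : Fin (N + 1), i = j + 1 → α ≠ Finsupp.single j d) → v ((F i).coeff α) ≤ 1)
    (x : Fin (N + 1) → L) (hx : x ≠ 0)
    (hv : ∀ (n : ℕ) (j : Fin (N + 1)), (app F)^[n] x j ≠ 0 →
      v ((app F)^[n] x 0) ^ d * g ≠ v ((app F)^[n] x j) ^ d)
    (n : ℕ) (hn : 1 ≤ n) (hp : Par ((app F)^[n] x) x) : Par (app F x) x := by
  have H : Hyp v g d E F := ⟨hg, by omega, hN, hE, hF, hc, ha, hs⟩
  obtain ⟨j, hj⟩ := Finite.exists_max fun i => v (x i)
  have hxj : x j ≠ 0 := by
    intro h0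
    refine hx (funext fun i => ?_)
    have h1 := hj i
    simp only [h0, map_zero] at h1
    exact (map_eq_zero v).1 (le_antisymm h1 zero_le)
  obtain ⟨m, hm⟩ := H.reach (N - j) j x (fun n hn => hv n (Fin.last N) hn)
    (by have := j.is_le; omega) hxj hj
  obtain ⟨c, hc'⟩ := iter_par hF x hx n hp m
  have hle : m ≤ n * m := Nat.le_mul_of_pos_left m hn
  have h1 : InV v g ((app F)^[n * m] x) := by
    have h2 := H.iter_mem _ hm (n * m - m)
    rwa [← Function.iterate_add_apply, Nat.sub_add_cancel hle] at h2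
  rw [hc'] at h1
  exact H.fix x h1.of_smul n hn hp

end Pool.Agent.PNH
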