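import Mathlib

set_option autoImplicit false

/-!
# Ramification and residue degree of a place at infinity
-/

namespace Pool.Agent.PNH

namespace EF

variable {A K L : Type} [Field A] [Field K] [Field L] [Algebra A K] [Algebra K L] [Algebra A L]
  [IsScalarTower A K L]

theorem val_const (V : ValuationSubring L) (hV : ∀ a : A, algebraMap A L a ∈ V) (a : A)
    (ha : a ≠ 0) : V.valuation (algebraMap A L a) = 1 := by
  refine le_antisymm ((V.valuation_le_one_iff _).2 (hV a)) ?_
  have h1 : V.valuation (algebraMap A L a⁻¹) ≤ 1 := (V.valuation_le_one_iff _).2 (hV a⁻¹)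
  have h2 : V.valuation (algebraMap A L a) * V.valuation (algebraMap A L a⁻¹) = 1 := by
    rw [← map_mul, ← map_mul, mul_inv_cancel₀ ha, map_one, map_one]
  by_contra h3
  rw [not_le] at h3
  have h4 : V.valuation (algebraMap A L a) * V.valuation (algebraMap A L a⁻¹) < 1 :=
    mul_lt_one_of_lt_of_le h3 h1
  rw [h2] at h4
  exact lt_irrefl _ h4

/-- a polynomial in an element outside of the ring -/
theorem poly_lead (c : L) (V : ValuationSubring L) (hV : ∀ a : A, algebraMap A L a ∈ V)
    (hc : c ∉ V) (p : Polynomial A) : ∃ m : L, V.valuation m < 1 ∧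
      Polynomial.aeval c p = c ^ p.natDegree * (algebraMap A L p.leadingCoeff + m) := by
  have hc0 : c ≠ 0 := by
    rintro rfl
    exact hc (zero_mem _)
  have hc1 : V.valuation c⁻¹ < 1 := by
    have h1 : 1 < V.valuation c := by
      rw [← not_le, V.valuation_le_one_iff]
      exact hc
    rw [map_inv₀]
    exact inv_lt_one_of_one_lt₀ h1
  refine ⟨c⁻¹ * Polynomial.aeval c⁻¹ p.reverse.divX, ?_, ?_⟩
  · rw [map_mul]
    refine mul_lt_one_of_lt_of_le hc1 ?_
    rw [V.valuation_le_one_iff]
    have hcV : c⁻¹ ∈ V := (V.valuation_le_one_iff _).1 hc1.le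
    rw [Polynomial.aeval_eq_sum_range]
    refine sum_mem fun i _ => ?_
    rw [Algebra.smul_def]
    exact mul_mem (hV _) (pow_mem hcV _)
  · have h1 := Polynomial.divX_mul_X_add p.reverse
    have h2 : Polynomial.aeval c⁻¹ p.reverse =
        algebraMap A L p.leadingCoeff + c⁻¹ * Polynomial.aeval c⁻¹ p.reverse.divX := by
      conv_lhs => rw [← h1]
      rw [map_add, map_mul, Polynomial.aeval_X, Polynomial.aeval_C, Polynomial.coeff_zero_reverse]
      ring
    rw [← h2]
    have : Invertible c := invertibleOfNonzero hc0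
    have h3 := Polynomial.eval₂_reverse_mul_pow (algebraMap A L) c p
    rw [invOf_eq_inv] at h3
    rw [mul_comm]
    exact h3.symm

/-- an element of `A(c)` -/
theorem elt_lead (c : K) (hcK : IntermediateField.adjoin A {c} = ⊤) (V : ValuationSubring L)
    (hV : ∀ a : A, algebraMap A L a ∈ V) (hc : algebraMap K L c ∉ V) (a : K) (ha : a ≠ 0) :
    ∃ (n : ℤ) (α : A) (m : L), α ≠ 0 ∧ V.valuation m < 1 ∧
      algebraMap K L a = algebraMap K L c ^ n * (algebraMap A L α + m) := by
  have h1 : a ∈ IntermediateField.adjoin A {c} := by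
    rw [hcK]
    exact IntermediateField.mem_top
  obtain ⟨p, q, hpq⟩ := (IntermediateField.mem_adjoin_simple_iff A a).1 h1
  have hp : p ≠ 0 := by
    rintro rfl
    rw [map_zero, zero_div] at hpq
    exact ha hpq
  have hq : q ≠ 0 := by
    rintro rfl
    rw [map_zero, div_zero] at hpq
    exact ha hpq
  have hc0 : algebraMap K L c ≠ 0 := by
    intro h0
    rw [h0] at hc
    exact hc (zero_mem _)
  obtain ⟨m, hm, hpm⟩ := poly_lead (A := A) (algebraMap K L c) V hV hc p
  obtain ⟨m', hm', hqm⟩ := poly_lead (A := A) (algebraMap K L c) V hV hc q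
  have hα : p.leadingCoeff ≠ 0 := Polynomial.leadingCoeff_ne_zero.2 hp
  have hβ : q.leadingCoeff ≠ 0 := Polynomial.leadingCoeff_ne_zero.2 hq
  have hα1 := val_const V hV _ hα
  have hβ1 := val_const V hV _ hβ
  have hβ2 : V.valuation (algebraMap A L q.leadingCoeff + m') = 1 := by
    rw [← hβ1]
    exact V.valuation.map_add_eq_of_lt_left (by rw [hβ1]; exact hm')
  have hβ0 : algebraMap A L q.leadingCoeff ≠ 0 := (map_ne_zero _).2 hβ
  have hβ3 : algebraMap A L q.leadingCoeff + m' ≠ 0 := by
    intro h0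
    rw [h0, map_zero] at hβ2
    exact zero_ne_one hβ2
  refine ⟨(p.natDegree : ℤ) - q.natDegree, p.leadingCoeff / q.leadingCoeff,
    (algebraMap A L p.leadingCoeff + m) / (algebraMap A L q.leadingCoeff + m') -
      algebraMap A L (p.leadingCoeff / q.leadingCoeff), div_ne_zero hα hβ, ?_, ?_⟩
  · have h2 : (algebraMap A L p.leadingCoeff + m) / (algebraMap A L q.leadingCoeff + m') -
        algebraMap A L (p.leadingCoeff / q.leadingCoeff) =
        (algebraMap A L q.leadingCoeff * m - algebraMap A L p.leadingCoeff * m') /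
          ((algebraMap A L q.leadingCoeff + m') * algebraMap A L q.leadingCoeff) := by
      rw [map_div₀]
      field_simp
      ring
    rw [h2, map_div₀, map_mul, hβ2, hβ1, mul_one, div_one]
    refine (V.valuation.map_sub _ _).trans_lt (max_lt ?_ ?_)
    · rw [map_mul, hβ1, one_mul]
      exact hm
    · rw [map_mul, hα1, one_mul]
      exact hm'
  · rw [add_sub_cancel, zpow_sub₀ hc0, zpow_natCast, zpow_natCast, hpq, map_div₀,
      ← Polynomial.aeval_algebraMap_apply, ← Polynomial.aeval_algebraMap_apply, hpm, hqm]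
    rw [mul_div_mul_comm]

/-- a combination of elements with independent residues -/
theorem comb (c : K) (hcK : IntermediateField.adjoin A {c} = ⊤) (V : ValuationSubring L)
    (hV : ∀ a : A, algebraMap A L a ∈ V) (hc : algebraMap K L c ∉ V) {f : ℕ} (u : Fin f → L)
    (huV : ∀ j, V.valuation (u j) ≤ 1)
    (hu : ∀ α : Fin f → A, (∃ j, α j ≠ 0) →
      V.valuation (∑ j, algebraMap A L (α j) * u j) = 1)
    (a : Fin f → K) (ha : ∃ j, a j ≠ 0) :
    ∃ n : ℤ, V.valuation (∑ j, algebraMap K L (a j) * u j) =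
      V.valuation (algebraMap K L c) ^ n := by
  classical
  have hc0 : algebraMap K L c ≠ 0 := by
    intro h0
    rw [h0] at hc
    exact hc (zero_mem _)
  have hc1 : V.valuation (algebraMap K L c)⁻¹ < 1 := by
    have h1 : 1 < V.valuation (algebraMap K L c) := by
      rw [← not_le, V.valuation_le_one_iff]
      exact hc
    rw [map_inv₀]
    exact inv_lt_one_of_one_lt₀ h1
  have h1 : ∀ j, ∃ (n : ℤ) (α : A) (m : L), (a j ≠ 0 → α ≠ 0) ∧ V.valuation m < 1 ∧
      (a j ≠ 0 → algebraMap K L (a j) = algebraMap K L c ^ n * (algebraMap A L α + m)) := by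
    intro j
    by_cases hj : a j = 0
    · exact ⟨0, 0, 0, fun h => absurd hj h, by rw [map_zero]; exact zero_lt_one,
        fun h => absurd hj h⟩
    · obtain ⟨n, α, m, h1, h2, h3⟩ := elt_lead c hcK V hV hc (a j) hj
      exact ⟨n, α, m, fun _ => h1, h2, fun _ => h3⟩
  choose n α m hα hm ham using h1
  obtain ⟨j₀, hj₀, hmax⟩ := Finset.exists_max_image (Finset.univ.filter fun j => a j ≠ 0) n
    (by
      obtain ⟨j, hj⟩ := ha
      exact ⟨j, Finset.mem_filter.2 ⟨Finset.mem_univ _, hj⟩⟩)
  have ha₀ : a j₀ ≠ 0 := (Finset.mem_filter.1 hj₀).2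
  have h2 : ∀ j, ∃ (β : A) (r : L), V.valuation r < 1 ∧
      algebraMap K L (a j) = algebraMap K L c ^ n j₀ * (algebraMap A L β + r) ∧
      (j = j₀ → β ≠ 0) := by
    intro j
    by_cases hj : a j = 0
    · refine ⟨0, 0, by rw [map_zero]; exact zero_lt_one, by rw [hj]; simp, ?_⟩
      rintro rfl
      exact absurd hj ha₀
    have h3 := ham j hj
    have h4 : n j ≤ n j₀ := hmax j (Finset.mem_filter.2 ⟨Finset.mem_univ _, hj⟩)
    rcases h4.eq_or_lt with h5 | h5
    · refine ⟨α j, m j, hm j, by rw [h3, h5], fun _ => hα j hj⟩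
    · refine ⟨0, algebraMap K L c ^ (n j - n j₀) * (algebraMap A L (α j) + m j), ?_, ?_, ?_⟩
      · rw [map_mul]
        refine mul_lt_one_of_lt_of_le ?_ ?_
        · obtain ⟨k, hk⟩ : ∃ k : ℕ, n j₀ - n j = k + 1 :=
            ⟨(n j₀ - n j - 1).toNat, by omega⟩
          have h6 : n j - n j₀ = -((k + 1 : ℕ) : ℤ) := by
            push_cast
            omega
          rw [h6, zpow_neg, zpow_natCast, ← inv_pow, map_pow]
          exact pow_lt_one₀ zero_le hc1 (Nat.succ_ne_zero _)
        · rw [V.valuation_le_one_iff]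
          exact add_mem (hV _) ((V.valuation_le_one_iff _).1 (hm j).le)
      · rw [map_zero, zero_add, ← mul_assoc, ← zpow_add₀ hc0, h3]
        congr 2
        ring
      · rintro rfl
        exact absurd h5 (lt_irrefl _)
  choose β r hr hβ hβ0 using h2
  refine ⟨n j₀, ?_⟩
  have h3 : ∑ j, algebraMap K L (a j) * u j = algebraMap K L c ^ n j₀ *
      (∑ j, algebraMap A L (β j) * u j + ∑ j, r j * u j) := by
    rw [← Finset.sum_add_distrib, Finset.mul_sum]
    refine Finset.sum_congr rfl fun j _ => ?_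
    rw [hβ]
    ring
  have h4 : V.valuation (∑ j, algebraMap A L (β j) * u j) = 1 := hu β ⟨j₀, hβ0 j₀ rfl⟩
  have h5 : V.valuation (∑ j, r j * u j) < 1 := by
    refine V.valuation.map_sum_lt one_ne_zero fun j _ => ?_
    rw [map_mul]
    exact mul_lt_one_of_lt_of_le (hr j) (huV j)
  rw [h3, map_mul, map_zpow₀, V.valuation.map_add_eq_of_lt_left (by rw [h4]; exact h5), h4, mul_one]

end EF

open EF

/-- The elements `π ^ i u_j` are linearly independent over `A(c)` if the residues of the `u_j` are
linearly independent over `A` and `c π ^ e` is a unit. -/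
theorem ef {A K L : Type} [Field A] [Field K] [Field L] [Algebra A K] [Algebra K L] [Algebra A L]
    [IsScalarTower A K L] [FiniteDimensional K L] (c : K)
    (hcK : IntermediateField.adjoin A {c} = ⊤)
    (V : ValuationSubring L) (hV : ∀ a : A, algebraMap A L a ∈ V) (hc : algebraMap K L c ∉ V)
    {e f : ℕ} (t : L) (ht : V.valuation (algebraMap K L c * t ^ e) = 1) (u : Fin f → L)
    (huV : ∀ j, V.valuation (u j) ≤ 1)
    (hu : ∀ α : Fin f → A, (∃ j, α j ≠ 0) →
      V.valuation (∑ j, algebraMap A L (α j) * u j) = 1) :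
    e * f ≤ Module.finrank K L := by
  classical
  have hc1 : 1 < V.valuation (algebraMap K L c) := by
    rw [← not_le, V.valuation_le_one_iff]
    exact hc
  have hc0 : V.valuation (algebraMap K L c) ≠ 0 := (zero_lt_one.trans hc1).ne'
  rcases Nat.eq_zero_or_pos e with he | he
  · rw [he, zero_mul]
    exact Nat.zero_le _
  have ht0 : V.valuation t ≠ 0 := by
    intro h0
    rw [map_mul, map_pow, h0, zero_pow he.ne', mul_zero] at ht
    exact zero_ne_one ht
  have key : LinearIndependent K (fun p : Fin e × Fin f => t ^ (p.1 : ℕ) * u p.2) := by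
    rw [Fintype.linearIndependent_iff]
    intro a ha
    by_contra hcon
    push Not at hcon
    obtain ⟨⟨i₀, j₀⟩, h0⟩ := hcon
    have h1 : ∑ i : Fin e, t ^ (i : ℕ) * ∑ j : Fin f, algebraMap K L (a (i, j)) * u j = 0 := by
      rw [← ha, Fintype.sum_prod_type]
      refine Finset.sum_congr rfl fun i _ => ?_
      rw [Finset.mul_sum]
      refine Finset.sum_congr rfl fun j _ => ?_
      rw [Algebra.smul_def]
      ring
    set S : Fin e → L := fun i => t ^ (i : ℕ) * ∑ j : Fin f, algebraMap K L (a (i, j)) * u j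
      with hS
    have h2 : ∀ i, (∃ j, a (i, j) ≠ 0) → ∃ n : ℤ,
        V.valuation (S i) = V.valuation t ^ (i : ℕ) * V.valuation (algebraMap K L c) ^ n := by
      intro i hi
      obtain ⟨n, hn⟩ := comb c hcK V hV hc u huV hu (fun j => a (i, j)) hi
      exact ⟨n, by rw [hS]; simp only [map_mul, map_pow, hn]⟩
    have h3 : ∀ i, (¬ ∃ j, a (i, j) ≠ 0) → S i = 0 := by
      intro i hi
      push Not at hi
      rw [hS]
      simp only [hi, map_zero, zero_mul, Finset.sum_const_zero, mul_zero]
    have h4 : ∀ i i', (∃ j, a (i, j) ≠ 0) → (∃ j, a (i', j) ≠ 0) →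
        V.valuation (S i) = V.valuation (S i') → i = i' := by
      intro i i' hi hi' hii
      obtain ⟨n, hn⟩ := h2 i hi
      obtain ⟨n', hn'⟩ := h2 i' hi'
      rw [hn, hn'] at hii
      have h5 : (V.valuation (algebraMap K L c)) * V.valuation t ^ e = 1 := by
        rw [← map_pow, ← map_mul]
        exact ht
      have h6 : V.valuation t ^ e = (V.valuation (algebraMap K L c))⁻¹ :=
        eq_inv_of_mul_eq_one_right h5
      have h7 : ∀ (k : ℕ) (l : ℤ), (V.valuation t ^ k * V.valuation (algebraMap K L c) ^ l) ^ e =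
          V.valuation (algebraMap K L c) ^ (l * e - k) := by
        intro k l
        rw [mul_pow, ← pow_mul, mul_comm k e, pow_mul, h6, inv_pow, ← zpow_natCast, ← zpow_neg,
          ← zpow_natCast, ← zpow_mul, ← zpow_add₀ hc0]
        congr 1
        ring
      have h8 := congrArg (· ^ e) hii
      simp only [h7] at h8
      have h9 : n * e - (i : ℕ) = n' * e - (i' : ℕ) := zpow_right_injective₀ (zero_lt_one.trans hc1)
        hc1.ne' h8
      have h10 : ((i : ℕ) : ℤ) % e = ((i' : ℕ) : ℤ) % e := by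
        have h11 : ((i : ℕ) : ℤ) = (i' : ℕ) + (n - n') * e := by linarith
        rw [h11, Int.add_mul_emod_self_right]
      have h12 : (i : ℕ) % e = (i' : ℕ) % e := by exact_mod_cast h10
      rw [Nat.mod_eq_of_lt i.2, Nat.mod_eq_of_lt i'.2] at h12
      exact Fin.ext h12
    obtain ⟨i₁, hi₁, hmax⟩ := Finset.exists_max_image
      (Finset.univ.filter fun i : Fin e => ∃ j, a (i, j) ≠ 0) (fun i => V.valuation (S i))
      ⟨i₀, Finset.mem_filter.2 ⟨Finset.mem_univ _, ⟨j₀, h0⟩⟩⟩
    have hi₁' : ∃ j, a (i₁, j) ≠ 0 := (Finset.mem_filter.1 hi₁).2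
    have h5 : V.valuation (S i₁) ≠ 0 := by
      obtain ⟨n, hn⟩ := h2 i₁ hi₁'
      rw [hn]
      exact mul_ne_zero (pow_ne_zero _ ht0) (zpow_ne_zero _ hc0)
    have h6 : V.valuation (∑ i ∈ Finset.univ.erase i₁, S i) < V.valuation (S i₁) := by
      refine V.valuation.map_sum_lt h5 fun i hi => ?_
      by_cases h7 : ∃ j, a (i, j) ≠ 0
      · refine lt_of_le_of_ne (hmax i (Finset.mem_filter.2 ⟨Finset.mem_univ _, h7⟩)) fun h8 => ?_
        exact Finset.ne_of_mem_erase hi (h4 _ _ h7 hi₁' h8)
      · rw [h3 i h7, map_zero]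
        exact zero_lt_iff.2 h5
    have h7 : ∑ i, S i = S i₁ + ∑ i ∈ Finset.univ.erase i₁, S i :=
      (Finset.add_sum_erase _ _ (Finset.mem_univ _)).symm
    have h8 := V.valuation.map_add_eq_of_lt_left h6
    rw [← h7, h1, map_zero] at h8
    exact h5 h8.symm
  have h1 := key.fintype_card_le_finrank
  rwa [Fintype.card_prod, Fintype.card_fin, Fintype.card_fin] at h1

end Pool.Agent.PNH
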