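import Mathlib
import Pool.Agent.PNH.Defs

set_option autoImplicit false

/-!
# Fixed points of a generic morphism for a valuation
-/

namespace Pool.Agent.PNH

namespace GFix

variable {L Γ : Type} [Field L] [LinearOrderedCommGroupWithZero Γ]

/-- the value of a polynomial at a vector in the unit ball, one coefficient excepted -/
theorem rest_le (v : Valuation L Γ) {n d : ℕ} (P : MvPolynomial (Fin n) L) (j : Fin n)
    (ho : ∀ m, m ≠ Finsupp.single j d → v (P.coeff m) ≤ 1) (x : Fin n → L)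
    (hx : ∀ i, v (x i) ≤ 1) :
    v (MvPolynomial.eval x P - P.coeff (Finsupp.single j d) * x j ^ d) ≤ 1 := by
  classical
  have h1 : MvPolynomial.eval x P - P.coeff (Finsupp.single j d) * x j ^ d =
      ∑ m ∈ P.support.erase (Finsupp.single j d), P.coeff m * ∏ i, x i ^ m i := by
    rw [MvPolynomial.eval_eq']
    have h2 : ∏ i, x i ^ (Finsupp.single j d i) = x j ^ d := by
      rw [Finset.prod_eq_single j]
      · rw [Finsupp.single_eq_same]
      · intro i _ hi
        rw [Finsupp.single_eq_of_ne hi, pow_zero]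
      · intro h
        exact absurd (Finset.mem_univ _) h
    by_cases hm : Finsupp.single j d ∈ P.support
    · rw [← Finset.add_sum_erase _ _ hm, h2]
      ring
    · rw [Finset.erase_eq_of_notMem hm, MvPolynomial.notMem_support_iff.1 hm]
      ring
  rw [h1]
  refine v.map_sum_le fun m hm => ?_
  rw [map_mul, map_prod]
  refine mul_le_one' (ho m (Finset.ne_of_mem_erase hm)) ?_
  refine Finset.prod_le_one' fun i _ => ?_
  rw [map_pow]
  exact pow_le_one' (hx i) _

/-- the computation with the values -/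
theorem values {Λ g : Γ} (hg : g ≠ 0) {N d B : ℕ} (hN : 1 ≤ N) (hd : 2 ≤ d)
    (Y : ℕ → Γ) (hY : ∀ k, Y k ≠ 0) (h1 : ∀ k, k < N → Λ * Y (k + 1) = g ^ B * Y k ^ d)
    (h2 : Λ * Y 0 = g ^ (B + 1) * Y N ^ d) :
    (Y 0 / Y 1) ^ (∑ i ∈ Finset.range (N + 1), d ^ i) = g := by
  have hS : ∀ k, ∑ i ∈ Finset.range (k + 1), d ^ i =
      1 + d * ∑ i ∈ Finset.range k, d ^ i := by
    intro k
    rw [Finset.sum_range_succ', Finset.mul_sum, pow_zero, add_comm]
    congr 1
    refine Finset.sum_congr rfl fun i _ => ?_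
    rw [pow_succ, mul_comm]
  have hk : ∀ k, k ≤ N → Λ ^ (∑ i ∈ Finset.range k, d ^ i) * Y k =
      (g ^ B) ^ (∑ i ∈ Finset.range k, d ^ i) * Y 0 ^ d ^ k := by
    intro k
    induction k with
    | zero => intro _; simp
    | succ k ih =>
      intro hk
      have h3 := ih (by omega)
      rw [hS, pow_add, pow_one, mul_comm Λ, mul_assoc, h1 k (by omega), pow_mul' Λ,
        mul_left_comm, ← mul_pow, h3, mul_pow, pow_add, pow_one, ← pow_mul' (g ^ B),
        ← pow_mul (Y 0), ← pow_succ, mul_assoc]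
  set S := ∑ i ∈ Finset.range (N + 1), d ^ i with hSdef
  have h3 : Λ ^ S * Y 0 = g * ((g ^ B) ^ S * Y 0 ^ d ^ (N + 1)) := by
    have h4 := hk N le_rfl
    have h5 : S = 1 + d * ∑ i ∈ Finset.range N, d ^ i := hS N
    rw [h5, pow_add, pow_one, mul_comm Λ, mul_assoc, h2, pow_mul' Λ, mul_left_comm, ← mul_pow, h4,
      mul_pow, pow_add (g ^ B), pow_one, ← pow_mul' (g ^ B), ← pow_mul (Y 0), ← pow_succ d,
      pow_succ g B, mul_comm (g ^ B) g]
    simp only [mul_assoc]
  have h4 : d ^ (N + 1) = (d - 1) * S + 1 := by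
    have h5 := Nat.geomSum_eq hd (N + 1)
    have h6 : (d - 1) ∣ d ^ (N + 1) - 1 := by
      have := Nat.sub_dvd_pow_sub_pow d 1 (N + 1)
      rwa [one_pow] at this
    have h7 : (d - 1) * S = d ^ (N + 1) - 1 := by
      rw [hSdef, h5]
      exact Nat.mul_div_cancel' h6
    have h8 : 1 ≤ d ^ (N + 1) := Nat.one_le_pow _ _ (by omega)
    omega
  rw [h4, pow_succ, ← mul_assoc, ← mul_assoc] at h3
  have h5 := mul_right_cancel₀ (hY 0) h3
  have h6 : Λ * Y 1 = g ^ B * Y 0 ^ d := h1 0 (by omega)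
  have h7 : (Λ * Y 1) ^ S = (g ^ B * Y 0 ^ d) ^ S := by rw [h6]
  rw [mul_pow, mul_pow, h5] at h7
  have h8 : (Y 0 ^ d) ^ S = Y 0 ^ ((d - 1) * S) * Y 0 ^ S := by
    rw [← pow_mul, ← pow_add]
    congr 1
    have : d = (d - 1) + 1 := by omega
    conv_lhs => rw [this]
    ring
  have hne : (g ^ B) ^ S * Y 0 ^ ((d - 1) * S) ≠ 0 :=
    mul_ne_zero (pow_ne_zero _ (pow_ne_zero _ hg)) (pow_ne_zero _ (hY 0))
  have h9 : (g ^ B) ^ S * Y 0 ^ ((d - 1) * S) * (g * Y 1 ^ S) =
      (g ^ B) ^ S * Y 0 ^ ((d - 1) * S) * Y 0 ^ S := by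
    rw [mul_assoc ((g ^ B) ^ S) _ (Y 0 ^ S), ← h8, ← h7]
    simp only [mul_assoc, mul_comm, mul_left_comm]
  have h10 := mul_left_cancel₀ hne h9
  rw [div_pow, ← h10, mul_div_cancel_right₀ _ (pow_ne_zero _ (hY 1))]

end GFix

open GFix
open Fin.NatCast

/-- a fixed point has a large denominator -/
theorem fix_val {L Γ : Type} [Field L] [LinearOrderedCommGroupWithZero Γ] (v : Valuation L Γ)
    (g : Γ) (hg : 1 < g) {N d B : ℕ} (hN : 1 ≤ N) (hd : 2 ≤ d) (hB : 2 ≤ B) (F : Tup N L)
    (hF : ∀ i, (F i).IsHomogeneous d)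
    (hc : ∀ i, v ((F i).coeff (Finsupp.single (i - 1) d)) = if i = 0 then g ^ (B + 1) else g ^ B)
    (ho : ∀ i m, m ≠ Finsupp.single (i - 1) d → v ((F i).coeff m) ≤ 1) (q : Fin (N + 1) → L)
    (hq : q ≠ 0) (hp : Par (app F q) q) :
    q 0 ≠ 0 ∧ q 1 ≠ 0 ∧ v (q 0 / q 1) ^ (∑ i ∈ Finset.range (N + 1), d ^ i) = g := by
  classical
  have hg0 : g ≠ 0 := (zero_lt_one.trans hg).ne'
  obtain ⟨j, -, hj⟩ := Finset.exists_max_image Finset.univ (fun j => v (q j)) Finset.univ_nonempty
  have hqj : q j ≠ 0 := by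
    intro h0
    apply hq
    funext i
    have h1 := hj i (Finset.mem_univ _)
    rw [h0, map_zero] at h1
    exact (map_eq_zero v).1 (le_antisymm h1 zero_le)
  -- normalisation
  obtain ⟨x, hx⟩ : ∃ x, x = (q j)⁻¹ • q := ⟨_, rfl⟩
  have hxi : ∀ i, x i = (q j)⁻¹ * q i := fun i => by rw [hx]; rfl
  have hxj : x j = 1 := by rw [hxi, inv_mul_cancel₀ hqj]
  have hx1 : ∀ i, v (x i) ≤ 1 := by
    intro i
    rw [hxi, map_mul, map_inv₀]
    have h0 : v (q j) ≠ 0 := (Valuation.ne_zero_iff v).2 hqj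
    calc (v (q j))⁻¹ * v (q i) ≤ (v (q j))⁻¹ * v (q j) :=
          mul_le_mul_right (hj i (Finset.mem_univ _)) _
      _ = 1 := inv_mul_cancel₀ h0
  have hpx : Par (app F x) x := by
    intro a b
    have h1 := hp a b
    rw [hx, app_smul d F hF]
    simp only [Pi.smul_apply, smul_eq_mul]
    linear_combination (q j)⁻¹ ^ d * (q j)⁻¹ * h1
  obtain ⟨l, hl⟩ : ∃ l, l = app F x j := ⟨_, rfl⟩
  have hfix : ∀ i, app F x i = l * x i := by
    intro i
    have h1 := hpx i j
    rw [hxj, mul_one] at h1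
    rw [h1, hl]
  have hrest : ∀ i, v (l * x i - (F i).coeff (Finsupp.single (i - 1) d) * x (i - 1) ^ d) ≤ 1 := by
    intro i
    rw [← hfix i]
    exact rest_le v (F i) (i - 1) (ho i) x hx1
  obtain ⟨a, ha⟩ : ∃ a : Fin (N + 1) → Γ, ∀ i, a i = if i = 0 then g ^ (B + 1) else g ^ B :=
    ⟨_, fun i => rfl⟩
  have haB : ∀ i, g ^ B ≤ a i := by
    intro i
    rw [ha]
    split_ifs
    · exact pow_le_pow_right₀ hg.le (Nat.le_succ _)
    · exact le_rfl
  have haB' : ∀ i, a i ≤ g ^ (B + 1) := by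
    intro i
    rw [ha]
    split_ifs
    · exact le_rfl
    · exact pow_le_pow_right₀ hg.le (Nat.le_succ _)
  have hmain : ∀ i, v ((F i).coeff (Finsupp.single (i - 1) d) * x (i - 1) ^ d) =
      a i * v (x (i - 1)) ^ d := by
    intro i
    rw [map_mul, map_pow, hc, ha]
  -- if one of the two sides is larger than one they are equal
  have heq : ∀ i, 1 < a i * v (x (i - 1)) ^ d ∨ 1 < v l * v (x i) →
      a i * v (x (i - 1)) ^ d = v l * v (x i) := by
    intro i h
    rw [← hmain, ← map_mul v l] at h ⊢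
    have h1 := hrest i
    rcases h with h | h
    · have h2 := v.map_add_eq_of_lt_right (h1.trans_lt h)
      rw [sub_add_cancel] at h2
      exact h2.symm
    · rw [Valuation.map_sub_swap] at h1
      have h2 := v.map_add_eq_of_lt_right (h1.trans_lt h)
      rw [sub_add_cancel] at h2
      exact h2
  have hL : g ^ B ≤ v l := by
    have h1 := heq (j + 1) (Or.inl (by
      rw [add_sub_cancel_right, hxj, map_one, one_pow, mul_one]
      exact (one_lt_pow₀ hg (by omega)).trans_le (haB _)))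
    rw [add_sub_cancel_right, hxj, map_one, one_pow, mul_one] at h1
    calc g ^ B ≤ a (j + 1) := haB _
      _ = v l * v (x (j + 1)) := h1
      _ ≤ v l * 1 := mul_le_mul_right (hx1 _) _
      _ = v l := mul_one _
  have hgB : 1 < g ^ (B - 1) := one_lt_pow₀ hg (by omega)
  have hBs : g ^ B = g ^ (B - 1) * g := by
    rw [← pow_succ]
    congr 1
    omega
  -- a coordinate which is not small
  have hbig : ∀ i, 1 ≤ g * v (x i) → 1 < v l * v (x i) := by
    intro i hi
    calc 1 < g ^ (B - 1) := hgB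
      _ = g ^ (B - 1) * 1 := (mul_one _).symm
      _ ≤ g ^ (B - 1) * (g * v (x i)) := mul_le_mul_right hi _
      _ = g ^ B * v (x i) := by rw [hBs, mul_assoc]
      _ ≤ v l * v (x i) := mul_le_mul_left hL _
  have hlow : ∀ k : ℕ, 1 ≤ g * v (x (j - (k : Fin (N + 1)))) := by
    intro k
    induction k with
    | zero =>
      rw [Nat.cast_zero, sub_zero, hxj, map_one, mul_one]
      exact hg.le
    | succ k ih =>
      obtain ⟨i, hi⟩ : ∃ i, i = j - (k : Fin (N + 1)) := ⟨_, rfl⟩
      rw [← hi] at ih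
      have h1 : j - ((k + 1 : ℕ) : Fin (N + 1)) = i - 1 := by
        rw [hi]
        push_cast
        rw [sub_sub]
      rw [h1]
      have h2 := heq i (Or.inr (hbig i ih))
      by_contra hcon
      rw [not_le] at hcon
      have h3 : (g * v (x (i - 1))) ^ d < 1 := pow_lt_one₀ zero_le hcon (by omega)
      have h4 : g ^ (B - 1) ≤ g ^ (B + 1) * v (x (i - 1)) ^ d := by
        calc g ^ (B - 1) = g ^ (B - 1) * 1 := (mul_one _).symm
          _ ≤ g ^ (B - 1) * (g * v (x i)) := mul_le_mul_right ih _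
          _ = g ^ B * v (x i) := by rw [hBs, mul_assoc]
          _ ≤ v l * v (x i) := mul_le_mul_left hL _
          _ = a i * v (x (i - 1)) ^ d := h2.symm
          _ ≤ g ^ (B + 1) * v (x (i - 1)) ^ d := mul_le_mul_left (haB' i) _
      have h5 : g ^ (B + 1) = g ^ (B - 1) * g ^ 2 := by
        rw [← pow_add]
        congr 1
        omega
      have h6 : 1 ≤ g ^ 2 * v (x (i - 1)) ^ d := by
        rw [h5, mul_assoc] at h4
        by_contra h7
        rw [not_le] at h7
        have h8 := mul_lt_mul_of_pos_left h7 (zero_lt_iff.2 (pow_ne_zero (B - 1) hg0))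
        rw [mul_one] at h8
        exact absurd h4 (not_le.2 h8)
      have h7 : g ^ 2 * v (x (i - 1)) ^ d ≤ (g * v (x (i - 1))) ^ d := by
        rw [mul_pow]
        exact mul_le_mul_left (pow_le_pow_right₀ hg.le hd) _
      exact absurd (h6.trans h7) (not_le.2 h3)
  have hall : ∀ i, 1 ≤ g * v (x i) := by
    intro i
    have h1 := hlow ((j - i : Fin (N + 1)) : ℕ)
    rw [Fin.cast_val_eq_self, sub_sub_cancel] at h1
    exact h1
  have hne : ∀ i, v (x i) ≠ 0 := by
    intro i h0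
    have h1 := hall i
    rw [h0, mul_zero] at h1
    exact absurd h1 (not_le.2 zero_lt_one)
  have hrec : ∀ i, v l * v (x i) = a i * v (x (i - 1)) ^ d := fun i =>
    (heq i (Or.inr (hbig i (hall i)))).symm
  have hxq : ∀ i, q i ≠ 0 := by
    intro i h0
    apply hne i
    rw [hxi, h0, mul_zero, map_zero]
  refine ⟨hxq 0, hxq 1, ?_⟩
  have hquot : v (q 0 / q 1) = v (x 0) / v (x 1) := by
    rw [← map_div₀, hxi, hxi, mul_div_mul_left _ _ (inv_ne_zero hqj)]
  rw [hquot]
  have h0 : ((0 : ℕ) : Fin (N + 1)) = 0 := Nat.cast_zero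
  have h1 : ((1 : ℕ) : Fin (N + 1)) = 1 := Nat.cast_one
  have hfin := values (Λ := v l) (g := g) (B := B) hg0 hN hd
    (fun k => v (x (k : Fin (N + 1)))) (fun k => hne _) (fun k hk => by
      have h2 := hrec ((k + 1 : ℕ) : Fin (N + 1))
      have h3 : ((k + 1 : ℕ) : Fin (N + 1)) ≠ 0 := by
        intro h4
        have h5 := congrArg Fin.val h4
        rw [Fin.val_natCast, Nat.mod_eq_of_lt (by omega)] at h5
        simp at h5
      have h4 : ((k + 1 : ℕ) : Fin (N + 1)) - 1 = (k : Fin (N + 1)) := by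
        push_cast
        rw [add_sub_cancel_right]
      rw [ha, if_neg h3, h4] at h2
      exact h2) (by
      have h2 := hrec 0
      have h3 : (0 : Fin (N + 1)) - 1 = ((N : ℕ) : Fin (N + 1)) := by
        rw [sub_eq_iff_eq_add]
        have h4 : ((N + 1 : ℕ) : Fin (N + 1)) = 0 := Fin.natCast_self _
        push_cast at h4
        exact h4.symm
      rw [ha, if_pos rfl, h3] at h2
      simpa using h2)
  simpa using hfin

end Pool.Agent.PNH
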