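import Mathlib
import Pool.Agent.PNH.Defs
import Pool.Agent.PNH.Prm

set_option autoImplicit false

/-!
# Periods of a morphism at a prime of good reduction
-/

namespace Pool.Agent.PNH

open IsLocalRing

namespace PerA

section poly

variable {N : ℕ} {A B : Type} [CommRing A] [CommRing B]

/-- The Jacobian matrix. -/
noncomputable def jac (G : Tup N A) (x : Fin (N + 1) → A) :
    Matrix (Fin (N + 1)) (Fin (N + 1)) A :=
  fun i j => MvPolynomial.eval x (MvPolynomial.pderiv j (G i))

theorem taylor_poly (P : MvPolynomial (Fin (N + 1)) A) (x y : Fin (N + 1) → A) (c : A) :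
    ∃ r, MvPolynomial.eval (x + c • y) P = MvPolynomial.eval x P +
      c * ∑ j, MvPolynomial.eval x (MvPolynomial.pderiv j P) * y j + c ^ 2 * r := by
  classical
  induction P using MvPolynomial.induction_on with
  | C a => exact ⟨0, by simp⟩
  | add P Q hP hQ =>
    obtain ⟨r, hr⟩ := hP
    obtain ⟨s, hs⟩ := hQ
    refine ⟨r + s, ?_⟩
    rw [map_add, hr, hs]
    simp only [map_add, add_mul, Finset.sum_add_distrib]
    ring
  | mul_X P i hP =>
    obtain ⟨r, hr⟩ := hP
    have h : ∀ j, MvPolynomial.eval x (MvPolynomial.pderiv j (P * MvPolynomial.X i)) * y j =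
        x i * (MvPolynomial.eval x (MvPolynomial.pderiv j P) * y j) +
          MvPolynomial.eval x P * (if j = i then y j else 0) := by
      intro j
      rw [Derivation.leibniz, MvPolynomial.pderiv_X]
      rcases eq_or_ne j i with rfl | hji
      · simp
        ring
      · simp [hji, hji.symm]
        ring
    simp only [h, Finset.sum_add_distrib, ← Finset.mul_sum, Finset.sum_ite_eq', Finset.mem_univ,
      if_true]
    rw [map_mul, hr, MvPolynomial.eval_X, map_mul, MvPolynomial.eval_X]
    simp only [Pi.add_apply, Pi.smul_apply, smul_eq_mul]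
    refine ⟨r * (x i + c * y i) + (∑ j, MvPolynomial.eval x (MvPolynomial.pderiv j P) * y j) *
      y i, ?_⟩
    ring

theorem taylor (G : Tup N A) (x y : Fin (N + 1) → A) (c : A) :
    ∃ r : Fin (N + 1) → A, app G (x + c • y) = app G x + c • (jac G x).mulVec y + c ^ 2 • r := by
  choose r hr using fun i => taylor_poly (G i) x y c
  refine ⟨r, funext fun i => ?_⟩
  exact hr i

theorem jac_mp (f : A →+* B) (G : Tup N A) (x : Fin (N + 1) → A) :
    jac (mp f G) (fun i => f (x i)) = (jac G x).map f := by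
  funext i j
  change MvPolynomial.eval (fun i => f (x i)) (MvPolynomial.pderiv j (MvPolynomial.map f (G i))) =
    f (MvPolynomial.eval x (MvPolynomial.pderiv j (G i)))
  rw [MvPolynomial.pderiv_map]
  exact congrFun (app_mp f (fun _ => MvPolynomial.pderiv j (G i)) x) i

theorem jac_smul (D : ℕ) (G : Tup N A) (hG : ∀ i, (G i).IsHomogeneous D) (u : A)
    (x : Fin (N + 1) → A) : jac G (u • x) = u ^ (D - 1) • jac G x := by
  funext i j
  exact congrFun (app_smul (D - 1) (fun _ => MvPolynomial.pderiv j (G i))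
    (fun _ => (hG i).pderiv) u x) i

/-- Iterates of a tuple of forms. -/
noncomputable def itr (F : Tup N A) : ℕ → Tup N A
  | 0 => fun i => MvPolynomial.X i
  | n + 1 => fun i => MvPolynomial.aeval (itr F n) (F i)

theorem app_itr (F : Tup N A) (n : ℕ) : app (itr F n) = (app F)^[n] := by
  induction n with
  | zero =>
    funext x i
    simp [app, itr]
  | succ n ih =>
    funext x i
    rw [Function.iterate_succ_apply', ← ih]
    change MvPolynomial.eval x (MvPolynomial.aeval (itr F n) (F i)) =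
      MvPolynomial.eval (fun j => MvPolynomial.eval x (itr F n j)) (F i)
    induction F i using MvPolynomial.induction_on with
    | C a => simp
    | add P Q hP hQ => simp only [map_add, hP, hQ]
    | mul_X P j hP => simp only [map_mul, hP, MvPolynomial.aeval_X, MvPolynomial.eval_X]

theorem hom_itr (d : ℕ) (F : Tup N A) (hF : ∀ i, (F i).IsHomogeneous d) (n : ℕ) :
    ∀ i, (itr F n i).IsHomogeneous (d ^ n) := by
  induction n with
  | zero =>
    intro i
    exact MvPolynomial.isHomogeneous_X A i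
  | succ n ih =>
    intro i
    have := (hF i).aeval (itr F n) ih
    exact this

end poly

section iterate

variable {N : ℕ} {A : Type} [CommRing A]

/-- A homogeneous map that multiplies `x` by a unit: so do its iterates. -/
theorem iter_par (f : (Fin (N + 1) → A) → Fin (N + 1) → A) (D : ℕ)
    (hf : ∀ (u : A) (y : Fin (N + 1) → A), f (u • y) = u ^ D • f y) (x : Fin (N + 1) → A)
    (h : ∃ u : A, IsUnit u ∧ f x = u • x) (j : ℕ) : ∃ u : A, IsUnit u ∧ f^[j] x = u • x := by
  obtain ⟨v, hv, hx⟩ := h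
  induction j with
  | zero => exact ⟨1, isUnit_one, (one_smul _ _).symm⟩
  | succ j ih =>
    obtain ⟨u, hu, h⟩ := ih
    refine ⟨u ^ D * v, (hu.pow D).mul hv, ?_⟩
    rw [Function.iterate_succ_apply', h, hf, hx, smul_smul]

theorem iter_hom (f : (Fin (N + 1) → A) → Fin (N + 1) → A) (D : ℕ)
    (hf : ∀ (u : A) (y : Fin (N + 1) → A), f (u • y) = u ^ D • f y) (n : ℕ) (u : A)
    (y : Fin (N + 1) → A) : f^[n] (u • y) = u ^ D ^ n • f^[n] y := by
  induction n generalizing u y with
  | zero => simp
  | succ n ih =>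
    rw [Function.iterate_succ_apply, Function.iterate_succ_apply, hf, ih, ← pow_mul, pow_succ']

end iterate

section pigeon

theorem pigeon {M : Type} [Finite M] (S : ℕ) (hS : Nat.card M ≤ S) (f : ℕ → M) :
    ∃ i j, i < j ∧ j ≤ S ∧ f i = f j := by
  classical
  have : Fintype M := Fintype.ofFinite M
  obtain ⟨i, j, hne, h⟩ := Fintype.exists_ne_map_eq_of_card_lt (fun i : Fin (S + 1) => f (i : ℕ))
    (by rw [← Nat.card_eq_fintype_card, Fintype.card_fin]; omega)
  rcases lt_or_gt_of_ne hne with h1 | h1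
  · exact ⟨i, j, h1, by omega, h⟩
  · exact ⟨j, i, h1, by omega, h.symm⟩

theorem exists_idem {M : Type} [Monoid M] [Finite M] (S : ℕ) (hS : Nat.card M ≤ S) (a : M) :
    a ^ S.factorial * a ^ S.factorial = a ^ S.factorial ∧
      ∀ m, 1 ≤ m → a ^ (S.factorial * m) = a ^ S.factorial := by
  obtain ⟨i, j, hij, hj, h⟩ := pigeon S hS (fun t => a ^ t)
  obtain ⟨r, rfl⟩ : ∃ r, j = i + r := ⟨j - i, by omega⟩
  have hr : 0 < r := by omega
  have h1 : ∀ s, i ≤ s → a ^ (s + r) = a ^ s := by
    intro s hs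
    obtain ⟨t, rfl⟩ : ∃ t, s = t + i := ⟨s - i, by omega⟩
    rw [add_assoc, pow_add a t, ← h, pow_add a t]
  have h2 : ∀ l s, i ≤ s → a ^ (s + r * l) = a ^ s := by
    intro l
    induction l with
    | zero => intro s _; simp
    | succ l ih =>
      intro s hs
      rw [mul_add, mul_one, ← add_assoc, h1 _ (by omega), ih s hs]
  obtain ⟨k, hk⟩ : r ∣ S.factorial := Nat.dvd_factorial hr (by omega)
  have hi : i ≤ S.factorial := le_trans (by omega) (Nat.self_le_factorial S)
  have h3 : ∀ m, 1 ≤ m → a ^ (S.factorial * m) = a ^ S.factorial := by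
    intro m hm
    obtain ⟨m, rfl⟩ : ∃ l, m = l + 1 := ⟨m - 1, by omega⟩
    have : S.factorial * (m + 1) = S.factorial + r * (k * m) := by
      rw [mul_add, mul_one, add_comm, ← mul_assoc, ← hk]
    rw [this, h2 _ _ hi]
  refine ⟨?_, h3⟩
  rw [← pow_add, ← mul_two, h3 2 (by omega)]

theorem exists_period {κ : Type} [Field κ] [Finite κ] {N : ℕ}
    (f : (Fin (N + 1) → κ) → Fin (N + 1) → κ) (D : ℕ)
    (hf : ∀ (u : κ) (y : Fin (N + 1) → κ), f (u • y) = u ^ D • f y) (x : Fin (N + 1) → κ) (n : ℕ)
    (hn : 1 ≤ n) (h : ∃ u : κ, IsUnit u ∧ f^[n] x = u • x) (S : ℕ)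
    (hS : Nat.card (Fin (N + 1) → κ) ≤ S) :
    ∃ u : κ, IsUnit u ∧ f^[S.factorial] x = u • x := by
  obtain ⟨i, j, hij, hj, h0⟩ := pigeon S hS (fun t => f^[t] x)
  obtain ⟨r, rfl⟩ : ∃ r, j = r + i := ⟨j - i, by omega⟩
  have hr : 0 < r := by omega
  have h1 : ∀ s, i ≤ s → f^[s + r] x = f^[s] x := by
    intro s hs
    obtain ⟨t, rfl⟩ : ∃ t, s = t + i := ⟨s - i, by omega⟩
    rw [add_assoc, add_comm i r, Function.iterate_add_apply, ← h0, ← Function.iterate_add_apply]
  obtain ⟨u, hu, h2⟩ := iter_par (f^[n]) (D ^ n) (iter_hom f D hf n) x h i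
  rw [← Function.iterate_mul] at h2
  have h3 : f^[r] (u • x) = u • x := by
    rw [← h2, ← Function.iterate_add_apply, add_comm r (n * i), h1 _ (Nat.le_mul_of_pos_left i hn)]
  rw [iter_hom f D hf] at h3
  have hu0 : u ≠ 0 := hu.ne_zero
  have h4 : f^[r] x = ((u ^ D ^ r)⁻¹ * u) • x := by
    rw [mul_smul, ← h3, smul_smul, inv_mul_cancel₀ (pow_ne_zero _ hu0), one_smul]
  obtain ⟨k, hk⟩ : r ∣ S.factorial := Nat.dvd_factorial hr (by omega)
  rw [hk, Function.iterate_mul]
  exact iter_par (f^[r]) (D ^ r) (iter_hom f D hf r) x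
    ⟨_, (mul_ne_zero (inv_ne_zero (pow_ne_zero _ hu0)) hu0).isUnit, h4⟩ k

end pigeon

section data

variable {N : ℕ} {R : Type} [CommRing R] [IsLocalRing R]

theorem iter_data (D : ℕ) (hD : 1 ≤ D) (G : Tup N R) (hG : ∀ i, (G i).IsHomogeneous D)
    (x : Fin (N + 1) → R) (lam : ResidueField R) (hlam : lam ≠ 0)
    (hx : (fun i => residue R (app G x i)) = lam • fun i => residue R (x i)) (t : ℕ) :
    ∃ u : ResidueField R, u ≠ 0 ∧
      (fun i => residue R ((app G)^[t] x i)) = u • (fun i => residue R (x i)) ∧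
      ∃ M : Matrix (Fin (N + 1)) (Fin (N + 1)) R,
        (∀ (c : R) (y : Fin (N + 1) → R), ∃ r : Fin (N + 1) → R,
          (app G)^[t] (x + c • y) = (app G)^[t] x + c • M.mulVec y + c ^ 2 • r) ∧
        M.map (residue R) = u • (lam⁻¹ • (jac G x).map (residue R)) ^ t := by
  induction t with
  | zero =>
    refine ⟨1, one_ne_zero, by simp, 1, fun c y => ⟨0, by simp⟩, ?_⟩
    rw [pow_zero, one_smul, Matrix.map_one _ (map_zero _) (map_one _)]
  | succ t ih =>
    obtain ⟨u, hu, h1, M, h2, h3⟩ := ih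
    have hb : (fun i => residue R ((app G)^[t + 1] x i)) =
        (u ^ D * lam) • (fun i => residue R (x i)) := by
      rw [Function.iterate_succ_apply', ← app_mp, h1, app_smul D _ (hom_mp D _ G hG), app_mp, hx,
        smul_smul]
    refine ⟨u ^ D * lam, mul_ne_zero (pow_ne_zero _ hu) hlam, hb, jac G ((app G)^[t] x) * M, ?_, ?_⟩
    · intro c y
      obtain ⟨r, hr⟩ := h2 c y
      obtain ⟨r', hr'⟩ := taylor G ((app G)^[t] x) (M.mulVec y + c • r) c
      refine ⟨(jac G ((app G)^[t] x)).mulVec r + r', ?_⟩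
      rw [Function.iterate_succ_apply', Function.iterate_succ_apply', hr]
      have h4 : (app G)^[t] x + c • M.mulVec y + c ^ 2 • r =
          (app G)^[t] x + c • (M.mulVec y + c • r) := by
        rw [smul_add, smul_smul, ← pow_two, add_assoc]
      rw [h4, hr', Matrix.mulVec_add, Matrix.mulVec_smul, ← Matrix.mulVec_mulVec]
      simp only [smul_add, smul_smul, ← pow_two]
      abel
    · rw [Matrix.map_mul, h3, ← jac_mp, h1, jac_smul D _ (hom_mp D _ G hG), jac_mp, pow_succ']
      obtain ⟨D, rfl⟩ : ∃ l, D = l + 1 := ⟨D - 1, by omega⟩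
      rw [Nat.add_sub_cancel, Matrix.smul_mul, Matrix.mul_smul, Matrix.smul_mul, smul_smul,
        smul_smul]
      have h4 : u ^ D * u = u ^ (D + 1) * lam * lam⁻¹ := by
        rw [mul_assoc, mul_inv_cancel₀ hlam, mul_one, pow_succ]
      rw [h4]

end data

section main

variable {N : ℕ} {R : Type} [CommRing R] [IsDomain R] [ValuationRing R]

theorem exists_dvd (w : Fin (N + 1) → R) : ∃ k, ∀ j, w k ∣ w j := by
  classical
  have h : ∀ s : Finset (Fin (N + 1)), s.Nonempty → ∃ k ∈ s, ∀ j ∈ s, w k ∣ w j := by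
    intro s hs
    induction hs using Finset.Nonempty.cons_induction with
    | singleton a => exact ⟨a, by simp, by simp⟩
    | cons a s ha hs ih =>
      obtain ⟨k, hk, h⟩ := ih
      rcases ValuationRing.dvd_total (w a) (w k) with h1 | h1
      · refine ⟨a, by simp, fun j hj => ?_⟩
        rcases Finset.mem_cons.1 hj with rfl | hj
        · exact dvd_rfl
        · exact h1.trans (h j hj)
      · refine ⟨k, by simp [hk], fun j hj => ?_⟩
        rcases Finset.mem_cons.1 hj with rfl | hj
        · exact h1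
        · exact h j hj
  obtain ⟨k, -, hk⟩ := h Finset.univ Finset.univ_nonempty
  exact ⟨k, fun j => hk j (Finset.mem_univ j)⟩

omit [IsDomain R] [ValuationRing R] in
theorem one_add_pow (c : R) (D : ℕ) : ∃ z : R, (1 + c) ^ D = 1 + D * c + c ^ 2 * z := by
  induction D with
  | zero => exact ⟨0, by simp⟩
  | succ D ih =>
    obtain ⟨z, hz⟩ := ih
    refine ⟨D + z * (1 + c), ?_⟩
    rw [pow_succ, hz]
    push_cast
    ring

theorem mulVec_bar (M : Matrix (Fin (N + 1)) (Fin (N + 1)) R) (y : Fin (N + 1) → R)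
    (i : Fin (N + 1)) : residue R (M.mulVec y i) =
      (M.map (residue R)).mulVec (fun j => residue R (y j)) i :=
  RingHom.map_mulVec (residue R) M y i

theorem main (Ψ : (Fin (N + 1) → R) → Fin (N + 1) → R) (D : ℕ)
    (hom : ∀ (u : R) (y : Fin (N + 1) → R), Ψ (u • y) = u ^ D • Ψ y) (x : Fin (N + 1) → R)
    (i₀ : Fin (N + 1)) (hi₀ : IsUnit (x i₀)) (lam : ResidueField R) (hlam : lam ≠ 0)
    (hx : (fun i => residue R (Ψ x i)) = lam • fun i => residue R (x i))
    (M : Matrix (Fin (N + 1)) (Fin (N + 1)) R)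
    (hM : ∀ (c : R) (y : Fin (N + 1) → R), ∃ r : Fin (N + 1) → R,
      Ψ (x + c • y) = Ψ x + c • M.mulVec y + c ^ 2 • r)
    (E : Matrix (Fin (N + 1)) (Fin (N + 1)) (ResidueField R))
    (hME : M.map (residue R) = lam • E) (hE : E * E = E) (n : ℕ)
    (hn : (n : ResidueField R) ≠ 0) (hp : Par (Ψ^[n] x) x) : Par (Ψ x) x := by
  by_contra hnp
  obtain ⟨xi, hxi⟩ := hi₀.exists_right_inv
  have hx₀ : residue R (x i₀) ≠ 0 := (residue_ne_zero_iff_isUnit _).2 hi₀
  have hxj : ∀ j, residue R (Ψ x j) = lam * residue R (x j) := fun j => congrFun hx j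
  obtain ⟨L, hL⟩ : ∃ L : R, L * x i₀ = Ψ x i₀ := ⟨Ψ x i₀ * xi, by
    rw [mul_assoc, mul_comm xi, hxi, mul_one]⟩
  have hLr : residue R L = lam := by
    have := congrArg (residue R) hL
    rw [map_mul, hxj] at this
    exact mul_right_cancel₀ hx₀ this
  obtain ⟨k, hk⟩ := exists_dvd (Ψ x - L • x)
  choose b hb using hk
  set c : R := (Ψ x - L • x) k with hc
  have hΨ : Ψ x = L • x + c • b := by
    funext j
    have := hb j
    simp only [Pi.sub_apply, Pi.smul_apply, smul_eq_mul] at this
    simp only [Pi.add_apply, Pi.smul_apply, smul_eq_mul]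
    rw [← this]
    ring
  have hc0 : c ≠ 0 := by
    intro h
    apply hnp
    rw [hΨ, h, zero_smul, add_zero]
    exact (Par.refl x).smul_left L
  have hcr : residue R c = 0 := by
    rw [hc]
    simp only [Pi.sub_apply, Pi.smul_apply, smul_eq_mul, map_sub, map_mul]
    rw [hxj, hLr, sub_self]
  have hbk : b k = 1 := by
    have := hb k
    exact mul_left_cancel₀ hc0 (by rw [mul_one]; exact this.symm)
  have hbi : b i₀ = 0 := by
    have h1 := congrFun hΨ i₀
    simp only [Pi.add_apply, Pi.smul_apply, smul_eq_mul] at h1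
    rw [hL] at h1
    have : c * b i₀ = 0 := by linear_combination -h1
    exact (mul_eq_zero.1 this).resolve_left hc0
  obtain ⟨Li, hLi⟩ : ∃ Li : R, L * Li = 1 :=
    ((residue_ne_zero_iff_isUnit L).1 (hLr ▸ hlam)).exists_right_inv
  have hLu : IsUnit L := (residue_ne_zero_iff_isUnit L).1 (hLr ▸ hlam)
  have hLir : residue R Li = lam⁻¹ := by
    have := congrArg (residue R) hLi
    rw [map_mul, map_one, hLr] at this
    exact eq_inv_of_mul_eq_one_right this
  have hMr : ∀ (y : Fin (N + 1) → R) (i : Fin (N + 1)), residue R (M.mulVec y i) =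
      lam * E.mulVec (fun j => residue R (y j)) i := by
    intro y i
    rw [mulVec_bar, hME, Matrix.smul_mulVec]
    rfl
  -- the iterates
  have key : ∀ s : ℕ, ∃ (u : R) (y : Fin (N + 1) → R), IsUnit u ∧
      Ψ^[s + 1] x = u • (x + c • y) ∧ ∀ i, residue R (y i) =
        lam⁻¹ * (residue R (b i) + s * E.mulVec (fun j => residue R (b j)) i) := by
    intro s
    induction s with
    | zero =>
      refine ⟨L, Li • b, hLu, ?_, fun i => ?_⟩
      · rw [zero_add, Function.iterate_one, hΨ, smul_add, smul_smul, smul_smul]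
        congr 2
        linear_combination -c * hLi
      · simp [hLir]
    | succ s ih =>
      obtain ⟨u, y, hu, h1, h2⟩ := ih
      obtain ⟨r, hr⟩ := hM c y
      refine ⟨u ^ D * L, Li • (b + M.mulVec y + c • r), (hu.pow D).mul hLu, ?_, fun i => ?_⟩
      · rw [Function.iterate_succ_apply', h1, hom, hr, hΨ]
        funext i
        simp only [Pi.add_apply, Pi.smul_apply, smul_eq_mul]
        linear_combination (-(u ^ D * c * (b i + M.mulVec y i + c * r i))) * hLi
      · simp only [Pi.add_apply, Pi.smul_apply, smul_eq_mul, map_mul, map_add, hLir, hcr, zero_mul,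
          add_zero, hMr]
        have h3 : (fun j => residue R (y j)) = lam⁻¹ • ((fun j => residue R (b j)) +
            (s : ResidueField R) • E.mulVec (fun j => residue R (b j))) := by
          funext j
          rw [h2 j]
          rfl
        rw [h3, Matrix.mulVec_smul, Matrix.mulVec_add, Matrix.mulVec_smul, Matrix.mulVec_mulVec, hE]
        simp only [Pi.add_apply, Pi.smul_apply, smul_eq_mul]
        push_cast
        field_simp
        ring
  obtain ⟨s, rfl⟩ : ∃ s, n = s + 1 := by
    rcases n with _ | s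
    · exact absurd Nat.cast_zero hn
    · exact ⟨s, rfl⟩
  obtain ⟨u, y, hu, h1, h2⟩ := key s
  -- `y` is proportional to `x`
  have hyx : Par y x := by
    intro i j
    have h3 := hp i j
    rw [h1] at h3
    simp only [Pi.add_apply, Pi.smul_apply, smul_eq_mul] at h3
    have h4 : (u * c) * (y i * x j - y j * x i) = 0 := by linear_combination h3
    rcases mul_eq_zero.1 h4 with h5 | h5
    · exact absurd h5 (mul_ne_zero hu.ne_zero hc0)
    · exact sub_eq_zero.1 h5
  have hx0 : (fun i => residue R (x i)) ≠ 0 := fun h => hx₀ (congrFun h i₀)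
  obtain ⟨μ, hμ⟩ := ((hyx.map (residue R)).symm).exists_smul hx0
  -- Euler
  have hEx : ∀ i, E.mulVec (fun j => residue R (x j)) i = D * residue R (x i) := by
    intro i
    obtain ⟨r, hr⟩ := hM c x
    obtain ⟨z, hz⟩ := one_add_pow c D
    have h3 : x + c • x = (1 + c) • x := by rw [add_smul, one_smul]
    rw [h3, hom, hz] at hr
    have h4 := congrFun hr i
    simp only [Pi.add_apply, Pi.smul_apply, smul_eq_mul] at h4
    have h5 : M.mulVec x i = D * Ψ x i + c * (z * Ψ x i - r i) := by
      apply mul_left_cancel₀ hc0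
      linear_combination -h4
    have h6 := congrArg (residue R) h5
    rw [hMr, map_add, map_mul, map_mul, hcr, zero_mul, add_zero, hxj, map_natCast] at h6
    apply mul_left_cancel₀ hlam
    rw [h6]
    ring
  -- conclusion
  set B : Fin (N + 1) → ResidueField R := fun j => residue R (b j) with hB
  have h3 : lam⁻¹ • (B + (s : ResidueField R) • E.mulVec B) = μ • fun i => residue R (x i) := by
    rw [← hμ]
    funext j
    rw [h2 j]
    rfl
  have h4 := congrArg E.mulVec h3
  rw [Matrix.mulVec_smul, Matrix.mulVec_add, Matrix.mulVec_smul, Matrix.mulVec_mulVec, hE,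
    Matrix.mulVec_smul] at h4
  have hn' : (s : ResidueField R) + 1 ≠ 0 := by exact_mod_cast hn
  have h5 : ∀ i, E.mulVec B i = lam * μ * D / (s + 1) * residue R (x i) := by
    intro i
    have := congrFun h4 i
    simp only [Pi.add_apply, Pi.smul_apply, smul_eq_mul] at this
    rw [hEx] at this
    field_simp
    field_simp at this
    linear_combination this
  have h6 : ∀ i, B i = (lam * μ - s * (lam * μ * D / (s + 1))) * residue R (x i) := by
    intro i
    have := congrFun h3 i
    simp only [Pi.add_apply, Pi.smul_apply, smul_eq_mul] at this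
    rw [h5] at this
    have h7 : B i + s * (lam * μ * D / (s + 1) * residue R (x i)) =
        lam * (μ * residue R (x i)) := by
      rw [← this]
      field_simp
    linear_combination h7
  have h7 := h6 i₀
  rw [hB] at h7
  simp only [hbi, map_zero] at h7
  have h8 : lam * μ - s * (lam * μ * D / (s + 1)) = 0 :=
    (mul_eq_zero.1 h7.symm).resolve_right hx₀
  have h9 := h6 k
  rw [h8, zero_mul, hB] at h9
  simp only [hbk, map_one] at h9
  exact one_ne_zero h9

end main

end PerA

open PerA

theorem period (q N d : ℕ) (hd : 1 ≤ d) : ∃ B : ℕ, ∀ (R : Type) [CommRing R] [IsDomain R]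
    [ValuationRing R] (p : ℕ), p.Prime → (p : R) ∈ IsLocalRing.maximalIdeal R →
    Finite (IsLocalRing.ResidueField R) → Nat.card (IsLocalRing.ResidueField R) ≤ q →
    ∀ (F : Tup N R) (c : R) (e : ℕ), (∀ i, (F i).IsHomogeneous d) → IsUnit c → Cert F c e →
    ∀ x : Fin (N + 1) → R, (∃ i, IsUnit (x i)) → ∀ n : ℕ, 1 ≤ n → Par ((app F)^[n] x) x →
      ∃ M k : ℕ, 1 ≤ M ∧ M ≤ B ∧ Par ((app F)^[M * p ^ k] x) x := by
  refine ⟨(q ^ (N + 1)).factorial * (q ^ ((N + 1) * (N + 1))).factorial, ?_⟩
  intro R _ _ _ p hp hpm hfin hcard F c e hF hc hC x hx n hn hpar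
  have hprim : ∀ t, ∃ i, IsUnit ((app F)^[t] x i) := by
    intro t
    induction t with
    | zero => exact hx
    | succ t ih =>
      rw [Function.iterate_succ_apply']
      exact prim_app F c e hc hC _ ih
  have hFn : ∃ u : R, IsUnit u ∧ (app F)^[n] x = u • x :=
    prim_par x ((app F)^[n] x) hx (hprim n) hpar.symm
  set n₁ : ℕ := (q ^ (N + 1)).factorial with hn₁
  set R' : ℕ := (q ^ ((N + 1) * (N + 1))).factorial with hR'
  have hn₁0 : 1 ≤ n₁ := Nat.factorial_pos _
  have hR'0 : 1 ≤ R' := Nat.factorial_pos _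
  have hchar : ∀ m : ℕ, ¬ p ∣ m → (m : ResidueField R) ≠ 0 := by
    intro m hm h0
    obtain ⟨r, hr⟩ := CharP.exists (ResidueField R)
    have hp0 : (p : ResidueField R) = 0 := by
      have : residue R (p : R) = 0 := (residue_eq_zero_iff _).2 hpm
      rwa [map_natCast] at this
    have h1 : r ∣ p := (CharP.cast_eq_zero_iff _ r p).1 hp0
    have h2 : r ∣ m := (CharP.cast_eq_zero_iff _ r m).1 h0
    rcases (Nat.dvd_prime hp).1 h1 with h3 | h3
    · exact CharP.char_ne_one (ResidueField R) r h3
    · exact hm (h3 ▸ h2)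
  -- the reduction
  have hbar : ∀ t, (app (mp (residue R) F))^[t] (fun i => residue R (x i)) =
      fun i => residue R ((app F)^[t] x i) := fun t => iter_mp (residue R) F t x
  have hred : ∃ u : ResidueField R, IsUnit u ∧
      (app (mp (residue R) F))^[n] (fun i => residue R (x i)) = u • fun i => residue R (x i) := by
    obtain ⟨u, hu, h⟩ := hFn
    refine ⟨residue R u, hu.map _, ?_⟩
    rw [hbar, h]
    funext i
    simp
  have hcard1 : Nat.card (Fin (N + 1) → ResidueField R) ≤ q ^ (N + 1) := by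
    rw [Nat.card_fun, Nat.card_fin]
    exact Nat.pow_le_pow_left hcard _
  obtain ⟨lam, hlam, hlx⟩ := exists_period (app (mp (residue R) F)) d
    (fun u y => app_smul d _ (hom_mp d _ F hF) u y) (fun i => residue R (x i)) n hn hred
    (q ^ (N + 1)) hcard1
  have hlam0 : lam ≠ 0 := hlam.ne_zero
  have hG := app_itr F n₁
  have hGh := hom_itr d F hF n₁
  set G : Tup N R := itr F n₁ with hGdef
  have hlx' : (fun i => residue R (app G x i)) = lam • fun i => residue R (x i) := by
    rw [← hlx, hbar, hG]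
  have hD : 1 ≤ d ^ n₁ := Nat.one_le_pow _ _ hd
  have hcard2 : Nat.card (Matrix (Fin (N + 1)) (Fin (N + 1)) (ResidueField R)) ≤
      q ^ ((N + 1) * (N + 1)) := by
    have : Nat.card (Matrix (Fin (N + 1)) (Fin (N + 1)) (ResidueField R)) =
        Nat.card (Fin (N + 1) → Fin (N + 1) → ResidueField R) := rfl
    rw [this, Nat.card_fun, Nat.card_fun, Nat.card_fin, ← pow_mul]
    exact Nat.pow_le_pow_left hcard _
  obtain ⟨hE, hE'⟩ := exists_idem (q ^ ((N + 1) * (N + 1))) hcard2
    (lam⁻¹ • (jac G x).map (residue R))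
  set E := (lam⁻¹ • (jac G x).map (residue R)) ^ (q ^ ((N + 1) * (N + 1))).factorial with hEdef
  obtain ⟨i₀, hi₀⟩ := hx
  have claim : ∀ n : ℕ, 1 ≤ n → ∀ m, 1 ≤ m → Par (((app G)^[R' * m])^[n] x) x →
      ∃ k, Par ((app G)^[R' * m * p ^ k] x) x := by
    intro n
    induction n using Nat.strong_induction_on with
    | _ n ih =>
      intro hn m hm h
      by_cases hpn : p ∣ n
      · obtain ⟨n', rfl⟩ := hpn
        have hn' : 1 ≤ n' := Nat.pos_of_ne_zero (by rintro rfl; simp at hn)
        have hlt : n' < p * n' := lt_mul_of_one_lt_left hn' hp.one_lt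
        have h' : Par (((app G)^[R' * (m * p)])^[n'] x) x := by
          rw [← Function.iterate_mul] at h ⊢
          rwa [mul_assoc, mul_assoc, ← mul_assoc R']
        obtain ⟨k, hk⟩ := ih n' hlt hn' (m * p) (Nat.mul_pos hm hp.pos) h'
        refine ⟨k + 1, ?_⟩
        have : R' * m * p ^ (k + 1) = R' * (m * p) * p ^ k := by ring
        rwa [this]
      · obtain ⟨u, hu, h1, M, h2, h3⟩ := iter_data (d ^ n₁) hD G hGh x lam hlam0 hlx' (R' * m)
        rw [hE' m hm] at h3
        refine ⟨0, ?_⟩
        rw [pow_zero, mul_one]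
        exact main ((app G)^[R' * m]) ((d ^ n₁) ^ (R' * m))
          (fun v y => iter_hom (app G) (d ^ n₁) (fun u y => app_smul _ G hGh u y) (R' * m) v y)
          x i₀ hi₀ u hu h1 M h2 E h3 hE n (hchar n hpn) h
  have hstart : Par (((app G)^[R' * 1])^[n] x) x := by
    rw [← Function.iterate_mul, hG, ← Function.iterate_mul]
    have : n₁ * (R' * 1 * n) = n * (n₁ * R') := by ring
    rw [this, Function.iterate_mul]
    obtain ⟨u, hu, h⟩ := iter_par ((app F)^[n]) (d ^ n)
      (fun v y => iter_smul d F hF n v y) x hFn (n₁ * R')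
    rw [h]
    exact (Par.refl x).smul_left u
  obtain ⟨k, hk⟩ := claim n hn 1 le_rfl hstart
  refine ⟨n₁ * R', k, Nat.mul_pos hn₁0 hR'0, le_rfl, ?_⟩
  rw [hG, ← Function.iterate_mul] at hk
  have : n₁ * R' * p ^ k = n₁ * (R' * 1 * p ^ k) := by ring
  rwa [this]

end Pool.Agent.PNH
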