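import Mathlib
import Pool.Agent.PNH.Defs
import Pool.Agent.LIM.Ring

set_option autoImplicit false

/-!
# Residue fields of number fields are small
-/

namespace Pool.Agent.PNH

open NumberField

namespace Res

/-- elements whose residues are independent over `ZMod p` are independent over `ℤ` -/
theorem lift_indep {L : Type} [Field L] [CharZero L] (W : ValuationSubring L) (p : ℕ)
    (hp : p.Prime) [CharP (IsLocalRing.ResidueField W) p] [Algebra (ZMod p)
      (IsLocalRing.ResidueField W)] {m : ℕ} (x : Fin m → W)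
    (hx : LinearIndependent (ZMod p) fun i => IsLocalRing.residue W (x i)) :
    LinearIndependent ℤ fun i => (x i : L) := by
  classical
  rw [Fintype.linearIndependent_iff] at hx ⊢
  intro a ha
  by_contra hcon
  push Not at hcon
  obtain ⟨i₀, hi₀⟩ := hcon
  obtain ⟨b, hb, hb1⟩ := Finset.extract_gcd a (s := Finset.univ) ⟨i₀, Finset.mem_univ _⟩
  set g := Finset.univ.gcd a with hg
  have hg0 : g ≠ 0 := by
    intro h0
    exact hi₀ (by rw [hb i₀ (Finset.mem_univ _), h0, zero_mul])
  have h1 : ∑ i, b i • (x i : L) = 0 := by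
    have h2 : (g : L) * ∑ i, b i • (x i : L) = 0 := by
      rw [← ha, Finset.mul_sum]
      refine Finset.sum_congr rfl fun i _ => ?_
      rw [hb i (Finset.mem_univ _), zsmul_eq_mul, zsmul_eq_mul]
      push_cast
      ring
    exact (mul_eq_zero.1 h2).resolve_left (Int.cast_ne_zero.2 hg0)
  have h2 : ∑ i, b i • x i = 0 := by
    apply Subtype.ext
    have h3 : ((∑ i, b i • x i : W) : L) = ∑ i, b i • (x i : L) := by
      rw [AddSubmonoidClass.coe_finsetSum]
      rfl
    rw [h3, h1]
    rfl
  have h3 := congrArg (IsLocalRing.residue W) h2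
  rw [map_sum, map_zero] at h3
  have h4 := hx (fun i => (b i : ZMod p)) (by
    rw [← h3]
    refine Finset.sum_congr rfl fun i _ => ?_
    rw [map_zsmul, Algebra.smul_def, map_intCast, zsmul_eq_mul])
  have h5 : (p : ℤ) ∣ Finset.univ.gcd b := Finset.dvd_gcd fun i _ =>
    (ZMod.intCast_zmod_eq_zero_iff_dvd _ _).1 (h4 i)
  rw [hb1] at h5
  exact hp.one_lt.ne' (by exact_mod_cast Int.eq_one_of_dvd_one (by positivity) h5)

theorem card_le {L : Type} [Field L] [CharZero L] [Algebra ℚ L] [FiniteDimensional ℚ L]
    (W : ValuationSubring L) (p : ℕ) (hp : p.Prime) (hW : ¬ IsUnit (p : W)) :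
    Finite (IsLocalRing.ResidueField W) ∧
      Nat.card (IsLocalRing.ResidueField W) ≤ p ^ Module.finrank ℚ L := by
  classical
  have : Fact p.Prime := ⟨hp⟩
  have hp0 : ((p : ℕ) : IsLocalRing.ResidueField W) = 0 := by
    rw [← map_natCast (IsLocalRing.residue W), IsLocalRing.residue_eq_zero_iff,
      IsLocalRing.mem_maximalIdeal]
    exact hW
  have : CharP (IsLocalRing.ResidueField W) p :=
    (CharP.charP_iff_prime_eq_zero hp).2 hp0
  let : Algebra (ZMod p) (IsLocalRing.ResidueField W) := ZMod.algebra _ p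
  have hrank : Module.rank (ZMod p) (IsLocalRing.ResidueField W) ≤ Module.finrank ℚ L := by
    refine rank_le fun s hs => ?_
    have e := s.equivFin
    have hsurj : ∀ y : IsLocalRing.ResidueField W, ∃ x : W, IsLocalRing.residue W x = y :=
      IsLocalRing.residue_surjective
    choose f hf using hsurj
    have h1 : LinearIndependent (ZMod p)
        fun i : Fin s.card => IsLocalRing.residue W (f (e.symm i : IsLocalRing.ResidueField W)) := by
      simp only [hf]
      exact hs.comp _ e.symm.injective
    have h2 := lift_indep W p hp _ h1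
    have h3 : LinearIndependent ℚ fun i : Fin s.card =>
        (f (e.symm i : IsLocalRing.ResidueField W) : L) :=
      (LinearIndependent.iff_fractionRing ℤ ℚ).1 h2
    have h4 := h3.fintype_card_le_finrank
    rwa [Fintype.card_fin] at h4
  have : Module.Finite (ZMod p) (IsLocalRing.ResidueField W) :=
    Module.rank_lt_aleph0_iff.1 (hrank.trans_lt (Cardinal.natCast_lt_aleph0))
  have : Finite (IsLocalRing.ResidueField W) := Module.finite_of_finite (ZMod p)
  refine ⟨inferInstance, ?_⟩
  rw [Module.natCard_eq_pow_finrank (K := ZMod p), Nat.card_zmod]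
  exact Nat.pow_le_pow_right hp.pos (Module.finrank_le_of_rank_le hrank)

end Res

theorem residue {K : Type} [Field K] [NumberField K] (D p : ℕ) (hp : p.Prime)
    (V : ValuationSubring (AlgebraicClosure K)) (hV : ¬ IsUnit (p : V))
    (θ : AlgebraicClosure K) (hθ : (minpoly K θ).natDegree ≤ D) :
    Finite (IsLocalRing.ResidueField (V.comap
      (algebraMap (IntermediateField.adjoin K {θ}) (AlgebraicClosure K)))) ∧
    Nat.card (IsLocalRing.ResidueField (V.comap
      (algebraMap (IntermediateField.adjoin K {θ}) (AlgebraicClosure K)))) ≤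
      p ^ (D * Module.finrank ℚ K) := by
  have hint : IsIntegral K θ := (AlgebraicClosure.isAlgebraic K).isAlgebraic θ |>.isIntegral
  have : FiniteDimensional K (IntermediateField.adjoin K {θ}) :=
    IntermediateField.adjoin.finiteDimensional hint
  have : CharZero (IntermediateField.adjoin K {θ}) :=
    charZero_of_injective_algebraMap
      (algebraMap K (IntermediateField.adjoin K {θ})).injective
  have : FiniteDimensional ℚ (IntermediateField.adjoin K {θ}) :=
    Module.Finite.trans K _
  have h1 := Res.card_le (V.comap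
      (algebraMap (IntermediateField.adjoin K {θ}) (AlgebraicClosure K))) p hp (by
    intro hu
    apply hV
    obtain ⟨y, hy⟩ := isUnit_iff_exists_inv.1 hu
    rw [isUnit_iff_exists_inv]
    refine ⟨⟨algebraMap (IntermediateField.adjoin K {θ}) (AlgebraicClosure K) y, y.2⟩, ?_⟩
    apply Subtype.ext
    have h2 := congrArg (fun z => algebraMap (IntermediateField.adjoin K {θ})
      (AlgebraicClosure K) (Subtype.val z)) hy
    simpa using h2)
  refine ⟨h1.1, h1.2.trans (Nat.pow_le_pow_right hp.pos ?_)⟩
  have h2 : Module.finrank ℚ K * Module.finrank K (IntermediateField.adjoin K {θ}) =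
      Module.finrank ℚ (IntermediateField.adjoin K {θ}) := Module.finrank_mul_finrank _ _ _
  rw [← h2, IntermediateField.adjoin.finrank hint, mul_comm]
  exact Nat.mul_le_mul_right _ hθ

theorem exists_val (K : Type) [Field K] [NumberField K] (p : ℕ) (hp : p.Prime) :
    ∃ V : ValuationSubring (AlgebraicClosure K), ¬ IsUnit (p : V) ∧
      ∀ x : 𝓞 K, algebraMap (𝓞 K) (AlgebraicClosure K) x ∈ V ∧
        (¬ (p : ℤ) ∣ Algebra.norm ℤ x → (algebraMap (𝓞 K) (AlgebraicClosure K) x)⁻¹ ∈ V) := by
  have hc : CharZero (AlgebraicClosure K) :=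
    charZero_of_injective_algebraMap (algebraMap K (AlgebraicClosure K)).injective
  obtain ⟨B, hpm⟩ := Pool.Agent.LIM.exists_valSub (AlgebraicClosure K) p hp
  have hOK : ∀ x : 𝓞 K, algebraMap (𝓞 K) (AlgebraicClosure K) x ∈ B := by
    intro x
    have h2 : IsIntegral B (algebraMap (𝓞 K) (AlgebraicClosure K) x) := by
      obtain ⟨P, hP, hP0⟩ := RingOfIntegers.isIntegral x
      refine ⟨P.map (Int.castRingHom B), hP.map _, ?_⟩
      rw [Polynomial.eval₂_map]
      have h3 : (algebraMap B (AlgebraicClosure K)).comp (Int.castRingHom B) =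
          (algebraMap (𝓞 K) (AlgebraicClosure K)).comp (algebraMap ℤ (𝓞 K)) :=
        RingHom.ext_int _ _
      rw [h3, ← Polynomial.hom_eval₂]
      exact (congrArg _ hP0).trans (map_zero _)
    obtain ⟨b, hb⟩ := IsIntegrallyClosed.isIntegral_iff.mp h2
    rw [← hb]
    exact b.2
  refine ⟨B, (IsLocalRing.mem_maximalIdeal _).1 hpm, fun x => ⟨hOK x, fun hx => ?_⟩⟩
  have h1 : x ∣ ((Algebra.norm ℤ x).natAbs : 𝓞 K) := by
    rw [← Ideal.mem_span_singleton, ← Ideal.absNorm_span_singleton]
    exact Ideal.absNorm_mem _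
  let f : 𝓞 K →+* B := (algebraMap (𝓞 K) (AlgebraicClosure K)).codRestrict B.toSubring hOK
  have h2 : f x ∣ (((Algebra.norm ℤ x).natAbs : ℤ) : B) := by
    have := map_dvd f h1
    simpa using this
  have h3 := Pool.Agent.LIM.isUnit_of_dvd_int p hp hpm ((Algebra.norm ℤ x).natAbs : ℤ)
    (fun h => hx ((Int.dvd_natAbs).1 h)) (f x) h2
  obtain ⟨y, hy⟩ := isUnit_iff_exists_inv.1 h3
  have h4 : algebraMap (𝓞 K) (AlgebraicClosure K) x * (y : AlgebraicClosure K) = 1 :=
    congrArg Subtype.val hy
  rw [inv_eq_of_mul_eq_one_right h4]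
  exact y.2

end Pool.Agent.PNH
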