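import Mathlib
import Pool.Agent.PNH.Defs
import Pool.Agent.PNH.Emb
import Pool.Agent.PNH.ParL
import Pool.Agent.PNH.Prm
import Pool.Agent.PNH.Per
import Pool.Agent.PNH.Res

set_option autoImplicit false

/-!
# Periods of the members of a family
-/

namespace Pool.Agent.PNH

open NumberField Filter
open Pool.Agent.LIM (Null GF)
open Pool.Agent.FamK (ev)

namespace PmbAux

/-- The indices of the iterates which fix a point are the multiples of the exact period. -/
theorem exists_period {N d : ℕ} {k : Type} [Field k] (F : Tup N k)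
    (hF : ∀ i, (F i).IsHomogeneous d) (h0 : ∀ x, app F x = 0 → x = 0) {x : Fin (N + 1) → k}
    (hx : x ≠ 0) (h : ∃ n, 1 ≤ n ∧ Par ((app F)^[n] x) x) :
    ∃ n, 1 ≤ n ∧ Par ((app F)^[n] x) x ∧ ∀ m, Par ((app F)^[m] x) x → n ∣ m := by
  classical
  obtain ⟨hn, hn'⟩ := Nat.find_spec h
  refine ⟨Nat.find h, hn, hn', fun m hm => ?_⟩
  set n := Nat.find h with hnd
  by_contra hdvd
  have hpos : 1 ≤ m % n := Nat.pos_of_ne_zero fun h1 => hdvd (Nat.dvd_of_mod_eq_zero h1)
  refine Nat.find_min h (m := m % n) (Nat.mod_lt _ hn) ⟨hpos, ?_⟩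
  have h1 : Par ((app F)^[n * (m / n)] x) x := par_iter_mul F hF h0 hx n hn' (m / n)
  have h2 := Par.iter F hF (iter_ne_zero F h0 _ hx) h1 (m % n)
  rw [← Function.iterate_add_apply, Nat.mod_add_div] at h2
  exact h2.symm.trans (iter_ne_zero F h0 _ hx) hm

/-- One prime. -/
theorem one_prime {K : Type} [Field K] [NumberField K] {r N d : ℕ} (hd : 1 ≤ d) (D : ℕ)
    (F : Tup N (MvPolynomial (Fin r) (𝓞 K))) (hF : ∀ i, (F i).IsHomogeneous d)
    (c : MvPolynomial (Fin r) (𝓞 K)) (e : ℕ) (hc : Cert F c e) (p : ℕ) (hp : p.Prime) :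
    ∃ B : ℕ, ∀ s : Fin r → ℤ, ¬ (p : ℤ) ∣ Algebra.norm ℤ (ev s c) →
      ∀ x : Fin (N + 1) → AlgebraicClosure K, x ≠ 0 → DegLe K D x → ∀ n, 1 ≤ n →
        Par ((app (mp (algebraMap K _) (mem s F)))^[n] x) x →
        ∃ M k : ℕ, 1 ≤ M ∧ M ≤ B ∧
          Par ((app (mp (algebraMap K _) (mem s F)))^[M * p ^ k] x) x := by
  obtain ⟨B, hB⟩ := period (p ^ (D * Module.finrank ℚ K)) N d hd
  obtain ⟨V, hV, hVO⟩ := exists_val K p hp
  refine ⟨B, fun s hs x hx hD n hn hper => ?_⟩
  obtain ⟨θ, hθ, hxθ⟩ := hD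
  obtain ⟨hfin, hcard⟩ := residue D p hp V hV θ hθ
  set L := IntermediateField.adjoin K {θ} with hL
  set R := V.comap (algebraMap L (AlgebraicClosure K)) with hR
  -- the ring homomorphisms
  have hmem : ∀ a : 𝓞 K, ((algebraMap K L).comp (algebraMap (𝓞 K) K)) a ∈ R := by
    intro a
    rw [hR, ValuationSubring.mem_comap, RingHom.comp_apply,
      ← IsScalarTower.algebraMap_apply K L (AlgebraicClosure K),
      ← IsScalarTower.algebraMap_apply (𝓞 K) K (AlgebraicClosure K)]
    exact (hVO a).1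
  set φ : 𝓞 K →+* R := ((algebraMap K L).comp (algebraMap (𝓞 K) K)).codRestrict R hmem with hφ
  set ι : R →+* AlgebraicClosure K := (algebraMap L (AlgebraicClosure K)).comp R.subtype with hι
  have hιφ : ι.comp φ = (algebraMap K (AlgebraicClosure K)).comp (algebraMap (𝓞 K) K) := by
    ext a
    change algebraMap L (AlgebraicClosure K) (algebraMap K L (algebraMap (𝓞 K) K a)) = _
    rw [← IsScalarTower.algebraMap_apply K L (AlgebraicClosure K)]
    rfl
  have hιinj : Function.Injective ι := by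
    rw [hι, RingHom.coe_comp]
    exact (algebraMap L (AlgebraicClosure K)).injective.comp Subtype.val_injective
  -- the tuple over `R`
  set FR : Tup N R := mp (φ.comp (ev s)) F with hFR
  have hFRK : mp ι FR = mp (algebraMap K (AlgebraicClosure K)) (mem s F) := by
    unfold mem
    rw [hFR, mp_mp, mp_mp, ← RingHom.comp_assoc, hιφ, RingHom.comp_assoc]
  have hcR : Cert FR (φ (ev s c)) e := hc.mp (φ.comp (ev s))
  have hcu : IsUnit (φ (ev s c)) := by
    have h1 : algebraMap (𝓞 K) (AlgebraicClosure K) (ev s c) ≠ 0 := by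
      intro h0
      refine hs ?_
      have h2 : ev s c = 0 := by
        rw [IsScalarTower.algebraMap_apply (𝓞 K) K (AlgebraicClosure K),
          map_eq_zero_iff _ (algebraMap K (AlgebraicClosure K)).injective,
          map_eq_zero_iff _ (IsFractionRing.injective (𝓞 K) K)] at h0
        exact h0
      rw [h2, Algebra.norm_zero]
      exact dvd_zero _
    have h2 : ι (φ (ev s c)) = algebraMap (𝓞 K) (AlgebraicClosure K) (ev s c) := by
      have := congrArg (fun f => f (ev s c)) hιφ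
      simpa [IsScalarTower.algebraMap_apply (𝓞 K) K (AlgebraicClosure K)] using this
    have h3 : ((φ (ev s c) : R) : L)⁻¹ ∈ R := by
      change algebraMap L (AlgebraicClosure K) (((φ (ev s c) : R) : L)⁻¹) ∈ V
      rw [map_inv₀]
      have h4 := (hVO (ev s c)).2 hs
      rw [← h2] at h4
      exact h4
    have h5 : ((φ (ev s c) : R) : L) ≠ 0 := by
      intro h0
      apply h1
      rw [← h2]
      change algebraMap L (AlgebraicClosure K) ((φ (ev s c) : R) : L) = 0
      rw [h0, map_zero]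
    refine IsUnit.of_mul_eq_one (⟨_, h3⟩ : R) (Subtype.ext ?_)
    exact mul_inv_cancel₀ h5
  -- the point over `R`
  set xL : Fin (N + 1) → L := fun i => ⟨x i, hxθ i⟩ with hxL
  have hxL0 : xL ≠ 0 := by
    intro h0
    refine hx (funext fun i => ?_)
    exact congrArg (fun z : Fin (N + 1) → L => ((z i : L) : AlgebraicClosure K)) h0
  obtain ⟨t, y, ht, ⟨i, hyi⟩, hxy⟩ := exists_prim R xL hxL0
  have hxy' : x = (algebraMap L (AlgebraicClosure K) t) • fun i => ι (y i) := by
    funext j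
    have := congrArg (fun z : Fin (N + 1) → L => algebraMap L (AlgebraicClosure K) (z j)) hxy
    simp only [Pi.smul_apply, smul_eq_mul, map_mul] at this
    exact this
  have ht' : algebraMap L (AlgebraicClosure K) t ≠ 0 :=
    (map_ne_zero_iff _ (algebraMap L (AlgebraicClosure K)).injective).2 ht
  have hhom : ∀ i, (mp (algebraMap K (AlgebraicClosure K)) (mem s F) i).IsHomogeneous d :=
    hom_mp d _ _ (hom_mp d _ F hF)
  -- transfer
  have key : ∀ m : ℕ, Par ((app (mp (algebraMap K (AlgebraicClosure K)) (mem s F)))^[m] x) x ↔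
      Par ((app FR)^[m] y) y := by
    intro m
    rw [hxy', iter_smul d _ hhom, ← hFRK, iter_mp]
    constructor
    · intro h j l
      apply hιinj
      have h1 := h j l
      simp only [Pi.smul_apply, smul_eq_mul] at h1
      rw [map_mul, map_mul]
      have h2 : (algebraMap L (AlgebraicClosure K) t) ^ d ^ m *
          algebraMap L (AlgebraicClosure K) t ≠ 0 := mul_ne_zero (pow_ne_zero _ ht') ht'
      apply mul_left_cancel₀ h2
      linear_combination h1
    · intro h
      exact ((h.map ι).smul_left _).symm.smul_left _ |>.symm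
  have hpR : (p : R) ∈ IsLocalRing.maximalIdeal R := by
    rw [IsLocalRing.mem_maximalIdeal]
    intro hu
    apply hV
    obtain ⟨w, hw⟩ := hu.exists_right_inv
    have h1 : algebraMap L (AlgebraicClosure K) ((w : R) : L) ∈ V := w.2
    refine IsUnit.of_mul_eq_one (⟨_, h1⟩ : V) (Subtype.ext ?_)
    have h2 := congrArg ι hw
    rw [map_mul, map_natCast, map_one] at h2
    exact h2
  obtain ⟨M, k, hM1, hMB, hMk⟩ := hB R p hp hpR hfin hcard FR _ e (hom_mp d _ F hF) hcu hcR y
    ⟨i, by rw [hyi]; exact isUnit_one⟩ n hn ((key n).1 hper)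
  exact ⟨M, k, hM1, hMB, (key _).2 hMk⟩

end PmbAux

theorem period_mem {K : Type} [Field K] [NumberField K] {r N d : ℕ} (hd : 1 ≤ d) (D : ℕ)
    (F : Tup N (MvPolynomial (Fin r) (𝓞 K))) (hF : ∀ i, (F i).IsHomogeneous d)
    (c : MvPolynomial (Fin r) (𝓞 K)) (e : ℕ) (hc : Cert F c e) (p q : ℕ) (hp : p.Prime)
    (hq : q.Prime) (hpq : p ≠ q) : ∃ B : ℕ, ∀ s : Fin r → ℤ,
      ¬ (p : ℤ) ∣ Algebra.norm ℤ (ev s c) → ¬ (q : ℤ) ∣ Algebra.norm ℤ (ev s c) →
      ∀ x : Fin (N + 1) → AlgebraicClosure K, x ≠ 0 → DegLe K D x →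
        (∃ n, 1 ≤ n ∧ Par ((app (mp (algebraMap K _) (mem s F)))^[n] x) x) →
        ∃ n, 1 ≤ n ∧ n ≤ B ∧ Par ((app (mp (algebraMap K _) (mem s F)))^[n] x) x := by
  obtain ⟨B₁, hB₁⟩ := PmbAux.one_prime hd D F hF c e hc p hp
  obtain ⟨B₂, hB₂⟩ := PmbAux.one_prime hd D F hF c e hc q hq
  refine ⟨B₁ * B₂, fun s hsp hsq x hx hD hper => ?_⟩
  have hs0 : ev s c ≠ 0 := by
    intro h0
    rw [h0, Algebra.norm_zero] at hsp
    exact hsp (dvd_zero _)
  have h0 : ∀ x, app (mp (algebraMap K (AlgebraicClosure K)) (mem s F)) x = 0 → x = 0 :=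
    fun x hx => mem_eq_zero F c e hc s hs0 x hx
  have hhom : ∀ i, (mp (algebraMap K (AlgebraicClosure K)) (mem s F) i).IsHomogeneous d :=
    hom_mp d _ _ (hom_mp d _ F hF)
  obtain ⟨n, hn, hnp, hdvd⟩ := PmbAux.exists_period _ hhom h0 hx hper
  obtain ⟨M, k, hM1, hMB, hMk⟩ := hB₁ s hsp x hx hD n hn hnp
  obtain ⟨M', k', hM1', hMB', hMk'⟩ := hB₂ s hsq x hx hD n hn hnp
  have h1 := hdvd _ hMk
  have h2 := hdvd _ hMk'
  refine ⟨n, hn, ?_, hnp⟩
  have h3 : n ∣ M * M' * p ^ k := by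
    rw [mul_right_comm]
    exact h1.mul_right _
  have h4 : n ∣ M * M' * q ^ k' := by
    rw [mul_assoc]
    exact h2.mul_left _
  have h5 : n ∣ M * M' := by
    have h6 := Nat.dvd_gcd h3 h4
    rw [Nat.gcd_mul_left, Nat.Coprime.gcd_eq_one, mul_one] at h6
    · exact h6
    · exact Nat.Coprime.pow _ _ ((Nat.coprime_primes hp hq).2 hpq)
  exact (Nat.le_of_dvd (Nat.mul_pos hM1 hM1') h5).trans (Nat.mul_le_mul hMB hMB')

end Pool.Agent.PNH
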