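import Mathlib
import Pool.Agent.PNH.Defs
import Pool.Agent.PNH.Emb

set_option autoImplicit false

/-!
# Distinct generic points stay distinct at almost all primes
-/

namespace Pool.Agent.PNH

open NumberField Filter
open Pool.Agent.LIM (Null GF)
open Pool.Agent.FamK (ev)

namespace SepA

variable {K : Type} [Field K] [NumberField K] {r : ℕ}

/-- The values at all `s` at once. -/
noncomputable def vals : MvPolynomial (Fin r) (𝓞 K) →+* ((Fin r → ℤ) → AlgebraicClosure K) :=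
  RingHom.pi fun s => (algebraMap K (AlgebraicClosure K)).comp ((algebraMap (𝓞 K) K).comp (ev s))

omit [NumberField K] in
theorem vals_apply (P : MvPolynomial (Fin r) (𝓞 K)) (s : Fin r → ℤ) : vals P s = val P s := rfl

omit [NumberField K] in
theorem val_mem (V : ValuationSubring (AlgebraicClosure K))
    (hV : ∀ x : 𝓞 K, algebraMap (𝓞 K) (AlgebraicClosure K) x ∈ V)
    (P : MvPolynomial (Fin r) (𝓞 K)) (s : Fin r → ℤ) : val P s ∈ V := by
  have := hV (ev s P)
  rwa [IsScalarTower.algebraMap_apply (𝓞 K) K (AlgebraicClosure K)] at this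

omit [NumberField K] in
/-- An element which is integral over the values lies in `V`. -/
theorem mem_of_root (V : ValuationSubring (AlgebraicClosure K))
    (hV : ∀ x : 𝓞 K, algebraMap (𝓞 K) (AlgebraicClosure K) x ∈ V) (s : Fin r → ℤ)
    (p : Polynomial (MvPolynomial (Fin r) (𝓞 K))) (hp : p.Monic) (x : AlgebraicClosure K)
    (hx : p.eval₂ ((Pi.evalRingHom _ s).comp vals) x = 0) : x ∈ V := by
  set f : MvPolynomial (Fin r) (𝓞 K) →+* AlgebraicClosure K := (Pi.evalRingHom _ s).comp vals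
    with hf
  have hfV : ∀ P, f P ∈ V.toSubring := fun P => val_mem V hV P s
  have hint : IsIntegral V x := by
    refine ⟨p.map (f.codRestrict V.toSubring hfV), hp.map _, ?_⟩
    rw [Polynomial.eval₂_map]
    exact hx
  obtain ⟨y, hy⟩ := (IsIntegrallyClosed.isIntegral_iff (R := V) (K := AlgebraicClosure K)).1 hint
  rw [← hy]
  exact y.2

theorem integral_rep (e : AlgebraicClosure (GF r K)) :
    ∃ δ : MvPolynomial (Fin r) (𝓞 K), δ ≠ 0 ∧ ∀ (U : Ultrafilter (Fin r → ℤ))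
      (j : AlgebraicClosure (GF r K) →+* (U : Filter (Fin r → ℤ)).Germ (AlgebraicClosure K)),
      IsEmb U j → ∀ ε : (Fin r → ℤ) → AlgebraicClosure K,
        j e = ((ε : (Fin r → ℤ) → AlgebraicClosure K) :
          (U : Filter (Fin r → ℤ)).Germ (AlgebraicClosure K)) →
        ∀ᶠ s in (U : Filter (Fin r → ℤ)), ∀ V : ValuationSubring (AlgebraicClosure K),
          (∀ x : 𝓞 K, algebraMap (𝓞 K) (AlgebraicClosure K) x ∈ V) → val δ s * ε s ∈ V := by
  have h0 : IsAlgebraic (GF r K) e := Algebra.IsAlgebraic.isAlgebraic e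
  have halg : IsAlgebraic (MvPolynomial (Fin r) (𝓞 K)) e :=
    (IsFractionRing.isAlgebraic_iff (MvPolynomial (Fin r) (𝓞 K)) (GF r K)
      (AlgebraicClosure (GF r K))).2 h0
  obtain ⟨δ, hδ, p, hp, hp0⟩ := halg.exists_integral_multiple
  refine ⟨δ, hδ, fun U j hj ε hε => ?_⟩
  set φ : ((Fin r → ℤ) → AlgebraicClosure K) →+*
    (U : Filter (Fin r → ℤ)).Germ (AlgebraicClosure K) :=
    Filter.Germ.coeRingHom (U : Filter (Fin r → ℤ)) with hφ
  have hjφ : ∀ P, j (algebraMap (MvPolynomial (Fin r) (𝓞 K)) (AlgebraicClosure (GF r K)) P) =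
      φ (vals P) := by
    intro P
    rw [IsScalarTower.algebraMap_apply (MvPolynomial (Fin r) (𝓞 K)) (GF r K)
      (AlgebraicClosure (GF r K)), hj P]
    rfl
  have hcomp : j.comp (algebraMap (MvPolynomial (Fin r) (𝓞 K)) (AlgebraicClosure (GF r K))) =
      φ.comp vals := RingHom.ext hjφ
  have hg : j (δ • e) = φ (vals δ * ε) := by
    rw [Algebra.smul_def, map_mul, hjφ, map_mul, hε]
    rfl
  have h1 := congrArg j hp0
  rw [Polynomial.hom_eval₂, hcomp, hg, map_zero, ← Polynomial.hom_eval₂] at h1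
  have h2 : (p.eval₂ vals (vals δ * ε)) =ᶠ[(U : Filter (Fin r → ℤ))] 0 :=
    Filter.Germ.coe_eq.1 h1
  filter_upwards [h2] with s hs V hV
  refine mem_of_root V hV s p hp _ ?_
  have h4 : (Pi.evalRingHom (fun _ => AlgebraicClosure K) s) (p.eval₂ vals (vals δ * ε)) = 0 := hs
  rw [Polynomial.hom_eval₂] at h4
  exact h4

theorem val_ne_zero (U : Ultrafilter (Fin r → ℤ))
    (j : AlgebraicClosure (GF r K) →+* (U : Filter (Fin r → ℤ)).Germ (AlgebraicClosure K))
    (hj : IsEmb U j) (P : MvPolynomial (Fin r) (𝓞 K)) (hP : P ≠ 0) :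
    ∀ᶠ s in (U : Filter (Fin r → ℤ)), val P s ≠ 0 := by
  by_contra h
  have h1 : ∀ᶠ s in (U : Filter (Fin r → ℤ)), val P s = 0 := by
    by_contra h2
    exact h (Ultrafilter.eventually_not.2 h2)
  have h2 : j (algebraMap (GF r K) _ (algebraMap _ (GF r K) P)) = 0 := by
    rw [hj P]
    exact Filter.Germ.coe_eq.2 h1
  have h3 : algebraMap (GF r K) (AlgebraicClosure (GF r K))
      (algebraMap (MvPolynomial (Fin r) (𝓞 K)) (GF r K) P) = 0 :=
    j.injective (h2.trans (map_zero j).symm)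
  have h4 : algebraMap (MvPolynomial (Fin r) (𝓞 K)) (GF r K) P = 0 :=
    (algebraMap (GF r K) (AlgebraicClosure (GF r K))).injective (h3.trans (map_zero _).symm)
  exact hP ((IsFractionRing.injective (MvPolynomial (Fin r) (𝓞 K)) (GF r K))
    (h4.trans (map_zero _).symm))

omit [NumberField K] in
theorem val_mul (P Q : MvPolynomial (Fin r) (𝓞 K)) (s : Fin r → ℤ) :
    val (P * Q) s = val P s * val Q s := by
  simp [val]

omit [NumberField K] in
/-- If the value of `δ` is a unit and `α ∣ δ` and `α x` is in `V`, so is `x`. -/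
theorem mem_of_dvd (V : ValuationSubring (AlgebraicClosure K))
    (hV : ∀ x : 𝓞 K, algebraMap (𝓞 K) (AlgebraicClosure K) x ∈ V)
    (α δ : MvPolynomial (Fin r) (𝓞 K)) (hd : α ∣ δ) (s : Fin r → ℤ) (h0 : val δ s ≠ 0)
    (hδ : (val δ s)⁻¹ ∈ V) (x : AlgebraicClosure K) (hx : val α s * x ∈ V) : x ∈ V := by
  obtain ⟨β, rfl⟩ := hd
  rw [val_mul] at h0 hδ
  have ha : val α s ≠ 0 := left_ne_zero_of_mul h0
  have hb : val β s ≠ 0 := right_ne_zero_of_mul h0
  have h1 : (val α s * val β s)⁻¹ * val β s * (val α s * x) ∈ V :=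
    V.mul_mem _ _ (V.mul_mem _ _ hδ (val_mem V hV β s)) hx
  have h2 : (val α s * val β s)⁻¹ * val β s * (val α s * x) = x := by
    field_simp
  rwa [h2] at h1

end SepA

open SepA in
theorem sep {K : Type} [Field K] [NumberField K] {r N : ℕ}
    (y z : Fin (N + 1) → AlgebraicClosure (GF r K)) (hy : Nrm y) (hz : Nrm z) (hyz : y ≠ z) :
    ∃ δ : MvPolynomial (Fin r) (𝓞 K), δ ≠ 0 ∧ ∀ (U : Ultrafilter (Fin r → ℤ))
      (j : AlgebraicClosure (GF r K) →+* (U : Filter (Fin r → ℤ)).Germ (AlgebraicClosure K)),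
      (∀ T : Set (Fin r → ℤ), Null T → Tᶜ ∈ U) → IsEmb U j →
      ∀ ξ ζ : (Fin r → ℤ) → Fin (N + 1) → AlgebraicClosure K, Rep j y ξ → Rep j z ζ →
      ∀ᶠ s in (U : Filter (Fin r → ℤ)), ∀ V : ValuationSubring (AlgebraicClosure K),
        (∀ x : 𝓞 K, algebraMap (𝓞 K) (AlgebraicClosure K) x ∈ V) → (val δ s)⁻¹ ∈ V →
        (∀ i, ξ s i ∈ V) ∧ (∀ i, ζ s i ∈ V) ∧
          ∃ a b, ξ s a * ζ s b - ξ s b * ζ s a ≠ 0 ∧ (ξ s a * ζ s b - ξ s b * ζ s a)⁻¹ ∈ V := by
  classical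
  obtain ⟨a, b, hab⟩ : ∃ a b, y a * z b - y b * z a ≠ 0 := by
    by_contra h
    push Not at h
    exact hyz (Nrm.eq_of_par hy hz fun i k => sub_eq_zero.1 (h i k))
  choose αy hαy hαy' using fun i => integral_rep (y i)
  choose αz hαz hαz' using fun i => integral_rep (z i)
  obtain ⟨αw, hαw, hαw'⟩ := integral_rep (y a * z b - y b * z a)⁻¹
  refine ⟨(∏ i, αy i) * (∏ i, αz i) * αw, ?_, fun U j hU hj ξ ζ hξ hζ => ?_⟩
  · refine mul_ne_zero (mul_ne_zero ?_ ?_) hαw
    · exact Finset.prod_ne_zero_iff.2 fun i _ => hαy i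
    · exact Finset.prod_ne_zero_iff.2 fun i _ => hαz i
  set δ := (∏ i, αy i) * (∏ i, αz i) * αw with hδ
  have hδ0 : δ ≠ 0 := by
    refine mul_ne_zero (mul_ne_zero ?_ ?_) hαw
    · exact Finset.prod_ne_zero_iff.2 fun i _ => hαy i
    · exact Finset.prod_ne_zero_iff.2 fun i _ => hαz i
  have hdy : ∀ i, αy i ∣ δ := fun i =>
    (Finset.dvd_prod_of_mem αy (Finset.mem_univ i)).trans
      ((dvd_mul_right _ _).trans (dvd_mul_right _ _))
  have hdz : ∀ i, αz i ∣ δ := fun i =>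
    (Finset.dvd_prod_of_mem αz (Finset.mem_univ i)).trans
      ((dvd_mul_left _ _).trans (dvd_mul_right _ _))
  have hdw : αw ∣ δ := dvd_mul_left _ _
  set w : (Fin r → ℤ) → AlgebraicClosure K := fun s => ξ s a * ζ s b - ξ s b * ζ s a with hw
  have hjw : j (y a * z b - y b * z a) = ((w : (Fin r → ℤ) → AlgebraicClosure K) :
      (U : Filter (Fin r → ℤ)).Germ (AlgebraicClosure K)) := by
    rw [map_sub, map_mul, map_mul, hξ a, hξ b, hζ a, hζ b]
    rfl
  have hjw' : j (y a * z b - y b * z a)⁻¹ =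
      (((fun s => (w s)⁻¹) : (Fin r → ℤ) → AlgebraicClosure K) :
      (U : Filter (Fin r → ℤ)).Germ (AlgebraicClosure K)) := by
    rw [map_inv₀, hjw]
    rfl
  have hw0 : ∀ᶠ s in (U : Filter (Fin r → ℤ)), w s ≠ 0 := by
    by_contra h
    have h1 : ∀ᶠ s in (U : Filter (Fin r → ℤ)), w s = 0 := by
      by_contra h2
      exact h (Ultrafilter.eventually_not.2 h2)
    have h2 : j (y a * z b - y b * z a) = 0 := by
      rw [hjw]
      exact Filter.Germ.coe_eq.2 h1
    exact hab (j.injective (h2.trans (map_zero j).symm))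
  have ey : ∀ᶠ s in (U : Filter (Fin r → ℤ)), ∀ i, ∀ V : ValuationSubring (AlgebraicClosure K),
      (∀ x : 𝓞 K, algebraMap (𝓞 K) (AlgebraicClosure K) x ∈ V) → val (αy i) s * ξ s i ∈ V :=
    Filter.eventually_all.2 fun i => hαy' i U j hj (fun s => ξ s i) (hξ i)
  have ez : ∀ᶠ s in (U : Filter (Fin r → ℤ)), ∀ i, ∀ V : ValuationSubring (AlgebraicClosure K),
      (∀ x : 𝓞 K, algebraMap (𝓞 K) (AlgebraicClosure K) x ∈ V) → val (αz i) s * ζ s i ∈ V :=
    Filter.eventually_all.2 fun i => hαz' i U j hj (fun s => ζ s i) (hζ i)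
  filter_upwards [ey, ez, hαw' U j hj (fun s => (w s)⁻¹) hjw', hw0,
    val_ne_zero U j hj δ hδ0] with s h1 h2 h3 h4 h5 V hV hVδ
  refine ⟨fun i => mem_of_dvd V hV _ δ (hdy i) s h5 hVδ _ (h1 i V hV),
    fun i => mem_of_dvd V hV _ δ (hdz i) s h5 hVδ _ (h2 i V hV), a, b, h4,
    mem_of_dvd V hV _ δ hdw s h5 hVδ _ (h3 V hV)⟩

end Pool.Agent.PNH
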