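import Mathlib
import Pool.Agent.PNH.Defs
import Pool.Agent.PNH.Emb
import Pool.Agent.PNH.Prm
import Pool.Agent.PNH.Res

set_option autoImplicit false

/-!
# Tails of preperiodic points at a prime of good reduction
-/

namespace Pool.Agent.PNH

open NumberField
open Pool.Agent.LIM (Null GF)
open Pool.Agent.FamK (ev)
open Pool.Agent.FAM (Cube)

namespace Tal

/-- Over a field proportionality is preserved by the map, if the first vector is not zero. -/
theorem par_app {N d : ℕ} {k : Type} [Field k] (F : Tup N k) (hF : ∀ i, (F i).IsHomogeneous d)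
    (u v : Fin (N + 1) → k) (hu : u ≠ 0) (h : Par u v) (n : ℕ) :
    Par ((app F)^[n] u) ((app F)^[n] v) := by
  obtain ⟨c, rfl⟩ := h.exists_smul hu
  rw [iter_smul d F hF]
  exact ((Par.refl _).smul_left _).symm

/-- Pigeonhole for an orbit in a finite set. -/
theorem pigeon {α : Type} [Finite α] (f : α → α) (x : α) (T : ℕ) (hT : Nat.card α ≤ T) :
    ∃ P, 1 ≤ P ∧ ∀ k n, T ≤ n → f^[n + k * P] x = f^[n] x := by
  classical
  have := Fintype.ofFinite α
  obtain ⟨a, ha, b, hb, hab, he⟩ := Finset.exists_ne_map_eq_of_card_lt_of_maps_to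
    (s := Finset.range (T + 1)) (t := (Finset.univ : Finset α)) (f := fun n => f^[n] x)
    (by rw [Finset.card_range, Finset.card_univ, ← Nat.card_eq_fintype_card]; omega)
    (fun _ _ => Finset.mem_coe.2 (Finset.mem_univ _))
  rw [Finset.mem_range] at ha hb
  wlog hlt : a < b generalizing a b
  · exact this b hb a ha hab.symm he.symm (by omega)
  refine ⟨b - a, by omega, ?_⟩
  have h1 : ∀ n, a ≤ n → f^[n + (b - a)] x = f^[n] x := by
    intro n hn
    have e1 : n + (b - a) = (n - a) + b := by omega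
    have e2 : n = (n - a) + a := by omega
    conv_rhs => rw [e2]
    rw [e1, Function.iterate_add_apply, Function.iterate_add_apply]
    exact congrArg _ he.symm
  intro k n hn
  induction k with
  | zero => simp
  | succ k ih =>
    rw [← ih, Nat.succ_mul, ← add_assoc]
    exact h1 _ (by omega)

theorem par_of_smul {N : ℕ} {k : Type} [Field k] {u v : Fin (N + 1) → k} {a b : k} (ha : a ≠ 0)
    (hb : b ≠ 0) (h : Par (a • u) (b • v)) : Par u v := by
  have h1 := h.smul_left a⁻¹
  rw [smul_smul, inv_mul_cancel₀ ha, one_smul] at h1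
  have h2 := h1.symm.smul_left b⁻¹
  rw [smul_smul, inv_mul_cancel₀ hb, one_smul] at h2
  exact h2.symm

theorem prim_iter {N : ℕ} {R : Type} [CommRing R] [IsDomain R] [ValuationRing R] (F : Tup N R)
    (c : R) (e : ℕ) (hc : IsUnit c) (h : Cert F c e) (x : Fin (N + 1) → R)
    (hx : ∃ i, IsUnit (x i)) (n : ℕ) : ∃ i, IsUnit ((app F)^[n] x i) := by
  induction n with
  | zero => exact hx
  | succ n ih =>
    rw [Function.iterate_succ_apply']
    exact prim_app F c e hc h _ ih

/-- Over a valuation ring with a small residue field. -/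
theorem red {N d : ℕ} {R : Type} [CommRing R] [IsDomain R] [ValuationRing R]
    [Finite (IsLocalRing.ResidueField R)] (T : ℕ)
    (hT : Nat.card (IsLocalRing.ResidueField R) ^ (N + 1) ≤ T) (F : Tup N R)
    (hF : ∀ i, (F i).IsHomogeneous d) (c : R) (e : ℕ) (hc : IsUnit c) (h : Cert F c e)
    (x : Fin (N + 1) → R) (hx : ∃ i, IsUnit (x i)) (t m : ℕ) (ht : T ≤ t) (hm : 1 ≤ m)
    (hp : Par ((app F)^[t + m] x) ((app F)^[t + m + m] x)) (i j : Fin (N + 1)) :
    ¬ IsUnit ((app F)^[t] x i * (app F)^[t + m] x j - (app F)^[t] x j * (app F)^[t + m] x i) := by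
  have hprim : ∀ n, ∃ i, IsUnit ((app F)^[n] x i) := prim_iter F c e hc h x hx
  set ρ : R →+* IsLocalRing.ResidueField R := IsLocalRing.residue R with hρ
  set G := mp ρ F with hG
  have hGh : ∀ i, (G i).IsHomogeneous d := hom_mp d ρ F hF
  have hw : ∀ n, (app G)^[n] (fun i => ρ (x i)) = fun i => ρ ((app F)^[n] x i) := fun n =>
    iter_mp ρ F n x
  have hne : ∀ n, (app G)^[n] (fun i => ρ (x i)) ≠ 0 := by
    intro n h0
    obtain ⟨i, hi⟩ := hprim n
    rw [hw] at h0
    have := congrFun h0 i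
    exact (hi.map ρ).ne_zero this
  obtain ⟨P, hP, hper⟩ := pigeon (app G) (fun i => ρ (x i)) T (by
    rw [Nat.card_fun, Nat.card_fin]
    exact hT)
  -- the proportionality passes to the reduction and to all later points
  have hpr : Par ((app G)^[t + m] (fun i => ρ (x i))) ((app G)^[t + m + m] (fun i => ρ (x i))) := by
    rw [hw, hw]
    exact hp.map ρ
  have hmP : m ≤ m * P := Nat.le_mul_of_pos_right m hP
  have h2 := par_app G hGh _ _ (hne _) hpr (m * P - m)
  rw [← Function.iterate_add_apply, ← Function.iterate_add_apply] at h2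
  have e1 : m * P - m + (t + m) = t + m * P := by omega
  have e2 : m * P - m + (t + m + m) = (t + m) + m * P := by omega
  rw [e1, e2, hper m t ht, hper m (t + m) (by omega), hw, hw] at h2
  have h3 := h2 i j
  intro hu
  have h4 := (hu.map ρ).ne_zero
  apply h4
  rw [map_sub, map_mul, map_mul]
  exact sub_eq_zero.2 h3

end Tal

theorem tail_red {K : Type} [Field K] [NumberField K] {r N d : ℕ} (hd : 1 ≤ d) (D : ℕ)
    (F : Tup N (MvPolynomial (Fin r) (𝓞 K))) (hF : ∀ i, (F i).IsHomogeneous d)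
    (c : MvPolynomial (Fin r) (𝓞 K)) (e : ℕ) (hc : Cert F c e) (p : ℕ) (hp : p.Prime) :
    ∃ T : ℕ, ∀ (s : Fin r → ℤ) (V : ValuationSubring (AlgebraicClosure K)), ¬ IsUnit (p : V) →
      (∀ x : 𝓞 K, algebraMap (𝓞 K) (AlgebraicClosure K) x ∈ V) →
      (algebraMap (𝓞 K) (AlgebraicClosure K) (ev s c))⁻¹ ∈ V → ev s c ≠ 0 →
      ∀ x : Fin (N + 1) → AlgebraicClosure K, x ≠ 0 → DegLe K D x → ∀ t m : ℕ, T ≤ t → 1 ≤ m →
        Par ((app (mp (algebraMap K _) (mem s F)))^[t + m] x)
          ((app (mp (algebraMap K _) (mem s F)))^[t + m + m] x) →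
        ∀ y z : Fin (N + 1) → V, (∃ i, y i = 1) → (∃ i, z i = 1) →
          Par ((app (mp (algebraMap K _) (mem s F)))^[t] x) (fun i => (y i : AlgebraicClosure K)) →
          Par ((app (mp (algebraMap K _) (mem s F)))^[t + m] x)
            (fun i => (z i : AlgebraicClosure K)) →
          ∀ i j, ¬ IsUnit (y i * z j - y j * z i) := by
  refine ⟨(p ^ (D * Module.finrank ℚ K)) ^ (N + 1), ?_⟩
  intro s V hpV hO hcV hc0 x hx0 hx t m ht hm hpar y z hy hz hty htz i j
  obtain ⟨θ, hθ, hxθ⟩ := hx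
  obtain ⟨hfin, hcard⟩ := residue D p hp V hpV θ hθ
  set L := IntermediateField.adjoin K {θ} with hL
  set W : ValuationSubring L := V.comap (algebraMap L (AlgebraicClosure K)) with hW
  have := hfin
  -- the integral ring maps
  have hOW : ∀ a : 𝓞 K, algebraMap K L (algebraMap (𝓞 K) K a) ∈ W := fun a => hO a
  let φ : 𝓞 K →+* W := ((algebraMap K L).comp (algebraMap (𝓞 K) K)).codRestrict W.toSubring hOW
  let ι : W →+* V := ((algebraMap L (AlgebraicClosure K)).comp W.subtype).codRestrict V.toSubring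
    (fun a => a.2)
  let ψ : W →+* AlgebraicClosure K := (algebraMap L (AlgebraicClosure K)).comp W.subtype
  have hψι : ∀ a, ((ι a : V) : AlgebraicClosure K) = ψ a := fun a => rfl
  set FW : Tup N W := mp (φ.comp (ev s)) F with hFW
  have hFWh : ∀ i, (FW i).IsHomogeneous d := hom_mp d _ F hF
  have hFK : mp (algebraMap K (AlgebraicClosure K)) (mem s F) = mp ψ FW := by
    unfold mem
    rw [hFW, mp_mp, mp_mp]
    rfl
  have hcert : Cert FW (φ (ev s c)) e := hc.mp (φ.comp (ev s))
  have hψinj : Function.Injective ψ := fun a b hab =>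
    Subtype.ext ((algebraMap L (AlgebraicClosure K)).injective hab)
  have hψu : ∀ a : W, ψ a ≠ 0 → (ψ a)⁻¹ ∈ V → IsUnit a := by
    intro a ha hia
    have hmem : (a : L)⁻¹ ∈ W := by
      change algebraMap L (AlgebraicClosure K) ((a : L)⁻¹) ∈ V
      rw [map_inv₀]
      exact hia
    refine IsUnit.of_mul_eq_one (⟨(a : L)⁻¹, hmem⟩ : W) (Subtype.ext ?_)
    change (a : L) * (a : L)⁻¹ = 1
    refine mul_inv_cancel₀ fun h0 => ha ?_
    change algebraMap L (AlgebraicClosure K) (a : L) = 0
    rw [h0, map_zero]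
  have hcu : IsUnit (φ (ev s c)) := by
    refine hψu _ ?_ hcV
    intro h0
    apply hc0
    have h1 : algebraMap K (AlgebraicClosure K) (algebraMap (𝓞 K) K (ev s c)) = 0 := h0
    rw [map_eq_zero] at h1
    exact (map_eq_zero_iff _ (FaithfulSMul.algebraMap_injective (𝓞 K) K)).1 h1
  -- the vector over `L`
  let x' : Fin (N + 1) → L := fun i => ⟨x i, hxθ i⟩
  have hx' : x' ≠ 0 := by
    intro h0
    apply hx0
    funext i
    have := congrFun h0 i
    exact congrArg (algebraMap L (AlgebraicClosure K)) this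
  obtain ⟨c₀, w, hc₀, hw1, hxw⟩ := exists_prim W x' hx'
  set c₁ : AlgebraicClosure K := algebraMap L (AlgebraicClosure K) c₀ with hc₁
  have hc₁0 : c₁ ≠ 0 := (map_ne_zero _).2 hc₀
  have hxc : x = c₁ • fun i => ψ (w i) := by
    funext i
    have := congrArg (algebraMap L (AlgebraicClosure K)) (congrFun hxw i)
    rw [Pi.smul_apply, smul_eq_mul, map_mul] at this
    exact this
  have hit : ∀ n, (app (mp ψ FW))^[n] x = c₁ ^ d ^ n • fun i => ψ ((app FW)^[n] w i) := by
    intro n
    rw [hxc, iter_smul d _ (hom_mp d ψ FW hFWh), iter_mp]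
  have hcn : ∀ n, c₁ ^ d ^ n ≠ 0 := fun n => pow_ne_zero _ hc₁0
  have hw : ∃ i, IsUnit (w i) := by
    obtain ⟨i, hi⟩ := hw1
    exact ⟨i, by rw [hi]; exact isUnit_one⟩
  have hprim : ∀ n, ∃ i, IsUnit ((app FW)^[n] w i) := Tal.prim_iter FW _ e hcu hcert w hw
  have hred := Tal.red (d := d) ((p ^ (D * Module.finrank ℚ K)) ^ (N + 1))
    (Nat.pow_le_pow_left hcard _) FW hFWh _ e hcu hcert w hw t m ht hm (by
      rw [hFK, hit, hit] at hpar
      have h1 := Tal.par_of_smul (hcn _) (hcn _) hpar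
      intro i j
      apply hψinj
      rw [map_mul, map_mul]
      exact h1 i j) i j
  have key : ∀ (n : ℕ) (v : Fin (N + 1) → V), (∃ i, v i = 1) →
      Par ((app (mp ψ FW))^[n] x) (fun i => (v i : AlgebraicClosure K)) →
      ∃ u : V, v = u • fun i => ι ((app FW)^[n] w i) := by
    intro n v hv hpv
    rw [hit] at hpv
    have h1 := hpv.smul_left (c₁ ^ d ^ n)⁻¹
    rw [smul_smul, inv_mul_cancel₀ (hcn n), one_smul] at h1
    obtain ⟨u, -, hu⟩ := prim_par (fun i => ι ((app FW)^[n] w i)) v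
      ((hprim n).imp fun i hi => hi.map ι)
      (by
        obtain ⟨i, hi⟩ := hv
        exact ⟨i, by rw [hi]; exact isUnit_one⟩)
      (fun i j => Subtype.ext (h1 i j))
    exact ⟨u, hu⟩
  rw [hFK] at hty htz
  obtain ⟨u, hu⟩ := key t y hy hty
  obtain ⟨u', hu'⟩ := key (t + m) z hz htz
  intro hunit
  have e1 : y i * z j - y j * z i = u * u' * ι ((app FW)^[t] w i * (app FW)^[t + m] w j -
      (app FW)^[t] w j * (app FW)^[t + m] w i) := by
    rw [hu, hu', map_sub, map_mul, map_mul]
    simp only [Pi.smul_apply, smul_eq_mul]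
    ring
  rw [e1] at hunit
  have h2 := isUnit_of_mul_isUnit_right hunit
  apply hred
  obtain ⟨v, hv⟩ := h2.exists_right_inv
  have hv' : ψ ((app FW)^[t] w i * (app FW)^[t + m] w j - (app FW)^[t] w j *
      (app FW)^[t + m] w i) * (v : AlgebraicClosure K) = 1 := congrArg Subtype.val hv
  refine hψu _ (left_ne_zero_of_mul_eq_one hv') ?_
  rw [inv_eq_of_mul_eq_one_right hv']
  exact v.2

end Pool.Agent.PNH
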