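import Mathlib
import Pool.Agent.PNH.Defs
import Pool.Agent.PNH.Emb
import Pool.Agent.PNH.ParL
import Pool.Agent.PNH.Cer
import Pool.Agent.PNH.Ult
import Pool.Agent.PNH.Tra
import Pool.Agent.PNH.Gen
import Pool.Agent.PNH.Fty
import Pool.Agent.PNH.Pmb
import Pool.Agent.PNH.Res
import Pool.Agent.PNH.Tal
import Pool.Agent.PNH.Sep
import Pool.Agent.LIM.Mod
import Pool.Agent.FAM.KNorm

set_option autoImplicit false

/-!
# For most members all preperiodic points of degree at most `D` have bounded type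
-/

namespace Pool.Agent.PNH

open NumberField Filter
open Pool.Agent.LIM (Null GF)
open Pool.Agent.FamK (ev)
open Pool.Agent.FAM (Cube)

namespace Tls

/-- Two primes with few bad parameters. -/
theorem exists_prime {K : Type} [Field K] [NumberField K] {r : ℕ}
    (c : MvPolynomial (Fin r) (𝓞 K)) (hc : c ≠ 0) (q : ℕ) (hq : 1 ≤ q) (ε : ℝ) (hε : 0 < ε) :
    ∃ p : ℕ, p.Prime ∧ ¬ p ∣ q ∧ ∃ H₀ : ℕ, ∀ H : ℕ, H₀ ≤ H →
      (((Cube r H : Set (Fin r → ℤ)) ∩ {s | (p : ℤ) ∣ Algebra.norm ℤ (ev s c)}).ncard : ℝ) ≤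
        ε * (2 * (H : ℝ) + 1) ^ r := by
  obtain ⟨W, hW, hW0, -⟩ := FamK.norm_poly c
  have hW1 : MvPolynomial.C (q : ℤ) * W ≠ 0 :=
    mul_ne_zero (by
      intro h
      have h2 : ((q : ℤ)) = 0 := MvPolynomial.C_injective _ _ (h.trans (map_zero _).symm)
      omega) (hW0 hc)
  obtain ⟨p, hp, H₀, hH⟩ := LIM.modp (MvPolynomial.C (q : ℤ) * W) hW1 (min ε (1 / 2))
    (lt_min hε (by norm_num))
  refine ⟨p, hp, ?_, H₀, fun H hHH => ?_⟩
  · intro hpq
    have h1 := hH H₀ le_rfl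
    have h2 : (((Cube r H₀ : Set (Fin r → ℤ)) ∩
        {s | (p : ℤ) ∣ MvPolynomial.eval s (MvPolynomial.C (q : ℤ) * W)})) =
        (Cube r H₀ : Set (Fin r → ℤ)) := by
      refine Set.inter_eq_left.2 fun s _ => ?_
      rw [Set.mem_ofPred_eq, map_mul, MvPolynomial.eval_C]
      exact Dvd.dvd.mul_right (by exact_mod_cast hpq) _
    rw [h2, Set.ncard_coe_finset, FAM.card_Cube] at h1
    push_cast at h1
    have h3 : (0 : ℝ) < (2 * (H₀ : ℝ) + 1) ^ r := by positivity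
    have h4 : min ε (1 / 2) * (2 * (H₀ : ℝ) + 1) ^ r ≤ 1 / 2 * (2 * (H₀ : ℝ) + 1) ^ r :=
      mul_le_mul_of_nonneg_right (min_le_right _ _) h3.le
    linarith
  · refine le_trans ?_ ((hH H hHH).trans (mul_le_mul_of_nonneg_right (min_le_left _ _)
      (by positivity)))
    have hsub : ((Cube r H : Set (Fin r → ℤ)) ∩ {s | (p : ℤ) ∣ Algebra.norm ℤ (ev s c)}) ⊆
        ((Cube r H : Set (Fin r → ℤ)) ∩
          {s | (p : ℤ) ∣ MvPolynomial.eval s (MvPolynomial.C (q : ℤ) * W)}) := by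
      rintro s ⟨hs1, hs2⟩
      refine ⟨hs1, ?_⟩
      rw [Set.mem_ofPred_eq, map_mul, MvPolynomial.eval_C, hW s]
      exact Dvd.dvd.mul_left hs2 _
    exact_mod_cast Set.ncard_le_ncard hsub ((Finset.finite_toSet _).inter_of_left _)

/-- The orbit of a preperiodic point of bad type: a pair of different points of type `(m, 2 m)`
which are congruent. -/
theorem exists_pair {K : Type} [Field K] [NumberField K] {r N d : ℕ} (D : ℕ)
    (F : Tup N (MvPolynomial (Fin r) (𝓞 K))) (hF : ∀ i, (F i).IsHomogeneous d)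
    (c : MvPolynomial (Fin r) (𝓞 K)) (e : ℕ) (hc : Cert F c e) (s : Fin r → ℤ)
    (hs : ev s c ≠ 0) (m T : ℕ) (hm : 1 ≤ m)
    (hper : ∀ x : Fin (N + 1) → AlgebraicClosure K, x ≠ 0 → DegLe K D x →
      (∃ n, 1 ≤ n ∧ Par ((app (mp (algebraMap K _) (mem s F)))^[n] x) x) →
      Par ((app (mp (algebraMap K _) (mem s F)))^[m] x) x)
    (hne : Pre K D (mem s F) ≠ PreB K D (T + m + m + 1) (mem s F)) :
    ∃ (x y z : Fin (N + 1) → AlgebraicClosure K) (t : ℕ), x ≠ 0 ∧ DegLe K D x ∧ T ≤ t ∧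
      Nrm y ∧ Nrm z ∧ y ≠ z ∧
      Par ((app (mp (algebraMap K _) (mem s F)))^[t] x) y ∧
      Par ((app (mp (algebraMap K _) (mem s F)))^[t + m] x) z ∧
      Par ((app (mp (algebraMap K _) (mem s F)))^[t + m] x)
        ((app (mp (algebraMap K _) (mem s F)))^[t + m + m] x) ∧
      Par ((app (mp (algebraMap K _) (mem s F)))^[m] y)
        ((app (mp (algebraMap K _) (mem s F)))^[m + m] y) ∧
      Par ((app (mp (algebraMap K _) (mem s F)))^[m] z)
        ((app (mp (algebraMap K _) (mem s F)))^[m + m] z) := by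
  set G : Tup N (AlgebraicClosure K) := mp (algebraMap K _) (mem s F) with hG
  have hGh : ∀ i, (G i).IsHomogeneous d := hom_mp d _ _ (hom_mp d _ F hF)
  have hG0 : ∀ x, app G x = 0 → x = 0 := fun x hx => mem_eq_zero F c e hc s hs x hx
  obtain ⟨x, hx, hxB⟩ : ∃ x ∈ Pre K D (mem s F), x ∉ PreB K D (T + m + m + 1) (mem s F) := by
    by_contra h
    push Not at h
    exact hne (Set.Subset.antisymm h (preB_subset K D _ _))
  obtain ⟨hxN, hxD, a, b, hab, hpar⟩ := hx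
  have hx0 : x ≠ 0 := hxN.ne_zero
  have hit0 : ∀ n, (app G)^[n] x ≠ 0 := fun n => iter_ne_zero G hG0 n hx0
  -- the property of being fixed by the `m`-th iterate
  have hex : ∃ a, Par ((app G)^[a + m] x) ((app G)^[a] x) := by
    refine ⟨a, ?_⟩
    have h1 := hper ((app G)^[a] x) (hit0 a) (degLe_iter (mem s F) x hxD a) ⟨b - a, by omega, by
      rw [← Function.iterate_add_apply, Nat.sub_add_cancel hab.le]
      exact hpar.symm⟩
    rw [← Function.iterate_add_apply] at h1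
    have e0 : m + a = a + m := Nat.add_comm m a
    rw [e0] at h1
    exact h1
  classical
  set a0 := Nat.find hex with ha0
  have hQ : Par ((app G)^[a0 + m] x) ((app G)^[a0] x) := Nat.find_spec hex
  have hbig : T + m + m + 1 < a0 + m := by
    by_contra h
    push Not at h
    exact hxB ⟨hxN, hxD, a0, a0 + m, by omega, h, hQ.symm⟩
  obtain ⟨t, ht⟩ : ∃ t, a0 = t + m := ⟨a0 - m, by omega⟩
  have hTt : T ≤ t := by omega
  have hnot : ¬ Par ((app G)^[t + m] x) ((app G)^[t] x) :=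
    Nat.find_min hex (by rw [← ha0]; omega)
  obtain ⟨c1, hc1, hy⟩ := exists_nrm ((app G)^[t] x) (hit0 t)
  obtain ⟨c2, hc2, hz⟩ := exists_nrm ((app G)^[t + m] x) (hit0 (t + m))
  rw [ht] at hQ
  have hyx : Par ((app G)^[t] x) (c1 • (app G)^[t] x) := (Par.refl _).smul_right c1
  have hzx : Par ((app G)^[t + m] x) (c2 • (app G)^[t + m] x) := (Par.refl _).smul_right c2
  -- iterates of y and z
  have key : ∀ n, t + m ≤ n → Par ((app G)^[n] x) ((app G)^[n + m] x) := by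
    intro n hn
    obtain ⟨i, rfl⟩ := Nat.exists_eq_add_of_le hn
    have h := Par.iter G hGh (hit0 (t + m + m)) hQ i
    rw [← Function.iterate_add_apply, ← Function.iterate_add_apply] at h
    have e1 : i + (t + m + m) = t + m + i + m := by ring
    have e2 : i + (t + m) = t + m + i := by ring
    rw [e1, e2] at h
    exact h.symm
  have hiter : ∀ (c : AlgebraicClosure K), c ≠ 0 → ∀ n i, Par ((app G)^[n] (c • (app G)^[i] x))
      ((app G)^[n + i] x) := by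
    intro c _ n i
    rw [iter_smul d G hGh, ← Function.iterate_add_apply]
    exact (Par.refl _).smul_left _
  refine ⟨x, c1 • (app G)^[t] x, c2 • (app G)^[t + m] x, t, hx0, hxD, hTt, hy, hz, ?_, hyx, hzx,
    hQ.symm, ?_, ?_⟩
  · intro h
    refine hnot ?_
    have h1 : Par ((app G)^[t + m] x) (c1 • (app G)^[t] x) := by
      rw [h]
      exact hzx
    exact (h1.symm.of_smul_left hc1).symm
  · have h1 := hiter c1 hc1 m t
    have h2 := hiter c1 hc1 (m + m) t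
    have e1 : m + t = t + m := by ring
    have e2 : m + m + t = t + m + m := by ring
    rw [e1] at h1
    rw [e2] at h2
    exact (h1.trans (hit0 _) (key (t + m) le_rfl)).trans (hit0 _) h2.symm
  · have h1 := hiter c2 hc2 m (t + m)
    have h2 := hiter c2 hc2 (m + m) (t + m)
    have e1 : m + (t + m) = t + m + m := by ring
    have e2 : m + m + (t + m) = t + m + m + m := by ring
    rw [e1] at h1
    rw [e2] at h2
    exact (h1.trans (hit0 _) (key (t + m + m) (by omega))).trans (hit0 _) h2.symm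

end Tls

open Classical in
theorem types {K : Type} [Field K] [NumberField K] {r N d : ℕ} (hd : 2 ≤ d) (D : ℕ)
    (F : Tup N (MvPolynomial (Fin r) (𝓞 K))) (hF : IsMor d (GF r K) (gen F)) (ε : ℝ)
    (hε : 0 < ε) : ∃ B H₀ : ℕ, ∀ H : ℕ, H₀ ≤ H →
      (((Cube r H : Set (Fin r → ℤ)) ∩ {s | Pre K D (mem s F) ≠ PreB K D B (mem s F)}).ncard : ℝ) ≤
        ε * (2 * (H : ℝ) + 1) ^ r := by
  have hd1 : 1 ≤ d := by omega
  have hFh : ∀ i, (F i).IsHomogeneous d := hom_of_gen F hF.1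
  obtain ⟨c, e, hc0, hc⟩ := exists_cert F (exists_cert_gen F hF)
  obtain ⟨p, hp, -, Hp, hHp⟩ := Tls.exists_prime c hc0 1 le_rfl (ε / 4) (by positivity)
  obtain ⟨q, hq, hqp, Hq, hHq⟩ := Tls.exists_prime c hc0 p hp.one_lt.le (ε / 4) (by positivity)
  have hpq : p ≠ q := by
    rintro rfl
    exact hqp dvd_rfl
  obtain ⟨B₁, hB₁⟩ := period_mem hd1 D F hFh c e hc p q hp hq hpq
  set m := B₁.factorial with hm
  have hm1 : 1 ≤ m := Nat.factorial_pos B₁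
  -- the finite set of generic points of type `(m, 2 m)`
  set Fg : Tup N (AlgebraicClosure (GF r K)) :=
    mp (algebraMap (GF r K) (AlgebraicClosure (GF r K))) (gen F) with hFg
  have hFgh : ∀ i, (Fg i).IsHomogeneous d := hom_mp d _ _ hF.1
  have hcert : Cert Fg (algebraMap (GF r K) (AlgebraicClosure (GF r K))
      (algebraMap (MvPolynomial (Fin r) (𝓞 K)) (GF r K) c)) e :=
    (hc.mp (algebraMap (MvPolynomial (Fin r) (𝓞 K)) (GF r K))).mp _
  have hcne : algebraMap (GF r K) (AlgebraicClosure (GF r K))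
      (algebraMap (MvPolynomial (Fin r) (𝓞 K)) (GF r K) c) ≠ 0 := by
    rw [map_ne_zero_iff _ (algebraMap (GF r K) (AlgebraicClosure (GF r K))).injective,
      map_ne_zero_iff _ (IsFractionRing.injective (MvPolynomial (Fin r) (𝓞 K)) (GF r K))]
    exact hc0
  have hT : {x : Fin (N + 1) → AlgebraicClosure (GF r K) | Nrm x ∧
      Par ((app Fg)^[m] x) ((app Fg)^[m + m] x)}.Finite :=
    finite_type hd Fg hFgh _ e hcne hcert m (m + m) (by omega)
  set T₁ := hT.toFinset with hT₁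
  have hT₁mem : ∀ x, x ∈ T₁ ↔ Nrm x ∧ Par ((app Fg)^[m] x) ((app Fg)^[m + m] x) := fun x => by
    rw [hT₁, Set.Finite.mem_toFinset]
    rfl
  -- the separating polynomial
  have hδ : ∀ yz : (Fin (N + 1) → AlgebraicClosure (GF r K)) ×
      (Fin (N + 1) → AlgebraicClosure (GF r K)), ∃ δ : MvPolynomial (Fin r) (𝓞 K), δ ≠ 0 ∧
      (Nrm yz.1 → Nrm yz.2 → yz.1 ≠ yz.2 → ∀ (U : Ultrafilter (Fin r → ℤ))
      (j : AlgebraicClosure (GF r K) →+* (U : Filter (Fin r → ℤ)).Germ (AlgebraicClosure K)),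
      (∀ T : Set (Fin r → ℤ), Null T → Tᶜ ∈ U) → IsEmb U j →
      ∀ ξ ζ : (Fin r → ℤ) → Fin (N + 1) → AlgebraicClosure K, Rep j yz.1 ξ → Rep j yz.2 ζ →
      ∀ᶠ s in (U : Filter (Fin r → ℤ)), ∀ V : ValuationSubring (AlgebraicClosure K),
        (∀ x : 𝓞 K, algebraMap (𝓞 K) (AlgebraicClosure K) x ∈ V) → (val δ s)⁻¹ ∈ V →
        (∀ i, ξ s i ∈ V) ∧ (∀ i, ζ s i ∈ V) ∧
          ∃ a b, ξ s a * ζ s b - ξ s b * ζ s a ≠ 0 ∧
            (ξ s a * ζ s b - ξ s b * ζ s a)⁻¹ ∈ V) := by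
    rintro ⟨y, z⟩
    by_cases h : Nrm y ∧ Nrm z ∧ y ≠ z
    · obtain ⟨δ, h1, h2⟩ := sep y z h.1 h.2.1 h.2.2
      exact ⟨δ, h1, fun _ _ _ => h2⟩
    · exact ⟨1, one_ne_zero, fun h1 h2 h3 => absurd ⟨h1, h2, h3⟩ h⟩
  choose δ hδ0 hδ using hδ
  set Δ := ∏ yz ∈ T₁ ×ˢ T₁, δ yz with hΔ
  have hΔ0 : Δ ≠ 0 := Finset.prod_ne_zero_iff.2 fun yz _ => hδ0 yz
  obtain ⟨p₂, hp₂, -, H₂, hH₂⟩ := Tls.exists_prime (c * Δ) (mul_ne_zero hc0 hΔ0) 1 le_rfl (ε / 4)
    (by positivity)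
  obtain ⟨V, hVp, hV⟩ := exists_val K p₂ hp₂
  obtain ⟨T, hTr⟩ := tail_red hd1 D F hFh c e hc p₂ hp₂
  set B := T + m + m + 1 with hB
  set Bad : Set (Fin r → ℤ) := {s | ¬ (p : ℤ) ∣ Algebra.norm ℤ (ev s c) ∧
    ¬ (q : ℤ) ∣ Algebra.norm ℤ (ev s c) ∧ ¬ (p₂ : ℤ) ∣ Algebra.norm ℤ (ev s (c * Δ)) ∧
    Pre K D (mem s F) ≠ PreB K D B (mem s F)} with hBad
  have hnull : Null Bad := by
    by_contra hnn
    obtain ⟨U, hU1, hU⟩ := exists_ultra Bad hnn
    obtain ⟨j, hj⟩ := exists_emb (K := K) U hU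
    have hpair : ∀ s, ∃ xyz : (Fin (N + 1) → AlgebraicClosure K) ×
        (Fin (N + 1) → AlgebraicClosure K) × (Fin (N + 1) → AlgebraicClosure K), ∃ t : ℕ,
        s ∈ Bad → xyz.1 ≠ 0 ∧ DegLe K D xyz.1 ∧ T ≤ t ∧
        Nrm xyz.2.1 ∧ Nrm xyz.2.2 ∧ xyz.2.1 ≠ xyz.2.2 ∧
        Par ((app (mp (algebraMap K _) (mem s F)))^[t] xyz.1) xyz.2.1 ∧
        Par ((app (mp (algebraMap K _) (mem s F)))^[t + m] xyz.1) xyz.2.2 ∧
        Par ((app (mp (algebraMap K _) (mem s F)))^[t + m] xyz.1)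
          ((app (mp (algebraMap K _) (mem s F)))^[t + m + m] xyz.1) ∧
        Par ((app (mp (algebraMap K _) (mem s F)))^[m] xyz.2.1)
          ((app (mp (algebraMap K _) (mem s F)))^[m + m] xyz.2.1) ∧
        Par ((app (mp (algebraMap K _) (mem s F)))^[m] xyz.2.2)
          ((app (mp (algebraMap K _) (mem s F)))^[m + m] xyz.2.2) := by
      intro s
      by_cases hs : s ∈ Bad
      · have hsB := hs
        obtain ⟨h1, h2, h3, h4⟩ := hs
        have hcs : ev s c ≠ 0 := by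
          intro h0
          rw [h0, Algebra.norm_zero] at h1
          exact h1 (dvd_zero _)
        obtain ⟨x, y, z, t, h⟩ := Tls.exists_pair D F hFh c e hc s hcs m T hm1 (by
          intro x hx0 hxD hper
          obtain ⟨n, hn1, hnB, hn⟩ := hB₁ s h1 h2 x hx0 hxD hper
          obtain ⟨k, hk⟩ := Nat.dvd_factorial hn1 hnB
          rw [hm, hk]
          exact par_iter_mul _ (hom_mp d _ _ (hom_mp d _ F hFh))
            (fun x hx => mem_eq_zero F c e hc s hcs x hx) hx0 n hn k) h4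
        exact ⟨(x, y, z), t, fun _ => h⟩
      · exact ⟨(0, 0, 0), 0, fun h => absurd h hs⟩
    choose xyz t hxyz using hpair
    have hBadU : ∀ᶠ s in (U : Filter (Fin r → ℤ)), s ∈ Bad := hU1
    have hξ : ∀ᶠ s in (U : Filter (Fin r → ℤ)), Nrm (xyz s).2.1 ∧
        Par ((app (mp (algebraMap K _) (mem s F)))^[m] (xyz s).2.1)
          ((app (mp (algebraMap K _) (mem s F)))^[m + m] (xyz s).2.1) := by
      filter_upwards [hBadU] with s hs
      obtain ⟨-, -, -, h1, -, -, -, -, -, h2, -⟩ := hxyz s hs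
      exact ⟨h1, h2⟩
    have hζ : ∀ᶠ s in (U : Filter (Fin r → ℤ)), Nrm (xyz s).2.2 ∧
        Par ((app (mp (algebraMap K _) (mem s F)))^[m] (xyz s).2.2)
          ((app (mp (algebraMap K _) (mem s F)))^[m + m] (xyz s).2.2) := by
      filter_upwards [hBadU] with s hs
      obtain ⟨-, -, -, -, h1, -, -, -, -, -, h2⟩ := hxyz s hs
      exact ⟨h1, h2⟩
    obtain ⟨y, hy⟩ := exists_gen hd j hj F hF m (m + m) (by omega) (fun s => (xyz s).2.1) hξ
    obtain ⟨z, hz⟩ := exists_gen hd j hj F hF m (m + m) (by omega) (fun s => (xyz s).2.2) hζ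
    have hyT : y ∈ T₁ := (hT₁mem y).2 ⟨(rep_nrm j y _ hy).2 (hξ.mono fun s h => h.1),
      (rep_par j hj F y _ hy m (m + m)).2 (hξ.mono fun s h => h.2)⟩
    have hzT : z ∈ T₁ := (hT₁mem z).2 ⟨(rep_nrm j z _ hz).2 (hζ.mono fun s h => h.1),
      (rep_par j hj F z _ hz m (m + m)).2 (hζ.mono fun s h => h.2)⟩
    have hyz : y ≠ z := by
      intro h
      have h1 := (rep_eq j y z _ _ hy hz).1 h
      obtain ⟨s, hs1, hs2⟩ := (h1.and hBadU).exists
      exact (hxyz s hs2).2.2.2.2.2.1 hs1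
    have hsep := hδ (y, z) ((hT₁mem y).1 hyT).1 ((hT₁mem z).1 hzT).1 hyz U j hU hj _ _ hy hz
    obtain ⟨s, hs1, hs2⟩ := (hsep.and hBadU).exists
    obtain ⟨h1, h2, h3, h4⟩ := id hs2
    have hcΔ : ev s (c * Δ) ≠ 0 := by
      intro h0
      rw [h0, Algebra.norm_zero] at h3
      exact h3 (dvd_zero _)
    have hcs : ev s c ≠ 0 := fun h0 => hcΔ (by rw [map_mul, h0, zero_mul])
    have hVO : ∀ x : 𝓞 K, algebraMap (𝓞 K) (AlgebraicClosure K) x ∈ V := fun x => (hV x).1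
    have hvalQ : (val (c * Δ) s)⁻¹ ∈ V := by
      have := (hV (ev s (c * Δ))).2 h3
      rwa [IsScalarTower.algebraMap_apply (𝓞 K) K (AlgebraicClosure K)] at this
    have hvδ : (val (δ (y, z)) s)⁻¹ ∈ V := inv_mem_of_dvd V hVO _ (c * Δ)
      (Dvd.dvd.mul_left (Finset.dvd_prod_of_mem _ (Finset.mem_product.2 ⟨hyT, hzT⟩)) c) s hcΔ hvalQ
    have hvc : (algebraMap (𝓞 K) (AlgebraicClosure K) (ev s c))⁻¹ ∈ V := by
      have := inv_mem_of_dvd V hVO c (c * Δ) (dvd_mul_right _ _) s hcΔ hvalQ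
      rwa [IsScalarTower.algebraMap_apply (𝓞 K) K (AlgebraicClosure K)]
    obtain ⟨hyV, hzV, a, b, hab, habV⟩ := hs1 V hVO hvδ
    obtain ⟨hx0, hxD, hTt, hyN, hzN, -, hpy, hpz, hpp, -, -⟩ := hxyz s hs2
    obtain ⟨i₁, hi₁, -⟩ := hyN
    obtain ⟨i₂, hi₂, -⟩ := hzN
    have hred := hTr s V hVp hVO hvc hcs (xyz s).1 hx0 hxD (t s) m hTt hm1 hpp
      (fun i => ⟨(xyz s).2.1 i, hyV i⟩) (fun i => ⟨(xyz s).2.2 i, hzV i⟩)
      ⟨i₁, Subtype.ext hi₁⟩ ⟨i₂, Subtype.ext hi₂⟩ hpy hpz a b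
    refine hred ?_
    refine IsUnit.of_mul_eq_one (b := ⟨_, habV⟩) (Subtype.ext ?_)
    exact mul_inv_cancel₀ hab
  -- count
  obtain ⟨H₃, hH₃⟩ := hnull (ε / 4) (by positivity)
  refine ⟨B, max (max Hp Hq) (max H₂ H₃), fun H hH => ?_⟩
  have hHp' := hHp H (by omega)
  have hHq' := hHq H (by omega)
  have hH₂' := hH₂ H (by omega)
  have hH₃' := hH₃ H (by omega)
  have hsub : ((Cube r H : Set (Fin r → ℤ)) ∩
      {s | Pre K D (mem s F) ≠ PreB K D B (mem s F)}) ⊆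
      (((Cube r H : Set (Fin r → ℤ)) ∩ {s | (p : ℤ) ∣ Algebra.norm ℤ (ev s c)}) ∪
      ((Cube r H : Set (Fin r → ℤ)) ∩ {s | (q : ℤ) ∣ Algebra.norm ℤ (ev s c)})) ∪
      (((Cube r H : Set (Fin r → ℤ)) ∩ {s | (p₂ : ℤ) ∣ Algebra.norm ℤ (ev s (c * Δ))}) ∪
      ((Cube r H : Set (Fin r → ℤ)) ∩ Bad)) := by
    rintro s ⟨hs1, hs2⟩
    by_cases h1 : (p : ℤ) ∣ Algebra.norm ℤ (ev s c)
    · exact Or.inl (Or.inl ⟨hs1, h1⟩)
    by_cases h2 : (q : ℤ) ∣ Algebra.norm ℤ (ev s c)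
    · exact Or.inl (Or.inr ⟨hs1, h2⟩)
    by_cases h3 : (p₂ : ℤ) ∣ Algebra.norm ℤ (ev s (c * Δ))
    · exact Or.inr (Or.inl ⟨hs1, h3⟩)
    exact Or.inr (Or.inr ⟨hs1, h1, h2, h3, hs2⟩)
  have hfin : ∀ S : Set (Fin r → ℤ), ((Cube r H : Set (Fin r → ℤ)) ∩ S).Finite := fun S =>
    (Finset.finite_toSet _).inter_of_left _
  have h1 := Set.ncard_le_ncard hsub (((hfin _).union (hfin _)).union ((hfin _).union (hfin _)))
  have h2 := Set.ncard_union_le
    (((Cube r H : Set (Fin r → ℤ)) ∩ {s | (p : ℤ) ∣ Algebra.norm ℤ (ev s c)}) ∪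
      ((Cube r H : Set (Fin r → ℤ)) ∩ {s | (q : ℤ) ∣ Algebra.norm ℤ (ev s c)}))
    (((Cube r H : Set (Fin r → ℤ)) ∩ {s | (p₂ : ℤ) ∣ Algebra.norm ℤ (ev s (c * Δ))}) ∪
      ((Cube r H : Set (Fin r → ℤ)) ∩ Bad))
  have h3 := Set.ncard_union_le
    ((Cube r H : Set (Fin r → ℤ)) ∩ {s | (p : ℤ) ∣ Algebra.norm ℤ (ev s c)})
    ((Cube r H : Set (Fin r → ℤ)) ∩ {s | (q : ℤ) ∣ Algebra.norm ℤ (ev s c)})
  have h4 := Set.ncard_union_le
    ((Cube r H : Set (Fin r → ℤ)) ∩ {s | (p₂ : ℤ) ∣ Algebra.norm ℤ (ev s (c * Δ))})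
    ((Cube r H : Set (Fin r → ℤ)) ∩ Bad)
  have h5 : ((((Cube r H : Set (Fin r → ℤ)) ∩
      {s | Pre K D (mem s F) ≠ PreB K D B (mem s F)}).ncard : ℕ) : ℝ) ≤
      ((((Cube r H : Set (Fin r → ℤ)) ∩ {s | (p : ℤ) ∣ Algebra.norm ℤ (ev s c)}).ncard : ℕ) : ℝ) +
      ((((Cube r H : Set (Fin r → ℤ)) ∩ {s | (q : ℤ) ∣ Algebra.norm ℤ (ev s c)}).ncard : ℕ) : ℝ) +
      (((((Cube r H : Set (Fin r → ℤ)) ∩
        {s | (p₂ : ℤ) ∣ Algebra.norm ℤ (ev s (c * Δ))}).ncard : ℕ) : ℝ) +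
      ((((Cube r H : Set (Fin r → ℤ)) ∩ Bad).ncard : ℕ) : ℝ)) := by
    exact_mod_cast (h1.trans (h2.trans (Nat.add_le_add h3 h4)))
  linarith

end Pool.Agent.PNH
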