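import Mathlib
import Pool.Agent.PNH.Defs
import Pool.Agent.PNH.Bty
import Pool.Agent.PNH.Tls

set_option autoImplicit false

/-!
# One hundred per cent of the members have the generic number of preperiodic points
-/

namespace Pool.Agent.PNH

open NumberField
open Pool.Agent.LIM (Null GF)
open Pool.Agent.FamK (ev)
open Pool.Agent.FAM (Cube)

theorem PreB_mono (k : Type) [Field k] {N : ℕ} (D : ℕ) (F : Tup N k) {B B' : ℕ} (h : B ≤ B') :
    PreB k D B F ⊆ PreB k D B' F := by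
  rintro x ⟨h1, h2, a, b, hab, hb, h3⟩
  exact ⟨h1, h2, a, b, hab, hb.trans h, h3⟩

theorem PreB_subset (k : Type) [Field k] {N : ℕ} (D B : ℕ) (F : Tup N k) :
    PreB k D B F ⊆ Pre k D F := by
  rintro x ⟨h1, h2, a, b, hab, hb, h3⟩
  exact ⟨h1, h2, a, b, hab, h3⟩

/-- If the numbers of points of type at most `B` are eventually constant, then `Pre` is finite. -/
theorem Pre_of_const (k : Type) [Field k] {N : ℕ} (D : ℕ) (F : Tup N k) {n B₀ : ℕ}
    (hfin : ∀ B, (PreB k D B F).Finite) (h : ∀ B, B₀ ≤ B → (PreB k D B F).ncard = n) :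
    (Pre k D F).Finite ∧ (Pre k D F).ncard = n := by
  have h1 : Pre k D F = PreB k D B₀ F := by
    refine subset_antisymm ?_ (PreB_subset k D B₀ F)
    rintro x ⟨h1, h2, a, b, hab, h3⟩
    have h4 : PreB k D B₀ F = PreB k D (max b B₀) F :=
      Set.eq_of_subset_of_ncard_le (PreB_mono k D F (le_max_right _ _))
        (by rw [h _ (le_max_right _ _), h _ le_rfl]) (hfin _)
    rw [h4]
    exact ⟨h1, h2, a, b, hab, le_max_left _ _, h3⟩
  rw [h1]
  exact ⟨hfin _, h _ le_rfl⟩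

/-- Exceptional sets of points of the cube. -/
theorem ncard_cube_le {r : ℕ} (H : ℕ) (S A B C : Set (Fin r → ℤ)) (h : S ⊆ A ∪ (B ∪ C)) :
    (((Cube r H : Set (Fin r → ℤ)) ∩ S).ncard : ℝ) ≤
      (((Cube r H : Set (Fin r → ℤ)) ∩ A).ncard : ℝ) +
      ((((Cube r H : Set (Fin r → ℤ)) ∩ B).ncard : ℝ) +
      (((Cube r H : Set (Fin r → ℤ)) ∩ C).ncard : ℝ)) := by
  have hf : ∀ T : Set (Fin r → ℤ), ((Cube r H : Set (Fin r → ℤ)) ∩ T).Finite := fun T =>
    (Finset.finite_toSet _).inter_of_left _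
  have h1 : (Cube r H : Set (Fin r → ℤ)) ∩ S ⊆ ((Cube r H : Set (Fin r → ℤ)) ∩ A) ∪
      (((Cube r H : Set (Fin r → ℤ)) ∩ B) ∪ ((Cube r H : Set (Fin r → ℤ)) ∩ C)) := by
    rintro s ⟨hs, hs'⟩
    rcases h hs' with h2 | h2 | h2
    · exact Or.inl ⟨hs, h2⟩
    · exact Or.inr (Or.inl ⟨hs, h2⟩)
    · exact Or.inr (Or.inr ⟨hs, h2⟩)
  have h2 := (Set.ncard_le_ncard h1 ((hf A).union ((hf B).union (hf C)))).trans
    ((Set.ncard_union_le _ _).trans (Nat.add_le_add_left (Set.ncard_union_le _ _) _))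
  exact_mod_cast h2

/-- THEOREM A. -/
theorem hundred {K : Type} [Field K] [NumberField K] {r N d : ℕ} (hd : 2 ≤ d) (D : ℕ)
    (F : Tup N (MvPolynomial (Fin r) (𝓞 K))) (hF : IsMor d (GF r K) (gen F)) :
    (Pre (GF r K) D (gen F)).Finite ∧
    Null {s : Fin r → ℤ | ¬ (IsMor d K (mem s F) ∧ (Pre K D (mem s F)).Finite ∧
      (Pre K D (mem s F)).ncard = (Pre (GF r K) D (gen F)).ncard)} := by
  -- a member whose points have type at most `B` has the same points of type at most `B' ≥ B`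
  have hpre : ∀ (s : Fin r → ℤ) (B B' : ℕ), B ≤ B' → Pre K D (mem s F) = PreB K D B (mem s F) →
      Pre K D (mem s F) = PreB K D B' (mem s F) := fun s B B' hB h =>
    subset_antisymm (h.le.trans (PreB_mono K D _ hB)) (PreB_subset K D B' _)
  obtain ⟨B₀, H₀, h0⟩ := types hd D F hF (1 / 4) (by norm_num)
  have hconst : ∀ B, B₀ ≤ B → (PreB (GF r K) D B (gen F)).ncard =
      (PreB (GF r K) D B₀ (gen F)).ncard := by
    intro B hB
    obtain ⟨H₁, h1⟩ := (preB_gen hd D B F hF).2 (1 / 4) (by norm_num)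
    obtain ⟨H₂, h2⟩ := (preB_gen hd D B₀ F hF).2 (1 / 4) (by norm_num)
    by_contra hcon
    have h3 : (Set.univ : Set (Fin r → ℤ)) ⊆
        {s | Pre K D (mem s F) ≠ PreB K D B₀ (mem s F)} ∪
        ({s | ¬ ((PreB K D B (mem s F)).Finite ∧
          (PreB K D B (mem s F)).ncard = (PreB (GF r K) D B (gen F)).ncard)} ∪
        {s | ¬ ((PreB K D B₀ (mem s F)).Finite ∧
          (PreB K D B₀ (mem s F)).ncard = (PreB (GF r K) D B₀ (gen F)).ncard)}) := by
      intro s _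
      by_contra h4
      rw [Set.mem_union, Set.mem_union, not_or, not_or] at h4
      obtain ⟨h5, h6, h7⟩ := h4
      have h5' : Pre K D (mem s F) = PreB K D B₀ (mem s F) := not_not.1 h5
      have h6' := not_not.1 h6
      have h7' := not_not.1 h7
      refine hcon ?_
      rw [← h6'.2, ← h7'.2, ← h5', ← hpre s B₀ B hB h5']
    have h4 := ncard_cube_le (max H₀ (max H₁ H₂)) _ _ _ _ h3
    have h5 := h0 (max H₀ (max H₁ H₂)) (le_max_left _ _)
    have h6 := h1 (max H₀ (max H₁ H₂)) ((le_max_left _ _).trans (le_max_right _ _))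
    have h7 := h2 (max H₀ (max H₁ H₂)) ((le_max_right _ _).trans (le_max_right _ _))
    rw [Set.inter_univ, Set.ncard_coe_finset, FAM.card_Cube] at h4
    push_cast at h4 h5 h6 h7
    have h8 : (0 : ℝ) < (2 * (max (H₀ : ℝ) (max (H₁ : ℝ) (H₂ : ℝ))) + 1) ^ r := by
      have : (0 : ℝ) ≤ max (H₀ : ℝ) (max (H₁ : ℝ) (H₂ : ℝ)) :=
        (Nat.cast_nonneg H₀).trans (le_max_left _ _)
      positivity
    linarith
  obtain ⟨hfin, hn⟩ := Pre_of_const (GF r K) D (gen F) (fun B => (preB_gen hd D B F hF).1) hconst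
  refine ⟨hfin, fun ε hε => ?_⟩
  rw [hn]
  obtain ⟨B₁, H₁, h1⟩ := types hd D F hF (ε / 2) (by positivity)
  obtain ⟨H₂, h2⟩ := mor_mem F hF (ε / 4) (by positivity)
  obtain ⟨H₃, h3⟩ := (preB_gen hd D (max B₀ B₁) F hF).2 (ε / 4) (by positivity)
  refine ⟨max H₁ (max H₂ H₃), fun H hH => ?_⟩
  have h4 := h1 H ((le_max_left _ _).trans hH)
  have h5 := h2 H (((le_max_left _ _).trans (le_max_right _ _)).trans hH)
  have h6 := h3 H (((le_max_right _ _).trans (le_max_right _ _)).trans hH)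
  have hsub : {s : Fin r → ℤ | ¬ (IsMor d K (mem s F) ∧ (Pre K D (mem s F)).Finite ∧
      (Pre K D (mem s F)).ncard = (PreB (GF r K) D B₀ (gen F)).ncard)} ⊆
      {s | Pre K D (mem s F) ≠ PreB K D B₁ (mem s F)} ∪ ({s | ¬ IsMor d K (mem s F)} ∪
      {s | ¬ ((PreB K D (max B₀ B₁) (mem s F)).Finite ∧ (PreB K D (max B₀ B₁) (mem s F)).ncard =
      (PreB (GF r K) D (max B₀ B₁) (gen F)).ncard)}) := by
    intro s hs
    by_contra h7
    rw [Set.mem_union, Set.mem_union, not_or, not_or] at h7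
    obtain ⟨h8, h9, h10⟩ := h7
    have h8' : Pre K D (mem s F) = PreB K D B₁ (mem s F) := not_not.1 h8
    have h9' : IsMor d K (mem s F) := not_not.1 h9
    have h10' := not_not.1 h10
    refine hs ⟨h9', ?_, ?_⟩
    · rw [hpre s B₁ (max B₀ B₁) (le_max_right _ _) h8']
      exact h10'.1
    · rw [hpre s B₁ (max B₀ B₁) (le_max_right _ _) h8', h10'.2, hconst _ (le_max_left _ _)]
  have h7 := ncard_cube_le H _ _ _ _ hsub
  linarith

end Pool.Agent.PNH
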