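import Mathlib
import Pool.Agent.PNH.Defs
import Pool.Agent.PNH.Emb
import Pool.Agent.PNH.ParL

set_option autoImplicit false

/-!
# Rational-valued valuations above the infinite place; the family `shi` over the closure of `k(c)`
-/

namespace Pool.Agent.PNH

/-- `v` is a rational-valued valuation of `Ω` above the infinite place of `k(c)` (its value at `0` is
irrelevant). -/
structure IsInf (k : Type) [Field k] {Ω : Type} [Field Ω] [Algebra (RatFunc k) Ω] (v : Ω → ℚ) :
    Prop where
  mul : ∀ x y, x ≠ 0 → y ≠ 0 → v (x * y) = v x + v y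
  add : ∀ x y, x ≠ 0 → y ≠ 0 → x + y ≠ 0 → min (v x) (v y) ≤ v (x + y)
  base : ∀ e : RatFunc k, e ≠ 0 → v (algebraMap (RatFunc k) Ω e) = -(e.intDegree : ℚ)

/-- The family `shi` over the algebraic closure of `k(c)`. -/
noncomputable def Sh (k : Type) [Field k] (N d : ℕ) : Tup N (AlgebraicClosure (RatFunc k)) :=
  mp (algebraMap (RatFunc k) (AlgebraicClosure (RatFunc k))) (shi N d (RatFunc.X : RatFunc k))

end Pool.Agent.PNH
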