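import Mathlib
import Pool.Agent.PNH.ShDefs
import Pool.Agent.PNH.Prm

set_option autoImplicit false

/-!
# Periodic points of the family `shi`: the multiplier divides the power of the first coordinate
-/

namespace Pool.Agent.PNH

namespace ShIA

theorem mp_shi {A B : Type} [CommRing A] [CommRing B] (f : A →+* B) (N d : ℕ) (c : A) :
    mp f (shi N d c) = shi N d (f c) := by
  funext i
  unfold mp shi
  split_ifs with h
  · simp
  · simp

theorem hom_shi {A : Type} [CommRing A] (N d : ℕ) (c : A) (i : Fin (N + 1)) :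
    (shi N d c i).IsHomogeneous d := by
  unfold shi
  split_ifs with h
  · refine MvPolynomial.IsHomogeneous.add ?_ (MvPolynomial.isHomogeneous_X_pow _ _)
    have h1 := (MvPolynomial.isHomogeneous_C (Fin (N + 1)) c).mul
      (MvPolynomial.isHomogeneous_X_pow (R := A) (0 : Fin (N + 1)) d)
    rwa [zero_add] at h1
  · exact MvPolynomial.isHomogeneous_X_pow _ _

theorem cert_shi {A : Type} [CommRing A] (N d : ℕ) (hN : 1 ≤ N) (c : A) :
    Cert (shi N d c) 1 d := by
  classical
  intro j
  rw [map_one, one_mul]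
  induction j using Fin.lastCases with
  | last =>
    have h01 : (1 : Fin (N + 1)) ≠ 0 := by
      obtain ⟨m, rfl⟩ : ∃ m, N = m + 1 := ⟨N - 1, by omega⟩
      exact one_ne_zero
    refine ⟨Pi.single 0 1 + Pi.single 1 (-MvPolynomial.C c), ?_⟩
    simp only [Pi.add_apply, add_mul, Finset.sum_add_distrib]
    rw [Finset.sum_eq_single 0, Finset.sum_eq_single 1]
    · rw [Pi.single_eq_same, Pi.single_eq_same]
      unfold shi
      rw [if_pos rfl, if_neg h01, sub_self]
      ring
    · intro i _ hi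
      rw [Pi.single_eq_of_ne hi, zero_mul]
    · intro h
      exact absurd (Finset.mem_univ _) h
    · intro i _ hi
      rw [Pi.single_eq_of_ne hi, zero_mul]
    · intro h
      exact absurd (Finset.mem_univ _) h
  | cast m =>
    refine ⟨Pi.single m.succ 1, ?_⟩
    rw [Finset.sum_eq_single m.succ]
    · rw [Pi.single_eq_same, one_mul]
      unfold shi
      rw [if_neg (Fin.succ_ne_zero m)]
      have h1 : m.succ - 1 = m.castSucc := by
        rw [sub_eq_iff_eq_add]
        exact (Fin.coeSucc_eq_succ).symm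
      rw [h1]
    · intro i _ hi
      rw [Pi.single_eq_of_ne hi, zero_mul]
    · intro h
      exact absurd (Finset.mem_univ _) h

theorem prim_iter {N : ℕ} {R : Type} [CommRing R] [IsDomain R] [ValuationRing R] (F : Tup N R)
    (c : R) (e : ℕ) (hc : IsUnit c) (h : Cert F c e) (n : ℕ) (x : Fin (N + 1) → R)
    (hx : ∃ i, IsUnit (x i)) : ∃ i, IsUnit ((app F)^[n] x i) := by
  induction n generalizing x with
  | zero => exact hx
  | succ n ih =>
    rw [Function.iterate_succ_apply]
    exact ih _ (prim_app F c e hc h x hx)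

end ShIA

open ShIA in
theorem shi_int {k : Type} [Field k] (N d : ℕ) (hN : 1 ≤ N) (hd : 2 ≤ d)
    (V : ValuationSubring (AlgebraicClosure (RatFunc k)))
    (hc : algebraMap (RatFunc k) (AlgebraicClosure (RatFunc k)) RatFunc.X ∈ V)
    (x : Fin (N + 1) → AlgebraicClosure (RatFunc k)) (hx : x ≠ 0) (n : ℕ)
    (μ : AlgebraicClosure (RatFunc k)) (hμ : μ ≠ 0) (h : (app (Sh k N d))^[n] x = μ • x) :
    x 0 ^ (d ^ n - 1) / μ ∈ V := by
  have hSh : Sh k N d = mp V.subtype (shi N d (⟨_, hc⟩ : V)) := by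
    rw [Sh, mp_shi, mp_shi]
    rfl
  obtain ⟨a, y, ha, ⟨i, hi⟩, hxy⟩ := exists_prim V x hx
  obtain ⟨z, hz⟩ : ∃ z, z = (app (shi N d (⟨_, hc⟩ : V)))^[n] y := ⟨_, rfl⟩
  have hzu : ∃ j, IsUnit (z j) := by
    rw [hz]
    exact prim_iter _ 1 d isUnit_one (cert_shi N d hN _) n y ⟨i, by rw [hi]; exact isUnit_one⟩
  have hit : (app (Sh k N d))^[n] x = a ^ d ^ n • fun j => ((z j : V) : AlgebraicClosure (RatFunc k)) := by
    rw [hxy, hSh, iter_smul d _ (hom_mp d _ _ (hom_shi N d _)), hz]
    exact congrArg _ (iter_mp V.subtype (shi N d (⟨_, hc⟩ : V)) n y)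
  rw [hit] at h
  have had : a ^ d ^ n = a ^ (d ^ n - 1) * a := by
    rw [← pow_succ, Nat.sub_add_cancel (Nat.one_le_pow _ _ (by omega))]
  have hj : ∀ j, a ^ (d ^ n - 1) * ((z j : V) : AlgebraicClosure (RatFunc k)) =
      μ * ((y j : V) : AlgebraicClosure (RatFunc k)) := by
    intro j
    have h1 := congrFun h j
    rw [hxy] at h1
    simp only [Pi.smul_apply, smul_eq_mul] at h1
    rw [had] at h1
    apply mul_right_cancel₀ ha
    linear_combination h1
  have hμ1 : μ = a ^ (d ^ n - 1) * ((z i : V) : AlgebraicClosure (RatFunc k)) := by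
    rw [hj i, hi]
    simp
  have hap : a ^ (d ^ n - 1) ≠ 0 := pow_ne_zero _ ha
  have hzj : ∀ j, z j = z i * y j := by
    intro j
    apply Subtype.ext
    apply mul_left_cancel₀ hap
    rw [hj j, hμ1]
    simp [mul_assoc]
  have hzi : IsUnit (z i) := by
    obtain ⟨j, h1⟩ := hzu
    rw [hzj j] at h1
    exact isUnit_of_mul_isUnit_left h1
  obtain ⟨w, hw⟩ := hzi.exists_right_inv
  have hw' : ((z i : V) : AlgebraicClosure (RatFunc k)) * ((w : V) : AlgebraicClosure (RatFunc k)) =
      1 := by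
    have := congrArg (Subtype.val) hw
    simpa using this
  have hzi0 : ((z i : V) : AlgebraicClosure (RatFunc k)) ≠ 0 := left_ne_zero_of_mul_eq_one hw'
  have hx0 : x 0 = a * ((y 0 : V) : AlgebraicClosure (RatFunc k)) := by
    rw [hxy]
    rfl
  have hfin : x 0 ^ (d ^ n - 1) / μ =
      ((y 0 ^ (d ^ n - 1) * w : V) : AlgebraicClosure (RatFunc k)) := by
    rw [div_eq_iff hμ, hx0, hμ1, mul_pow]
    push_cast
    linear_combination (-(a ^ (d ^ n - 1) *
      ((y 0 : V) : AlgebraicClosure (RatFunc k)) ^ (d ^ n - 1))) * hw'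
  rw [hfin]
  exact (y 0 ^ (d ^ n - 1) * w : V).2

end Pool.Agent.PNH
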