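import Mathlib
import Pool.Agent.PNH.Defs

set_option autoImplicit false
set_option linter.unusedVariables false

/-!
# Specialisation of preperiodic points along a valuation ring
-/

namespace Pool.Agent.PNH

/-- In a valuation ring some coordinate of a vector divides all the others. -/
theorem exists_dvd_all {R : Type} [CommRing R] [IsDomain R] [ValuationRing R] {N : ℕ}
    (x : Fin (N + 1) → R) : ∃ i, ∀ j, x i ∣ x j := by
  classical
  have h : ∀ s : Finset (Fin (N + 1)), s.Nonempty → ∃ i ∈ s, ∀ j ∈ s, x i ∣ x j := by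
    intro s hs
    induction hs using Finset.Nonempty.cons_induction with
    | singleton a => exact ⟨a, Finset.mem_singleton_self a, fun j hj => by
        rw [Finset.mem_singleton.mp hj]⟩
    | cons a s ha hs ih =>
      obtain ⟨i, hi, hij⟩ := ih
      rcases ValuationRing.dvd_total (x a) (x i) with h1 | h1
      · refine ⟨a, Finset.mem_cons_self a s, fun j hj => ?_⟩
        rcases Finset.mem_cons.mp hj with rfl | hj
        · exact dvd_rfl
        · exact h1.trans (hij j hj)
      · refine ⟨i, Finset.mem_cons_of_mem hi, fun j hj => ?_⟩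
        rcases Finset.mem_cons.mp hj with rfl | hj
        · exact h1
        · exact hij j hj
  obtain ⟨i, -, hi⟩ := h Finset.univ ⟨0, Finset.mem_univ 0⟩
  exact ⟨i, fun j => hi j (Finset.mem_univ j)⟩

/-- A nonzero vector over the fraction field is a multiple of a primitive vector. -/
theorem exists_primitive {R M : Type} [CommRing R] [IsDomain R] [ValuationRing R] [Field M]
    [Algebra R M] [IsFractionRing R M] {N : ℕ} (x : Fin (N + 1) → M) (hx : x ≠ 0) :
    ∃ (c : M) (y : Fin (N + 1) → R), c ≠ 0 ∧ (∃ i, y i = 1) ∧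
      x = c • fun i => algebraMap R M (y i) := by
  obtain ⟨b, hb⟩ := IsLocalization.exist_integer_multiples_of_finite (nonZeroDivisors R) x
  choose z hz using hb
  have hb0 : algebraMap R M b ≠ 0 :=
    (map_ne_zero_iff _ (IsFractionRing.injective R M)).mpr (nonZeroDivisors.ne_zero b.2)
  have hz' : ∀ i, algebraMap R M (z i) = algebraMap R M b * x i := fun i =>
    (hz i).trans (Algebra.smul_def _ _)
  obtain ⟨i, hi⟩ := exists_dvd_all z
  have hzi : z i ≠ 0 := by
    intro h0
    refine hx (funext fun j => ?_)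
    have h1 : z j = 0 := by
      have h2 := hi j
      rw [h0] at h2
      exact zero_dvd_iff.mp h2
    have h3 := hz' j
    rw [h1, map_zero, eq_comm, mul_eq_zero] at h3
    exact h3.resolve_left hb0
  choose y hy using hi
  refine ⟨algebraMap R M (z i) / algebraMap R M b, y, div_ne_zero
    ((map_ne_zero_iff _ (IsFractionRing.injective R M)).mpr hzi) hb0, ⟨i, ?_⟩, ?_⟩
  · have h1 := hy i
    exact mul_left_cancel₀ hzi (by rw [mul_one]; exact h1.symm)
  · funext j
    have h1 := hz' j
    rw [hy j, map_mul] at h1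
    simp only [Pi.smul_apply, smul_eq_mul]
    rw [div_mul_eq_mul_div, h1, mul_div_cancel_left₀ _ hb0]

theorem specialise {R k : Type} [CommRing R] [IsDomain R] [ValuationRing R] [Field k]
    (M : Type) [Field M] [Algebra R M] [IsFractionRing R M] (φ : R →+* k)
    (hφ : ∀ a : R, φ a ≠ 0 → IsUnit a) {N d : ℕ} (F : Tup N R) (hF : ∀ i, (F i).IsHomogeneous d)
    (c : k) (e : ℕ) (hc : c ≠ 0) (h : Cert (mp φ F) c e) (x : Fin (N + 1) → M) (hx : x ≠ 0) (a b : ℕ)
    (hp : Par ((app (mp (algebraMap R M) F))^[a] x) ((app (mp (algebraMap R M) F))^[b] x)) :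
    ∃ y : Fin (N + 1) → k, y ≠ 0 ∧ Par ((app (mp φ F))^[a] y) ((app (mp φ F))^[b] y) := by
  obtain ⟨t, y, ht, ⟨i, hi⟩, rfl⟩ := exists_primitive (R := R) x hx
  refine ⟨fun j => φ (y j), fun h0 => ?_, ?_⟩
  · have h1 := congrFun h0 i
    simp only [hi, map_one, Pi.zero_apply] at h1
    exact one_ne_zero h1
  · rw [iter_mp, iter_mp]
    refine Par.map φ ?_
    rw [iter_smul d _ (hom_mp d _ F hF), iter_smul d _ (hom_mp d _ F hF), iter_mp, iter_mp] at hp
    intro j l
    have h1 := hp j l
    simp only [Pi.smul_apply, smul_eq_mul] at h1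
    have h2 : t ^ d ^ a * t ^ d ^ b ≠ 0 := mul_ne_zero (pow_ne_zero _ ht) (pow_ne_zero _ ht)
    apply IsFractionRing.injective R M
    apply mul_left_cancel₀ h2
    rw [map_mul, map_mul]
    linear_combination h1

end Pool.Agent.PNH
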