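import Mathlib
import Pool.Agent.PNH.Defs
import Pool.Agent.PNH.Spe

set_option autoImplicit false

/-!
# Specialisation from `k((t))` to `k` with degrees
-/

namespace Pool.Agent.PNH

namespace SpPA

/-- A valuation ring of the closure of `k((t))` above `k[[t]]`. -/
theorem exists_V (k : Type) [Field k] :
    ∃ V : ValuationSubring (AlgebraicClosure (LaurentSeries k)),
      (∀ f : PowerSeries k,
        algebraMap (LaurentSeries k) (AlgebraicClosure (LaurentSeries k))
          (algebraMap (PowerSeries k) (LaurentSeries k) f) ∈ V) ∧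
      algebraMap (LaurentSeries k) (AlgebraicClosure (LaurentSeries k))
          (algebraMap (PowerSeries k) (LaurentSeries k) PowerSeries.X) ∈ V.nonunits := by
  set f : PowerSeries k →+* AlgebraicClosure (LaurentSeries k) :=
    (algebraMap (LaurentSeries k) (AlgebraicClosure (LaurentSeries k))).comp
      (algebraMap (PowerSeries k) (LaurentSeries k)) with hf
  have hinj : Function.Injective f := by
    rw [hf, RingHom.coe_comp]
    exact (algebraMap (LaurentSeries k) (AlgebraicClosure (LaurentSeries k))).injective.comp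
      (IsFractionRing.injective (PowerSeries k) (LaurentSeries k))
  have hI : Ideal.span {(⟨f PowerSeries.X, ⟨_, rfl⟩⟩ : f.range)} ≠ ⊤ := by
    intro h
    rw [Ideal.eq_top_iff_one, Ideal.mem_span_singleton'] at h
    obtain ⟨⟨c, c', hc⟩, h⟩ := h
    have h1 : c * f PowerSeries.X = 1 := congrArg Subtype.val h
    rw [← hc, ← map_mul, ← map_one f] at h1
    have h2 := congrArg (PowerSeries.constantCoeff (R := k)) (hinj h1)
    rw [map_mul, PowerSeries.constantCoeff_X, mul_zero, map_one] at h2
    exact zero_ne_one h2
  obtain ⟨B, hB1, hB2⟩ := Ideal.image_subset_nonunits_valuationSubring _ hI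
  exact ⟨B, fun g => hB1 ⟨g, rfl⟩, hB2 ⟨_, Ideal.subset_span rfl, rfl⟩⟩

section

variable {k L : Type} [Field k] [Field L] [Algebra (LaurentSeries k) L] (W : ValuationSubring L)
  (ι : PowerSeries k →+* W)
  (hι : ∀ f, (ι f : L) = algebraMap (LaurentSeries k) L
    (algebraMap (PowerSeries k) (LaurentSeries k) f))
  (hX : IsLocalRing.residue W (ι PowerSeries.X) = 0)

omit [Algebra (LaurentSeries k) L] in
include hX in
theorem residue_eq (f : PowerSeries k) : IsLocalRing.residue W (ι f) =
    IsLocalRing.residue W (ι (PowerSeries.C (PowerSeries.constantCoeff f))) := by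
  obtain ⟨g, hg⟩ : (PowerSeries.X : PowerSeries k) ∣
      f - PowerSeries.C (PowerSeries.constantCoeff f) := by
    rw [PowerSeries.X_dvd_iff]
    simp
  have h1 : f = PowerSeries.C (PowerSeries.constantCoeff f) + PowerSeries.X * g := by
    rw [← hg]
    ring
  conv_lhs => rw [h1]
  rw [map_add, map_add, map_mul, map_mul, hX, zero_mul, add_zero]

include hι hX in
theorem lift_indep [Algebra k (IsLocalRing.ResidueField W)]
    (hk : ∀ a : k, algebraMap k (IsLocalRing.ResidueField W) a =
      IsLocalRing.residue W (ι (PowerSeries.C a))) {n : ℕ} (x : Fin (n + 1) → W)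
    (hx : LinearIndependent k fun i => IsLocalRing.residue W (x i)) :
    LinearIndependent (LaurentSeries k) fun i => (x i : L) := by
  rw [Fintype.linearIndependent_iff] at hx ⊢
  intro g hg
  by_contra hcon
  have hg0 : g ≠ 0 := fun h => hcon fun i => congrFun h i
  obtain ⟨c, y, hc, ⟨i, hi⟩, rfl⟩ := exists_primitive (R := PowerSeries k) g hg0
  have h1 : ∑ j, (ι (y j) : L) * (x j : L) = 0 := by
    have h2 : algebraMap (LaurentSeries k) L c * ∑ j, (ι (y j) : L) * (x j : L) = 0 := by
      rw [← hg, Finset.mul_sum]
      refine Finset.sum_congr rfl fun j _ => ?_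
      rw [hι, Pi.smul_apply, smul_eq_mul, Algebra.smul_def, map_mul, mul_assoc]
    exact (mul_eq_zero.1 h2).resolve_left ((map_ne_zero _).2 hc)
  have h2 : ∑ j, ι (y j) * x j = 0 := by
    apply Subtype.ext
    have h3 : ((∑ j, ι (y j) * x j : W) : L) = ∑ j, (ι (y j) : L) * (x j : L) := by
      rw [AddSubmonoidClass.coe_finsetSum]
      rfl
    rw [h3, h1]
    rfl
  have h3 := congrArg (IsLocalRing.residue W) h2
  rw [map_sum, map_zero] at h3
  have h4 := hx (fun j => PowerSeries.constantCoeff (y j)) (by
    rw [← h3]
    refine Finset.sum_congr rfl fun j _ => ?_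
    rw [Algebra.smul_def, hk, ← residue_eq W ι hX, map_mul]) i
  rw [hi, map_one] at h4
  exact one_ne_zero h4

include hι hX in
theorem rank_le [FiniteDimensional (LaurentSeries k) L] [Algebra k (IsLocalRing.ResidueField W)]
    (hk : ∀ a : k, algebraMap k (IsLocalRing.ResidueField W) a =
      IsLocalRing.residue W (ι (PowerSeries.C a))) :
    Module.rank k (IsLocalRing.ResidueField W) ≤ Module.finrank (LaurentSeries k) L := by
  refine _root_.rank_le fun s hs => ?_
  rcases Nat.eq_zero_or_pos s.card with h0 | h0
  · rw [h0]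
    exact Nat.zero_le _
  obtain ⟨n, hn⟩ : ∃ n, s.card = n + 1 := ⟨s.card - 1, by omega⟩
  have e : s ≃ Fin (n + 1) := hn ▸ s.equivFin
  have hsurj : ∀ y : IsLocalRing.ResidueField W, ∃ x : W, IsLocalRing.residue W x = y :=
    IsLocalRing.residue_surjective
  choose f hf using hsurj
  have h1 : LinearIndependent k
      fun i : Fin (n + 1) => IsLocalRing.residue W (f (e.symm i : IsLocalRing.ResidueField W)) := by
    simp only [hf]
    exact hs.comp _ e.symm.injective
  have h4 := (lift_indep W ι hι hX hk _ h1).fintype_card_le_finrank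
  rw [Fintype.card_fin] at h4
  rwa [hn]

end

end SpPA

theorem spec_deg {k : Type} [Field k] [CharZero k] {N d D : ℕ} (F : Tup N (PowerSeries k))
    (hF : ∀ i, (F i).IsHomogeneous d) (c : k) (e : ℕ) (hc : c ≠ 0)
    (h : Cert (mp (PowerSeries.constantCoeff (R := k)) F) c e)
    (x : Fin (N + 1) → AlgebraicClosure (LaurentSeries k)) (hx : x ≠ 0)
    (hxD : DegLe (LaurentSeries k) D x) (a b : ℕ)
    (hp : Par
      ((app (mp (algebraMap (PowerSeries k) (AlgebraicClosure (LaurentSeries k))) F))^[a] x)
      ((app (mp (algebraMap (PowerSeries k) (AlgebraicClosure (LaurentSeries k))) F))^[b] x)) :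
    ∃ y : Fin (N + 1) → AlgebraicClosure k, y ≠ 0 ∧ DegLe k D y ∧
      Par ((app (mp (algebraMap k (AlgebraicClosure k)) (mp PowerSeries.constantCoeff F)))^[a] y)
        ((app (mp (algebraMap k (AlgebraicClosure k)) (mp PowerSeries.constantCoeff F)))^[b] y) := by
  classical
  obtain ⟨V, hV, hVX⟩ := SpPA.exists_V k
  obtain ⟨θ, hθ, hxθ⟩ := hxD
  have hint : IsIntegral (LaurentSeries k) θ :=
    ((AlgebraicClosure.isAlgebraic (LaurentSeries k)).isAlgebraic θ).isIntegral
  have : FiniteDimensional (LaurentSeries k) (IntermediateField.adjoin (LaurentSeries k) {θ}) :=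
    IntermediateField.adjoin.finiteDimensional hint
  set L := IntermediateField.adjoin (LaurentSeries k) {θ} with hL
  set W : ValuationSubring L := V.comap (algebraMap L (AlgebraicClosure (LaurentSeries k))) with hW
  set κ := IsLocalRing.ResidueField W with hκ
  -- the ring homomorphisms
  have hmem : ∀ f : PowerSeries k, ((algebraMap (LaurentSeries k) L).comp
      (algebraMap (PowerSeries k) (LaurentSeries k))) f ∈ W := fun f => hV f
  set ι : PowerSeries k →+* W := ((algebraMap (LaurentSeries k) L).comp
      (algebraMap (PowerSeries k) (LaurentSeries k))).codRestrict W hmem with hι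
  have hιL : ∀ f, (ι f : L) = algebraMap (LaurentSeries k) L
    (algebraMap (PowerSeries k) (LaurentSeries k) f) := fun f => rfl
  have hX : IsLocalRing.residue W (ι PowerSeries.X) = 0 := by
    rw [IsLocalRing.residue_eq_zero_iff, IsLocalRing.mem_maximalIdeal]
    intro hu
    obtain ⟨w, hw⟩ := hu.exists_right_inv
    have hv := (ValuationSubring.mem_nonunits_iff V).1 hVX
    have h1 : algebraMap L (AlgebraicClosure (LaurentSeries k)) ((w : W) : L) ∈ V := w.2
    have h2 := congrArg (fun z : W => algebraMap L (AlgebraicClosure (LaurentSeries k)) (z : L)) hw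
    have h3 : algebraMap (LaurentSeries k) (AlgebraicClosure (LaurentSeries k))
        (algebraMap (PowerSeries k) (LaurentSeries k) PowerSeries.X) *
        algebraMap L (AlgebraicClosure (LaurentSeries k)) ((w : W) : L) = 1 := by
      change algebraMap L (AlgebraicClosure (LaurentSeries k))
        (((ι PowerSeries.X : W) : L) * ((w : W) : L)) =
        algebraMap L (AlgebraicClosure (LaurentSeries k)) 1 at h2
      rw [map_mul, map_one] at h2
      exact h2
    have h4 := congrArg V.valuation h3
    rw [map_mul, map_one] at h4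
    have h5 := (V.valuation_le_one_iff _).2 h1
    have h6 := mul_lt_one_of_lt_of_le hv h5
    rw [h4] at h6
    exact lt_irrefl _ h6
  let algk : Algebra k κ :=
    ((IsLocalRing.residue W).comp (ι.comp (PowerSeries.C (R := k)))).toAlgebra
  have hk : ∀ a : k, algebraMap k κ a = IsLocalRing.residue W (ι (PowerSeries.C a)) := fun a => rfl
  have hrank : Module.rank k κ ≤ Module.finrank (LaurentSeries k) L :=
    SpPA.rank_le W ι hιL hX hk
  have hfin : FiniteDimensional k κ :=
    Module.rank_lt_aleph0_iff.1 (hrank.trans_lt (Cardinal.natCast_lt_aleph0))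
  have hdeg : Module.finrank k κ ≤ D := by
    refine (Module.finrank_le_of_rank_le hrank).trans ?_
    rw [hL, IntermediateField.adjoin.finrank hint]
    exact hθ
  -- reduction of the tuple
  have hred : mp (IsLocalRing.residue W) (mp ι F) =
      mp (algebraMap k κ) (mp (PowerSeries.constantCoeff (R := k)) F) := by
    rw [mp_mp, mp_mp]
    have : (IsLocalRing.residue W).comp ι =
        (algebraMap k κ).comp (PowerSeries.constantCoeff (R := k)) := by
      refine RingHom.ext fun f => ?_
      exact SpPA.residue_eq W ι hX f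
    rw [this]
  -- the point over `L`
  set xL : Fin (N + 1) → L := fun i => ⟨x i, hxθ i⟩ with hxL
  have hxL0 : xL ≠ 0 := by
    intro h0
    refine hx (funext fun i => ?_)
    exact congrArg (fun z : Fin (N + 1) → L => ((z i : L) : AlgebraicClosure (LaurentSeries k))) h0
  have hpL : Par ((app (mp (algebraMap W L) (mp ι F)))^[a] xL)
      ((app (mp (algebraMap W L) (mp ι F)))^[b] xL) := by
    have hcomp : mp (algebraMap (PowerSeries k) (AlgebraicClosure (LaurentSeries k))) F =
        mp (algebraMap L (AlgebraicClosure (LaurentSeries k))) (mp (algebraMap W L) (mp ι F)) := by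
      rw [mp_mp, mp_mp]
      rfl
    have hx' : x = fun i => algebraMap L (AlgebraicClosure (LaurentSeries k)) (xL i) := rfl
    rw [hcomp, hx', iter_mp, iter_mp] at hp
    intro i j
    apply (algebraMap L (AlgebraicClosure (LaurentSeries k))).injective
    rw [map_mul, map_mul]
    exact hp i j
  have hcert : Cert (mp (IsLocalRing.residue W) (mp ι F)) (algebraMap k κ c) e := by
    rw [hred]
    exact h.mp _
  obtain ⟨y, hy, hyp⟩ := specialise (R := W) L (IsLocalRing.residue W)
    (fun z hz => (IsLocalRing.residue_ne_zero_iff_isUnit z).1 hz) (mp ι F) (hom_mp d _ F hF)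
    (algebraMap k κ c) e ((map_ne_zero _).2 hc) hcert xL hxL0 a b hpL
  rw [hred] at hyp
  -- embed the residue field
  have halg : Algebra.IsAlgebraic k κ := Algebra.IsAlgebraic.of_finite k κ
  let σ : κ →ₐ[k] AlgebraicClosure k := IsAlgClosed.lift
  have hmpσ : mp (σ : κ →+* AlgebraicClosure k)
      (mp (algebraMap k κ) (mp (PowerSeries.constantCoeff (R := k)) F)) =
      mp (algebraMap k (AlgebraicClosure k)) (mp (PowerSeries.constantCoeff (R := k)) F) := by
    rw [mp_mp]
    have h1 : (σ : κ →+* AlgebraicClosure k).comp (algebraMap k κ) =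
        algebraMap k (AlgebraicClosure k) := σ.comp_algebraMap
    rw [h1]
  refine ⟨fun i => σ (y i), ?_, ?_, ?_⟩
  · intro h0
    refine hy (funext fun i => ?_)
    exact (map_eq_zero σ).1 (congrFun h0 i)
  · obtain ⟨α, hα⟩ := Field.exists_primitive_element k κ
    refine ⟨σ α, ?_, fun i => ?_⟩
    · have hα1 : IsIntegral k α := (Algebra.IsAlgebraic.isAlgebraic α).isIntegral
      rw [minpoly.algHom_eq σ σ.injective, ← IntermediateField.adjoin.finrank hα1, hα,
        IntermediateField.finrank_top']
      exact hdeg
    · have h1 : y i ∈ IntermediateField.adjoin k {α} := by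
        rw [hα]
        exact IntermediateField.mem_top
      have h2 : σ (y i) ∈ (IntermediateField.adjoin k {α}).map σ := ⟨y i, h1, rfl⟩
      rw [IntermediateField.adjoin_map, Set.image_singleton] at h2
      exact h2
  · have h1 := hyp.map (σ : κ →+* AlgebraicClosure k)
    rw [← iter_mp, ← iter_mp, hmpσ] at h1
    exact h1

end Pool.Agent.PNH
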