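import Mathlib
import Pool.Agent.PNH.Defs
import Pool.Agent.PNH.Emb
import Pool.Agent.PNH.ParL
import Pool.Agent.PNH.ShDefs
import Pool.Agent.PNH.ShI
import Pool.Agent.PNH.SpP
import Pool.Agent.PNH.UniO

set_option autoImplicit false

/-!
# Generic preperiodic points of families one of whose members over `K(c)` is the family `shi`
-/

namespace Pool.Agent.PNH

open NumberField
open Pool.Agent.LIM (Null GF)
open Pool.Agent.FamK (ev)

namespace AlG

theorem countable_ratFunc (K : Type) [Field K] [Countable K] : Countable (RatFunc K) := by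
  rw [← Cardinal.mk_le_aleph0_iff, IsFractionRing.cardinalMk (Polynomial K) (RatFunc K)]
  refine Polynomial.cardinalMk_le_max.trans ?_
  exact max_le Cardinal.mk_le_aleph0 le_rfl

theorem countable_numberField (K : Type) [Field K] [NumberField K] : Countable K := by
  have h1 : Algebra.IsAlgebraic ℚ K := inferInstance
  have h2 := Algebraic.countable ℚ K
  rw [← Set.countable_univ_iff]
  exact h2.mono fun x _ => h1.isAlgebraic x

theorem uncountable_series (k : Type) [Field k] : ¬ Countable (PowerSeries k) := by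
  intro h
  let f : Set ℕ → PowerSeries k := fun s =>
    PowerSeries.mk (Set.indicator s (fun _ => (1 : k)))
  have hf : Function.Injective f := by
    intro s t hst
    ext n
    have h1 := congrArg (PowerSeries.coeff n) hst
    simp only [f, PowerSeries.coeff_mk] at h1
    by_cases hs : n ∈ s
    · by_cases ht : n ∈ t
      · exact ⟨fun _ => ht, fun _ => hs⟩
      · rw [Set.indicator_of_mem hs, Set.indicator_of_notMem ht] at h1
        exact absurd h1 one_ne_zero
    · by_cases ht : n ∈ t
      · rw [Set.indicator_of_notMem hs, Set.indicator_of_mem ht] at h1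
        exact absurd h1 zero_ne_one
      · exact ⟨fun h => absurd h hs, fun h => absurd h ht⟩
  have h2 : Countable (Set ℕ) := hf.countable
  obtain ⟨g, hg⟩ := exists_injective_nat (Set ℕ)
  exact Function.cantor_injective g hg

/-- There are algebraically independent power series over a countable field. -/
theorem exists_indep (k : Type) [Field k] [Countable k] (r : ℕ) :
    ∃ x : Fin r → PowerSeries k, AlgebraicIndependent k x := by
  obtain ⟨ι, x, hx⟩ := exists_isTranscendenceBasis' k (PowerSeries k)
  have hinf : Infinite ι := by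
    by_contra hfin
    rw [not_infinite_iff_finite] at hfin
    have h0 : Algebra.IsAlgebraic (Algebra.adjoin k (Set.range x)) (PowerSeries k) :=
      hx.isAlgebraic
    have h1 := Algebra.IsAlgebraic.cardinalMk_le_max (Algebra.adjoin k (Set.range x))
      (PowerSeries k)
    have h2 : Cardinal.mk (Algebra.adjoin k (Set.range x)) ≤ Cardinal.aleph0 := by
      rw [← Cardinal.mk_congr hx.1.aevalEquiv.toEquiv]
      exact MvPolynomial.cardinalMk_le_max.trans
        (max_le (max_le Cardinal.mk_le_aleph0 Cardinal.mk_le_aleph0) le_rfl)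
    exact uncountable_series k (Cardinal.mk_le_aleph0_iff.1 (h1.trans (max_le h2 le_rfl)))
  exact ⟨fun i => x (Infinite.natEmbedding ι i), hx.1.comp _
    ((Infinite.natEmbedding ι).injective.comp Fin.val_injective)⟩

/-- translates of algebraically independent elements -/
theorem indep_add {k R : Type} [Field k] [CommRing R] [Algebra k R] {r : ℕ} (σ : Fin r → k)
    (τ : Fin r → R) (hτ : AlgebraicIndependent k τ) :
    AlgebraicIndependent k fun t => algebraMap k R (σ t) + τ t := by
  let φ : MvPolynomial (Fin r) k →ₐ[k] MvPolynomial (Fin r) k :=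
    MvPolynomial.aeval fun t => MvPolynomial.C (σ t) + MvPolynomial.X t
  let φ' : MvPolynomial (Fin r) k →ₐ[k] MvPolynomial (Fin r) k :=
    MvPolynomial.aeval fun t => MvPolynomial.X t - MvPolynomial.C (σ t)
  have h1 : φ'.comp φ = AlgHom.id k _ := by
    apply MvPolynomial.algHom_ext
    intro t
    change φ' (φ (MvPolynomial.X t)) = MvPolynomial.X t
    rw [MvPolynomial.aeval_X, map_add, MvPolynomial.aeval_X, MvPolynomial.algHom_C,
      MvPolynomial.algebraMap_eq]
    ring
  have h2 : Function.Injective φ := by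
    intro P Q h
    have := congrArg φ' h
    rw [← AlgHom.comp_apply, ← AlgHom.comp_apply, h1] at this
    exact this
  have h3 : (MvPolynomial.aeval (fun t => algebraMap k R (σ t) + τ t) :
      MvPolynomial (Fin r) k →ₐ[k] R) = (MvPolynomial.aeval τ).comp φ := by
    apply MvPolynomial.algHom_ext
    intro t
    rw [AlgHom.comp_apply, MvPolynomial.aeval_X, MvPolynomial.aeval_X, map_add,
      MvPolynomial.aeval_X, MvPolynomial.algHom_C]
  unfold AlgebraicIndependent at hτ ⊢
  rw [h3, AlgHom.coe_comp]
  exact hτ.comp h2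

/-- an embedding into a ring of power series with given constant coefficients -/
theorem exists_psi {O k : Type} [CommRing O] [Field k] [Countable k] (j : O →+* k)
    (hj : Function.Injective j) {r : ℕ} (σ : Fin r → k) :
    ∃ ψ : MvPolynomial (Fin r) O →+* PowerSeries k, Function.Injective ψ ∧
      (PowerSeries.constantCoeff (R := k)).comp ψ = MvPolynomial.eval₂Hom j σ := by
  obtain ⟨x, hx⟩ := exists_indep k r
  let τ : Fin r → k := fun t => σ t - PowerSeries.constantCoeff (x t)
  obtain ⟨ψ, hψC, hψX⟩ : ∃ ψ : MvPolynomial (Fin r) O →+* PowerSeries k,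
      (∀ a, ψ (MvPolynomial.C a) = algebraMap k (PowerSeries k) (j a)) ∧
      ∀ t, ψ (MvPolynomial.X t) = algebraMap k (PowerSeries k) (τ t) + x t :=
    ⟨MvPolynomial.eval₂Hom ((algebraMap k (PowerSeries k)).comp j)
      (fun t => algebraMap k (PowerSeries k) (τ t) + x t),
      fun a => MvPolynomial.eval₂_C _ _ _, fun t => MvPolynomial.eval₂_X _ _ _⟩
  refine ⟨ψ, ?_, ?_⟩
  · have h1 := indep_add τ x hx
    have h2 : ∀ P : MvPolynomial (Fin r) O,
        ψ P = MvPolynomial.aeval (fun t => algebraMap k (PowerSeries k) (τ t) + x t)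
        (MvPolynomial.map j P) := by
      intro P
      induction P using MvPolynomial.induction_on with
      | C a => rw [hψC, MvPolynomial.map_C, MvPolynomial.aeval_C]
      | add p q hp hq => rw [map_add, map_add, map_add, hp, hq]
      | mul_X p i hp => rw [map_mul, map_mul, map_mul, hp, hψX, MvPolynomial.map_X,
          MvPolynomial.aeval_X]
    intro P Q h
    rw [h2, h2] at h
    exact MvPolynomial.map_injective j hj (h1 h)
  · refine MvPolynomial.ringHom_ext (fun a => ?_) fun t => ?_
    · rw [RingHom.comp_apply, hψC, MvPolynomial.coe_eval₂Hom, MvPolynomial.eval₂_C]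
      exact PowerSeries.constantCoeff_C _
    · rw [RingHom.comp_apply, hψX, map_add, MvPolynomial.coe_eval₂Hom, MvPolynomial.eval₂_X]
      have h1 : PowerSeries.constantCoeff (algebraMap k (PowerSeries k) (τ t)) = τ t :=
        PowerSeries.constantCoeff_C _
      rw [h1]
      exact sub_add_cancel _ _

/-- the degree of a point does not grow under an embedding -/
theorem degLe_map {k L k' L' : Type} [Field k] [Field L] [Algebra k L] [Field k'] [Field L']
    [Algebra k' L'] (Ψ : k →+* k') (J : L →+* L')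
    (hJ : ∀ a, J (algebraMap k L a) = algebraMap k' L' (Ψ a)) [Algebra.IsAlgebraic k L] {N D : ℕ}
    (x : Fin (N + 1) → L) (hx : DegLe k D x) : DegLe k' D fun i => J (x i) := by
  obtain ⟨θ, hθ, hxθ⟩ := hx
  have hJΨ : J.comp (algebraMap k L) = (algebraMap k' L').comp Ψ := RingHom.ext hJ
  refine ⟨J θ, ?_, fun i => ?_⟩
  · have hint : IsIntegral k θ := Algebra.IsIntegral.isIntegral θ
    have h1 : Polynomial.aeval (J θ) ((minpoly k θ).map Ψ) = 0 := by
      rw [Polynomial.aeval_def, Polynomial.eval₂_map, ← hJΨ, ← Polynomial.hom_eval₂]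
      have h2 := minpoly.aeval k θ
      rw [Polynomial.aeval_def] at h2
      rw [h2, map_zero]
    have h2 := Polynomial.natDegree_le_of_dvd (minpoly.dvd k' (J θ) h1)
      (Polynomial.map_ne_zero (minpoly.ne_zero hint))
    rw [Polynomial.natDegree_map] at h2
    exact h2.trans hθ
  · let S : Subfield L := (IntermediateField.adjoin k' {J θ}).toSubfield.comap J
    have h1 : (IntermediateField.adjoin k {θ}).toSubfield ≤ S := by
      rw [IntermediateField.adjoin_toSubfield, Subfield.closure_le]
      rintro y (⟨a, rfl⟩ | hy)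
      · change J _ ∈ IntermediateField.adjoin k' {J θ}
        rw [hJ]
        exact (IntermediateField.adjoin k' {J θ}).algebraMap_mem _
      · rw [Set.mem_singleton_iff] at hy
        rw [hy]
        exact IntermediateField.mem_adjoin_simple_self k' (J θ)
    exact h1 (hxθ i)

end AlG

open AlG

/-- The family `shi` over `K(c)` has no preperiodic point of degree at most `D`. -/
def ShiNo (K : Type) [Field K] (N d D : ℕ) : Prop :=
  ∀ y : Fin (N + 1) → AlgebraicClosure (RatFunc K), y ≠ 0 → DegLe (RatFunc K) D y →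
    ∀ a b : ℕ, a < b → ¬ Par ((app (Sh K N d))^[a] y) ((app (Sh K N d))^[b] y)

/-- A family one of whose members over `K(c)` is the family `shi` has no generic preperiodic point
of degree at most `D` if `shi` has none. -/
theorem nopre_of_shi {K : Type} [Field K] [NumberField K] {N d r D : ℕ} (hN : 1 ≤ N)
    (hS : ShiNo K N d D) (F : Tup N (MvPolynomial (Fin r) (𝓞 K)))
    (hF : ∀ i, (F i).IsHomogeneous d) (σ : Fin r → RatFunc K)
    (hσ : mp (MvPolynomial.eval₂Hom ((algebraMap K (RatFunc K)).comp (algebraMap (𝓞 K) K)) σ) F =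
      shi N d RatFunc.X) :
    Pre (GF r K) D (gen F) = ∅ := by
  classical
  rw [Set.eq_empty_iff_forall_notMem]
  rintro x ⟨hxn, hxd, a, b, hab, hP⟩
  have : Countable K := countable_numberField K
  have : Countable (RatFunc K) := countable_ratFunc K
  let k := RatFunc K
  let j : 𝓞 K →+* k := (algebraMap K (RatFunc K)).comp (algebraMap (𝓞 K) K)
  have hj : Function.Injective j :=
    (algebraMap K (RatFunc K)).injective.comp (FaithfulSMul.algebraMap_injective (𝓞 K) K)
  obtain ⟨ψ, hψ, hψσ⟩ := exists_psi j hj σ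
  let M := LaurentSeries k
  let L₂ := AlgebraicClosure M
  have hg : Function.Injective ((algebraMap (PowerSeries k) M).comp ψ) :=
    (IsFractionRing.injective (PowerSeries k) M).comp hψ
  obtain ⟨Ψ, hΨ⟩ : ∃ Ψ : GF r K →+* M, ∀ P, Ψ (algebraMap (MvPolynomial (Fin r) (𝓞 K)) _ P) =
      algebraMap (PowerSeries k) M (ψ P) :=
    ⟨_, fun P => IsFractionRing.lift_algebraMap hg P⟩
  obtain ⟨J, hJ⟩ : ∃ J : AlgebraicClosure (GF r K) →+* L₂, ∀ z,
      J (algebraMap (GF r K) _ z) = algebraMap M L₂ (Ψ z) := by
    let _ : Algebra (GF r K) L₂ := ((algebraMap M L₂).comp Ψ).toAlgebra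
    let J : AlgebraicClosure (GF r K) →ₐ[GF r K] L₂ := IsAlgClosed.lift
    exact ⟨J.toRingHom, fun z => J.commutes z⟩
  have hx' : (fun i => J (x i)) ≠ 0 := (hxn.map J).ne_zero
  have hd' : DegLe M D fun i => J (x i) := degLe_map Ψ J hJ x hxd
  have hP' := hP.map J
  rw [← iter_mp, ← iter_mp] at hP'
  have e1 : mp J (mp (algebraMap (GF r K) (AlgebraicClosure (GF r K))) (gen F)) =
      mp (algebraMap (PowerSeries k) L₂) (mp ψ F) := by
    unfold gen
    rw [mp_mp, mp_mp, mp_mp]
    congr 1
    refine RingHom.ext fun P => ?_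
    change J (algebraMap (GF r K) _ (algebraMap _ (GF r K) P)) = algebraMap (PowerSeries k) L₂ (ψ P)
    rw [hJ, hΨ, ← IsScalarTower.algebraMap_apply]
  rw [e1] at hP'
  have e2 : mp (PowerSeries.constantCoeff (R := k)) (mp ψ F) = shi N d RatFunc.X := by
    rw [mp_mp, hψσ]
    exact hσ
  obtain ⟨y, hy0, hyD, hy⟩ := spec_deg (mp ψ F) (hom_mp d _ _ hF) 1 d one_ne_zero
    (by rw [e2]; exact ShIA.cert_shi N d hN _) _ hx' hd' a b hP'
  rw [e2] at hy
  exact hS y hy0 hyD a b hab hy

/-- The generic tuple with coefficients in a lattice. -/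
theorem univO_nopre_of {K : Type} [Field K] [NumberField K] {N d r m D : ℕ} (ω : Fin m → 𝓞 K)
    (hω : ∃ j, ω j ≠ 0) (hN : 1 ≤ N) (hS : ShiNo K N d D)
    (e : Fin r ≃ (Fin (N + 1) × {α : Fin (N + 1) →₀ ℕ // α.degree = d}) × Fin m) :
    Pre (GF r K) D (gen (univO ω e)) = ∅ := by
  classical
  obtain ⟨j₀, hj₀⟩ := hω
  have hj₀' : algebraMap K (RatFunc K) (algebraMap (𝓞 K) K (ω j₀)) ≠ 0 := by
    intro h
    rw [map_eq_zero] at h
    exact hj₀ (FaithfulSMul.algebraMap_injective (𝓞 K) K (h.trans (map_zero _).symm))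
  refine nopre_of_shi hN hS (univO ω e) (UniO.hom_univO ω e)
    (fun t => if (e t).2 = j₀ then
      (shi N d (RatFunc.X : RatFunc K) (e t).1.1).coeff (e t).1.2.1 /
        algebraMap K (RatFunc K) (algebraMap (𝓞 K) K (ω j₀)) else 0) ?_
  funext i
  ext α
  unfold mp
  rw [MvPolynomial.coeff_map]
  by_cases hα : α.degree = d
  · have h1 := UniO.coeff_univO ω e (i, ⟨α, hα⟩)
    dsimp only at h1
    rw [h1, map_sum, Finset.sum_eq_single j₀]
    · rw [map_mul, MvPolynomial.coe_eval₂Hom, MvPolynomial.eval₂_C, MvPolynomial.eval₂_X,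
        Equiv.apply_symm_apply, if_pos rfl, RingHom.comp_apply, mul_div_cancel₀ _ hj₀']
    · intro j _ hj
      rw [map_mul, MvPolynomial.coe_eval₂Hom, MvPolynomial.eval₂_X, Equiv.apply_symm_apply,
        if_neg hj, mul_zero]
    · intro h
      exact absurd (Finset.mem_univ _) h
  · rw [(UniO.hom_univO ω e i).coeff_eq_zero hα, map_zero,
      (ShIA.hom_shi N d (RatFunc.X : RatFunc K) i).coeff_eq_zero hα]

theorem AlG.coeff_univ {A : Type} [CommRing A] {N d r : ℕ}
    (e : Fin r ≃ Fin (N + 1) × {α : Fin (N + 1) →₀ ℕ // α.degree = d}) (i : Fin (N + 1))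
    (α : Fin (N + 1) →₀ ℕ) (hα : α.degree = d) :
    (univ (A := A) e i).coeff α = MvPolynomial.X (e.symm (i, ⟨α, hα⟩)) := by
  unfold univ
  rw [MvPolynomial.coeff_sum, Finset.sum_eq_single (e.symm (i, ⟨α, hα⟩))]
  · rw [Equiv.apply_symm_apply, if_pos rfl, MvPolynomial.coeff_monomial, if_pos rfl]
  · intro t _ ht
    by_cases h1 : (e t).1 = i
    · rw [if_pos h1, MvPolynomial.coeff_monomial, if_neg]
      intro h2
      refine ht ?_
      rw [Equiv.eq_symm_apply]
      exact Prod.ext h1 (Subtype.ext h2)
    · rw [if_neg h1, MvPolynomial.coeff_zero]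
  · intro h
    exact absurd (Finset.mem_univ _) h

theorem AlG.hom_univ {A : Type} [CommRing A] {N d r : ℕ}
    (e : Fin r ≃ Fin (N + 1) × {α : Fin (N + 1) →₀ ℕ // α.degree = d}) (i : Fin (N + 1)) :
    (univ (A := A) e i).IsHomogeneous d := by
  unfold univ
  refine MvPolynomial.IsHomogeneous.sum _ _ _ fun t _ => ?_
  by_cases h1 : (e t).1 = i
  · rw [if_pos h1]
    exact MvPolynomial.isHomogeneous_monomial _ (e t).2.2
  · rw [if_neg h1]
    exact MvPolynomial.isHomogeneous_zero _ _ _

/-- The generic tuple. -/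
theorem univ_nopre_of {K : Type} [Field K] [NumberField K] {N d r D : ℕ} (hN : 1 ≤ N)
    (hS : ShiNo K N d D) (e : Fin r ≃ Fin (N + 1) × {α : Fin (N + 1) →₀ ℕ // α.degree = d}) :
    Pre (GF r K) D (gen (K := K) (univ e)) = ∅ := by
  refine nopre_of_shi hN hS (univ e) (AlG.hom_univ e)
    (fun t => (shi N d (RatFunc.X : RatFunc K) (e t).1).coeff (e t).2.1) ?_
  funext i
  ext α
  unfold mp
  rw [MvPolynomial.coeff_map]
  by_cases hα : α.degree = d
  · rw [AlG.coeff_univ e i α hα, MvPolynomial.coe_eval₂Hom, MvPolynomial.eval₂_X,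
      Equiv.apply_symm_apply]
  · rw [(AlG.hom_univ e i).coeff_eq_zero hα, map_zero,
      (ShIA.hom_shi N d (RatFunc.X : RatFunc K) i).coeff_eq_zero hα]

end Pool.Agent.PNH
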