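import Mathlib
import Pool.Agent.PNH.ShDefs

set_option autoImplicit false

/-!
# Rational-valued valuations; the invariants of a periodic point of the family `shi`
-/

namespace Pool.Agent.PNH

/-- A rational-valued valuation of `Ω`, integral on the subfield `E` (its value at `0` is
irrelevant). -/
structure IsQv (E : Type) [Field E] {Ω : Type} [Field Ω] [Algebra E Ω] (v : Ω → ℚ) : Prop where
  mul : ∀ x y, x ≠ 0 → y ≠ 0 → v (x * y) = v x + v y
  add : ∀ x y, x ≠ 0 → y ≠ 0 → x + y ≠ 0 → min (v x) (v y) ≤ v (x + y)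
  int : ∀ e : E, e ≠ 0 → ∃ z : ℤ, v (algebraMap E Ω e) = z

theorem IsInf.isQv {k : Type} [Field k] {Ω : Type} [Field Ω] [Algebra (RatFunc k) Ω] {v : Ω → ℚ}
    (hv : IsInf k v) : IsQv (RatFunc k) v :=
  ⟨hv.mul, hv.add, fun e he => ⟨-e.intDegree, by rw [hv.base e he]; push_cast; rfl⟩⟩

/-- The first coordinate of the `j`-th iterate. -/
noncomputable def Xs (k : Type) [Field k] {N : ℕ} (d : ℕ)
    (x : Fin (N + 1) → AlgebraicClosure (RatFunc k)) (j : ℕ) : AlgebraicClosure (RatFunc k) :=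
  (app (Sh k N d))^[j] x 0

/-- The invariant `X_j ^ (d ^ n - 1) / μ ^ (d ^ j)`. -/
noncomputable def Ys (k : Type) [Field k] {N : ℕ} (d : ℕ)
    (x : Fin (N + 1) → AlgebraicClosure (RatFunc k)) (n : ℕ) (μ : AlgebraicClosure (RatFunc k))
    (j : ℕ) : AlgebraicClosure (RatFunc k) :=
  Xs k d x j ^ (d ^ n - 1) / μ ^ d ^ j

end Pool.Agent.PNH
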