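import Mathlib
import Pool.Agent.PNH.SqDefs

set_option autoImplicit false

/-!
# Norms and rational-valued valuations
-/

namespace Pool.Agent.PNH

open Polynomial

theorem NrmA.one {E Ω : Type} [Field E] [Field Ω] [Algebra E Ω] (v : Ω → ℚ) (hv : IsQv E v) :
    v 1 = 0 := by
  have h := hv.mul 1 1 one_ne_zero one_ne_zero
  rw [mul_one] at h
  linarith

theorem NrmA.prod {E Ω : Type} [Field E] [Field Ω] [Algebra E Ω] (v : Ω → ℚ) (hv : IsQv E v)
    {ι : Type} (s : Finset ι) (f : ι → Ω) (hf : ∀ i ∈ s, f i ≠ 0) :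
    v (∏ i ∈ s, f i) = ∑ i ∈ s, v (f i) := by
  classical
  induction s using Finset.induction_on with
  | empty => simpa using NrmA.one v hv
  | insert a s ha ih =>
    rw [Finset.prod_insert ha, Finset.sum_insert ha, hv.mul _ _ (hf a (Finset.mem_insert_self a s))
      (Finset.prod_ne_zero_iff.2 fun i hi => hf i (Finset.mem_insert_of_mem hi)),
      ih fun i hi => hf i (Finset.mem_insert_of_mem hi)]

theorem norm_val {E Ω : Type} [Field E] [CharZero E] [Field Ω] [IsAlgClosed Ω] [Algebra E Ω]
    (v : Ω → ℚ) (hv : IsQv E v) (L : IntermediateField E Ω) [FiniteDimensional E L] (u : L)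
    (hu : u ≠ 0) : v (algebraMap E Ω (Algebra.norm E u)) = ∑ σ : L →ₐ[E] Ω, v (σ u) := by
  rw [Algebra.norm_eq_prod_embeddings E Ω u]
  exact NrmA.prod v hv _ _ fun σ _ => (_root_.map_ne_zero σ).2 hu

theorem norm_poly {k : Type} [Field k] [CharZero k]
    (L : IntermediateField (RatFunc k) (AlgebraicClosure (RatFunc k)))
    [FiniteDimensional (RatFunc k) L] (u : L)
    (hu : ∀ V : ValuationSubring (AlgebraicClosure (RatFunc k)),
      (∀ a : k, algebraMap k (AlgebraicClosure (RatFunc k)) a ∈ V) →
      algebraMap (RatFunc k) (AlgebraicClosure (RatFunc k)) RatFunc.X ∈ V →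
        (u : AlgebraicClosure (RatFunc k)) ∈ V) :
    ∃ p : k[X], algebraMap k[X] (RatFunc k) p = Algebra.norm (RatFunc k) u := by
  have h1 : IsIntegral k[X] (u : AlgebraicClosure (RatFunc k)) := by
    by_contra hx
    have : IsIntegrallyClosedIn (integralClosure k[X] (AlgebraicClosure (RatFunc k))).toSubring
        (AlgebraicClosure (RatFunc k)) :=
      inferInstanceAs (IsIntegrallyClosedIn (integralClosure k[X] (AlgebraicClosure (RatFunc k)))
        (AlgebraicClosure (RatFunc k)))
    obtain ⟨V, hV, hxV⟩ := Subring.exists_le_valuationSubring_of_isIntegrallyClosedIn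
      (R := (integralClosure k[X] (AlgebraicClosure (RatFunc k))).toSubring)
      (x := (u : AlgebraicClosure (RatFunc k))) hx
    have hp : ∀ p : k[X], algebraMap k[X] (AlgebraicClosure (RatFunc k)) p ∈ V := fun p =>
      hV ((integralClosure k[X] (AlgebraicClosure (RatFunc k))).algebraMap_mem p)
    refine hxV (hu V (fun a => ?_) ?_)
    · have := hp (C a)
      rwa [IsScalarTower.algebraMap_apply k[X] (RatFunc k) (AlgebraicClosure (RatFunc k)),
        RatFunc.algebraMap_C, ← RatFunc.algebraMap_eq_C,
        ← IsScalarTower.algebraMap_apply k (RatFunc k) (AlgebraicClosure (RatFunc k))] at this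
    · have := hp X
      rwa [IsScalarTower.algebraMap_apply k[X] (RatFunc k) (AlgebraicClosure (RatFunc k)),
        RatFunc.algebraMap_X] at this
  have h2 : IsIntegral k[X] u := by
    obtain ⟨q, hq, hqu⟩ := h1
    refine ⟨q, hq, Subtype.val_injective ?_⟩
    have := Polynomial.hom_eval₂ q (algebraMap k[X] L) L.val.toRingHom u
    simpa using this.trans hqu
  have h3 : IsIntegral k[X] (Algebra.norm (RatFunc k) u) := Algebra.isIntegral_norm (RatFunc k) h2
  exact IsIntegrallyClosed.isIntegral_iff.1 h3

end Pool.Agent.PNH
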