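import Mathlib
import Pool.Agent.PNH.SqDefs

set_option autoImplicit false

/-!
# The Newton polygon: the number of conjugates with a given value
-/

namespace Pool.Agent.PNH

open Polynomial

namespace NwtA

variable {E Ω : Type} [Field E] [Field Ω] [Algebra E Ω] {v : Ω → ℚ}

/-- `x` is zero or has value at least `c` -/
def Ge (v : Ω → ℚ) (c : ℚ) (x : Ω) : Prop := x = 0 ∨ c ≤ v x

/-- `x` is zero or has value larger than `c` -/
def Gt (v : Ω → ℚ) (c : ℚ) (x : Ω) : Prop := x = 0 ∨ c < v x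

theorem one (hv : IsQv E v) : v 1 = 0 := by
  have h := hv.mul 1 1 one_ne_zero one_ne_zero
  rw [mul_one] at h
  linarith

theorem neg (hv : IsQv E v) (x : Ω) : v (-x) = v x := by
  by_cases h0 : x = 0
  · rw [h0, neg_zero]
  have h1 := hv.mul (-1) (-1) (neg_ne_zero.2 one_ne_zero) (neg_ne_zero.2 one_ne_zero)
  rw [neg_mul_neg, one_mul, one hv] at h1
  have h2 := hv.mul (-1) x (neg_ne_zero.2 one_ne_zero) h0
  rw [neg_one_mul] at h2
  linarith

theorem Gt.ge {c : ℚ} {x : Ω} (h : Gt v c x) : Ge v c x := h.imp_right le_of_lt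

theorem Ge.zero (c : ℚ) : Ge v c (0 : Ω) := Or.inl rfl

theorem Gt.zero (c : ℚ) : Gt v c (0 : Ω) := Or.inl rfl

theorem Ge.add (hv : IsQv E v) {c : ℚ} {x y : Ω} (hx : Ge v c x) (hy : Ge v c y) :
    Ge v c (x + y) := by
  by_cases h0 : x = 0
  · rwa [h0, zero_add]
  by_cases h1 : y = 0
  · rwa [h1, add_zero]
  by_cases h2 : x + y = 0
  · exact Or.inl h2
  right
  exact (le_min (hx.resolve_left h0) (hy.resolve_left h1)).trans (hv.add x y h0 h1 h2)

theorem Gt.add (hv : IsQv E v) {c : ℚ} {x y : Ω} (hx : Gt v c x) (hy : Gt v c y) :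
    Gt v c (x + y) := by
  by_cases h0 : x = 0
  · rwa [h0, zero_add]
  by_cases h1 : y = 0
  · rwa [h1, add_zero]
  by_cases h2 : x + y = 0
  · exact Or.inl h2
  right
  exact (lt_min (hx.resolve_left h0) (hy.resolve_left h1)).trans_le (hv.add x y h0 h1 h2)

theorem Ge.mul (hv : IsQv E v) {c e : ℚ} {x y : Ω} (hx : Ge v c x) (hy : Ge v e y) :
    Ge v (c + e) (x * y) := by
  by_cases h0 : x = 0
  · rw [h0, zero_mul]
    exact Or.inl rfl
  by_cases h1 : y = 0
  · rw [h1, mul_zero]
    exact Or.inl rfl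
  right
  rw [hv.mul x y h0 h1]
  exact add_le_add (hx.resolve_left h0) (hy.resolve_left h1)

theorem Ge.mul_gt (hv : IsQv E v) {c e : ℚ} {x y : Ω} (hx : Ge v c x) (hy : Gt v e y) :
    Gt v (c + e) (x * y) := by
  by_cases h0 : x = 0
  · rw [h0, zero_mul]
    exact Or.inl rfl
  by_cases h1 : y = 0
  · rw [h1, mul_zero]
    exact Or.inl rfl
  right
  rw [hv.mul x y h0 h1]
  exact add_lt_add_of_le_of_lt (hx.resolve_left h0) (hy.resolve_left h1)

theorem Gt.mul_ge (hv : IsQv E v) {c e : ℚ} {x y : Ω} (hx : Gt v c x) (hy : Ge v e y) :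
    Gt v (c + e) (x * y) := by
  rw [mul_comm, add_comm]
  exact hy.mul_gt hv hx

theorem Ge.sum (hv : IsQv E v) {ι : Type} (s : Finset ι) {c : ℚ} (f : ι → Ω)
    (h : ∀ i ∈ s, Ge v c (f i)) : Ge v c (∑ i ∈ s, f i) := by
  classical
  induction s using Finset.induction_on with
  | empty => exact Or.inl Finset.sum_empty
  | insert a s ha ih =>
    rw [Finset.sum_insert ha]
    exact (h a (Finset.mem_insert_self a s)).add hv
      (ih fun i hi => h i (Finset.mem_insert_of_mem hi))

theorem Gt.sum (hv : IsQv E v) {ι : Type} (s : Finset ι) {c : ℚ} (f : ι → Ω)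
    (h : ∀ i ∈ s, Gt v c (f i)) : Gt v c (∑ i ∈ s, f i) := by
  classical
  induction s using Finset.induction_on with
  | empty => exact Or.inl Finset.sum_empty
  | insert a s ha ih =>
    rw [Finset.sum_insert ha]
    exact (h a (Finset.mem_insert_self a s)).add hv
      (ih fun i hi => h i (Finset.mem_insert_of_mem hi))

/-- a dominant term -/
theorem dom (hv : IsQv E v) {c : ℚ} {x y : Ω} (hx : x ≠ 0) (hc : v x = c) (hy : Gt v c y) :
    x + y ≠ 0 ∧ v (x + y) = c := by
  by_cases h1 : y = 0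
  · rw [h1, add_zero]
    exact ⟨hx, hc⟩
  have h2 := hy.resolve_left h1
  have h3 : x + y ≠ 0 := by
    intro h3
    have h4 : y = -x := by linear_combination h3
    rw [h4, neg hv, hc] at h2
    exact lt_irrefl _ h2
  refine ⟨h3, le_antisymm ?_ ?_⟩
  · by_contra hlt
    rw [not_le] at hlt
    have h4 : x = (x + y) + -y := by ring
    have h5 : (x + y) + -y ≠ 0 := by rwa [← h4]
    have h6 := hv.add (x + y) (-y) h3 (neg_ne_zero.2 h1) h5
    rw [← h4, neg hv, hc] at h6
    exact absurd h6 (not_le.2 (lt_min hlt h2))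
  · refine le_trans (le_min hc.ge h2.le) (hv.add x y hx h1 h3)

/-- the dominant term of the coefficient of a product -/
theorem dom_mul (hv : IsQv E v) {A B : Polynomial Ω} {c : ℚ} (i j : ℕ) (ha : A.coeff i ≠ 0)
    (hb : B.coeff j ≠ 0) (hc : v (A.coeff i) + v (B.coeff j) = c)
    (h : ∀ i' j', i' + j' = i + j → i' ≠ i → Gt v c (A.coeff i' * B.coeff j')) :
    (A * B).coeff (i + j) ≠ 0 ∧ v ((A * B).coeff (i + j)) = c := by
  classical
  rw [coeff_mul, ← Finset.add_sum_erase _ _
    (Finset.HasAntidiagonal.mem_antidiagonal.2 (rfl : (i, j).1 + (i, j).2 = i + j))]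
  refine dom hv (mul_ne_zero ha hb) (by rw [hv.mul _ _ ha hb, hc]) ?_
  refine Gt.sum hv _ _ fun p hp => ?_
  rw [Finset.mem_erase, Finset.HasAntidiagonal.mem_antidiagonal] at hp
  refine h p.1 p.2 hp.2 fun h1 => hp.1 ?_
  have h2 : p.2 = j := by omega
  exact Prod.ext h1 h2

/-- `P` has a unique vertex of slope `a` -/
def Uni (v : Ω → ℚ) (a : ℚ) (P : Polynomial Ω) : Prop :=
  ∃ κ : ℕ, P.coeff κ ≠ 0 ∧ ∀ i, i ≠ κ → Gt v (v (P.coeff κ) + κ * a - i * a) (P.coeff i)

theorem Uni.mul (hv : IsQv E v) {a : ℚ} {P Q : Polynomial Ω} (hP : Uni v a P) (hQ : Uni v a Q) :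
    Uni v a (P * Q) := by
  classical
  obtain ⟨κ, hκ, hP⟩ := hP
  obtain ⟨l, hl, hQ⟩ := hQ
  have hP' : ∀ i : ℕ, Ge v (v (P.coeff κ) + κ * a - i * a) (P.coeff i) := fun i => by
    by_cases h : i = κ
    · right
      rw [h]
      linarith
    · exact (hP i h).ge
  have hQ' : ∀ i : ℕ, Ge v (v (Q.coeff l) + l * a - i * a) (Q.coeff i) := fun i => by
    by_cases h : i = l
    · right
      rw [h]
      linarith
    · exact (hQ i h).ge
  have key : ∀ i j, (i ≠ κ ∨ j ≠ l) → Gt v (v (P.coeff κ) + v (Q.coeff l) + ((κ + l : ℕ) : ℚ) * a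
      - ((i + j : ℕ) : ℚ) * a) (P.coeff i * Q.coeff j) := by
    intro i j h
    have e : v (P.coeff κ) + v (Q.coeff l) + ((κ + l : ℕ) : ℚ) * a - ((i + j : ℕ) : ℚ) * a =
        (v (P.coeff κ) + κ * a - i * a) + (v (Q.coeff l) + l * a - j * a) := by
      push_cast
      ring
    rw [e]
    rcases h with h | h
    · exact (hP i h).mul_ge hv (hQ' j)
    · exact (hP' i).mul_gt hv (hQ j h)
  have h1 := dom_mul hv (A := P) (B := Q) (c := v (P.coeff κ) + v (Q.coeff l)) κ l hκ hl rfl
    (fun i j hij hi => by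
      have := key i j (Or.inl hi)
      rw [hij] at this
      simpa using this)
  refine ⟨κ + l, h1.1, fun n hn => ?_⟩
  rw [h1.2, coeff_mul]
  refine Gt.sum hv _ _ fun p hp => ?_
  rw [Finset.HasAntidiagonal.mem_antidiagonal] at hp
  have h2 := key p.1 p.2 (by
    by_contra h
    push Not at h
    exact hn (by rw [← hp, h.1, h.2]))
  rwa [hp] at h2

theorem Uni.X_sub_C (hv : IsQv E v) {a : ℚ} {r : Ω} (hr : r ≠ 0) (h : v r ≠ a) :
    Uni v a (X - C r) := by
  have h0 : (X - C r).coeff 0 = -r := by simp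
  have h1 : (X - C r).coeff 1 = 1 := by simp [coeff_C]
  have h2 : ∀ i, 2 ≤ i → (X - C r).coeff i = 0 := fun i hi => by
    rw [coeff_sub, coeff_X, coeff_C, if_neg (by omega), if_neg (by omega), sub_zero]
  rcases lt_or_gt_of_ne h with h | h
  · refine ⟨0, by rw [h0]; exact neg_ne_zero.2 hr, fun i hi => ?_⟩
    rcases Nat.lt_or_ge i 2 with hi2 | hi2
    · have : i = 1 := by omega
      subst this
      right
      rw [h0, h1, neg hv, one hv]
      push_cast
      linarith
    · rw [h2 i hi2]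
      exact Or.inl rfl
  · refine ⟨1, by rw [h1]; exact one_ne_zero, fun i hi => ?_⟩
    rcases Nat.lt_or_ge i 2 with hi2 | hi2
    · have : i = 0 := by omega
      subst this
      right
      rw [h0, h1, neg hv, one hv]
      push_cast
      linarith
    · rw [h2 i hi2]
      exact Or.inl rfl

theorem Uni.one (hv : IsQv E v) {a : ℚ} : Uni v a (1 : Polynomial Ω) := by
  refine ⟨0, by simp, fun i hi => Or.inl ?_⟩
  rw [coeff_one, if_neg hi]

theorem Uni.prod (hv : IsQv E v) {a : ℚ} (s : Finset Ω) (h0 : ∀ r ∈ s, r ≠ 0)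
    (h : ∀ r ∈ s, v r ≠ a) : Uni v a (∏ r ∈ s, (X - C r)) := by
  classical
  induction s using Finset.induction_on with
  | empty => simpa using Uni.one hv
  | insert b s hb ih =>
    rw [Finset.prod_insert hb]
    exact (Uni.X_sub_C hv (h0 b (Finset.mem_insert_self b s))
      (h b (Finset.mem_insert_self b s))).mul hv
      (ih (fun r hr => h0 r (Finset.mem_insert_of_mem hr))
        fun r hr => h r (Finset.mem_insert_of_mem hr))

/-- the part of slope `a` -/
theorem slope (hv : IsQv E v) {a : ℚ} (s : Finset Ω) (h0 : ∀ r ∈ s, r ≠ 0)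
    (h : ∀ r ∈ s, v r = a) : (∏ r ∈ s, (X - C r)).coeff 0 ≠ 0 ∧
      v ((∏ r ∈ s, (X - C r)).coeff 0) = s.card * a ∧
      ∀ i : ℕ, Ge v (s.card * a - i * a) ((∏ r ∈ s, (X - C r)).coeff i) := by
  classical
  induction s using Finset.induction_on with
  | empty =>
    simp only [Finset.prod_empty, coeff_one, Finset.card_empty]
    refine ⟨by simp, by simpa using one hv, fun i => ?_⟩
    by_cases hi : i = 0
    · right
      simp [hi, one hv]
    · rw [if_neg hi]
      exact Or.inl rfl
  | insert b s hb ih =>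
    obtain ⟨h1, h2, h3⟩ := ih (fun r hr => h0 r (Finset.mem_insert_of_mem hr))
      fun r hr => h r (Finset.mem_insert_of_mem hr)
    have hb0 := h0 b (Finset.mem_insert_self b s)
    have hba := h b (Finset.mem_insert_self b s)
    rw [Finset.prod_insert hb, Finset.card_insert_of_notMem hb]
    have hl : ∀ i : ℕ, Ge v (a - i * a) ((X - C b).coeff i) := by
      intro i
      rcases Nat.lt_or_ge i 2 with hi2 | hi2
      · interval_cases i
        · right
          simp [neg hv, hba]
        · right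
          simp [coeff_C, one hv]
      · left
        rw [coeff_sub, coeff_X, coeff_C, if_neg (by omega), if_neg (by omega), sub_zero]
    refine ⟨?_, ?_, fun i => ?_⟩
    · rw [mul_coeff_zero]
      exact mul_ne_zero (by simpa using hb0) h1
    · rw [mul_coeff_zero, hv.mul _ _ (by simpa using hb0) h1, h2]
      simp only [coeff_sub, coeff_X_zero, coeff_C_zero, zero_sub, neg hv, hba]
      push_cast
      ring
    · rw [coeff_mul]
      refine Ge.sum hv _ _ fun p hp => ?_
      rw [Finset.HasAntidiagonal.mem_antidiagonal] at hp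
      have h4 := (hl p.1).mul hv (h3 p.2)
      have e : (((s.card + 1 : ℕ) : ℚ) * a - i * a) =
          (a - p.1 * a) + (s.card * a - p.2 * a) := by
        rw [← hp]
        push_cast
        ring
      rw [e]
      exact h4

/-- the number of roots of a given value -/
theorem int_mul (hv : IsQv E v) (P : Polynomial E) (s : Finset Ω) (h0 : ∀ r ∈ s, r ≠ 0)
    (hP : P.map (algebraMap E Ω) = ∏ r ∈ s, (X - C r)) (a : ℚ) :
    ∃ z : ℤ, ((s.filter fun r => v r = a).card : ℚ) * a = z := by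
  classical
  set S := s.filter fun r => v r = a with hS
  set S' := s.filter fun r => ¬ v r = a with hS'
  have hprod : P.map (algebraMap E Ω) = (∏ r ∈ S, (X - C r)) * ∏ r ∈ S', (X - C r) := by
    rw [hP, hS, hS', Finset.prod_filter_mul_prod_filter_not]
  obtain ⟨h1, h2, h3⟩ := slope hv S (fun r hr => h0 r (Finset.mem_filter.1 hr).1)
    fun r hr => (Finset.mem_filter.1 hr).2
  obtain ⟨κ, hκ, hB⟩ := Uni.prod hv S' (fun r hr => h0 r (Finset.mem_filter.1 hr).1)
    fun r hr => (Finset.mem_filter.1 hr).2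
  set A := ∏ r ∈ S, (X - C r) with hA
  set B := ∏ r ∈ S', (X - C r) with hBd
  have hAm : A.Monic := monic_prod_of_monic _ _ fun r _ => monic_X_sub_C r
  have hAd : A.natDegree = S.card := by
    rw [hA, natDegree_prod_of_monic _ _ fun r _ => monic_X_sub_C r]
    simp
  have hA1 : A.coeff S.card = 1 := by
    rw [← hAd]
    exact hAm
  have key : ∀ i j : ℕ, j ≠ κ → Gt v (S.card * a + v (B.coeff κ) + κ * a - ((i + j : ℕ) : ℚ) * a)
      (A.coeff i * B.coeff j) := by
    intro i j hj
    have e : S.card * a + v (B.coeff κ) + κ * a - ((i + j : ℕ) : ℚ) * a =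
        (S.card * a - i * a) + (v (B.coeff κ) + κ * a - j * a) := by
      push_cast
      ring
    rw [e]
    exact (h3 i).mul_gt hv (hB j hj)
  have h4 := dom_mul hv (A := A) (B := B) (c := S.card * a + v (B.coeff κ)) 0 κ h1 hκ
    (by rw [h2]) (fun i j hij hi => by
      have := key i j (by omega)
      rw [hij] at this
      simpa using this)
  have h5 := dom_mul hv (A := A) (B := B) (c := v (B.coeff κ)) S.card κ
    (by rw [hA1]; exact one_ne_zero) hκ (by rw [hA1, one hv, zero_add]) (fun i j hij hi => by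
      have := key i j (by omega)
      rw [hij] at this
      have e : (S.card : ℚ) * a + v (B.coeff κ) + κ * a - ((S.card + κ : ℕ) : ℚ) * a =
          v (B.coeff κ) := by
        push_cast
        ring
      rwa [e] at this)
  rw [← hprod, coeff_map] at h4 h5
  obtain ⟨z1, hz1⟩ := hv.int _ ((_root_.map_ne_zero (algebraMap E Ω)).1 h4.1)
  obtain ⟨z2, hz2⟩ := hv.int _ ((_root_.map_ne_zero (algebraMap E Ω)).1 h5.1)
  refine ⟨z1 - z2, ?_⟩
  rw [h4.2] at hz1
  rw [h5.2] at hz2
  push_cast
  linarith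

end NwtA

open Classical in
theorem nwt {E Ω : Type} [Field E] [CharZero E] [Field Ω] [IsAlgClosed Ω] [Algebra E Ω]
    (v : Ω → ℚ) (hv : IsQv E v) (L : IntermediateField E Ω) [FiniteDimensional E L] (u : L)
    (hu : u ≠ 0) (σ₀ : L →ₐ[E] Ω) :
    (v (σ₀ u)).den ≤ (Finset.univ.filter fun σ : L →ₐ[E] Ω => v (σ u) = v (σ₀ u)).card := by
  set P := minpoly E u with hPd
  have hint : IsIntegral E u := Algebra.IsIntegral.isIntegral u
  have hPm : P.Monic := minpoly.monic hint
  have hsep : P.Separable := (minpoly.irreducible hint).separable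
  set Q := P.map (algebraMap E Ω) with hQ
  have hQm : Q.Monic := hPm.map _
  have hnd : Q.roots.Nodup := nodup_roots hsep.map
  set s := Q.roots.toFinset with hs
  have hval : s.val = Q.roots := Multiset.dedup_eq_self.2 hnd
  have hprod : Q = ∏ r ∈ s, (X - C r) := by
    rw [Finset.prod, hval]
    exact (IsAlgClosed.splits Q).eq_prod_roots_of_monic hQm
  have hrange : ∀ r ∈ s, ∃ σ : L →ₐ[E] Ω, σ u = r := by
    intro r hr
    have h1 := Algebra.IsAlgebraic.range_eval_eq_rootSet_minpoly (F := E) (K := L) Ω u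
    have h2 : r ∈ (minpoly E u).rootSet Ω := by
      rw [rootSet, aroots]
      exact hr
    rw [← h1] at h2
    exact h2
  have h0 : ∀ r ∈ s, r ≠ 0 := by
    intro r hr
    obtain ⟨σ, rfl⟩ := hrange r hr
    exact (_root_.map_ne_zero σ).2 hu
  obtain ⟨z, hz⟩ := NwtA.int_mul hv P s h0 hprod (v (σ₀ u))
  set f := (s.filter fun r => v r = v (σ₀ u)).card with hf
  have hmem : σ₀ u ∈ s := by
    have h1 := Algebra.IsAlgebraic.range_eval_eq_rootSet_minpoly (F := E) (K := L) Ω u
    have h2 : σ₀ u ∈ (minpoly E u).rootSet Ω := by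
      rw [← h1]
      exact ⟨σ₀, rfl⟩
    rw [rootSet, aroots] at h2
    exact h2
  have hf0 : 0 < f := Finset.card_pos.2 ⟨σ₀ u, Finset.mem_filter.2 ⟨hmem, rfl⟩⟩
  have h1 : (v (σ₀ u)).den ≤ f := by
    refine Nat.le_of_dvd hf0 ?_
    have h2 : (f : ℤ) * (v (σ₀ u)).num = z * (v (σ₀ u)).den := by
      have h3 := Rat.num_div_den (v (σ₀ u))
      have h4 : ((v (σ₀ u)).den : ℚ) ≠ 0 := by exact_mod_cast (v (σ₀ u)).den_nz
      have h5 : (f : ℚ) * (v (σ₀ u)).num = z * (v (σ₀ u)).den := by
        rw [← hz]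
        nth_rw 2 [← h3]
        field_simp
      exact_mod_cast h5
    have h3 : ((v (σ₀ u)).den : ℤ) ∣ f * (v (σ₀ u)).num := ⟨z, by rw [h2, mul_comm]⟩
    have h4 : IsCoprime ((v (σ₀ u)).den : ℤ) (v (σ₀ u)).num := by
      rw [Int.isCoprime_iff_gcd_eq_one, Int.gcd_comm]
      exact (v (σ₀ u)).reduced
    exact_mod_cast h4.dvd_of_dvd_mul_right h3
  refine h1.trans ?_
  -- each root is the image of `u` under an embedding
  choose g hg using hrange
  refine Finset.card_le_card_of_injOn (fun r => if h : r ∈ s then g r h else σ₀) ?_ ?_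
  · intro r hr
    have hr' := Finset.mem_filter.1 (Finset.mem_coe.1 hr)
    simp only [dif_pos hr'.1]
    refine Finset.mem_coe.2 (Finset.mem_filter.2 ⟨Finset.mem_univ _, ?_⟩)
    rw [hg r hr'.1]
    exact hr'.2
  · intro r hr r' hr' h
    have h2 := Finset.mem_filter.1 (Finset.mem_coe.1 hr)
    have h3 := Finset.mem_filter.1 (Finset.mem_coe.1 hr')
    simp only [dif_pos h2.1, dif_pos h3.1] at h
    rw [← hg r h2.1, ← hg r' h3.1, h]

end Pool.Agent.PNH
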