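import Mathlib
import Pool.Agent.PNH.ShDefs

set_option autoImplicit false

/-!
# Rational-valued valuations above the infinite place of `k(c)`
-/

namespace Pool.Agent.PNH

namespace RvlA

open Polynomial

/-- The valuation of a polynomial in an element of value greater than one. -/
theorem val_poly {k Ω Γ : Type} [Field k] [Field Ω] [LinearOrderedCommGroupWithZero Γ]
    (w : Valuation Ω Γ) (φ : k[X] →+* Ω) (hk : ∀ a : k, w (φ (C a)) ≤ 1) (hX : 1 < w (φ X))
    (p : k[X]) (hp : p ≠ 0) : w (φ p) = w (φ X) ^ p.natDegree := by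
  classical
  have h1 : ∀ a : k, a ≠ 0 → w (φ (C a)) = 1 := by
    intro a ha
    refine le_antisymm (hk a) ?_
    have h2 := hk a⁻¹
    have h3 : φ (C a) * φ (C a⁻¹) = 1 := by
      rw [← map_mul, ← C_mul, mul_inv_cancel₀ ha, C_1, map_one]
    have h4 : w (φ (C a)) * w (φ (C a⁻¹)) = 1 := by rw [← map_mul, h3, map_one]
    calc (1 : Γ) = w (φ (C a)) * w (φ (C a⁻¹)) := h4.symm
      _ ≤ w (φ (C a)) * 1 := mul_le_mul_right h2 _
      _ = w (φ (C a)) := mul_one _
  have hsum : φ p = ∑ i ∈ Finset.range (p.natDegree + 1), φ (C (p.coeff i)) * φ X ^ i := by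
    conv_lhs => rw [p.as_sum_range_C_mul_X_pow]
    rw [map_sum]
    refine Finset.sum_congr rfl fun i _ => ?_
    rw [map_mul, map_pow]
  have hlead : w (φ (C (p.coeff p.natDegree)) * φ X ^ p.natDegree) =
      w (φ X) ^ p.natDegree := by
    rw [map_mul, map_pow, h1 _ (by rwa [coeff_natDegree, leadingCoeff_ne_zero]), one_mul]
  rw [hsum, w.map_sum_eq_of_lt (j := p.natDegree) (Finset.mem_range.2 (Nat.lt_succ_self _)), hlead]
  intro i hi
  rw [Finset.mem_sdiff, Finset.mem_range, Finset.mem_singleton] at hi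
  rw [hlead, map_mul, map_pow]
  calc w (φ (C (p.coeff i))) * w (φ X) ^ i ≤ 1 * w (φ X) ^ i := mul_le_mul_left (hk _) _
    _ = w (φ X) ^ i := one_mul _
    _ < w (φ X) ^ p.natDegree := pow_lt_pow_right₀ hX (by omega)

/-- An algebraic element has a value commensurable with the values of the base. -/
theorem exists_pow {κ Ω Γ : Type} [Field κ] [Field Ω] [Algebra κ Ω] [Algebra.IsAlgebraic κ Ω]
    [LinearOrderedCommGroupWithZero Γ] (w : Valuation Ω Γ) (g : Γ) (hg : 1 < g)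
    (hk : ∀ c : κ, c ≠ 0 → ∃ m : ℤ, w (algebraMap κ Ω c) = g ^ m) (x : Ω) (hx0 : x ≠ 0) :
    ∃ m : ℕ, 1 ≤ m ∧ ∃ a : ℤ, w x ^ m = g ^ a := by
  classical
  set p := minpoly κ x with hp
  have hx : IsIntegral κ x := (Algebra.IsAlgebraic.isAlgebraic x).isIntegral
  have hp0 : p ≠ 0 := minpoly.ne_zero hx
  have hg0 : g ≠ 0 := (zero_lt_one.trans hg).ne'
  have hwx : w x ≠ 0 := (Valuation.ne_zero_iff w).2 hx0
  have hne : ∀ i ∈ p.support, w (algebraMap κ Ω (p.coeff i) * x ^ i) ≠ 0 := by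
    intro i hi
    obtain ⟨m, hm⟩ := hk _ (mem_support_iff.1 hi)
    rw [map_mul, map_pow, hm]
    exact mul_ne_zero (zpow_ne_zero _ hg0) (pow_ne_zero _ hwx)
  by_contra hcon
  have hlt : ∀ i ∈ p.support, ∀ j ∈ p.support, i < j →
      w (algebraMap κ Ω (p.coeff i) * x ^ i) ≠ w (algebraMap κ Ω (p.coeff j) * x ^ j) := by
    intro i hi j hj hij h
    obtain ⟨m, hm⟩ := hk _ (mem_support_iff.1 hi)
    obtain ⟨m', hm'⟩ := hk _ (mem_support_iff.1 hj)
    rw [map_mul, map_pow, hm, map_mul, map_pow, hm'] at h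
    refine hcon ⟨j - i, by omega, m - m', ?_⟩
    have h2 : w x ^ j = w x ^ i * w x ^ (j - i) := by
      rw [← pow_add]
      congr 1
      omega
    rw [h2, ← mul_assoc, mul_comm (g ^ m') (w x ^ i), mul_comm (g ^ m), mul_assoc] at h
    have h3 := mul_left_cancel₀ (pow_ne_zero i hwx) h
    rw [zpow_sub₀ hg0, h3, mul_comm, mul_div_assoc, div_self (zpow_ne_zero _ hg0), mul_one]
  have hinj : ∀ i ∈ p.support, ∀ j ∈ p.support,
      w (algebraMap κ Ω (p.coeff i) * x ^ i) = w (algebraMap κ Ω (p.coeff j) * x ^ j) → i = j := by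
    intro i hi j hj h
    rcases lt_trichotomy i j with h1 | h1 | h1
    · exact absurd h (hlt i hi j hj h1)
    · exact h1
    · exact absurd h.symm (hlt j hj i hi h1)
  obtain ⟨j, hj, hmax⟩ := Finset.exists_max_image p.support
    (fun i => w (algebraMap κ Ω (p.coeff i) * x ^ i)) (nonempty_support_iff.2 hp0)
  have h1 : w (∑ i ∈ p.support, algebraMap κ Ω (p.coeff i) * x ^ i) =
      w (algebraMap κ Ω (p.coeff j) * x ^ j) := by
    refine w.map_sum_eq_of_lt hj fun i hi => ?_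
    rw [Finset.mem_sdiff, Finset.mem_singleton] at hi
    exact lt_of_le_of_ne (hmax i hi.1) fun e => hi.2 (hinj i hi.1 j hj e)
  have h2 : ∑ i ∈ p.support, algebraMap κ Ω (p.coeff i) * x ^ i = 0 := by
    have h3 := minpoly.aeval κ x
    rw [← hp, aeval_eq_sum_range] at h3
    rw [← h3]
    refine Finset.sum_subset_zero_on_sdiff (fun i hi => ?_) (fun i hi => ?_) (fun i _ => ?_)
    · rw [Finset.mem_range]
      exact Nat.lt_succ_of_le (le_natDegree_of_mem_supp i hi)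
    · rw [Finset.mem_sdiff, notMem_support_iff] at hi
      rw [hi.2, zero_smul]
    · rw [Algebra.smul_def]
  rw [h2, map_zero] at h1
  exact hne j hj h1.symm

theorem le_iff {Γ : Type} [LinearOrderedCommGroupWithZero Γ] (g : Γ) (hg : 1 < g) (s t : Γ)
    (m n : ℕ) (hm : 1 ≤ m) (hn : 1 ≤ n) (a b : ℤ) (hs : s ^ m = g ^ a) (ht : t ^ n = g ^ b) :
    s ≤ t ↔ (a : ℚ) / m ≤ (b : ℚ) / n := by
  have hm' : (0 : ℚ) < m := by exact_mod_cast hm
  have hn' : (0 : ℚ) < n := by exact_mod_cast hn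
  have h1 : s ^ (m * n) = g ^ (a * n) := by
    rw [pow_mul, hs, ← zpow_natCast, ← zpow_mul]
  have h2 : t ^ (m * n) = g ^ (b * m) := by
    rw [mul_comm m n, pow_mul, ht, ← zpow_natCast, ← zpow_mul]
  have h3 : s ≤ t ↔ s ^ (m * n) ≤ t ^ (m * n) :=
    (pow_le_pow_iff_left₀ zero_le zero_le (Nat.mul_ne_zero (by omega) (by omega))).symm
  rw [h3, h1, h2, zpow_le_zpow_iff_right₀ hg, div_le_div_iff₀ hm' hn']
  exact_mod_cast Iff.rfl

/-- The rational-valued valuation. -/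
theorem exists_rat {Ω Γ : Type} [Field Ω] [LinearOrderedCommGroupWithZero Γ] (w : Valuation Ω Γ)
    (g : Γ) (hg : 1 < g) (hx : ∀ x : Ω, x ≠ 0 → ∃ m : ℕ, 1 ≤ m ∧ ∃ a : ℤ, w x ^ m = g ^ a) :
    ∃ v : Ω → ℚ, (∀ x, x ≠ 0 → ∀ (m : ℕ) (a : ℤ), 1 ≤ m → w x ^ m = g ^ a →
      v x = -((a : ℚ) / m)) ∧ ∀ x y, x ≠ 0 → y ≠ 0 → (w x ≤ w y ↔ v y ≤ v x) := by
  classical
  choose! m hm a ha using hx
  have h1 : ∀ x : Ω, x ≠ 0 → ∀ (n : ℕ) (b : ℤ), 1 ≤ n → w x ^ n = g ^ b →
      (a x : ℚ) / m x = (b : ℚ) / n := by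
    intro x hx n b hn hb
    exact le_antisymm ((le_iff g hg (w x) (w x) _ _ (hm x hx) hn _ _ (ha x hx) hb).1 le_rfl)
      ((le_iff g hg (w x) (w x) _ _ hn (hm x hx) _ _ hb (ha x hx)).1 le_rfl)
  refine ⟨fun x => -((a x : ℚ) / m x), fun x hx n b hn hb => ?_, fun x y hx hy => ?_⟩
  · exact congrArg Neg.neg (h1 x hx n b hn hb)
  · rw [neg_le_neg_iff]
    exact le_iff g hg (w x) (w y) _ _ (hm x hx) (hm y hy) _ _ (ha x hx) (ha y hy)

end RvlA

/-- The value of `-y`. -/
theorem IsInf.map_neg {k : Type} [Field k] {Ω : Type} [Field Ω] [Algebra (RatFunc k) Ω] {v : Ω → ℚ}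
    (hv : IsInf k v) (y : Ω) (hy : y ≠ 0) : v (-y) = v y := by
  have h1 : v 1 = 0 := by
    have := hv.mul 1 1 one_ne_zero one_ne_zero
    rw [mul_one] at this
    linarith
  have h2 : v (-1) = 0 := by
    have := hv.mul (-1) (-1) (neg_ne_zero.2 one_ne_zero) (neg_ne_zero.2 one_ne_zero)
    rw [neg_mul_neg, one_mul, h1] at this
    linarith
  have h3 := hv.mul (-1) y (neg_ne_zero.2 one_ne_zero) hy
  rw [neg_one_mul, h2, zero_add] at h3
  exact h3

theorem IsInf.add_eq {k : Type} [Field k] {Ω : Type} [Field Ω] [Algebra (RatFunc k) Ω] {v : Ω → ℚ}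
    (hv : IsInf k v) (x y : Ω) (hx : x ≠ 0) (hy : y ≠ 0) (h : v x < v y) :
    x + y ≠ 0 ∧ v (x + y) = v x := by
  have h1 := hv.map_neg y hy
  have h0 : x + y ≠ 0 := by
    intro h0
    rw [add_eq_zero_iff_eq_neg.1 h0, h1] at h
    exact lt_irrefl _ h
  refine ⟨h0, le_antisymm ?_ ?_⟩
  · have h2 := hv.add (x + y) (-y) h0 (neg_ne_zero.2 hy) (by rwa [add_neg_cancel_right])
    rw [add_neg_cancel_right, h1] at h2
    rcases min_le_iff.1 h2 with h3 | h3
    · exact h3
    · exact absurd h3 (not_le.2 h)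
  · have h2 := hv.add x y hx hy h0
    rwa [min_eq_left h.le] at h2

theorem exists_inf {k : Type} [Field k] (V : ValuationSubring (AlgebraicClosure (RatFunc k)))
    (hk : ∀ a : k, algebraMap k (AlgebraicClosure (RatFunc k)) a ∈ V)
    (hc : algebraMap (RatFunc k) (AlgebraicClosure (RatFunc k)) RatFunc.X ∉ V) :
    ∃ v : AlgebraicClosure (RatFunc k) → ℚ, IsInf k v ∧ ∀ x, x ≠ 0 → (x ∈ V ↔ 0 ≤ v x) := by
  classical
  set w := V.valuation with hw
  set φ : Polynomial k →+* AlgebraicClosure (RatFunc k) :=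
    (algebraMap (RatFunc k) (AlgebraicClosure (RatFunc k))).comp
      (algebraMap (Polynomial k) (RatFunc k)) with hφ
  have hX : φ Polynomial.X = algebraMap (RatFunc k) (AlgebraicClosure (RatFunc k)) RatFunc.X := by
    rw [hφ, RingHom.comp_apply, RatFunc.algebraMap_X]
  have hC : ∀ a : k, φ (Polynomial.C a) = algebraMap k (AlgebraicClosure (RatFunc k)) a := by
    intro a
    rw [hφ, RingHom.comp_apply, RatFunc.algebraMap_C,
      IsScalarTower.algebraMap_apply k (RatFunc k) (AlgebraicClosure (RatFunc k)),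
      RatFunc.algebraMap_eq_C]
  set g := w (φ Polynomial.X) with hg
  have hg1 : 1 < g := by
    rw [hg, hX]
    exact not_le.1 fun h => hc ((V.valuation_le_one_iff _).1 h)
  have hg0 : g ≠ 0 := (zero_lt_one.trans hg1).ne'
  have hpoly : ∀ p : Polynomial k, p ≠ 0 → w (φ p) = g ^ p.natDegree :=
    RvlA.val_poly w φ (fun a => by
      rw [hC]
      exact (V.valuation_le_one_iff _).2 (hk a)) hg1
  have hbase : ∀ e : RatFunc k, e ≠ 0 →
      w (algebraMap (RatFunc k) (AlgebraicClosure (RatFunc k)) e) = g ^ e.intDegree := by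
    intro e he
    have h1 : algebraMap (RatFunc k) (AlgebraicClosure (RatFunc k)) e = φ e.num / φ e.denom := by
      rw [hφ, RingHom.comp_apply, RingHom.comp_apply, ← map_div₀, RatFunc.num_div_denom]
    rw [h1, map_div₀, hpoly _ (RatFunc.num_ne_zero he), hpoly _ (RatFunc.denom_ne_zero e)]
    unfold RatFunc.intDegree
    rw [zpow_sub₀ hg0, zpow_natCast, zpow_natCast]
  obtain ⟨v, hv1, hv2⟩ := RvlA.exists_rat w g hg1 (RvlA.exists_pow (κ := RatFunc k) w g hg1
    fun c hc => ⟨_, hbase c hc⟩)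
  have hv0 : v 1 = 0 := by
    have := hv1 1 one_ne_zero 1 0 le_rfl (by rw [map_one, one_pow, zpow_zero])
    simpa using this
  refine ⟨v, ⟨fun x y hx hy => ?_, fun x y hx hy hxy => ?_, fun e he => ?_⟩, fun x hx => ?_⟩
  · obtain ⟨m, hm, a, ha⟩ := RvlA.exists_pow (κ := RatFunc k) w g hg1
      (fun c hc => ⟨_, hbase c hc⟩) x hx
    obtain ⟨n, hn, b, hb⟩ := RvlA.exists_pow (κ := RatFunc k) w g hg1
      (fun c hc => ⟨_, hbase c hc⟩) y hy
    have hm' : (m : ℚ) ≠ 0 := by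
      have : (0 : ℚ) < m := by exact_mod_cast hm
      exact this.ne'
    have hn' : (n : ℚ) ≠ 0 := by
      have : (0 : ℚ) < n := by exact_mod_cast hn
      exact this.ne'
    rw [hv1 x hx m a hm ha, hv1 y hy n b hn hb,
      hv1 (x * y) (mul_ne_zero hx hy) (m * n) (a * n + b * m) (Nat.mul_pos hm hn) ?_]
    · push_cast
      field_simp
      ring
    · rw [map_mul, mul_pow, pow_mul, ha, mul_comm m n, pow_mul (w y), hb, ← zpow_natCast,
        ← zpow_natCast, ← zpow_mul, ← zpow_mul, ← zpow_add₀ hg0]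
  · rcases le_max_iff.1 (w.map_add x y) with h | h
    · exact (min_le_left _ _).trans ((hv2 _ _ hxy hx).1 h)
    · exact (min_le_right _ _).trans ((hv2 _ _ hxy hy).1 h)
  · have := hv1 (algebraMap (RatFunc k) (AlgebraicClosure (RatFunc k)) e)
      (by rwa [Ne, map_eq_zero]) 1 e.intDegree le_rfl (by rw [pow_one, hbase e he])
    rw [this, Nat.cast_one, div_one]
  · rw [← V.valuation_le_one_iff, ← hv0, ← hv2 x 1 hx one_ne_zero, map_one]

end Pool.Agent.PNH
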