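import Mathlib
import Pool.Agent.LIM.ExVal
import Pool.Agent.PNH.Rvl
import Pool.Agent.PNH.SqDefs

set_option autoImplicit false

/-!
# Existence of rational-valued valuations
-/

namespace Pool.Agent.PNH

open Polynomial

namespace QvA

/-- The rational-valued valuation of a valuation with cyclic values on the base. -/
theorem exists_qv {E Ω Γ : Type} [Field E] [Field Ω] [Algebra E Ω] [Algebra.IsAlgebraic E Ω]
    [LinearOrderedCommGroupWithZero Γ] (w : Valuation Ω Γ) (g : Γ) (hg1 : 1 < g)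
    (hk : ∀ c : E, c ≠ 0 → ∃ m : ℤ, w (algebraMap E Ω c) = g ^ m) :
    ∃ v : Ω → ℚ, IsQv E v ∧
      (∀ c : E, c ≠ 0 → ∀ m : ℤ, w (algebraMap E Ω c) = g ^ m →
        v (algebraMap E Ω c) = -(m : ℚ)) ∧
      ∀ x y, x ≠ 0 → y ≠ 0 → (w x ≤ w y ↔ v y ≤ v x) := by
  have hg0 : g ≠ 0 := (zero_lt_one.trans hg1).ne'
  obtain ⟨v, hv1, hv2⟩ := RvlA.exists_rat w g hg1 (RvlA.exists_pow (κ := E) w g hg1 hk)
  have hbase : ∀ c : E, c ≠ 0 → ∀ m : ℤ, w (algebraMap E Ω c) = g ^ m →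
      v (algebraMap E Ω c) = -(m : ℚ) := by
    intro c hc m hm
    have := hv1 (algebraMap E Ω c) (by rwa [Ne, map_eq_zero]) 1 m le_rfl (by rw [pow_one, hm])
    rw [this, Nat.cast_one, div_one]
  refine ⟨v, ⟨fun x y hx hy => ?_, fun x y hx hy hxy => ?_, fun e he => ?_⟩, hbase, hv2⟩
  · obtain ⟨m, hm, a, ha⟩ := RvlA.exists_pow (κ := E) w g hg1 hk x hx
    obtain ⟨n, hn, b, hb⟩ := RvlA.exists_pow (κ := E) w g hg1 hk y hy
    have hm' : (m : ℚ) ≠ 0 := by
      have : (0 : ℚ) < m := by exact_mod_cast hm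
      exact this.ne'
    have hn' : (n : ℚ) ≠ 0 := by
      have : (0 : ℚ) < n := by exact_mod_cast hn
      exact this.ne'
    rw [hv1 x hx m a hm ha, hv1 y hy n b hn hb,
      hv1 (x * y) (mul_ne_zero hx hy) (m * n) (a * n + b * m) (Nat.mul_pos hm hn) ?_]
    · push_cast
      field_simp
      ring
    · rw [map_mul, mul_pow, pow_mul, ha, mul_comm m n, pow_mul (w y), hb, ← zpow_natCast,
        ← zpow_natCast, ← zpow_mul, ← zpow_mul, ← zpow_add₀ hg0]
  · rcases le_max_iff.1 (w.map_add x y) with h | h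
    · exact (min_le_left _ _).trans ((hv2 _ _ hxy hx).1 h)
    · exact (min_le_right _ _).trans ((hv2 _ _ hxy hy).1 h)
  · obtain ⟨m, hm⟩ := hk e he
    refine ⟨-m, ?_⟩
    rw [hbase e he m hm]
    push_cast
    rfl

end QvA

/-- The value of `-y`. -/
theorem IsQv.map_neg {E : Type} [Field E] {Ω : Type} [Field Ω] [Algebra E Ω] {v : Ω → ℚ}
    (hv : IsQv E v) (y : Ω) (hy : y ≠ 0) : v (-y) = v y := by
  have h1 : v 1 = 0 := by
    have := hv.mul 1 1 one_ne_zero one_ne_zero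
    rw [mul_one] at this
    linarith
  have h2 : v (-1) = 0 := by
    have := hv.mul (-1) (-1) (neg_ne_zero.2 one_ne_zero) (neg_ne_zero.2 one_ne_zero)
    rw [neg_mul_neg, one_mul, h1] at this
    linarith
  have h3 := hv.mul (-1) y (neg_ne_zero.2 one_ne_zero) hy
  rw [neg_one_mul, h2, zero_add] at h3
  exact h3

theorem IsQv.add_eq {E : Type} [Field E] {Ω : Type} [Field Ω] [Algebra E Ω] {v : Ω → ℚ}
    (hv : IsQv E v) (x y : Ω) (hx : x ≠ 0) (hy : y ≠ 0) (h : v x < v y) :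
    x + y ≠ 0 ∧ v (x + y) = v x := by
  have h1 := hv.map_neg y hy
  have h0 : x + y ≠ 0 := by
    intro h0
    rw [add_eq_zero_iff_eq_neg.1 h0, h1] at h
    exact lt_irrefl _ h
  refine ⟨h0, le_antisymm ?_ ?_⟩
  · have h2 := hv.add (x + y) (-y) h0 (neg_ne_zero.2 hy) (by rwa [add_neg_cancel_right])
    rw [add_neg_cancel_right, h1] at h2
    rcases min_le_iff.1 h2 with h3 | h3
    · exact h3
    · exact absurd h3 (not_le.2 h)
  · have h2 := hv.add x y hx hy h0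
    rwa [min_eq_left h.le] at h2

theorem exists_isInf (k : Type) [Field k] :
    ∃ v : AlgebraicClosure (RatFunc k) → ℚ, IsInf k v := by
  obtain ⟨Γ, hΓ, w, hg, hw⟩ := LIM.Ex.Val.exists_infty k (AlgebraicClosure (RatFunc k))
  obtain ⟨v, hv1, hv2, -⟩ := QvA.exists_qv (E := RatFunc k) w _ hg fun c hc => ⟨_, hw c hc⟩
  exact ⟨v, hv1.mul, hv1.add, fun e he => hv2 e he _ (hw e he)⟩

theorem exists_fin (k : Type) [Field k] (p : k[X]) (hp : 0 < p.natDegree) :
    ∃ v : AlgebraicClosure (RatFunc k) → ℚ, IsQv (RatFunc k) v ∧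
      (∀ q : k[X], q ≠ 0 → 0 ≤ v (algebraMap (RatFunc k) _ (algebraMap k[X] (RatFunc k) q))) ∧
      0 < v (algebraMap (RatFunc k) _ (algebraMap k[X] (RatFunc k) p)) ∧
      v (algebraMap (RatFunc k) _ (algebraMap k[X] (RatFunc k) p)) ≤ p.natDegree := by
  classical
  set Ω := AlgebraicClosure (RatFunc k) with hΩ
  set φ : k[X] →+* Ω := (algebraMap (RatFunc k) Ω).comp (algebraMap k[X] (RatFunc k)) with hφ
  have hφa : ∀ q : k[X], algebraMap (RatFunc k) Ω (algebraMap k[X] (RatFunc k) q) = φ q :=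
    fun q => rfl
  have hinj : Function.Injective φ := by
    rw [hφ, RingHom.coe_comp]
    exact (algebraMap (RatFunc k) Ω).injective.comp (IsFractionRing.injective k[X] (RatFunc k))
  have hp0 : p ≠ 0 := by
    rintro rfl
    simp at hp
  have hpu : ¬ IsUnit p := fun h => by
    rw [Polynomial.natDegree_eq_zero_of_isUnit h] at hp
    exact lt_irrefl _ hp
  obtain ⟨π, hπ, hπp⟩ := WfDvdMonoid.exists_irreducible_factor hpu hp0
  have hI : Ideal.span {(⟨φ π, ⟨π, rfl⟩⟩ : φ.range)} ≠ ⊤ := by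
    intro h
    rw [Ideal.eq_top_iff_one, Ideal.mem_span_singleton'] at h
    obtain ⟨⟨c, q, hq⟩, h⟩ := h
    have h1 : c * φ π = 1 := congrArg Subtype.val h
    rw [← hq, ← map_mul, ← map_one φ] at h1
    exact hπ.not_isUnit (IsUnit.of_mul_eq_one_right _ (hinj h1))
  obtain ⟨V, hV1, hV2⟩ := Ideal.image_subset_nonunits_valuationSubring _ hI
  set w := V.valuation with hw
  have hle : ∀ q : k[X], w (φ q) ≤ 1 := fun q => (V.valuation_le_one_iff _).2 (hV1 ⟨q, rfl⟩)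
  have hlt : w (φ π) < 1 :=
    (ValuationSubring.mem_nonunits_iff V).1 (hV2 ⟨_, Ideal.subset_span rfl, rfl⟩)
  have hunit : ∀ q : k[X], ¬ π ∣ q → w (φ q) = 1 := by
    intro q hq
    refine le_antisymm (hle q) (not_lt.1 fun h => ?_)
    obtain ⟨a, b, hab⟩ := hπ.coprime_iff_not_dvd.2 hq
    have h1 : w (φ (a * π + b * q)) < 1 := by
      rw [map_add]
      refine lt_of_le_of_lt (w.map_add _ _) (max_lt ?_ ?_)
      · rw [map_mul, map_mul]
        exact lt_of_le_of_lt (mul_le_mul_left (hle a) _) (by rwa [one_mul])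
      · rw [map_mul, map_mul]
        exact lt_of_le_of_lt (mul_le_mul_left (hle b) _) (by rwa [one_mul])
    rw [hab, map_one, map_one] at h1
    exact lt_irrefl _ h1
  have hw0 : w (φ π) ≠ 0 := by
    rw [Valuation.ne_zero_iff, Ne, map_eq_zero_iff φ hinj]
    exact hπ.ne_zero
  set g := (w (φ π))⁻¹ with hg
  have hg1 : 1 < g := (one_lt_inv₀ (zero_lt_iff.2 hw0)).2 hlt
  have hg0 : g ≠ 0 := inv_ne_zero hw0
  have hpoly : ∀ q : k[X], q ≠ 0 → ∃ (m : ℕ) (q' : k[X]), ¬ π ∣ q' ∧ q = π ^ m * q' ∧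
      w (φ q) = g ^ (-(m : ℤ)) := by
    intro q hq
    obtain ⟨m, q', h1, h2⟩ := WfDvdMonoid.max_power_factor hq hπ
    refine ⟨m, q', h1, h2, ?_⟩
    rw [h2, map_mul, map_mul, map_pow, map_pow, hunit q' h1, mul_one, hg, inv_zpow', neg_neg,
      zpow_natCast]
  have hbase : ∀ e : RatFunc k, e ≠ 0 → ∃ m : ℤ, w (algebraMap (RatFunc k) Ω e) = g ^ m := by
    intro e he
    have h1 : algebraMap (RatFunc k) Ω e = φ e.num / φ e.denom := by
      rw [hφ, RingHom.comp_apply, RingHom.comp_apply, ← map_div₀, RatFunc.num_div_denom]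
    obtain ⟨m, _, _, _, hm⟩ := hpoly e.num (RatFunc.num_ne_zero he)
    obtain ⟨n, _, _, _, hn⟩ := hpoly e.denom (RatFunc.denom_ne_zero e)
    exact ⟨-(m : ℤ) - -(n : ℤ), by rw [h1, map_div₀, hm, hn, zpow_sub₀ hg0]⟩
  obtain ⟨v, hv1, hv2, -⟩ := QvA.exists_qv (E := RatFunc k) w g hg1 hbase
  have hval : ∀ q : k[X], q ≠ 0 → ∃ (m : ℕ) (q' : k[X]), ¬ π ∣ q' ∧ q = π ^ m * q' ∧
      v (φ q) = m := by
    intro q hq
    obtain ⟨m, q', h1, h2, h3⟩ := hpoly q hq
    refine ⟨m, q', h1, h2, ?_⟩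
    have h4 := hv2 (algebraMap k[X] (RatFunc k) q) (by
      rwa [Ne, map_eq_zero_iff _ (IsFractionRing.injective k[X] (RatFunc k))]) (-(m : ℤ)) h3
    rw [hφa] at h4
    rw [h4]
    push_cast
    ring
  refine ⟨v, hv1, fun q hq => ?_, ?_, ?_⟩
  · obtain ⟨m, _, _, _, hm⟩ := hval q hq
    rw [hφa, hm]
    exact Nat.cast_nonneg m
  · obtain ⟨m, q', h1, h2, hm⟩ := hval p hp0
    rw [hφa, hm]
    rcases Nat.eq_zero_or_pos m with h0 | h0
    · rw [h0, pow_zero, one_mul] at h2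
      exact absurd (h2 ▸ hπp) h1
    · exact_mod_cast h0
  · obtain ⟨m, q', h1, h2, hm⟩ := hval p hp0
    rw [hφa, hm]
    have h3 : m ≤ p.natDegree := by
      have h4 : (π ^ m * q').natDegree = m * π.natDegree + q'.natDegree := by
        rw [natDegree_mul (pow_ne_zero _ hπ.ne_zero) (fun h : q' = 0 => h1 (h.symm ▸ dvd_zero _)),
          natDegree_pow]
      rw [h2, h4]
      have h5 : 1 ≤ π.natDegree := hπ.natDegree_pos
      nlinarith
    exact_mod_cast h3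

end Pool.Agent.PNH
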