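import Mathlib

set_option autoImplicit false

/-!
# The denominator of the value at a ramified point of the family `shi`
-/

namespace Pool.Agent.PNH

theorem ari (N d l : ℕ) (hd : 2 ≤ d) (hl : 1 ≤ l) (hlN : l ≤ N) (β : ℚ)
    (hβ : (d : ℚ) ^ l * (d ^ N - 1) * β =
      (d ^ l - 1) + d * (d ^ N - 1) * ∑ i ∈ Finset.range (l - 1), (d : ℚ) ^ i) :
    d ^ N ≤ β.den := by
  set z : ℤ := β.num with hz
  set e : ℕ := β.den with he
  have he0 : (e : ℚ) ≠ 0 := by exact_mod_cast β.den_nz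
  have hβe : β * e = z := Rat.mul_den_eq_num β
  set s : ℤ := ∑ i ∈ Finset.range (l - 1), (d : ℤ) ^ i with hs
  -- the integral relation
  have h1 : (d : ℤ) ^ l * (d ^ N - 1) * z = e * ((d ^ l - 1) + d * (d ^ N - 1) * s) := by
    have h : ((d : ℚ) ^ l * (d ^ N - 1) * z : ℚ) = e * ((d ^ l - 1) + d * (d ^ N - 1) *
        ∑ i ∈ Finset.range (l - 1), (d : ℚ) ^ i) := by
      rw [← hβ, ← hβe]
      ring
    rw [hs]
    exact_mod_cast h
  have hd1 : (1 : ℤ) < d := by exact_mod_cast hd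
  have hlN' : (d : ℤ) ^ l ≤ d ^ N := pow_le_pow_right₀ hd1.le hlN
  have hdl : (1 : ℤ) < d ^ l := one_lt_pow₀ hd1 (by omega)
  -- `d ^ l` divides `e`
  have h2 : (d : ℤ) ^ l ∣ e := by
    have h3 : (d : ℤ) ^ l ∣ e * ((d ^ l - 1) + d * (d ^ N - 1) * s) := by
      rw [← h1, mul_assoc]
      exact dvd_mul_right _ _
    refine IsCoprime.dvd_of_dvd_mul_right ?_ h3
    refine IsCoprime.pow_left ?_
    obtain ⟨t, ht⟩ : ∃ t, (d : ℤ) ^ l = d * t := ⟨d ^ (l - 1), by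
      rw [← pow_succ', Nat.sub_add_cancel hl]⟩
    exact ⟨t + (d ^ N - 1) * s, -1, by rw [ht]; ring⟩
  -- `d ^ N - 1` divides `e (d ^ l - 1)`
  have h3 : (d : ℤ) ^ N - 1 ∣ e * (d ^ l - 1) := by
    have h4 : (e : ℤ) * (d ^ l - 1) = (d ^ N - 1) * (d ^ l * z - e * d * s) := by
      linear_combination -h1
    rw [h4]
    exact dvd_mul_right _ _
  have h4 : (d : ℤ) ^ l * (d ^ N - 1) ∣ e * (d ^ l - 1) := by
    refine IsCoprime.mul_dvd ?_ (h2.mul_right _) h3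
    refine IsCoprime.pow_left ?_
    obtain ⟨t, ht⟩ : ∃ t, (d : ℤ) ^ N = d * t := ⟨d ^ (N - 1), by
      rw [← pow_succ', Nat.sub_add_cancel (by omega)]⟩
    exact ⟨t, -1, by rw [ht]; ring⟩
  have he1 : (0 : ℤ) < e := by exact_mod_cast β.den_pos
  have h5 : (d : ℤ) ^ l * (d ^ N - 1) ≤ e * (d ^ l - 1) :=
    Int.le_of_dvd (mul_pos he1 (by linarith)) h4
  have h6 : (d : ℤ) ^ N * (d ^ l - 1) ≤ e * (d ^ l - 1) := by
    refine le_trans ?_ h5
    nlinarith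
  have h7 : (d : ℤ) ^ N ≤ e := le_of_mul_le_mul_right h6 (by linarith)
  exact_mod_cast h7

end Pool.Agent.PNH
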