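import Mathlib
import Pool.Agent.PNH.Defs
import Pool.Agent.PNH.Emb
import Pool.Agent.LIM.Defs
import Pool.Agent.FAM.KDefs

set_option autoImplicit false

/-!
# Dimension one in the language of polynomials in one variable
-/

namespace Pool.Agent.PNH

open NumberField Filter
open Pool.Agent.LIM (Null GF)
open Pool.Agent.FamK (ev)
open Pool.Agent.FAM (Cube)

/-- The polynomial `F_1(1, X)`. -/
noncomputable def num {A : Type} [CommRing A] (F : Tup 1 A) : Polynomial A :=
  MvPolynomial.eval₂ Polynomial.C ![1, Polynomial.X] (F 1)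

/-- The polynomial `F_0(1, X)`. -/
noncomputable def den {A : Type} [CommRing A] (F : Tup 1 A) : Polynomial A :=
  MvPolynomial.eval₂ Polynomial.C ![1, Polynomial.X] (F 0)

namespace Bri

/-- The polynomial `P(1, X)`. -/
noncomputable def deh {A : Type} [CommRing A] (P : MvPolynomial (Fin 2) A) : Polynomial A :=
  MvPolynomial.eval₂ Polynomial.C ![1, Polynomial.X] P

theorem deh_eq {A : Type} [CommRing A] (P : MvPolynomial (Fin 2) A) :
    deh P = ∑ m ∈ P.support, Polynomial.C (P.coeff m) * Polynomial.X ^ (m 1) := by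
  unfold deh
  rw [MvPolynomial.eval₂_eq']
  refine Finset.sum_congr rfl fun m _ => ?_
  rw [Fin.prod_univ_two]
  simp

theorem exp_sum {A : Type} [CommRing A] {d : ℕ} {P : MvPolynomial (Fin 2) A}
    (hP : P.IsHomogeneous d) {m : Fin 2 →₀ ℕ} (hm : m ∈ P.support) : m 0 + m 1 = d := by
  have h : m.degree = d := by
    by_contra h
    exact MvPolynomial.mem_support_iff.1 hm (hP.coeff_eq_zero h)
  rw [← h, Finsupp.degree_eq_sum, Fin.sum_univ_two]

theorem natDegree_deh {A : Type} [CommRing A] {d : ℕ} {P : MvPolynomial (Fin 2) A}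
    (hP : P.IsHomogeneous d) : (deh P).natDegree ≤ d := by
  rw [deh_eq]
  refine Polynomial.natDegree_sum_le_of_forall_le _ _ fun m hm => ?_
  refine (Polynomial.natDegree_C_mul_X_pow_le _ _).trans ?_
  have := exp_sum hP hm
  omega

theorem deh_map {A B : Type} [CommRing A] [CommRing B] (f : A →+* B)
    (P : MvPolynomial (Fin 2) A) : deh (MvPolynomial.map f P) = (deh P).map f := by
  unfold deh
  have h1 := MvPolynomial.hom_eval₂ P Polynomial.C (Polynomial.mapRingHom f)
    (![1, Polynomial.X] : Fin 2 → Polynomial A)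
  rw [Polynomial.coe_mapRingHom] at h1
  rw [h1, MvPolynomial.eval₂_map]
  congr 1
  · ext a
    simp
  · funext i
    fin_cases i <;> simp

theorem form_add {A : Type} [CommRing A] (d : ℕ) (f g : Polynomial A) (p : A × A) :
    RDF.form d (f + g) p = RDF.form d f p + RDF.form d g p := by
  unfold RDF.form
  rw [← Finset.sum_add_distrib]
  exact Finset.sum_congr rfl fun i _ => by rw [Polynomial.coeff_add]; ring

theorem form_sum {A ι : Type} [CommRing A] (d : ℕ) (s : Finset ι) (f : ι → Polynomial A)
    (p : A × A) : RDF.form d (∑ i ∈ s, f i) p = ∑ i ∈ s, RDF.form d (f i) p := by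
  classical
  induction s using Finset.induction_on with
  | empty =>
    simp [RDF.form]
  | insert i s hi ih => rw [Finset.sum_insert hi, Finset.sum_insert hi, form_add, ih]

theorem form_monomial {A : Type} [CommRing A] {d m : ℕ} (hm : m ≤ d) (c : A) (p : A × A) :
    RDF.form d (Polynomial.C c * Polynomial.X ^ m) p = c * p.1 ^ m * p.2 ^ (d - m) := by
  unfold RDF.form
  rw [Finset.sum_eq_single m]
  · simp
  · intro i _ hi
    rw [Polynomial.coeff_C_mul_X_pow, if_neg hi, zero_mul, zero_mul]
  · intro h
    exact absurd (Finset.mem_range.2 (Nat.lt_succ_of_le hm)) h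

theorem eval_deh {A : Type} [CommRing A] {d : ℕ} {P : MvPolynomial (Fin 2) A}
    (hP : P.IsHomogeneous d) (x : Fin 2 → A) :
    MvPolynomial.eval x P = RDF.form d (deh P) (x 1, x 0) := by
  rw [deh_eq, form_sum, MvPolynomial.eval_eq']
  refine Finset.sum_congr rfl fun m hm => ?_
  have h := exp_sum hP hm
  have h0 : d - m 1 = m 0 := by omega
  rw [form_monomial (by omega), Fin.prod_univ_two, h0]
  ring

end Bri

theorem natDegree_num {A : Type} [CommRing A] {d : ℕ} (F : Tup 1 A)
    (hF : ∀ i, (F i).IsHomogeneous d) : (num F).natDegree ≤ d ∧ (den F).natDegree ≤ d :=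
  ⟨Bri.natDegree_deh (hF 1), Bri.natDegree_deh (hF 0)⟩

theorem num_mp {A B : Type} [CommRing A] [CommRing B] (f : A →+* B) (F : Tup 1 A) :
    num (mp f F) = (num F).map f ∧ den (mp f F) = (den F).map f :=
  ⟨Bri.deh_map f (F 1), Bri.deh_map f (F 0)⟩

/-- The map of pairs is the homogeneous lift. -/
theorem app_swap {A : Type} [CommRing A] {d : ℕ} (F : Tup 1 A) (hF : ∀ i, (F i).IsHomogeneous d)
    (p : A × A) : app F ![p.2, p.1] =
      ![(RDF.lift d (num F) (den F) p).2, (RDF.lift d (num F) (den F) p).1] := by
  funext i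
  fin_cases i
  · exact Bri.eval_deh (hF 0) ![p.2, p.1]
  · exact Bri.eval_deh (hF 1) ![p.2, p.1]

namespace Bri

/-- The vector of a pair. -/
def vec {A : Type} (p : A × A) : Fin 2 → A := ![p.2, p.1]

theorem iter_swap {A : Type} [CommRing A] {d : ℕ} (F : Tup 1 A)
    (hF : ∀ i, (F i).IsHomogeneous d) (n : ℕ) (p : A × A) :
    (app F)^[n] (vec p) = vec ((RDF.lift d (num F) (den F))^[n] p) := by
  induction n with
  | zero => rfl
  | succ n ih =>
    rw [Function.iterate_succ_apply', Function.iterate_succ_apply', ih]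
    exact app_swap F hF _

theorem par_vec {A : Type} [CommRing A] (p q : A × A) :
    Par (N := 1) (vec p) (vec q) ↔ RDF.wedge p q = 0 := by
  unfold Par RDF.wedge vec
  constructor
  · intro h
    have h1 := h 0 1
    simp only [Matrix.cons_val_zero, Matrix.cons_val_one] at h1
    linear_combination -h1
  · intro h i j
    fin_cases i <;> fin_cases j
    · rfl
    · simp only [Fin.zero_eta, Fin.mk_one, Matrix.cons_val_zero, Matrix.cons_val_one]
      linear_combination -h
    · simp only [Fin.zero_eta, Fin.mk_one, Matrix.cons_val_zero, Matrix.cons_val_one]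
      linear_combination h
    · rfl

theorem nrm_vec {A : Type} [CommRing A] (p : A × A) :
    Nrm (N := 1) (vec p) ↔ (p.2 = 1 ∨ p = (1, 0)) := by
  unfold Nrm vec
  constructor
  · rintro ⟨i, hi, hj⟩
    fin_cases i
    · left
      simpa using hi
    · right
      have h0 := hj 0 (by decide)
      refine Prod.ext ?_ ?_
      · simpa using hi
      · simpa using h0
  · rintro (h | h)
    · exact ⟨0, by simpa using h, fun j hj => absurd hj (Fin.not_lt_zero j)⟩
    · subst h
      refine ⟨1, by simp, fun j hj => ?_⟩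
      have : j = 0 := by
        fin_cases j
        · rfl
        · exact absurd hj (lt_irrefl _)
      subst this
      simp

/-- The degree of an element of `k(θ)`. -/
theorem natDegree_le {k L : Type} [Field k] [Field L] [Algebra k L] [Algebra.IsAlgebraic k L]
    {y θ : L} (h : y ∈ IntermediateField.adjoin k {θ}) :
    (minpoly k y).natDegree ≤ (minpoly k θ).natDegree := by
  have h1 : IsIntegral k θ := (Algebra.IsAlgebraic.isAlgebraic θ).isIntegral
  have h2 : IsIntegral k y := (Algebra.IsAlgebraic.isAlgebraic y).isIntegral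
  have := IntermediateField.adjoin.finiteDimensional h1
  rw [← IntermediateField.adjoin.finrank h1, ← IntermediateField.adjoin.finrank h2]
  have h3 : IntermediateField.adjoin k {y} ≤ IntermediateField.adjoin k {θ} :=
    IntermediateField.adjoin_simple_le_iff.2 h
  exact LinearMap.finrank_le_finrank_of_injective (f := (IntermediateField.inclusion h3).toLinearMap)
    (IntermediateField.inclusion h3).injective

theorem degLe_vec {k L : Type} [Field k] [Field L] [Algebra k L] [Algebra.IsAlgebraic k L]
    (D : ℕ) (p : L × L) (hp : p.2 = 1 ∨ p = (1, 0)) :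
    DegLe (N := 1) k D (vec p) ↔ (minpoly k p.1).natDegree ≤ D := by
  constructor
  · rintro ⟨θ, hθ, h⟩
    exact (natDegree_le (h 1)).trans hθ
  · intro h
    refine ⟨p.1, h, fun i => ?_⟩
    fin_cases i
    · change p.2 ∈ _
      rcases hp with hp | hp
      · rw [hp]
        exact one_mem _
      · rw [hp]
        exact zero_mem _
    · exact IntermediateField.mem_adjoin_simple_self k p.1

end Bri

theorem pre_eq_image (k : Type) [Field k] (D : ℕ) {d : ℕ} (F : Tup 1 k)
    (hF : ∀ i, (F i).IsHomogeneous d) :
    Pre k D F = (fun p : AlgebraicClosure k × AlgebraicClosure k => ![p.2, p.1]) ''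
      LIM.Pts k D d (num F) (den F) := by
  have key : ∀ p : AlgebraicClosure k × AlgebraicClosure k,
      Bri.vec p ∈ Pre k D F ↔ p ∈ LIM.Pts k D d (num F) (den F) := by
    intro p
    have hF' : ∀ i, (mp (algebraMap k (AlgebraicClosure k)) F i).IsHomogeneous d :=
      hom_mp d _ F hF
    have hnum := num_mp (algebraMap k (AlgebraicClosure k)) F
    unfold Pre LIM.Pts
    rw [Set.mem_ofPred_eq, Set.mem_ofPred_eq, Bri.nrm_vec]
    refine and_congr_right fun hp => ?_
    rw [Bri.degLe_vec D p hp]
    refine and_congr_right fun _ => ?_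
    refine exists_congr fun a => exists_congr fun b => and_congr_right fun _ => ?_
    rw [Bri.iter_swap _ hF', Bri.iter_swap _ hF', Bri.par_vec, hnum.1, hnum.2]
  ext x
  constructor
  · intro hx
    refine ⟨(x 1, x 0), (key _).1 ?_, ?_⟩
    · have h : Bri.vec (x 1, x 0) = x := by
        funext i
        fin_cases i <;> rfl
      rw [h]
      exact hx
    · funext i
      fin_cases i <;> rfl
  · rintro ⟨p, hp, rfl⟩
    exact (key p).2 hp

end Pool.Agent.PNH
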