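import Mathlib
import Pool.Agent.PNH.ShDefs

set_option autoImplicit false

/-!
# The denominator of a value is at most the degree
-/

namespace Pool.Agent.PNH

open Polynomial

namespace RdgA

section gen

variable {k : Type} [Field k] {Ω : Type} [Field Ω] [Algebra (RatFunc k) Ω] {v : Ω → ℚ}

theorem v_one (hv : IsInf k v) : v 1 = 0 := by
  have h := hv.mul 1 1 one_ne_zero one_ne_zero
  rw [mul_one] at h
  linarith

theorem v_neg_one (hv : IsInf k v) : v (-1) = 0 := by
  have h := hv.mul (-1) (-1) (neg_ne_zero.2 one_ne_zero) (neg_ne_zero.2 one_ne_zero)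
  rw [neg_mul_neg, one_mul, v_one hv] at h
  linarith

theorem v_neg (hv : IsInf k v) {x : Ω} (hx : x ≠ 0) : v (-x) = v x := by
  have h := hv.mul (-1) x (neg_ne_zero.2 one_ne_zero) hx
  rw [v_neg_one hv, zero_add, neg_one_mul] at h
  exact h

theorem v_pow (hv : IsInf k v) {x : Ω} (hx : x ≠ 0) (n : ℕ) : v (x ^ n) = n * v x := by
  induction n with
  | zero => simp [v_one hv]
  | succ n ih =>
    rw [pow_succ, hv.mul _ _ (pow_ne_zero _ hx) hx, ih]
    push_cast
    ring

theorem add_lt (hv : IsInf k v) {x y : Ω} (hx : x ≠ 0) (hy : y ≠ 0) (h : v x < v y) :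
    x + y ≠ 0 ∧ v (x + y) = v x := by
  have h0 : x + y ≠ 0 := by
    intro h0
    have h1 : x = -y := eq_neg_of_add_eq_zero_left h0
    rw [h1, v_neg hv hy] at h
    exact lt_irrefl _ h
  refine ⟨h0, le_antisymm ?_ ?_⟩
  · have h1 := hv.add (x + y) (-y) h0 (neg_ne_zero.2 hy) (by rwa [add_neg_cancel_right])
    rw [add_neg_cancel_right, v_neg hv hy] at h1
    rcases min_le_iff.1 h1 with h2 | h2
    · exact h2
    · exact absurd h2 (not_le.2 h)
  · have h1 := hv.add x y hx hy h0
    rwa [min_eq_left h.le] at h1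

/-- A sum of nonzero elements with different values is not zero. -/
theorem sum_ne (hv : IsInf k v) {ι : Type} (s : Finset ι) (f : ι → Ω) (hs : s.Nonempty)
    (hf : ∀ i ∈ s, f i ≠ 0) (hi : ∀ i ∈ s, ∀ j ∈ s, v (f i) = v (f j) → i = j) :
    ∑ i ∈ s, f i ≠ 0 ∧ ∃ i ∈ s, v (∑ i ∈ s, f i) = v (f i) := by
  classical
  induction s using Finset.induction_on with
  | empty => exact absurd hs Finset.not_nonempty_empty
  | insert a s ha ih =>
    rcases s.eq_empty_or_nonempty with h0 | h0
    · subst h0
      refine ⟨?_, a, Finset.mem_insert_self _ _, ?_⟩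
      · simpa using hf a (Finset.mem_insert_self _ _)
      · simp
    · obtain ⟨h1, i, his, h2⟩ := ih h0 (fun i hi' => hf i (Finset.mem_insert_of_mem hi'))
        (fun i hi' j hj => hi i (Finset.mem_insert_of_mem hi') j (Finset.mem_insert_of_mem hj))
      have hfa := hf a (Finset.mem_insert_self _ _)
      have hne : v (f a) ≠ v (∑ i ∈ s, f i) := by
        intro h3
        rw [h2] at h3
        have h4 := hi a (Finset.mem_insert_self _ _) i (Finset.mem_insert_of_mem his) h3
        rw [h4] at ha
        exact ha his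
      rw [Finset.sum_insert ha]
      rcases lt_or_gt_of_ne hne with h3 | h3
      · obtain ⟨h4, h5⟩ := add_lt hv hfa h1 h3
        exact ⟨h4, a, Finset.mem_insert_self _ _, h5⟩
      · obtain ⟨h4, h5⟩ := add_lt hv h1 hfa h3
        rw [add_comm] at h4 h5
        exact ⟨h4, i, Finset.mem_insert_of_mem his, h5.trans h2⟩

end gen

end RdgA

open RdgA in
theorem IsInf.deg_le {k : Type} [Field k] {v : AlgebraicClosure (RatFunc k) → ℚ} (hv : IsInf k v)
    (y : AlgebraicClosure (RatFunc k)) (hy : y ≠ 0) :
    (v y).den ≤ (minpoly (RatFunc k) y).natDegree := by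
  by_contra hlt
  push Not at hlt
  obtain ⟨p, hp⟩ : ∃ p, p = minpoly (RatFunc k) y := ⟨_, rfl⟩
  rw [← hp] at hlt
  have hyi : IsIntegral (RatFunc k) y := (Algebra.IsAlgebraic.isAlgebraic y).isIntegral
  have hp0 : p ≠ 0 := hp ▸ minpoly.ne_zero hyi
  have hval : ∀ i ∈ p.support, v (algebraMap (RatFunc k) (AlgebraicClosure (RatFunc k)) (p.coeff i) *
      y ^ i) = -((p.coeff i).intDegree : ℚ) + i * v y := by
    intro i hi
    rw [hv.mul _ _ ((_root_.map_ne_zero _).2 (mem_support_iff.1 hi)) (pow_ne_zero _ hy),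
      hv.base _ (mem_support_iff.1 hi), v_pow hv hy]
  have hne := (sum_ne hv p.support (fun i => algebraMap (RatFunc k)
    (AlgebraicClosure (RatFunc k)) (p.coeff i) * y ^ i) (nonempty_support_iff.2 hp0)
    (fun i hi => mul_ne_zero ((_root_.map_ne_zero _).2 (mem_support_iff.1 hi)) (pow_ne_zero _ hy)) ?_).1
  · refine hne ?_
    have h3 := minpoly.aeval (RatFunc k) y
    rw [← hp, aeval_eq_sum_range, ← Finset.sum_subset (s₁ := p.support)] at h3
    · rw [← h3]
      exact Finset.sum_congr rfl fun i _ => (Algebra.smul_def _ _).symm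
    · intro i hi
      rw [Finset.mem_range]
      exact Nat.lt_succ_of_le (le_natDegree_of_mem_supp i hi)
    · intro i _ hi
      rw [notMem_support_iff.1 hi, zero_smul]
  · intro i hi j hj hij
    have hij := (hval i hi).symm.trans (hij.trans (hval j hj))
    have hi' : i < (v y).den := (le_natDegree_of_mem_supp i hi).trans_lt hlt
    have hj' : j < (v y).den := (le_natDegree_of_mem_supp j hj).trans_lt hlt
    -- `(i - j) v(y)` is an integer
    have h1 : (((i : ℤ) - j : ℤ) : ℚ) * v y =
        (((p.coeff i).intDegree - (p.coeff j).intDegree : ℤ) : ℚ) := by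
      push_cast
      linarith
    have hdn : (v y) * (v y).den = (v y).num := Rat.mul_den_eq_num (v y)
    have h2 : ((i : ℤ) - j) * (v y).num =
        ((p.coeff i).intDegree - (p.coeff j).intDegree) * (v y).den := by
      have h3 : ((((i : ℤ) - j) * (v y).num : ℤ) : ℚ) =
          ((((p.coeff i).intDegree - (p.coeff j).intDegree) * (v y).den : ℤ) : ℚ) := by
        rw [Int.cast_mul, Int.cast_mul, ← h1, ← hdn]
        push_cast
        ring
      exact_mod_cast h3
    have h3 : ((v y).den : ℤ) ∣ ((i : ℤ) - j) := by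
      have h4 : ((v y).den : ℤ) ∣ ((i : ℤ) - j) * (v y).num := by
        rw [h2]
        exact Dvd.intro_left _ rfl
      have h5 : IsCoprime ((v y).den : ℤ) (v y).num := by
        rw [Int.isCoprime_iff_gcd_eq_one, Int.gcd_comm]
        have := (v y).reduced
        rw [Nat.Coprime] at this
        simpa [Int.gcd] using this
      exact h5.dvd_of_dvd_mul_right h4
    have h4 : ((i : ℤ) - j) = 0 := by
      refine Int.eq_zero_of_abs_lt_dvd h3 ?_
      rw [abs_lt]
      constructor <;> omega
    omega

end Pool.Agent.PNH
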