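import Mathlib
import Pool.Agent.PNH.ShDefs
import Pool.Agent.PNH.Bri
import Pool.Agent.PNH.Trp
import Pool.Agent.PNH.Ari
import Pool.Agent.PNH.Rdg
import Pool.Agent.PNH.Rvl

set_option autoImplicit false

/-!
# The periodic points of `shi` at the infinite place
-/

namespace Pool.Agent.PNH

namespace ShV

section val

variable {k : Type} [Field k] {Ω : Type} [Field Ω] [Algebra (RatFunc k) Ω] {v : Ω → ℚ}

theorem v_one (hv : IsInf k v) : v 1 = 0 := by
  have h := hv.mul 1 1 one_ne_zero one_ne_zero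
  rw [mul_one] at h
  linarith

theorem v_pow (hv : IsInf k v) {x : Ω} (hx : x ≠ 0) (m : ℕ) : v (x ^ m) = m * v x := by
  induction m with
  | zero => rw [pow_zero, v_one hv, Nat.cast_zero, zero_mul]
  | succ m ih =>
    rw [pow_succ, hv.mul _ _ (pow_ne_zero _ hx) hx, ih, Nat.cast_succ]
    ring

theorem v_neg (hv : IsInf k v) {x : Ω} (hx : x ≠ 0) : v (-x) = v x := by
  have h1 : v ((-1 : Ω) * (-1)) = v (-1 : Ω) + v (-1 : Ω) :=
    hv.mul _ _ (neg_ne_zero.2 one_ne_zero) (neg_ne_zero.2 one_ne_zero)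
  rw [neg_mul_neg, mul_one, v_one hv] at h1
  have h2 := hv.mul (-1) x (neg_ne_zero.2 one_ne_zero) hx
  rw [neg_one_mul] at h2
  rw [h2]
  linarith

theorem v_div (hv : IsInf k v) {x y : Ω} (hx : x ≠ 0) (hy : y ≠ 0) : v (x / y) = v x - v y := by
  have h := hv.mul (x / y) y (div_ne_zero hx hy) hy
  rw [div_mul_cancel₀ _ hy] at h
  linarith

theorem v_c (hv : IsInf k v) : v (algebraMap (RatFunc k) Ω RatFunc.X) = -1 := by
  rw [hv.base _ RatFunc.X_ne_zero, RatFunc.intDegree_X]
  norm_num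

end val

section orbit

variable {k : Type} [Field k] {N d : ℕ}

/-- The parameter `c`. -/
noncomputable abbrev cc (k : Type) [Field k] : AlgebraicClosure (RatFunc k) :=
  algebraMap (RatFunc k) (AlgebraicClosure (RatFunc k)) RatFunc.X

theorem cc_ne : cc k ≠ 0 := by
  unfold cc
  rw [map_ne_zero_iff _ (algebraMap (RatFunc k) (AlgebraicClosure (RatFunc k))).injective]
  exact RatFunc.X_ne_zero

theorem app_zero (y : Fin (N + 1) → AlgebraicClosure (RatFunc k)) :
    app (Sh k N d) y 0 = cc k * y 0 ^ d + y (Fin.last N) ^ d := by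
  unfold app Sh mp shi
  simp

theorem app_succ (y : Fin (N + 1) → AlgebraicClosure (RatFunc k)) (t : ℕ) (ht : t + 1 < N + 1) :
    app (Sh k N d) y ⟨t + 1, ht⟩ = y ⟨t, by omega⟩ ^ d := by
  have h0 : (⟨t + 1, ht⟩ : Fin (N + 1)) ≠ 0 := by
    intro h
    have := congrArg Fin.val h
    simp at this
  have h1 : (⟨t + 1, ht⟩ : Fin (N + 1)) - 1 = ⟨t, by omega⟩ := by
    rw [sub_eq_iff_eq_add]
    refine Fin.ext ?_
    have h2 : (⟨t, by omega⟩ : Fin (N + 1)) < Fin.last N := by
      rw [Fin.lt_def]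
      simp only [Fin.val_last]
      omega
    rw [Fin.val_add_one_of_lt h2]
  unfold app Sh mp shi
  rw [if_neg h0, h1]
  simp

/-- The first coordinates of the orbit. -/
noncomputable def XX (N d : ℕ) (x : Fin (N + 1) → AlgebraicClosure (RatFunc k)) (j : ℕ) :
    AlgebraicClosure (RatFunc k) :=
  (app (Sh k N d))^[j] x 0

theorem coord (x : Fin (N + 1) → AlgebraicClosure (RatFunc k)) (t : ℕ) (ht : t < N + 1) (m : ℕ) :
    (app (Sh k N d))^[m + t] x ⟨t, ht⟩ = XX N d x m ^ d ^ t := by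
  induction t with
  | zero =>
    rw [pow_zero, pow_one]
    rfl
  | succ t ih =>
    rw [← add_assoc, Function.iterate_succ_apply', app_succ, ih (by omega), ← pow_mul, pow_succ]

theorem rec (x : Fin (N + 1) → AlgebraicClosure (RatFunc k)) (m : ℕ) :
    XX N d x (m + N + 1) = cc k * XX N d x (m + N) ^ d + XX N d x m ^ d ^ (N + 1) := by
  have h := coord (d := d) x N (Nat.lt_succ_self N) m
  unfold XX at h ⊢
  rw [Function.iterate_succ_apply', app_zero]
  have h1 : (Fin.last N) = ⟨N, Nat.lt_succ_self N⟩ := rfl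
  rw [h1, h, ← pow_mul, pow_succ]

theorem XX_period {x : Fin (N + 1) → AlgebraicClosure (RatFunc k)} {n : ℕ}
    {μ : AlgebraicClosure (RatFunc k)} (h : (app (Sh k N d))^[n] x = μ • x)
    (hom : ∀ i, (Sh k N d i).IsHomogeneous d) (j : ℕ) :
    XX N d x (j + n) = μ ^ d ^ j * XX N d x j := by
  unfold XX
  rw [Function.iterate_add_apply, h, iter_smul d _ hom]
  rfl

theorem hom_sh : ∀ i, (Sh k N d i).IsHomogeneous d := by
  refine hom_mp d _ _ fun i => ?_
  unfold shi
  split_ifs
  · refine MvPolynomial.IsHomogeneous.add ?_ ?_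
    · have h := (MvPolynomial.isHomogeneous_C (Fin (N + 1)) (RatFunc.X : RatFunc k)).mul
        (MvPolynomial.isHomogeneous_X_pow (R := RatFunc k) (0 : Fin (N + 1)) d)
      rwa [zero_add] at h
    · exact MvPolynomial.isHomogeneous_X_pow _ d
  · exact MvPolynomial.isHomogeneous_X_pow _ d

theorem iter_mul {x : Fin (N + 1) → AlgebraicClosure (RatFunc k)} {n : ℕ}
    {μ : AlgebraicClosure (RatFunc k)} (hμ : μ ≠ 0) (h : (app (Sh k N d))^[n] x = μ • x) (m : ℕ) :
    ∃ ν : AlgebraicClosure (RatFunc k), ν ≠ 0 ∧ (app (Sh k N d))^[n * m] x = ν • x := by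
  induction m with
  | zero => exact ⟨1, one_ne_zero, by rw [Nat.mul_zero, one_smul]; rfl⟩
  | succ m ih =>
    obtain ⟨ν, hν, e⟩ := ih
    refine ⟨ν ^ d ^ n * μ, mul_ne_zero (pow_ne_zero _ hν) hμ, ?_⟩
    rw [Nat.mul_succ, Nat.add_comm (n * m) n, Function.iterate_add_apply, e, iter_smul d _ hom_sh, h,
      smul_smul]

end orbit

section main

variable {k : Type} [Field k] {N d : ℕ}

/-- The normalised value of the `j`-th term. -/
noncomputable def aa (N d n : ℕ) (v : AlgebraicClosure (RatFunc k) → ℚ)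
    (x : Fin (N + 1) → AlgebraicClosure (RatFunc k)) (μ : AlgebraicClosure (RatFunc k)) (j : ℕ) : ℚ :=
  v (XX N d x j) - d ^ j * v μ / (d ^ n - 1)

/-- The critical value. -/
noncomputable def cs (N d : ℕ) : ℚ := -1 / (d * (d ^ N - 1))

theorem pow_sub_pos {d N : ℕ} (hd : 2 ≤ d) (hN : 1 ≤ N) : (0 : ℚ) < d ^ N - 1 := by
  have h : (1 : ℚ) < (d : ℚ) ^ N := one_lt_pow₀ (by exact_mod_cast hd) (by omega)
  linarith

theorem aa_period (hd : 2 ≤ d) {v : AlgebraicClosure (RatFunc k) → ℚ} (hv : IsInf k v)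
    {x : Fin (N + 1) → AlgebraicClosure (RatFunc k)} {n : ℕ} (hn : 1 ≤ n)
    {μ : AlgebraicClosure (RatFunc k)} (hμ : μ ≠ 0) (h : (app (Sh k N d))^[n] x = μ • x) (j : ℕ)
    (hj : XX N d x j ≠ 0) : aa N d n v x μ (j + n) = aa N d n v x μ j := by
  unfold aa
  rw [XX_period h hom_sh, hv.mul _ _ (pow_ne_zero _ hμ) hj, v_pow hv hμ]
  have h1 := pow_sub_pos hd hn
  push_cast
  field_simp
  ring

theorem aa_step_two (hd : 2 ≤ d) {v : AlgebraicClosure (RatFunc k) → ℚ} (hv : IsInf k v)
    {x : Fin (N + 1) → AlgebraicClosure (RatFunc k)} {n : ℕ} (hn : 1 ≤ n)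
    {μ : AlgebraicClosure (RatFunc k)} (j : ℕ) (hj : XX N d x (j + N) ≠ 0) :
    v (cc k * XX N d x (j + N) ^ d) - d ^ (j + N + 1) * v μ / (d ^ n - 1) =
      d * aa N d n v x μ (j + N) - 1 := by
  unfold aa
  rw [hv.mul _ _ cc_ne (pow_ne_zero _ hj), v_pow hv hj, v_c hv]
  have h1 := pow_sub_pos hd hn
  field_simp
  ring

theorem aa_step_one (hd : 2 ≤ d) {v : AlgebraicClosure (RatFunc k) → ℚ} (hv : IsInf k v)
    {x : Fin (N + 1) → AlgebraicClosure (RatFunc k)} {n : ℕ} (hn : 1 ≤ n)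
    {μ : AlgebraicClosure (RatFunc k)} (j : ℕ) (hj : XX N d x j ≠ 0) :
    v (XX N d x j ^ d ^ (N + 1)) - d ^ (j + N + 1) * v μ / (d ^ n - 1) =
      d ^ (N + 1) * aa N d n v x μ j := by
  unfold aa
  rw [v_pow hv hj]
  have h1 := pow_sub_pos hd hn
  push_cast
  field_simp
  ring

end main

end ShV

theorem shi_val {k : Type} [Field k] (N d D : ℕ) (hN : 1 ≤ N) (hd : 2 ≤ d) (hD : D < d ^ N)
    (v : AlgebraicClosure (RatFunc k) → ℚ) (hv : IsInf k v)
    (x : Fin (N + 1) → AlgebraicClosure (RatFunc k)) (hx : x ≠ 0) (hxD : DegLe (RatFunc k) D x)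
    (n : ℕ) (hn : 1 ≤ n) (μ : AlgebraicClosure (RatFunc k)) (hμ : μ ≠ 0)
    (h : (app (Sh k N d))^[n] x = μ • x) :
    x 0 ≠ 0 ∧ 0 < ((d : ℚ) ^ n - 1) * v (x 0) - v μ := by
  classical
  have hdN := ShV.pow_sub_pos hd hN
  have hdn := ShV.pow_sub_pos hd hn
  have hd1 : (1 : ℚ) < d := by exact_mod_cast hd
  set X := ShV.XX N d x with hX
  set a := ShV.aa N d n v x μ with ha
  set c₀ := ShV.cs N d with hc₀
  have hcs : c₀ * (d * ((d : ℚ) ^ N - 1)) = -1 := by
    rw [hc₀]
    unfold ShV.cs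
    field_simp
  set δ : ℚ := 1 - (d - 1) * c₀ with hδdef
  have hcneg : c₀ < 0 := by
    by_contra h0
    have : 0 ≤ c₀ * (d * ((d : ℚ) ^ N - 1)) := mul_nonneg (not_lt.1 h0) (by positivity)
    rw [hcs] at this
    norm_num at this
  have hδ1 : 1 < δ := by
    rw [hδdef]
    nlinarith
  have hδ2 : (d : ℚ) ^ (N + 1) * c₀ = d * c₀ - 1 := by
    have : (d : ℚ) ^ (N + 1) * c₀ = c₀ * (d * ((d : ℚ) ^ N - 1)) + d * c₀ := by ring
    rw [this, hcs]
    ring
  set DD : ℕ → ℚ := fun j => if X j = 0 then 0 else a j - c₀ with hDD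
  have hX0 : ∀ j, X (j + n) = 0 ↔ X j = 0 := by
    intro j
    rw [hX, ShV.XX_period h ShV.hom_sh]
    rw [mul_eq_zero, or_iff_right (pow_ne_zero _ hμ)]
  have hDDper : Function.Periodic DD n := by
    intro j
    change (if X (j + n) = 0 then (0 : ℚ) else a (j + n) - c₀) = if X j = 0 then 0 else a j - c₀
    by_cases hj : X j = 0
    · rw [if_pos ((hX0 j).2 hj), if_pos hj]
    · rw [if_neg fun e => hj ((hX0 j).1 e), if_neg hj, ha, ShV.aa_period hd hv hn hμ h j hj]
  set T : ℚ := δ + 1 + ∑ j ∈ Finset.range n, |DD j| with hT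
  have hsum : 0 ≤ ∑ j ∈ Finset.range n, |DD j| := Finset.sum_nonneg fun j _ => abs_nonneg _
  have hδT : δ < T := by
    rw [hT]
    linarith
  have hDDT : ∀ j, DD j < T := by
    intro j
    rw [← hDDper.map_mod_nat j]
    have h1 : |DD (j % n)| ≤ ∑ j ∈ Finset.range n, |DD j| :=
      Finset.single_le_sum (f := fun j => |DD j|) (fun i _ => abs_nonneg (DD i))
        (Finset.mem_range.2 (Nat.mod_lt _ hn))
    have h2 := le_abs_self (DD (j % n))
    rw [hT]
    linarith
  set E : ℕ → ℚ := fun j => if X j = 0 then T else a j - c₀ with hE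
  have hE0 : ∀ j, X j = 0 → E j = T := fun j hj => if_pos hj
  have hE1 : ∀ j, X j ≠ 0 → E j = a j - c₀ := fun j hj => if_neg hj
  have hET : ∀ j, X j ≠ 0 → E j < T := by
    intro j hj
    have := hDDT j
    rw [hDD] at this
    simp only [if_neg hj] at this
    rw [hE1 j hj]
    exact this
  have hrec := fun j => ShV.rec (d := d) x j
  rw [← hX] at hrec
  -- the three cases of the recursion
  have r1 : ∀ j, X (j + N) ≠ 0 → X j = 0 → X (j + N + 1) ≠ 0 ∧
      E (j + N + 1) = d * E (j + N) - δ := by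
    intro j hj hj0
    have e1 : X (j + N + 1) = ShV.cc k * X (j + N) ^ d := by
      rw [hrec, hj0, zero_pow (pow_ne_zero _ (by omega)), add_zero]
    have e2 : X (j + N + 1) ≠ 0 := by
      rw [e1]
      exact mul_ne_zero ShV.cc_ne (pow_ne_zero _ hj)
    refine ⟨e2, ?_⟩
    have e3 := ShV.aa_step_two (μ := μ) hd hv hn j hj
    rw [← hX, ← e1, ← ha] at e3
    rw [hE1 _ e2, hE1 _ hj]
    have e4 : a (j + N + 1) = d * a (j + N) - 1 := e3
    rw [e4, hδdef]
    ring
  have r2 : ∀ j, X (j + N) = 0 → X j ≠ 0 → X (j + N + 1) ≠ 0 ∧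
      E (j + N + 1) = d * (d ^ N * E j) - δ := by
    intro j hj0 hj
    have e1 : X (j + N + 1) = X j ^ d ^ (N + 1) := by
      rw [hrec, hj0, zero_pow (by omega), mul_zero, zero_add]
    have e2 : X (j + N + 1) ≠ 0 := by
      rw [e1]
      exact pow_ne_zero _ hj
    refine ⟨e2, ?_⟩
    have e3 := ShV.aa_step_one (μ := μ) (N := N) hd hv hn j hj
    rw [← hX, ← e1, ← ha] at e3
    rw [hE1 _ e2, hE1 _ hj]
    have e4 : a (j + N + 1) = d ^ (N + 1) * a j := e3
    rw [e4, hδdef]
    linear_combination hδ2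
  have r3 : ∀ j, X (j + N) = 0 → X j = 0 → X (j + N + 1) = 0 := by
    intro j hj hj0
    rw [hrec, hj, hj0, zero_pow (by omega), zero_pow (pow_ne_zero _ (by omega)), mul_zero,
      zero_add]
  have r4 : ∀ j, X (j + N) ≠ 0 → X j ≠ 0 →
      (X (j + N + 1) = 0 → E (j + N) = d ^ N * E j) ∧
      (X (j + N + 1) ≠ 0 → d * min (E (j + N)) (d ^ N * E j) - δ ≤ E (j + N + 1) ∧
        (E (j + N) ≠ d ^ N * E j → E (j + N + 1) = d * min (E (j + N)) (d ^ N * E j) - δ)) ∧
      (E (j + N) ≠ d ^ N * E j → X (j + N + 1) ≠ 0) := by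
    intro j hj hj0
    set A := ShV.cc k * X (j + N) ^ d with hA
    set B := X j ^ d ^ (N + 1) with hB
    have hA0 : A ≠ 0 := mul_ne_zero ShV.cc_ne (pow_ne_zero _ hj)
    have hB0 : B ≠ 0 := pow_ne_zero _ hj0
    have e1 : X (j + N + 1) = A + B := hrec j
    set w : ℚ := d ^ (j + N + 1) * v μ / (d ^ n - 1) with hw
    have eA : v A - w - c₀ = d * E (j + N) - δ := by
      have := ShV.aa_step_two (μ := μ) hd hv hn j hj
      rw [← hX, ← hA, ← ha] at this
      rw [hE1 _ hj, hw, this, hδdef]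
      ring
    have eB : v B - w - c₀ = d * (d ^ N * E j) - δ := by
      have := ShV.aa_step_one (μ := μ) (N := N) hd hv hn j hj0
      rw [← hX, ← hB, ← ha] at this
      rw [hE1 _ hj0, hw, this, hδdef]
      linear_combination hδ2
    have eX : X (j + N + 1) ≠ 0 → E (j + N + 1) = v (A + B) - w - c₀ := by
      intro h0
      rw [hE1 _ h0, ← e1]
      rfl
    have hne : E (j + N) ≠ d ^ N * E j → A + B ≠ 0 ∧
        v (A + B) - w - c₀ = d * min (E (j + N)) (d ^ N * E j) - δ := by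
      intro h0
      rcases lt_or_gt_of_ne h0 with h1 | h1
      · have h2 : v A < v B := by nlinarith
        have h3 := hv.add_eq A B hA0 hB0 h2
        refine ⟨h3.1, ?_⟩
        rw [h3.2, min_eq_left h1.le, eA]
      · have h2 : v B < v A := by nlinarith
        have h3 := hv.add_eq B A hB0 hA0 h2
        rw [add_comm B A] at h3
        refine ⟨h3.1, ?_⟩
        rw [h3.2, min_eq_right h1.le, eB]
    refine ⟨?_, ?_, ?_⟩
    · intro h0
      by_contra h1
      exact (hne h1).1 (e1 ▸ h0)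
    · intro h0
      rw [eX h0]
      refine ⟨?_, fun h1 => (hne h1).2⟩
      have h1 := hv.add A B hA0 hB0 (e1 ▸ h0)
      rcases le_total (v A) (v B) with h2 | h2
      · rw [min_eq_left h2] at h1
        have h3 : d * min (E (j + N)) (d ^ N * E j) ≤ d * E (j + N) :=
          mul_le_mul_of_nonneg_left (min_le_left _ _) (by linarith)
        linarith
      · rw [min_eq_right h2] at h1
        have h3 : d * min (E (j + N)) (d ^ N * E j) ≤ d * (d ^ N * E j) :=
          mul_le_mul_of_nonneg_left (min_le_right _ _) (by linarith)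
        linarith
    · intro h1
      rw [e1]
      exact (hne h1).1
  have hT0 : 0 < T := by linarith
  have hdN1 : (1 : ℚ) ≤ d ^ N := by linarith
  have hTd : T ≤ d ^ N * T := by nlinarith
  have hd2 : (2 : ℚ) ≤ d := by exact_mod_cast hd
  have hT2 : 2 * T ≤ d * T := mul_le_mul_of_nonneg_right hd2 hT0.le
  have hEle : ∀ j, E j ≤ T := by
    intro j
    by_cases hj : X j = 0
    · exact (hE0 j hj).le
    · exact (hET j hj).le
  have hEper : ∀ j, E (j + n) = E j := by
    intro j
    by_cases hj : X j = 0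
    · rw [hE0 _ ((hX0 j).2 hj), hE0 _ hj]
    · rw [hE1 _ fun e => hj ((hX0 j).1 e), hE1 _ hj, ha, ShV.aa_period hd hv hn hμ h j hj]
  have t1 : ∀ j, min (d * min (E (j + N)) (d ^ N * E j) - δ) T ≤ E (j + N + 1) := by
    intro j
    by_cases h0 : X (j + N + 1) = 0
    · rw [hE0 _ h0]
      exact min_le_right _ _
    refine (min_le_left _ _).trans ?_
    by_cases h1 : X (j + N) = 0
    · by_cases h2 : X j = 0
      · exact absurd (r3 j h1 h2) h0
      · rw [(r2 j h1 h2).2]
        have h3 : d * min (E (j + N)) (d ^ N * E j) ≤ d * (d ^ N * E j) :=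
          mul_le_mul_of_nonneg_left (min_le_right _ _) (by linarith)
        linarith
    · by_cases h2 : X j = 0
      · rw [(r1 j h1 h2).2]
        have h3 : d * min (E (j + N)) (d ^ N * E j) ≤ d * E (j + N) :=
          mul_le_mul_of_nonneg_left (min_le_left _ _) (by linarith)
        linarith
      · exact ((r4 j h1 h2).2.1 h0).1
  have t2 : ∀ j, E (j + N) ≠ d ^ N * E j →
      E (j + N + 1) = min (d * min (E (j + N)) (d ^ N * E j) - δ) T := by
    intro j hne
    by_cases h1 : X (j + N) = 0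
    · by_cases h2 : X j = 0
      · rw [hE0 _ (r3 j h1 h2), hE0 _ h1, hE0 _ h2, min_eq_left hTd, min_eq_right]
        linarith
      · have h3 := r2 j h1 h2
        have h4 := hET _ h3.1
        rw [h3.2] at h4
        rw [h3.2, hE0 _ h1]
        have h5 : d ^ N * E j ≤ T := by
          by_contra h6
          have h7 := not_le.1 h6
          nlinarith
        rw [min_eq_right h5, min_eq_left h4.le]
    · by_cases h2 : X j = 0
      · have h3 := r1 j h1 h2
        have h4 := hET _ h3.1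
        rw [h3.2] at h4
        rw [h3.2, hE0 _ h2, min_eq_left ((hEle _).trans hTd), min_eq_left h4.le]
      · have h3 := (r4 j h1 h2).2.2 hne
        have h4 := ((r4 j h1 h2).2.1 h3).2 hne
        have h5 := hET _ h3
        rw [h4] at h5
        rw [h4, min_eq_left h5.le]
  rcases trop N d n hN hd hn δ T (by linarith) hδT E hEper hEle t1 t2 with hA | hB | hC
  · -- the good case
    have h0 := hA 0
    have h1 : X 0 ≠ 0 := by
      intro h1
      rw [hE0 _ h1] at h0
      nlinarith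
    refine ⟨h1, ?_⟩
    rw [hE1 _ h1] at h0
    have h2 : a 0 = v (x 0) - v μ / (d ^ n - 1) := by
      rw [ha]
      unfold ShV.aa
      rw [pow_zero, one_mul]
      rfl
    have h3 : ((d : ℚ) - 1) * a 0 = 1 := by
      rw [hδdef] at h0
      linear_combination h0
    have h4 : 0 < a 0 := by
      by_contra h5
      nlinarith
    rw [h2] at h4
    have h5 := mul_pos hdn h4
    have h6 : ((d : ℚ) ^ n - 1) * (v (x 0) - v μ / (d ^ n - 1)) =
        (d ^ n - 1) * v (x 0) - v μ := by
      field_simp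
    rwa [h6] at h5
  · -- all terms are zero
    exfalso
    have h0 : ∀ j, X j = 0 := by
      intro j
      by_contra h1
      exact (hET j h1).ne (hB j)
    obtain ⟨ν, hν, e⟩ := ShV.iter_mul hμ h N
    have h1 : ∀ i : Fin (N + 1), (app (Sh k N d))^[n * N] x i = 0 := by
      intro i
      have h2 : n * N = (n * N - i) + i := by
        have h3 : (i : ℕ) ≤ N := Nat.lt_succ_iff.1 i.2
        have h4 : N ≤ n * N := Nat.le_mul_of_pos_left N hn
        omega
      rw [h2]
      have h3 := ShV.coord (d := d) x i i.2 (n * N - i)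
      rw [← hX, h0, zero_pow (pow_ne_zero _ (by omega))] at h3
      exact h3
    refine hx (funext fun i => ?_)
    have h2 := h1 i
    rw [e, Pi.smul_apply, smul_eq_mul] at h2
    exact (mul_eq_zero.1 h2).resolve_left hν
  · -- the bad case: a large denominator
    exfalso
    obtain ⟨j, l, hl1, hlN, hj, hj1⟩ := hC
    have hXj : X j ≠ 0 := by
      intro h1
      rw [hE0 _ h1] at hj
      exact hT0.ne' hj
    have hdl : (0 : ℚ) < d ^ (l - 1) := by positivity
    have hXj1 : X (j + 1) ≠ 0 := by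
      intro h1
      rw [hE0 _ h1] at hj1
      have h2 : ((d : ℚ) ^ (l - 1) - 1) * δ < d ^ (l - 1) * T := by nlinarith
      have h3 : (d : ℚ) ^ (l - 1) * T ≤ ((d : ℚ) - 1) * d ^ (l - 1) * T := by
        have h4 : (1 : ℚ) ≤ (d : ℚ) - 1 := by
          have : (2 : ℚ) ≤ d := by exact_mod_cast hd
          linarith
        have h5 : 0 < (d : ℚ) ^ (l - 1) * T := mul_pos hdl hT0
        nlinarith
      linarith
    set y := X (j + 1) / X j ^ d with hy
    have hy0 : y ≠ 0 := div_ne_zero hXj1 (pow_ne_zero _ hXj)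
    have hvy : v y = E (j + 1) - (d - 1) * c₀ := by
      have h1 : a j = c₀ := by
        rw [hE1 _ hXj] at hj
        linarith
      have h2 : v (X (j + 1)) = a (j + 1) + d ^ (j + 1) * v μ / (d ^ n - 1) := by
        rw [ha]
        unfold ShV.aa
        ring
      have h3 : v (X j) = a j + d ^ j * v μ / (d ^ n - 1) := by
        rw [ha]
        unfold ShV.aa
        ring
      rw [hy, ShV.v_div hv hXj1 (pow_ne_zero _ hXj), ShV.v_pow hv hXj, h2, h3, hE1 _ hXj1, h1]
      ring
    have hden : d ^ N ≤ (v y).den := by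
      refine ari N d l hd hl1 hlN (v y) ?_
      have hgeom : ((d : ℚ) - 1) * ∑ i ∈ Finset.range (l - 1), (d : ℚ) ^ i = d ^ (l - 1) - 1 := by
        rw [mul_comm]
        exact geom_sum_mul _ _
      have hd0 : ((d : ℚ) - 1) ≠ 0 := by linarith
      have hll : (d : ℚ) ^ l = d ^ (l - 1) * d := by
        rw [← pow_succ]
        congr 1
        omega
      have hEj : ((d : ℚ) - 1) * (d ^ (l - 1) * E (j + 1)) = (d ^ (l - 1) - 1) * δ := by
        rw [← hj1]
        ring
      refine mul_left_cancel₀ hd0 ?_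
      rw [hvy, hll]
      have e1 : ((d : ℚ) - 1) * (d ^ (l - 1) * d * (d ^ N - 1) * (E (j + 1) - (d - 1) * c₀)) =
          d * (d ^ N - 1) * (((d : ℚ) - 1) * (d ^ (l - 1) * E (j + 1))) -
          ((d : ℚ) - 1) ^ 2 * d ^ (l - 1) * (c₀ * (d * (d ^ N - 1))) := by ring
      rw [e1, hEj, hcs, hδdef]
      have e2 : ((d : ℚ) - 1) * (d ^ (l - 1) * d - 1 + d * (d ^ N - 1) *
          ∑ i ∈ Finset.range (l - 1), (d : ℚ) ^ i) = ((d : ℚ) - 1) * (d ^ (l - 1) * d - 1) +
          d * (d ^ N - 1) * (((d : ℚ) - 1) * ∑ i ∈ Finset.range (l - 1), (d : ℚ) ^ i) := by ring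
      rw [e2, hgeom]
      have e3 : d * ((d : ℚ) ^ N - 1) * ((d ^ (l - 1) - 1) * (1 - (d - 1) * c₀)) =
          d * (d ^ N - 1) * (d ^ (l - 1) - 1) - (d ^ (l - 1) - 1) * (d - 1) *
            (c₀ * (d * (d ^ N - 1))) := by ring
      rw [e3, hcs]
      ring
    have hdeg : (minpoly (RatFunc k) y).natDegree ≤ D := by
      obtain ⟨θ, hθ, hxθ⟩ := degLe_iter (shi N d (RatFunc.X : RatFunc k)) x hxD j
      have hθ' : ∀ i, (app (Sh k N d))^[j] x i ∈ IntermediateField.adjoin (RatFunc k) {θ} := hxθ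
      refine (Bri.natDegree_le (θ := θ) ?_).trans hθ
      have h1 : X j ∈ IntermediateField.adjoin (RatFunc k) {θ} := hθ' 0
      have h2 : X (j + 1) ∈ IntermediateField.adjoin (RatFunc k) {θ} := by
        rw [hX]
        unfold ShV.XX
        rw [Function.iterate_succ_apply', ShV.app_zero]
        refine add_mem (mul_mem ?_ (pow_mem (hθ' 0) _)) (pow_mem (hθ' _) _)
        exact IntermediateField.algebraMap_mem _ _
      exact div_mem h2 (pow_mem h1 _)
    have := hv.deg_le y hy0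
    omega

end Pool.Agent.PNH
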