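import Mathlib
import Pool.Agent.PNH.SqDefs
import Pool.Agent.PNH.ShV

set_option autoImplicit false

/-!
# The periodic points of `shi` at a finite place

The family has good reduction at the place: the least value of the coordinates of `x` is multiplied
by `d` when `x` is replaced by its image.
-/

namespace Pool.Agent.PNH

namespace ShFA

section val

variable {E Ω : Type} [Field E] [Field Ω] [Algebra E Ω] {v : Ω → ℚ}

theorem v_one (hv : IsQv E v) : v 1 = 0 := by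
  have h := hv.mul 1 1 one_ne_zero one_ne_zero
  rw [mul_one] at h
  linarith

theorem v_pow (hv : IsQv E v) {x : Ω} (hx : x ≠ 0) (m : ℕ) : v (x ^ m) = m * v x := by
  induction m with
  | zero => rw [pow_zero, v_one hv, Nat.cast_zero, zero_mul]
  | succ m ih =>
    rw [pow_succ, hv.mul _ _ (pow_ne_zero _ hx) hx, ih, Nat.cast_succ]
    ring

theorem v_neg (hv : IsQv E v) {x : Ω} (hx : x ≠ 0) : v (-x) = v x := by
  have h1 : v ((-1 : Ω) * (-1)) = v (-1 : Ω) + v (-1 : Ω) :=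
    hv.mul _ _ (neg_ne_zero.2 one_ne_zero) (neg_ne_zero.2 one_ne_zero)
  rw [neg_mul_neg, mul_one, v_one hv] at h1
  have h2 := hv.mul (-1) x (neg_ne_zero.2 one_ne_zero) hx
  rw [neg_one_mul] at h2
  rw [h2]
  linarith

theorem v_div (hv : IsQv E v) {x y : Ω} (hx : x ≠ 0) (hy : y ≠ 0) : v (x / y) = v x - v y := by
  have h := hv.mul (x / y) y (div_ne_zero hx hy) hy
  rw [div_mul_cancel₀ _ hy] at h
  linarith

/-- The sum of an element of large value and an element of small value. -/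
theorem v_add (hv : IsQv E v) {x y : Ω} (hy : y ≠ 0) (h : x ≠ 0 → v y < v x) :
    x + y ≠ 0 ∧ v (x + y) = v y := by
  by_cases hx : x = 0
  · rw [hx, zero_add]
    exact ⟨hy, rfl⟩
  have h1 := h hx
  have h2 : x + y ≠ 0 := by
    intro h0
    have h3 : y = -x := by rw [eq_neg_iff_add_eq_zero, add_comm]; exact h0
    rw [h3, v_neg hv hx] at h1
    exact lt_irrefl _ h1
  refine ⟨h2, le_antisymm ?_ ?_⟩
  · have h3 := hv.add (x + y) (-x) h2 (neg_ne_zero.2 hx) (by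
      rw [add_neg_cancel_comm]
      exact hy)
    rw [add_neg_cancel_comm, v_neg hv hx] at h3
    rcases min_le_iff.1 h3 with h4 | h4
    · exact h4
    · exact absurd h4 (not_le.2 h1)
  · have h3 := hv.add x y hx hy h2
    rw [min_eq_right h1.le] at h3
    exact h3

/-- `m` is the least value of a nonzero coordinate of `x`. -/
def Mn (v : Ω → ℚ) {N : ℕ} (x : Fin (N + 1) → Ω) (m : ℚ) : Prop :=
  (∀ i, x i ≠ 0 → m ≤ v (x i)) ∧ ∃ i, x i ≠ 0 ∧ v (x i) = m

theorem Mn.unique {N : ℕ} {x : Fin (N + 1) → Ω} {m m' : ℚ} (h : Mn v x m) (h' : Mn v x m') :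
    m = m' := by
  obtain ⟨i, hi, hm⟩ := h.2
  obtain ⟨j, hj, hm'⟩ := h'.2
  exact le_antisymm (hm' ▸ h.1 j hj) (hm ▸ h'.1 i hi)

theorem Mn.smul (hv : IsQv E v) {N : ℕ} {x : Fin (N + 1) → Ω} {m : ℚ} (h : Mn v x m) {μ : Ω}
    (hμ : μ ≠ 0) : Mn v (μ • x) (v μ + m) := by
  constructor
  · intro i hi
    have h1 : x i ≠ 0 := fun h0 => hi (by rw [Pi.smul_apply, h0, smul_zero])
    rw [Pi.smul_apply, smul_eq_mul, hv.mul _ _ hμ h1]
    linarith [h.1 i h1]
  · obtain ⟨i, hi, hm⟩ := h.2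
    refine ⟨i, ?_, ?_⟩
    · rw [Pi.smul_apply, smul_eq_mul]
      exact mul_ne_zero hμ hi
    · rw [Pi.smul_apply, smul_eq_mul, hv.mul _ _ hμ hi, hm]

theorem exists_mn {N : ℕ} (x : Fin (N + 1) → Ω) (hx : ∃ i, x i ≠ 0) : ∃ m, Mn v x m := by
  classical
  have h1 : (Finset.univ.filter fun i => x i ≠ 0).Nonempty := by
    obtain ⟨i, hi⟩ := hx
    exact ⟨i, Finset.mem_filter.2 ⟨Finset.mem_univ _, hi⟩⟩
  obtain ⟨i, hi, hm⟩ := Finset.exists_min_image _ (fun i => v (x i)) h1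
  refine ⟨v (x i), fun j hj => hm j (Finset.mem_filter.2 ⟨Finset.mem_univ _, hj⟩), i,
    (Finset.mem_filter.1 hi).2, rfl⟩

end val

/-- Good reduction. -/
theorem mn_app {k : Type} [Field k] {N d : ℕ} (hN : 1 ≤ N) (hd : 2 ≤ d)
    {v : AlgebraicClosure (RatFunc k) → ℚ} (hv : IsQv (RatFunc k) v)
    (hc : 0 ≤ v (algebraMap (RatFunc k) _ RatFunc.X))
    {x : Fin (N + 1) → AlgebraicClosure (RatFunc k)} {m : ℚ} (h : Mn v x m) :
    Mn v (app (Sh k N d) x) (d * m) := by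
  have hd0 : (0 : ℚ) < d := by exact_mod_cast (by omega : 0 < d)
  have hdn : d ≠ 0 := by omega
  have hle : ∀ i, x i ≠ 0 → (d : ℚ) * m ≤ v (x i ^ d) := fun i hi => by
    rw [v_pow hv hi]
    exact mul_le_mul_of_nonneg_left (h.1 i hi) hd0.le
  have hcx : ∀ i, x i ≠ 0 → v (ShV.cc k * x i ^ d) = v (ShV.cc k) + d * v (x i) := fun i hi => by
    rw [hv.mul _ _ ShV.cc_ne (pow_ne_zero _ hi), v_pow hv hi]
  constructor
  · intro i hi
    obtain ⟨t, ht⟩ := i
    rcases t with _ | t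
    · have e : (⟨0, ht⟩ : Fin (N + 1)) = 0 := rfl
      rw [e, ShV.app_zero] at hi ⊢
      by_cases h0 : x 0 = 0
      · rw [h0, zero_pow hdn, mul_zero, zero_add] at hi ⊢
        exact hle _ (fun h1 => hi (by rw [h1, zero_pow hdn]))
      · by_cases h1 : x (Fin.last N) = 0
        · rw [h1, zero_pow hdn, add_zero, hcx 0 h0]
          have h2 := h.1 0 h0
          have h3 : (d : ℚ) * m ≤ d * v (x 0) := mul_le_mul_of_nonneg_left h2 hd0.le
          linarith
        · have h2 := hv.add (ShV.cc k * x 0 ^ d) (x (Fin.last N) ^ d)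
            (mul_ne_zero ShV.cc_ne (pow_ne_zero _ h0)) (pow_ne_zero _ h1) hi
          refine le_trans (le_min ?_ (hle _ h1)) h2
          rw [hcx 0 h0]
          have h3 : (d : ℚ) * m ≤ d * v (x 0) := mul_le_mul_of_nonneg_left (h.1 0 h0) hd0.le
          linarith
    · rw [ShV.app_succ] at hi ⊢
      exact hle _ (fun h1 => hi (by rw [h1, zero_pow hdn]))
  · by_cases hlt : ∃ i : Fin (N + 1), i ≠ Fin.last N ∧ x i ≠ 0 ∧ v (x i) = m
    · obtain ⟨⟨t, ht⟩, hil, hi, hm⟩ := hlt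
      have ht1 : t + 1 < N + 1 := by
        have : t ≠ N := fun h0 => hil (Fin.ext h0)
        omega
      refine ⟨⟨t + 1, ht1⟩, ?_, ?_⟩
      · rw [ShV.app_succ]
        exact pow_ne_zero _ hi
      · rw [ShV.app_succ, v_pow hv hi, hm]
    · obtain ⟨i, hi, hm⟩ := h.2
      have hil : i = Fin.last N := by
        by_contra hil
        exact hlt ⟨i, hil, hi, hm⟩
      subst hil
      have h0l : (0 : Fin (N + 1)) ≠ Fin.last N := by
        intro h0
        have h1 := congrArg Fin.val h0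
        simp only [Fin.val_zero, Fin.val_last] at h1
        omega
      have h0 : x 0 ≠ 0 → m < v (x 0) := fun h1 =>
        lt_of_le_of_ne (h.1 0 h1) (fun h2 => hlt ⟨0, h0l, h1, h2.symm⟩)
      have h3 : v (x (Fin.last N) ^ d) = d * m := by rw [v_pow hv hi, hm]
      obtain ⟨h4, h5⟩ := v_add hv (x := ShV.cc k * x 0 ^ d) (pow_ne_zero d hi) (fun h6 => by
        have h7 : x 0 ≠ 0 := fun h8 => h6 (by rw [h8, zero_pow hdn, mul_zero])
        rw [h3, hcx 0 h7]
        have h8 : (d : ℚ) * m < d * v (x 0) := mul_lt_mul_of_pos_left (h0 h7) hd0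
        linarith)
      refine ⟨0, ?_, ?_⟩
      · rw [ShV.app_zero]
        exact h4
      · rw [ShV.app_zero, h5, h3]

theorem mn_iter {k : Type} [Field k] {N d : ℕ} (hN : 1 ≤ N) (hd : 2 ≤ d)
    {v : AlgebraicClosure (RatFunc k) → ℚ} (hv : IsQv (RatFunc k) v)
    (hc : 0 ≤ v (algebraMap (RatFunc k) _ RatFunc.X))
    {x : Fin (N + 1) → AlgebraicClosure (RatFunc k)} {m : ℚ} (h : Mn v x m) (n : ℕ) :
    Mn v ((app (Sh k N d))^[n] x) ((d : ℚ) ^ n * m) := by
  induction n with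
  | zero =>
    rw [pow_zero, one_mul]
    exact h
  | succ n ih =>
    rw [Function.iterate_succ_apply', pow_succ', mul_assoc]
    exact mn_app hN hd hv hc ih

end ShFA

open ShFA in
theorem shi_fin {k : Type} [Field k] (N d : ℕ) (hN : 1 ≤ N) (hd : 2 ≤ d)
    (v : AlgebraicClosure (RatFunc k) → ℚ) (hv : IsQv (RatFunc k) v)
    (hc : 0 ≤ v (algebraMap (RatFunc k) _ RatFunc.X))
    (x : Fin (N + 1) → AlgebraicClosure (RatFunc k)) (h0 : x 0 ≠ 0) (n : ℕ)
    (μ : AlgebraicClosure (RatFunc k)) (hμ : μ ≠ 0) (h : (app (Sh k N d))^[n] x = μ • x) :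
    (∀ i, x i ≠ 0 → ((d : ℚ) ^ n - 1) * v (x 0 / x i) ≤ v (x 0 ^ (d ^ n - 1) / μ)) ∧
    ∃ i, x i ≠ 0 ∧ v (x 0 ^ (d ^ n - 1) / μ) = ((d : ℚ) ^ n - 1) * v (x 0 / x i) := by
  obtain ⟨m, hm⟩ := exists_mn (v := v) x ⟨0, h0⟩
  have h1 : (d : ℚ) ^ n * m = v μ + m := by
    have h2 := mn_iter hN hd hv hc hm n
    rw [h] at h2
    exact h2.unique (hm.smul hv hμ)
  have hpow : 1 ≤ d ^ n := Nat.one_le_pow _ _ (by omega)
  have hq : (0 : ℚ) ≤ (d : ℚ) ^ n - 1 := by
    have : (1 : ℚ) ≤ (d : ℚ) ^ n := by exact_mod_cast hpow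
    linarith
  have h3 : v (x 0 ^ (d ^ n - 1) / μ) = ((d : ℚ) ^ n - 1) * (v (x 0) - m) := by
    rw [v_div hv (pow_ne_zero _ h0) hμ, v_pow hv h0, Nat.cast_sub hpow, Nat.cast_pow, Nat.cast_one]
    linarith
  constructor
  · intro i hi
    rw [h3, v_div hv h0 hi]
    exact mul_le_mul_of_nonneg_left (by linarith [hm.1 i hi]) hq
  · obtain ⟨i, hi, hmi⟩ := hm.2
    exact ⟨i, hi, by rw [h3, v_div hv h0 hi, hmi]⟩

end Pool.Agent.PNH
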