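import Mathlib
import Pool.Agent.PNH.Trp

set_option autoImplicit false

/-!
# Periodic sequences of values of the family `shi` at infinity: the classification
-/

namespace Pool.Agent.PNH

namespace Trp

theorem tropZ2 (N d m : ℕ) (hN : 1 ≤ N) (hd : 2 ≤ d) (hm : 1 ≤ m) (δ T : ℚ) (hδ : 0 < δ)
    (hT : δ < T) (D : ℤ → ℚ) (hper : ∀ n, D (n + m) = D n) (hDT : ∀ n, D n ≤ T)
    (h1 : ∀ n, min (d * min (D n) (d ^ N * D (n - N)) - δ) T ≤ D (n + 1))
    (h2 : ∀ n, D n ≠ d ^ N * D (n - N) →
      D (n + 1) = min (d * min (D n) (d ^ N * D (n - N)) - δ) T) :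
    (∀ n, 0 ≤ D n) ∧ ((∀ n, ((d : ℚ) - 1) * D n = δ) ∨ (∀ n, D n = T) ∨ (∀ n, D n = 0) ∨
      ∃ n, d * D n = δ) := by
  set q : ℚ := (d : ℚ) with hqdef
  have hq : 2 ≤ q := by
    rw [hqdef]
    exact_mod_cast hd
  set P : ℚ := q ^ N with hP
  have hPq : q ≤ P := by
    rw [hP]
    exact le_self_pow₀ (by linarith) (by omega)
  have hP0 : 0 < P := by linarith
  -- outside `C`
  have hnc1 : ∀ n, D n ≠ P * D (n - N) → D (n + 1) ≤ q * D n - δ := by
    intro n hn
    rw [h2 n hn]
    refine (min_le_left _ _).trans ?_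
    have := min_le_left (D n) (P * D (n - N))
    nlinarith
  have hnc2 : ∀ n, D n ≠ P * D (n - N) → D (n + 1) ≤ q * (P * D (n - N)) - δ := by
    intro n hn
    rw [h2 n hn]
    refine (min_le_left _ _).trans ?_
    have := min_le_right (D n) (P * D (n - N))
    nlinarith
  obtain ⟨n₁, hn₁⟩ := exists_min D m hm hper
  -- (i)
  have hnn : ∀ n, 0 ≤ D n := by
    intro n₀
    by_contra hneg
    push Not at hneg
    set w : ℚ := -D n₀ with hw
    have hw0 : 0 < w := by linarith
    have claim : ∀ j : ℕ, ∃ t : ℕ, j ≤ t + N ∧ t ≤ j ∧ w * q ^ t ≤ -D (n₀ + t) := by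
      intro j
      induction j with
      | zero => exact ⟨0, by omega, le_rfl, by simp [hw]⟩
      | succ j ih =>
        obtain ⟨t, h3, h4, h5⟩ := ih
        rcases Nat.lt_or_ge j (t + N) with h6 | h6
        · exact ⟨t, by omega, by omega, h5⟩
        · have h7 : j = t + N := by omega
          by_cases hC : D (n₀ + t + N) = P * D (n₀ + t + N - N)
          · refine ⟨t + N, by omega, by omega, ?_⟩
            push_cast
            rw [← add_assoc, hC, add_sub_cancel_right, pow_add, ← hP]
            nlinarith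
          · refine ⟨t + N + 1, by omega, by omega, ?_⟩
            have h8 := hnc2 _ hC
            rw [add_sub_cancel_right] at h8
            push_cast
            rw [← add_assoc, ← add_assoc, pow_succ, pow_add, ← hP]
            nlinarith [mul_le_mul_of_nonneg_left h5 (mul_nonneg (by linarith : (0:ℚ) ≤ q) hP0.le)]
    obtain ⟨k, hk⟩ := exists_nat_gt (-D n₁ / w)
    obtain ⟨t, h3, -, h5⟩ := claim (k + N)
    have h6 : k ≤ t := by omega
    have h7 : (t : ℚ) < q ^ t := by
      calc (t : ℚ) < 2 ^ t := by exact_mod_cast Nat.lt_two_pow_self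
        _ ≤ q ^ t := pow_le_pow_left₀ (by norm_num) hq t
    have h8 : -D n₁ < w * t := by
      rw [div_lt_iff₀ hw0] at hk
      have : (k : ℚ) ≤ t := by exact_mod_cast h6
      nlinarith
    have h9 := hn₁ (n₀ + t)
    nlinarith
  -- (ii)
  have hii : ∀ n, D n ≠ P * D (n - N) → δ ≤ q * D n := by
    intro n hn
    have := hnc1 n hn
    have := hnn (n + 1)
    linarith
  -- (iii)
  have hiii : ∀ n, D n = P * D (n - N) → D n ≠ 0 → P * δ ≤ q * D n := by
    intro n hn h0
    by_contra hlt
    push Not at hlt
    have hpos : 0 < D n := lt_of_le_of_ne (hnn n) (Ne.symm h0)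
    have claim : ∀ j : ℕ, D (n - j * N) = P * D (n - j * N - N) ∧ D (n - j * N) * P ^ j = D n := by
      intro j
      induction j with
      | zero => simpa using hn
      | succ j ih =>
        obtain ⟨h3, h4⟩ := ih
        have e1 : n - ((j + 1 : ℕ) : ℤ) * N = n - j * N - N := by push_cast; ring
        rw [e1]
        have h5 : D (n - j * N - N) * P ^ (j + 1) = D n := by
          rw [← h4, pow_succ]
          rw [h3]
          ring
        refine ⟨?_, h5⟩
        by_contra h6
        have h7 := hii _ h6
        have h8 : D (n - j * N) ≤ D n := by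
          rw [← h4]
          exact le_mul_of_one_le_right (hnn _) (one_le_pow₀ (by linarith))
        nlinarith
    obtain ⟨-, h3⟩ := claim m
    have h4 := map_sub_mul D m hper n N
    rw [mul_comm (N : ℤ)] at h4
    rw [h4] at h3
    have h5 : 1 < P ^ m := one_lt_pow₀ (by linarith) (by omega)
    nlinarith
  -- (iv)
  have hz1 : ∀ n, D n = 0 → D (n - N) = 0 := by
    intro n hn
    have hC : D n = P * D (n - N) := by
      by_contra h
      have := hii n h
      rw [hn] at this
      linarith
    rw [hn] at hC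
    exact (mul_eq_zero.1 hC.symm).resolve_left hP0.ne'
  have hz2 : ∀ n, D n = 0 → ∀ j : ℕ, D (n - j * N) = 0 := by
    intro n hn j
    induction j with
    | zero => simpa using hn
    | succ j ih =>
      have e1 : n - ((j + 1 : ℕ) : ℤ) * N = n - j * N - N := by push_cast; ring
      rw [e1]
      exact hz1 _ ih
  have hz3 : ∀ n, D n = 0 → D (n + N) = 0 := by
    intro n hn
    have h3 := hz2 n hn (m - 1)
    have h4 := map_sub_mul D m hper (n + N) N
    rw [← h4]
    have e1 : n + N - (N : ℤ) * m = n - ((m - 1 : ℕ) : ℤ) * N := by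
      rw [Nat.cast_sub hm]
      push_cast
      ring
    rw [e1]
    exact h3
  -- (v)
  have hchain : ∀ k', D k' = 0 → ∀ i : ℕ, (∀ i' : ℕ, 1 ≤ i' → i' ≤ i → D (k' - i') ≠ 0) →
      D (k' - i) = S q δ i := by
    intro k' hk' i
    induction i with
    | zero =>
      intro _
      simpa [S] using hk'
    | succ i ih =>
      intro hne
      have h3 := ih fun i' h4 h5 => hne i' h4 (by omega)
      have h4 := hne (i + 1) (by omega) le_rfl
      set n : ℤ := k' - ((i + 1 : ℕ) : ℤ) with hn
      have en : n + 1 = k' - i := by rw [hn]; push_cast; ring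
      have hSlt := S_lt hq hδ i
      have hSn := S_nonneg hq hδ i
      have hSs := S_succ (δ := δ) hq i
      have hSp := S_pos hq hδ i
      by_cases hC : D n = P * D (n - N)
      · exfalso
        have h5 := hiii n hC h4
        have h6 := h1 n
        rw [← hC, min_self, en, h3] at h6
        rcases min_le_iff.1 h6 with h7 | h7
        · nlinarith
        · linarith
      · have h5 := h2 n hC
        rw [en, h3] at h5
        have h6 : q * min (D n) (P * D (n - N)) - δ = S q δ i := by
          rcases min_choice (q * min (D n) (P * D (n - N)) - δ) T with h7 | h7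
          · rw [← h7, ← h5]
          · rw [h7] at h5
            linarith
        have h7 : min (D n) (P * D (n - N)) = S q δ (i + 1) := by
          have : q * min (D n) (P * D (n - N)) = q * S q δ (i + 1) := by rw [hSs]; linarith
          exact mul_left_cancel₀ (by linarith) this
        rcases le_or_gt (D n) (P * D (n - N)) with h8 | h8
        · rwa [min_eq_left h8] at h7
        · exfalso
          rw [min_eq_right h8.le] at h7
          have h9 : D (n - N) ≠ 0 := by
            intro h0
            rw [h0, mul_zero] at h7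
            linarith
          by_cases hC' : D (n - N) = P * D (n - N - N)
          · have h10 := hiii _ hC' h9
            nlinarith [mul_le_mul_of_nonneg_left h10 hP0.le, mul_pos hP0 hδ]
          · have h10 := hii _ hC'
            nlinarith [mul_le_mul_of_nonneg_left h10 hP0.le]
  refine ⟨hnn, ?_⟩
  by_cases hzero : ∃ k, D k = 0
  · right; right
    by_cases hall : ∀ n, D n = 0
    · exact Or.inl hall
    right
    push Not at hall
    obtain ⟨a, ha⟩ := hall
    obtain ⟨k, hk⟩ := hzero
    -- a later zero
    obtain ⟨t, ht⟩ : ∃ t : ℕ, D (a + t) = 0 := by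
      refine ⟨(k + |k - a| * m - a).toNat, ?_⟩
      have h4 := neg_abs_le (k - a)
      have h5 := abs_nonneg (k - a)
      have h6 : (1 : ℤ) ≤ m := by exact_mod_cast hm
      have hj0 : 0 ≤ k + |k - a| * m - a := by nlinarith
      rw [Int.toNat_of_nonneg hj0]
      have e1 : a + (k + |k - a| * m - a) = k - (-|k - a|) * m := by ring
      rw [e1, map_sub_mul D m hper, hk]
    classical
    have hex : ∃ t : ℕ, D (a + t) = 0 := ⟨t, ht⟩
    set l := Nat.find hex with hl
    have hl2 : D (a + l) = 0 := Nat.find_spec hex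
    have hl0 : l ≠ 0 := by
      intro h0
      rw [h0] at hl2
      simp at hl2
      exact ha hl2
    have hl3 : D (a + ((l - 1 : ℕ) : ℤ)) ≠ 0 := Nat.find_min hex (by omega)
    have e1 : a + (l : ℤ) - ((1 : ℕ) : ℤ) = a + ((l - 1 : ℕ) : ℤ) := by
      rw [Nat.cast_sub (by omega)]
      push_cast
      ring
    have h3 := hchain (a + l) hl2 1 (fun i' h4 h5 => by
      have h6 : i' = 1 := by omega
      rw [h6, e1]
      exact hl3)
    refine ⟨a + (l : ℤ) - ((1 : ℕ) : ℤ), ?_⟩
    rw [h3]
    have := S_succ (δ := δ) hq 0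
    rw [this]
    simp [S]
  · push Not at hzero
    have hpos : ∀ n, 0 < D n := fun n => lt_of_le_of_ne (hnn n) (Ne.symm (hzero n))
    have hmin : δ ≤ (q - 1) * D n₁ := by
      by_cases hC : D n₁ = P * D (n₁ - N)
      · have h3 := hiii _ hC (hzero _)
        have h4 : q * δ ≤ q * D n₁ := by nlinarith
        have h5 : δ ≤ D n₁ := le_of_mul_le_mul_left h4 (by linarith)
        nlinarith
      · have h3 := hnc1 _ hC
        have h4 := hn₁ (n₁ + 1)
        linarith
    rcases hmin.lt_or_eq with hlt | heq
    · right; left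
      intro n
      have h3 := h1 (n₁ - 1)
      rw [sub_add_cancel] at h3
      have h4 := hn₁ (n₁ - 1)
      have h5 : D n₁ ≤ P * D (n₁ - 1 - N) := by
        have := hn₁ (n₁ - 1 - N)
        have := hpos (n₁ - 1 - N)
        nlinarith
      have h6 := le_min h4 h5
      rcases min_le_iff.1 h3 with h7 | h7
      · nlinarith
      · exact le_antisymm (hDT n) (h7.trans (hn₁ n))
    · left
      by_contra hne
      push Not at hne
      obtain ⟨n, hn⟩ := hne
      have h3 : D n₁ < D n := by
        refine lt_of_le_of_ne (hn₁ n) fun h => hn ?_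
        rw [← h]
        exact heq.symm
      have claim : ∀ j : ℕ, D n₁ < D (n + j) := by
        intro j
        induction j with
        | zero => simpa using h3
        | succ j ih =>
          have h4 := h1 (n + j)
          have e1 : n + (j : ℤ) + 1 = n + ((j + 1 : ℕ) : ℤ) := by push_cast; ring
          rw [e1] at h4
          have h5 : D n₁ < P * D (n + j - N) := by
            have := hn₁ (n + j - N)
            have := hpos (n + j - N)
            nlinarith
          have h6 := lt_min ih h5
          have h7 := hpos n₁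
          rcases min_le_iff.1 h4 with h8 | h8
          · nlinarith
          · nlinarith
      set j : ℤ := n₁ + |n₁ - n| * m - n with hj
      have hj0 : 0 ≤ j := by
        have h4 := neg_abs_le (n₁ - n)
        have h5 := abs_nonneg (n₁ - n)
        have h6 : (1 : ℤ) ≤ m := by exact_mod_cast hm
        nlinarith
      have h4 := claim j.toNat
      rw [Int.toNat_of_nonneg hj0] at h4
      have e1 : n + j = n₁ - (-|n₁ - n|) * m := by rw [hj]; ring
      rw [e1, map_sub_mul D m hper] at h4
      exact lt_irrefl _ h4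

end Trp

theorem trop2 (N d m : ℕ) (hN : 1 ≤ N) (hd : 2 ≤ d) (hm : 1 ≤ m) (δ T : ℚ) (hδ : 0 < δ)
    (hT : δ < T) (D : ℕ → ℚ) (hper : ∀ n, D (n + m) = D n) (hDT : ∀ n, D n ≤ T)
    (h1 : ∀ n, min (d * min (D (n + N)) (d ^ N * D n) - δ) T ≤ D (n + N + 1))
    (h2 : ∀ n, D (n + N) ≠ d ^ N * D n →
      D (n + N + 1) = min (d * min (D (n + N)) (d ^ N * D n) - δ) T) :
    (∀ n, 0 ≤ D n) ∧ ((∀ n, ((d : ℚ) - 1) * D n = δ) ∨ (∀ n, D n = T) ∨ (∀ n, D n = 0) ∨
      ∃ n, d * D n = δ) := by
  have hm0 : (m : ℤ) ≠ 0 := by omega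
  set E : ℤ → ℚ := fun z => D (z % m).toNat with hE
  have hcong : ∀ z w : ℤ, z % m = w % m → E z = E w := by
    intro z w h
    simp only [hE, h]
  have hDper : Function.Periodic D m := hper
  have hnat : ∀ n : ℕ, E n = D n := by
    intro n
    simp only [hE]
    rw [← Int.natCast_mod, Int.toNat_natCast]
    exact hDper.map_mod_nat n
  have key : ∀ z : ℤ, ∃ n : ℕ, E (z - N) = D n ∧ E z = D (n + N) ∧ E (z + 1) = D (n + N + 1) := by
    intro z
    have h0 := Int.emod_nonneg (z - N) hm0
    refine ⟨((z - N) % m).toNat, ?_, ?_, ?_⟩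
    · simp only [hE]
    · rw [← hnat]
      apply hcong
      push_cast
      rw [Int.toNat_of_nonneg h0]
      rw [Int.emod_add_emod]
      congr 1
      ring
    · rw [← hnat]
      apply hcong
      push_cast
      rw [Int.toNat_of_nonneg h0]
      rw [add_assoc, Int.emod_add_emod]
      congr 1
      ring
  obtain ⟨h0, h⟩ := Trp.tropZ2 N d m hN hd hm δ T hδ hT E (fun z => hcong _ _ (by simp))
    (fun z => hDT _)
    (fun z => by
      obtain ⟨n, e1, e2, e3⟩ := key z
      rw [e1, e2, e3]
      exact h1 n)
    (fun z => by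
      obtain ⟨n, e1, e2, e3⟩ := key z
      rw [e1, e2, e3]
      exact h2 n)
  refine ⟨fun n => hnat n ▸ h0 n, ?_⟩
  rcases h with h | h | h | h
  · exact Or.inl fun n => hnat n ▸ h n
  · exact Or.inr (Or.inl fun n => hnat n ▸ h n)
  · exact Or.inr (Or.inr (Or.inl fun n => hnat n ▸ h n))
  · obtain ⟨z, hz⟩ := h
    exact Or.inr (Or.inr (Or.inr ⟨(z % m).toNat, hz⟩))

end Pool.Agent.PNH
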