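import Mathlib
import Pool.Agent.PNH.SqDefs
import Pool.Agent.PNH.Trp2
import Pool.Agent.PNH.ShV

set_option autoImplicit false

/-!
# The classification of the periodic points of `shi` at the infinite place
-/

namespace Pool.Agent.PNH

theorem shi_cls {k : Type} [Field k] (N d : ℕ) (hN : 1 ≤ N) (hd : 2 ≤ d)
    (v : AlgebraicClosure (RatFunc k) → ℚ) (hv : IsInf k v)
    (x : Fin (N + 1) → AlgebraicClosure (RatFunc k)) (hx : x ≠ 0) (n : ℕ) (hn : 1 ≤ n)
    (μ : AlgebraicClosure (RatFunc k)) (hμ : μ ≠ 0) (h : (app (Sh k N d))^[n] x = μ • x) :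
    (∀ j, Xs k d x j ≠ 0 → -((d : ℚ) ^ n - 1) ≤ d * (d ^ N - 1) * v (Ys k d x n μ j)) ∧
    ((∀ j, Xs k d x j ≠ 0 ∧ ((d : ℚ) - 1) * v (Ys k d x n μ j) = d ^ n - 1) ∨
      (∀ j, Xs k d x j ≠ 0 ∧ (d : ℚ) * (d ^ N - 1) * v (Ys k d x n μ j) = -(d ^ n - 1)) ∨
      ∃ j, Xs k d x j ≠ 0 ∧
        (d : ℚ) ^ 2 * (d ^ N - 1) * v (Ys k d x n μ j) = (d ^ n - 1) * (d ^ (N + 1) - d - 1)) := by
  classical
  have hdN := ShV.pow_sub_pos hd hN
  have hdn := ShV.pow_sub_pos hd hn
  have hd1 : (1 : ℚ) < d := by exact_mod_cast hd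
  set X := ShV.XX N d x with hX
  set a := ShV.aa N d n v x μ with ha
  set c₀ := ShV.cs N d with hc₀
  have hcs : c₀ * (d * ((d : ℚ) ^ N - 1)) = -1 := by
    rw [hc₀]
    unfold ShV.cs
    field_simp
  set δ : ℚ := 1 - (d - 1) * c₀ with hδdef
  have hcneg : c₀ < 0 := by
    by_contra h0
    have : 0 ≤ c₀ * (d * ((d : ℚ) ^ N - 1)) := mul_nonneg (not_lt.1 h0) (by positivity)
    rw [hcs] at this
    norm_num at this
  have hδ1 : 1 < δ := by
    rw [hδdef]
    nlinarith
  have hδ2 : (d : ℚ) ^ (N + 1) * c₀ = d * c₀ - 1 := by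
    have : (d : ℚ) ^ (N + 1) * c₀ = c₀ * (d * ((d : ℚ) ^ N - 1)) + d * c₀ := by ring
    rw [this, hcs]
    ring
  set DD : ℕ → ℚ := fun j => if X j = 0 then 0 else a j - c₀ with hDD
  have hX0 : ∀ j, X (j + n) = 0 ↔ X j = 0 := by
    intro j
    rw [hX, ShV.XX_period h ShV.hom_sh]
    rw [mul_eq_zero, or_iff_right (pow_ne_zero _ hμ)]
  have hDDper : Function.Periodic DD n := by
    intro j
    change (if X (j + n) = 0 then (0 : ℚ) else a (j + n) - c₀) = if X j = 0 then 0 else a j - c₀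
    by_cases hj : X j = 0
    · rw [if_pos ((hX0 j).2 hj), if_pos hj]
    · rw [if_neg fun e => hj ((hX0 j).1 e), if_neg hj, ha, ShV.aa_period hd hv hn hμ h j hj]
  set T : ℚ := δ + 1 + ∑ j ∈ Finset.range n, |DD j| with hT
  have hsum : 0 ≤ ∑ j ∈ Finset.range n, |DD j| := Finset.sum_nonneg fun j _ => abs_nonneg _
  have hδT : δ < T := by
    rw [hT]
    linarith
  have hDDT : ∀ j, DD j < T := by
    intro j
    rw [← hDDper.map_mod_nat j]
    have h1 : |DD (j % n)| ≤ ∑ j ∈ Finset.range n, |DD j| :=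
      Finset.single_le_sum (f := fun j => |DD j|) (fun i _ => abs_nonneg (DD i))
        (Finset.mem_range.2 (Nat.mod_lt _ hn))
    have h2 := le_abs_self (DD (j % n))
    rw [hT]
    linarith
  set E : ℕ → ℚ := fun j => if X j = 0 then T else a j - c₀ with hE
  have hE0 : ∀ j, X j = 0 → E j = T := fun j hj => if_pos hj
  have hE1 : ∀ j, X j ≠ 0 → E j = a j - c₀ := fun j hj => if_neg hj
  have hET : ∀ j, X j ≠ 0 → E j < T := by
    intro j hj
    have := hDDT j
    rw [hDD] at this
    simp only [if_neg hj] at this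
    rw [hE1 j hj]
    exact this
  have hrec := fun j => ShV.rec (d := d) x j
  rw [← hX] at hrec
  -- the three cases of the recursion
  have r1 : ∀ j, X (j + N) ≠ 0 → X j = 0 → X (j + N + 1) ≠ 0 ∧
      E (j + N + 1) = d * E (j + N) - δ := by
    intro j hj hj0
    have e1 : X (j + N + 1) = ShV.cc k * X (j + N) ^ d := by
      rw [hrec, hj0, zero_pow (pow_ne_zero _ (by omega)), add_zero]
    have e2 : X (j + N + 1) ≠ 0 := by
      rw [e1]
      exact mul_ne_zero ShV.cc_ne (pow_ne_zero _ hj)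
    refine ⟨e2, ?_⟩
    have e3 := ShV.aa_step_two (μ := μ) hd hv hn j hj
    rw [← hX, ← e1, ← ha] at e3
    rw [hE1 _ e2, hE1 _ hj]
    have e4 : a (j + N + 1) = d * a (j + N) - 1 := e3
    rw [e4, hδdef]
    ring
  have r2 : ∀ j, X (j + N) = 0 → X j ≠ 0 → X (j + N + 1) ≠ 0 ∧
      E (j + N + 1) = d * (d ^ N * E j) - δ := by
    intro j hj0 hj
    have e1 : X (j + N + 1) = X j ^ d ^ (N + 1) := by
      rw [hrec, hj0, zero_pow (by omega), mul_zero, zero_add]
    have e2 : X (j + N + 1) ≠ 0 := by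
      rw [e1]
      exact pow_ne_zero _ hj
    refine ⟨e2, ?_⟩
    have e3 := ShV.aa_step_one (μ := μ) (N := N) hd hv hn j hj
    rw [← hX, ← e1, ← ha] at e3
    rw [hE1 _ e2, hE1 _ hj]
    have e4 : a (j + N + 1) = d ^ (N + 1) * a j := e3
    rw [e4, hδdef]
    linear_combination hδ2
  have r3 : ∀ j, X (j + N) = 0 → X j = 0 → X (j + N + 1) = 0 := by
    intro j hj hj0
    rw [hrec, hj, hj0, zero_pow (by omega), zero_pow (pow_ne_zero _ (by omega)), mul_zero,
      zero_add]
  have r4 : ∀ j, X (j + N) ≠ 0 → X j ≠ 0 →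
      (X (j + N + 1) = 0 → E (j + N) = d ^ N * E j) ∧
      (X (j + N + 1) ≠ 0 → d * min (E (j + N)) (d ^ N * E j) - δ ≤ E (j + N + 1) ∧
        (E (j + N) ≠ d ^ N * E j → E (j + N + 1) = d * min (E (j + N)) (d ^ N * E j) - δ)) ∧
      (E (j + N) ≠ d ^ N * E j → X (j + N + 1) ≠ 0) := by
    intro j hj hj0
    set A := ShV.cc k * X (j + N) ^ d with hA
    set B := X j ^ d ^ (N + 1) with hB
    have hA0 : A ≠ 0 := mul_ne_zero ShV.cc_ne (pow_ne_zero _ hj)
    have hB0 : B ≠ 0 := pow_ne_zero _ hj0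
    have e1 : X (j + N + 1) = A + B := hrec j
    set w : ℚ := d ^ (j + N + 1) * v μ / (d ^ n - 1) with hw
    have eA : v A - w - c₀ = d * E (j + N) - δ := by
      have := ShV.aa_step_two (μ := μ) hd hv hn j hj
      rw [← hX, ← hA, ← ha] at this
      rw [hE1 _ hj, hw, this, hδdef]
      ring
    have eB : v B - w - c₀ = d * (d ^ N * E j) - δ := by
      have := ShV.aa_step_one (μ := μ) (N := N) hd hv hn j hj0
      rw [← hX, ← hB, ← ha] at this
      rw [hE1 _ hj0, hw, this, hδdef]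
      linear_combination hδ2
    have eX : X (j + N + 1) ≠ 0 → E (j + N + 1) = v (A + B) - w - c₀ := by
      intro h0
      rw [hE1 _ h0, ← e1]
      rfl
    have hne : E (j + N) ≠ d ^ N * E j → A + B ≠ 0 ∧
        v (A + B) - w - c₀ = d * min (E (j + N)) (d ^ N * E j) - δ := by
      intro h0
      rcases lt_or_gt_of_ne h0 with h1 | h1
      · have h2 : v A < v B := by nlinarith
        have h3 := hv.add_eq A B hA0 hB0 h2
        refine ⟨h3.1, ?_⟩
        rw [h3.2, min_eq_left h1.le, eA]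
      · have h2 : v B < v A := by nlinarith
        have h3 := hv.add_eq B A hB0 hA0 h2
        rw [add_comm B A] at h3
        refine ⟨h3.1, ?_⟩
        rw [h3.2, min_eq_right h1.le, eB]
    refine ⟨?_, ?_, ?_⟩
    · intro h0
      by_contra h1
      exact (hne h1).1 (e1 ▸ h0)
    · intro h0
      rw [eX h0]
      refine ⟨?_, fun h1 => (hne h1).2⟩
      have h1 := hv.add A B hA0 hB0 (e1 ▸ h0)
      rcases le_total (v A) (v B) with h2 | h2
      · rw [min_eq_left h2] at h1
        have h3 : d * min (E (j + N)) (d ^ N * E j) ≤ d * E (j + N) :=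
          mul_le_mul_of_nonneg_left (min_le_left _ _) (by linarith)
        linarith
      · rw [min_eq_right h2] at h1
        have h3 : d * min (E (j + N)) (d ^ N * E j) ≤ d * (d ^ N * E j) :=
          mul_le_mul_of_nonneg_left (min_le_right _ _) (by linarith)
        linarith
    · intro h1
      rw [e1]
      exact (hne h1).1
  have hT0 : 0 < T := by linarith
  have hdN1 : (1 : ℚ) ≤ d ^ N := by linarith
  have hTd : T ≤ d ^ N * T := by nlinarith
  have hd2 : (2 : ℚ) ≤ d := by exact_mod_cast hd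
  have hT2 : 2 * T ≤ d * T := mul_le_mul_of_nonneg_right hd2 hT0.le
  have hEle : ∀ j, E j ≤ T := by
    intro j
    by_cases hj : X j = 0
    · exact (hE0 j hj).le
    · exact (hET j hj).le
  have hEper : ∀ j, E (j + n) = E j := by
    intro j
    by_cases hj : X j = 0
    · rw [hE0 _ ((hX0 j).2 hj), hE0 _ hj]
    · rw [hE1 _ fun e => hj ((hX0 j).1 e), hE1 _ hj, ha, ShV.aa_period hd hv hn hμ h j hj]
  have t1 : ∀ j, min (d * min (E (j + N)) (d ^ N * E j) - δ) T ≤ E (j + N + 1) := by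
    intro j
    by_cases h0 : X (j + N + 1) = 0
    · rw [hE0 _ h0]
      exact min_le_right _ _
    refine (min_le_left _ _).trans ?_
    by_cases h1 : X (j + N) = 0
    · by_cases h2 : X j = 0
      · exact absurd (r3 j h1 h2) h0
      · rw [(r2 j h1 h2).2]
        have h3 : d * min (E (j + N)) (d ^ N * E j) ≤ d * (d ^ N * E j) :=
          mul_le_mul_of_nonneg_left (min_le_right _ _) (by linarith)
        linarith
    · by_cases h2 : X j = 0
      · rw [(r1 j h1 h2).2]
        have h3 : d * min (E (j + N)) (d ^ N * E j) ≤ d * E (j + N) :=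
          mul_le_mul_of_nonneg_left (min_le_left _ _) (by linarith)
        linarith
      · exact ((r4 j h1 h2).2.1 h0).1
  have t2 : ∀ j, E (j + N) ≠ d ^ N * E j →
      E (j + N + 1) = min (d * min (E (j + N)) (d ^ N * E j) - δ) T := by
    intro j hne
    by_cases h1 : X (j + N) = 0
    · by_cases h2 : X j = 0
      · rw [hE0 _ (r3 j h1 h2), hE0 _ h1, hE0 _ h2, min_eq_left hTd, min_eq_right]
        linarith
      · have h3 := r2 j h1 h2
        have h4 := hET _ h3.1
        rw [h3.2] at h4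
        rw [h3.2, hE0 _ h1]
        have h5 : d ^ N * E j ≤ T := by
          by_contra h6
          have h7 := not_le.1 h6
          nlinarith
        rw [min_eq_right h5, min_eq_left h4.le]
    · by_cases h2 : X j = 0
      · have h3 := r1 j h1 h2
        have h4 := hET _ h3.1
        rw [h3.2] at h4
        rw [h3.2, hE0 _ h2, min_eq_left ((hEle _).trans hTd), min_eq_left h4.le]
      · have h3 := (r4 j h1 h2).2.2 hne
        have h4 := ((r4 j h1 h2).2.1 h3).2 hne
        have h5 := hET _ h3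
        rw [h4] at h5
        rw [h4, min_eq_left h5.le]
  -- the value of the invariant
  have hY : ∀ j, X j ≠ 0 → v (Ys k d x n μ j) = (d ^ n - 1) * a j := by
    intro j hj
    have h1 : 1 ≤ d ^ n := Nat.one_le_pow _ _ (by omega)
    have hj' : Xs k d x j ≠ 0 := hj
    have h2 : v (Xs k d x j) = a j + d ^ j * v μ / (d ^ n - 1) := by
      rw [ha]
      unfold ShV.aa
      change v (X j) = v (X j) - d ^ j * v μ / (d ^ n - 1) + d ^ j * v μ / (d ^ n - 1)
      ring
    unfold Ys
    rw [ShV.v_div hv (pow_ne_zero _ hj') (pow_ne_zero _ hμ), ShV.v_pow hv hj', ShV.v_pow hv hμ, h2,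
      Nat.cast_sub h1]
    push_cast
    field_simp
    ring
  obtain ⟨hge, hcase⟩ := trop2 N d n hN hd hn δ T (by linarith) hδT E hEper hEle t1 t2
  refine ⟨?_, ?_⟩
  · intro j hj
    have h1 := hge j
    rw [hE1 _ hj] at h1
    rw [hY j hj]
    have h2 : (d : ℚ) * (d ^ N - 1) * ((d ^ n - 1) * a j) = (d ^ n - 1) *
        (d * (d ^ N - 1) * (a j - c₀) + c₀ * (d * (d ^ N - 1))) := by ring
    rw [h2, hcs]
    have h3 : 0 ≤ (d : ℚ) * (d ^ N - 1) * (a j - c₀) := mul_nonneg (by positivity) h1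
    nlinarith
  rcases hcase with hA | hB | hC | ⟨j, hj⟩
  · left
    intro j
    have h0 := hA j
    have h1 : X j ≠ 0 := by
      intro h1
      rw [hE0 _ h1] at h0
      nlinarith
    refine ⟨h1, ?_⟩
    rw [hE1 _ h1] at h0
    rw [hY j h1]
    have h3 : ((d : ℚ) - 1) * a j = 1 := by
      rw [hδdef] at h0
      linear_combination h0
    linear_combination ((d : ℚ) ^ n - 1) * h3
  · -- all terms are zero
    exfalso
    have h0 : ∀ j, X j = 0 := by
      intro j
      by_contra h1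
      exact (hET j h1).ne (hB j)
    obtain ⟨ν, hν, e⟩ := ShV.iter_mul hμ h N
    have h1 : ∀ i : Fin (N + 1), (app (Sh k N d))^[n * N] x i = 0 := by
      intro i
      have h2 : n * N = (n * N - i) + i := by
        have h3 : (i : ℕ) ≤ N := Nat.lt_succ_iff.1 i.2
        have h4 : N ≤ n * N := Nat.le_mul_of_pos_left N hn
        omega
      rw [h2]
      have h3 := ShV.coord (d := d) x i i.2 (n * N - i)
      rw [← hX, h0, zero_pow (pow_ne_zero _ (by omega))] at h3
      exact h3
    refine hx (funext fun i => ?_)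
    have h2 := h1 i
    rw [e, Pi.smul_apply, smul_eq_mul] at h2
    exact (mul_eq_zero.1 h2).resolve_left hν
  · right; left
    intro j
    have h0 := hC j
    have h1 : X j ≠ 0 := by
      intro h1
      rw [hE0 _ h1] at h0
      exact hT0.ne' h0
    refine ⟨h1, ?_⟩
    rw [hE1 _ h1] at h0
    rw [hY j h1]
    linear_combination ((d : ℚ) ^ n - 1) * (d * (d ^ N - 1)) * h0 + ((d : ℚ) ^ n - 1) * hcs
  · right; right
    have h1 : X j ≠ 0 := by
      intro h1
      rw [hE0 _ h1] at hj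
      nlinarith
    refine ⟨j, h1, ?_⟩
    rw [hE1 _ h1] at hj
    rw [hY j h1]
    have h2 : (d : ℚ) * a j = 1 + c₀ := by
      rw [hδdef] at hj
      linear_combination hj
    have h3 : (d : ℚ) ^ 2 * (d ^ N - 1) * ((d ^ n - 1) * a j) =
        (d ^ n - 1) * (d * (d ^ N - 1) * (d * a j)) := by ring
    rw [h3, h2]
    linear_combination ((d : ℚ) ^ n - 1) * hcs

end Pool.Agent.PNH
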