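import Mathlib
import Pool.Agent.PNH.SqDefs
import Pool.Agent.PNH.ShV2
import Pool.Agent.PNH.ShI
import Pool.Agent.PNH.Nwt
import Pool.Agent.PNH.Nrm
import Pool.Agent.PNH.ShF
import Pool.Agent.PNH.Qv

set_option autoImplicit false

/-!
# The least degree of a preperiodic point of `shi` over `k(c)`
-/

namespace Pool.Agent.PNH

open Polynomial

namespace ShQ

/-- The arithmetic of case A. -/
theorem caseA (d N D' : ℕ) (w : ℚ) (hd : 2 ≤ d) (hw : 0 < w) (t : ℚ) (ht : ((d : ℚ) - 1) * t = w)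
    (hs : d * (d ^ N - 1) * t + (D' - 1) * (-w) ≤ 0) :
    ∑ i ∈ Finset.range (N + 1), d ^ i ≤ D' := by
  have hd1 : (1 : ℚ) < d := by exact_mod_cast hd
  have hg : ((d : ℚ) - 1) * ∑ i ∈ Finset.range (N + 1), (d : ℚ) ^ i = d ^ (N + 1) - 1 := by
    rw [mul_comm]
    exact geom_sum_mul _ _
  have h1 : (d : ℚ) * (d ^ N - 1) * w + (D' - 1) * (-w) * (d - 1) ≤ 0 := by
    have : (d : ℚ) * (d ^ N - 1) * w + (D' - 1) * (-w) * (d - 1) =
      (d - 1) * (d * (d ^ N - 1) * t + (D' - 1) * (-w)) := by rw [← ht]; ring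
    rw [this]
    exact mul_nonpos_of_nonneg_of_nonpos (by linarith) hs
  have h2 : w * ((d : ℚ) * (d ^ N - 1) - (D' - 1) * (d - 1)) ≤ 0 := by
    linarith [h1]
  have h3 : (d : ℚ) * (d ^ N - 1) - (D' - 1) * (d - 1) ≤ 0 := by
    by_contra h4
    push Not at h4
    exact absurd h2 (not_le.2 (mul_pos hw h4))
  have h4 : ((d : ℚ) - 1) * ∑ i ∈ Finset.range (N + 1), (d : ℚ) ^ i ≤ (d - 1) * D' := by
    rw [hg, pow_succ]
    linarith
  have h5 := le_of_mul_le_mul_left h4 (by linarith)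
  exact_mod_cast h5

/-- The arithmetic of case C2. -/
theorem caseC (d N D' s : ℕ) (w : ℚ) (hd : 2 ≤ d) (hN : 1 ≤ N) (hw : 0 < w) (t : ℚ) (hs2 : 2 ≤ s)
    (ht : (d : ℚ) ^ 2 * (d ^ N - 1) * t = w * (d ^ (N + 1) - d - 1))
    (hs : s * (d * (d ^ N - 1) * t) + (D' - s) * (-w) ≤ 0) :
    ∑ i ∈ Finset.range (N + 1), d ^ i ≤ D' := by
  have hd2 : (2 : ℚ) ≤ d := by exact_mod_cast hd
  have hg : ((d : ℚ) - 1) * ∑ i ∈ Finset.range (N + 1), (d : ℚ) ^ i = d ^ (N + 1) - 1 := by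
    rw [mul_comm]
    exact geom_sum_mul _ _
  have hs' : (2 : ℚ) ≤ s := by exact_mod_cast hs2
  have hdN : (d : ℚ) ≤ d ^ N := le_self_pow₀ (by linarith) (by omega)
  have hpow : (d : ℚ) ^ (N + 1) = d * d ^ N := pow_succ' _ _
  -- multiply by `d`
  have h1 : (s : ℚ) * (w * (d ^ (N + 1) - d - 1)) + d * ((D' - s) * (-w)) ≤ 0 := by
    have : (s : ℚ) * (w * (d ^ (N + 1) - d - 1)) + d * ((D' - s) * (-w)) =
      d * (s * (d * (d ^ N - 1) * t) + (D' - s) * (-w)) := by rw [← ht]; ring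
    rw [this]
    exact mul_nonpos_of_nonneg_of_nonpos (by linarith) hs
  have h2 : w * (s * (d ^ (N + 1) - 1) - d * D') ≤ 0 := by linarith
  have h3 : (s : ℚ) * (d ^ (N + 1) - 1) ≤ d * D' := by
    by_contra h4
    push Not at h4
    exact absurd h2 (not_le.2 (mul_pos hw (by linarith)))
  have h4 : (2 : ℚ) * (d ^ (N + 1) - 1) ≤ d * D' := by
    refine le_trans (mul_le_mul_of_nonneg_right hs' ?_) h3
    nlinarith
  by_contra hlt
  push Not at hlt
  have h5 : (D' : ℚ) + 1 ≤ ∑ i ∈ Finset.range (N + 1), (d : ℚ) ^ i := by exact_mod_cast hlt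
  have h6 : ((d : ℚ) - 1) * (D' + 1) ≤ d ^ (N + 1) - 1 := by
    rw [← hg]
    exact mul_le_mul_of_nonneg_left h5 (by linarith)
  nlinarith

theorem den_ge (d N n : ℕ) (hd : 2 ≤ d) (hn : 1 ≤ n) (t : ℚ)
    (ht : (d : ℚ) ^ 2 * (d ^ N - 1) * t = (d ^ n - 1) * (d ^ (N + 1) - d - 1)) : 2 ≤ t.den := by
  by_contra hlt
  push Not at hlt
  have h1 : t.den = 1 := by
    have := t.den_pos
    omega
  have h2 : t = t.num := by
    conv_lhs => rw [← Rat.num_div_den t]
    rw [h1]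
    simp
  rw [h2] at ht
  have h3 : (d : ℤ) ^ 2 * (d ^ N - 1) * t.num = (d ^ n - 1) * (d ^ (N + 1) - d - 1) := by
    exact_mod_cast ht
  have h4 : (d : ℤ) ∣ 1 := by
    obtain ⟨m, rfl⟩ : ∃ m, n = m + 1 := ⟨n - 1, by omega⟩
    refine ⟨d * (d ^ N - 1) * t.num - (d ^ m * (d ^ (N + 1) - d - 1) - d ^ N + 1), ?_⟩
    have h5 : (d : ℤ) ^ (m + 1) = d * d ^ m := pow_succ' _ _
    have h6 : (d : ℤ) ^ (N + 1) = d * d ^ N := pow_succ' _ _
    rw [h5, h6] at h3
    rw [h6]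
    linear_combination -h3
  have h5 := Int.le_of_dvd one_pos h4
  omega

variable {k : Type} [Field k]

/-- The family over an intermediate field. -/
noncomputable def FL (k : Type) [Field k] (N d : ℕ)
    (L : IntermediateField (RatFunc k) (AlgebraicClosure (RatFunc k))) : Tup N L :=
  mp (algebraMap (RatFunc k) L) (shi N d (RatFunc.X : RatFunc k))

theorem mp_FL (N d : ℕ) (L : IntermediateField (RatFunc k) (AlgebraicClosure (RatFunc k)))
    (σ : L →ₐ[RatFunc k] AlgebraicClosure (RatFunc k)) :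
    mp (σ : L →+* AlgebraicClosure (RatFunc k)) (FL k N d L) = Sh k N d := by
  unfold FL Sh
  rw [mp_mp]
  congr 1
  exact σ.comp_algebraMap

theorem iter_sh (N d : ℕ) (L : IntermediateField (RatFunc k) (AlgebraicClosure (RatFunc k)))
    (σ : L →ₐ[RatFunc k] AlgebraicClosure (RatFunc k)) (y : Fin (N + 1) → L) (j : ℕ) :
    (app (Sh k N d))^[j] (fun i => σ (y i)) = fun i => σ ((app (FL k N d L))^[j] y i) := by
  rw [← mp_FL N d L σ]
  exact iter_mp (σ : L →+* AlgebraicClosure (RatFunc k)) (FL k N d L) j y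

theorem hom_FL (N d : ℕ) (L : IntermediateField (RatFunc k) (AlgebraicClosure (RatFunc k))) (i) :
    (FL k N d L i).IsHomogeneous d := hom_mp d _ _ (ShIA.hom_shi N d _) i

/-- The terms of the orbit over the intermediate field. -/
noncomputable def XL (k : Type) [Field k] {N : ℕ} (d : ℕ)
    (L : IntermediateField (RatFunc k) (AlgebraicClosure (RatFunc k))) (y : Fin (N + 1) → L)
    (j : ℕ) : L := (app (FL k N d L))^[j] y 0

/-- The invariants over the intermediate field. -/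
noncomputable def YL (k : Type) [Field k] {N : ℕ} (d : ℕ)
    (L : IntermediateField (RatFunc k) (AlgebraicClosure (RatFunc k))) (y : Fin (N + 1) → L)
    (n : ℕ) (μ : L) (j : ℕ) : L := XL k d L y j ^ (d ^ n - 1) / μ ^ d ^ j

section emb

variable {N : ℕ} (d : ℕ) (L : IntermediateField (RatFunc k) (AlgebraicClosure (RatFunc k)))
  (y : Fin (N + 1) → L) (n : ℕ) (μ : L)

theorem Xs_emb (σ : L →ₐ[RatFunc k] AlgebraicClosure (RatFunc k)) (j : ℕ) :
    Xs k d (fun i => σ (y i)) j = σ (XL k d L y j) := by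
  unfold Xs XL
  rw [iter_sh]

theorem Ys_emb (σ : L →ₐ[RatFunc k] AlgebraicClosure (RatFunc k)) (j : ℕ) :
    Ys k d (fun i => σ (y i)) n (σ μ) j = σ (YL k d L y n μ j) := by
  unfold Ys YL
  rw [Xs_emb]
  simp only [map_div₀, map_pow]

end emb

theorem emb_ne {N : ℕ} {L : IntermediateField (RatFunc k) (AlgebraicClosure (RatFunc k))}
    {y : Fin (N + 1) → L} (hy : y ≠ 0) (σ : L →ₐ[RatFunc k] AlgebraicClosure (RatFunc k)) :
    (fun i => σ (y i)) ≠ 0 := by
  intro h0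
  apply hy
  funext i
  exact (map_eq_zero σ).1 (congrFun h0 i)

theorem emb_iter {N d : ℕ} {L : IntermediateField (RatFunc k) (AlgebraicClosure (RatFunc k))}
    {y : Fin (N + 1) → L} {n : ℕ} {μ : L} (h : (app (FL k N d L))^[n] y = μ • y)
    (σ : L →ₐ[RatFunc k] AlgebraicClosure (RatFunc k)) :
    (app (Sh k N d))^[n] (fun i => σ (y i)) = σ μ • fun i => σ (y i) := by
  rw [iter_sh, h]
  funext i
  simp

/-- The invariants are integral. -/
theorem YL_mem (N d : ℕ) (hN : 1 ≤ N) (hd : 2 ≤ d)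
    (L : IntermediateField (RatFunc k) (AlgebraicClosure (RatFunc k)))
    (y : Fin (N + 1) → L) (hy : y ≠ 0) (n : ℕ) (μ : L) (hμ : μ ≠ 0)
    (h : (app (FL k N d L))^[n] y = μ • y) (j : ℕ)
    (V : ValuationSubring (AlgebraicClosure (RatFunc k)))
    (hc : algebraMap (RatFunc k) (AlgebraicClosure (RatFunc k)) RatFunc.X ∈ V) :
    (YL k d L y n μ j : AlgebraicClosure (RatFunc k)) ∈ V := by
  have hμσ : L.val μ ≠ 0 := (map_ne_zero L.val).2 hμ
  have h1 := shi_int N d hN hd V hc ((app (Sh k N d))^[j] fun i => L.val (y i)) ?_ n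
    (L.val μ ^ d ^ j) (pow_ne_zero _ hμσ) ?_
  · have h2 := Ys_emb d L y n μ L.val j
    unfold Ys Xs at h2
    rw [h2] at h1
    exact h1
  · refine iter_ne_zero (Sh k N d) (fun z hz => ?_) j (emb_ne hy L.val)
    have hcert := (ShIA.cert_shi N d hN (RatFunc.X : RatFunc k)).mp
      (algebraMap (RatFunc k) (AlgebraicClosure (RatFunc k)))
    exact hcert.eq_zero (by rw [map_one]; exact one_ne_zero) z hz
  · rw [← Function.iterate_add_apply, add_comm n j, Function.iterate_add_apply, emb_iter h L.val,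
      iter_smul d _ ShV.hom_sh]

/-- The sum of the values of the conjugates of an integral element. -/
theorem sum_eq [CharZero k] (L : IntermediateField (RatFunc k) (AlgebraicClosure (RatFunc k)))
    [FiniteDimensional (RatFunc k) L] (v : AlgebraicClosure (RatFunc k) → ℚ) (hv : IsInf k v)
    (t : L) (ht : t ≠ 0) (hm : ∀ V : ValuationSubring (AlgebraicClosure (RatFunc k)),
      algebraMap (RatFunc k) (AlgebraicClosure (RatFunc k)) RatFunc.X ∈ V →
        (∀ a : k, algebraMap k (AlgebraicClosure (RatFunc k)) a ∈ V) →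
        (t : AlgebraicClosure (RatFunc k)) ∈ V) :
    ∃ p : k[X], p ≠ 0 ∧ algebraMap k[X] (RatFunc k) p = Algebra.norm (RatFunc k) t ∧
      ∑ σ : L →ₐ[RatFunc k] AlgebraicClosure (RatFunc k), v (σ t) = -(p.natDegree : ℚ) := by
  obtain ⟨p, hp⟩ := norm_poly L t fun V hk hc => hm V hc hk
  have hn0 : Algebra.norm (RatFunc k) t ≠ 0 := Algebra.norm_ne_zero_iff.2 ht
  have hp0 : p ≠ 0 := by
    rintro rfl
    rw [map_zero] at hp
    exact hn0 hp.symm
  refine ⟨p, hp0, hp, ?_⟩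
  rw [← norm_val v hv.isQv L t ht, hv.base _ hn0, ← hp, RatFunc.intDegree_polynomial]
  push_cast
  rfl

theorem sum_nonpos [CharZero k]
    (L : IntermediateField (RatFunc k) (AlgebraicClosure (RatFunc k)))
    [FiniteDimensional (RatFunc k) L] (v : AlgebraicClosure (RatFunc k) → ℚ) (hv : IsInf k v)
    (t : L) (ht : t ≠ 0) (hm : ∀ V : ValuationSubring (AlgebraicClosure (RatFunc k)),
      algebraMap (RatFunc k) (AlgebraicClosure (RatFunc k)) RatFunc.X ∈ V →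
        (∀ a : k, algebraMap k (AlgebraicClosure (RatFunc k)) a ∈ V) →
        (t : AlgebraicClosure (RatFunc k)) ∈ V) :
    ∑ σ : L →ₐ[RatFunc k] AlgebraicClosure (RatFunc k), v (σ t) ≤ 0 := by
  obtain ⟨p, -, -, h⟩ := sum_eq L v hv t ht hm
  rw [h]
  have : (0 : ℚ) ≤ p.natDegree := by positivity
  linarith

theorem allC1 [CharZero k] (N d D : ℕ) (hN : 1 ≤ N) (hd : 2 ≤ d)
    (hD : D < ∑ i ∈ Finset.range (N + 1), d ^ i)
    (L : IntermediateField (RatFunc k) (AlgebraicClosure (RatFunc k)))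
    [FiniteDimensional (RatFunc k) L] (hL : Module.finrank (RatFunc k) L ≤ D)
    (y : Fin (N + 1) → L) (hy : y ≠ 0) (n : ℕ) (hn : 1 ≤ n) (μ : L) (hμ : μ ≠ 0)
    (h : (app (FL k N d L))^[n] y = μ • y) (v : AlgebraicClosure (RatFunc k) → ℚ)
    (hv : IsInf k v) : ∀ (σ : L →ₐ[RatFunc k] AlgebraicClosure (RatFunc k)) (j : ℕ),
      ¬ XL k d L y j = 0 ∧
        (d : ℚ) * (d ^ N - 1) * v (σ (YL k d L y n μ j)) = -(d ^ n - 1) := by
  classical
  have hμσ : ∀ σ : L →ₐ[RatFunc k] AlgebraicClosure (RatFunc k), σ μ ≠ 0 := fun σ => (map_ne_zero σ).2 hμ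
  have hcard : Fintype.card (L →ₐ[RatFunc k] AlgebraicClosure (RatFunc k)) = Module.finrank (RatFunc k) L :=
    AlgHom.card (RatFunc k) L (AlgebraicClosure (RatFunc k))
  set D' : ℕ := Fintype.card (L →ₐ[RatFunc k] AlgebraicClosure (RatFunc k)) with hD'def
  have hDD : D' ≤ D := hcard.le.trans hL
  have hdN : (0 : ℚ) < d ^ N - 1 := ShV.pow_sub_pos hd hN
  have hdn : (0 : ℚ) < d ^ n - 1 := ShV.pow_sub_pos hd hn
  have hd0 : (0 : ℚ) < d := by positivity
  have hYX : ∀ j, XL k d L y j ≠ 0 → YL k d L y n μ j ≠ 0 := fun j hj =>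
    div_ne_zero (pow_ne_zero _ hj) (pow_ne_zero _ hμ)
  have hsum : ∀ j, XL k d L y j ≠ 0 →
      ∑ σ : L →ₐ[RatFunc k] AlgebraicClosure (RatFunc k), v (σ (YL k d L y n μ j)) ≤ 0 := fun j hj =>
    sum_nonpos L v hv _ (hYX j hj) fun V hc _ => YL_mem N d hN hd L y hy n μ hμ h j V hc
  have hcls := fun σ : L →ₐ[RatFunc k] AlgebraicClosure (RatFunc k) => shi_cls N d hN hd v hv (fun i => σ (y i)) (emb_ne hy σ)
    n hn (σ μ) (hμσ σ) (emb_iter h σ)
  simp only [Xs_emb, Ys_emb, ne_eq, map_eq_zero] at hcls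
  set X := XL k d L y with hX
  set Y := YL k d L y n μ with hY
  have hlow : ∀ (σ : L →ₐ[RatFunc k] AlgebraicClosure (RatFunc k)) j, X j ≠ 0 →
      -((d : ℚ) ^ n - 1) ≤ d * (d ^ N - 1) * v (σ (Y j)) := fun σ j hj => (hcls σ).1 j hj
  by_cases hA : ∃ σ₀ : L →ₐ[RatFunc k] AlgebraicClosure (RatFunc k), ∀ j, ¬ X j = 0 ∧
      ((d : ℚ) - 1) * v (σ₀ (Y j)) = d ^ n - 1
  · -- type A
    exfalso
    obtain ⟨σ₀, hσ₀⟩ := hA
    obtain ⟨hX0, h1⟩ := hσ₀ 0
    have h2 : d * (d ^ N - 1) * ∑ σ : L →ₐ[RatFunc k] AlgebraicClosure (RatFunc k), v (σ (Y 0)) ≤ 0 :=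
      mul_nonpos_of_nonneg_of_nonpos (by positivity) (hsum 0 hX0)
    rw [Finset.mul_sum, ← Finset.add_sum_erase _ _ (Finset.mem_univ σ₀)] at h2
    have h3 : ((D' : ℚ) - 1) * (-((d : ℚ) ^ n - 1)) ≤
        ∑ σ ∈ Finset.univ.erase σ₀, d * (d ^ N - 1) * v (σ (Y 0)) := by
      have h4 := Finset.card_nsmul_le_sum (Finset.univ.erase σ₀)
        (fun σ : L →ₐ[RatFunc k] AlgebraicClosure (RatFunc k) => d * (d ^ N - 1) * v (σ (Y 0))) (-((d : ℚ) ^ n - 1))
        (fun σ _ => hlow σ 0 hX0)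
      rw [Finset.card_erase_of_mem (Finset.mem_univ _), Finset.card_univ, ← hD'def, nsmul_eq_mul,
        Nat.cast_sub (Fintype.card_pos_iff.2 ⟨σ₀⟩), Nat.cast_one] at h4
      exact h4
    have h5 := caseA d N D' (d ^ n - 1) hd hdn (v (σ₀ (Y 0))) h1 (by linarith)
    omega
  by_cases hC : ∃ (σ₀ : L →ₐ[RatFunc k] AlgebraicClosure (RatFunc k)) (j : ℕ), ¬ X j = 0 ∧
      (d : ℚ) ^ 2 * (d ^ N - 1) * v (σ₀ (Y j)) = (d ^ n - 1) * (d ^ (N + 1) - d - 1)
  · -- type C2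
    exfalso
    obtain ⟨σ₀, j, hXj, h1⟩ := hC
    have h2 : d * (d ^ N - 1) * ∑ σ : L →ₐ[RatFunc k] AlgebraicClosure (RatFunc k), v (σ (Y j)) ≤ 0 :=
      mul_nonpos_of_nonneg_of_nonpos (by positivity) (hsum j hXj)
    have hs2 : 2 ≤ (Finset.univ.filter fun σ : L →ₐ[RatFunc k] AlgebraicClosure (RatFunc k) =>
        v (σ (Y j)) = v (σ₀ (Y j))).card :=
      (den_ge d N n hd hn _ h1).trans (nwt v hv.isQv L (Y j) (hYX j hXj) σ₀)
    set S := Finset.univ.filter fun σ : L →ₐ[RatFunc k] AlgebraicClosure (RatFunc k) => v (σ (Y j)) = v (σ₀ (Y j)) with hS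
    rw [Finset.mul_sum, ← Finset.sum_filter_add_sum_filter_not Finset.univ
      (fun σ : L →ₐ[RatFunc k] AlgebraicClosure (RatFunc k) => v (σ (Y j)) = v (σ₀ (Y j)))] at h2
    have h3 : ∑ σ ∈ S, d * (d ^ N - 1) * v (σ (Y j)) =
        S.card * (d * (d ^ N - 1) * v (σ₀ (Y j))) := by
      rw [Finset.sum_congr rfl fun σ hσ' => by rw [(Finset.mem_filter.1 hσ').2],
        Finset.sum_const, nsmul_eq_mul]
    have hcc : S.card + (Finset.univ.filter fun σ : L →ₐ[RatFunc k] AlgebraicClosure (RatFunc k) =>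
        ¬ v (σ (Y j)) = v (σ₀ (Y j))).card = D' := by
      rw [hS, Finset.card_filter_add_card_filter_not, Finset.card_univ]
    have h4 : ((D' : ℚ) - S.card) * (-((d : ℚ) ^ n - 1)) ≤
        ∑ σ ∈ Finset.univ.filter (fun σ : L →ₐ[RatFunc k] AlgebraicClosure (RatFunc k) =>
          ¬ v (σ (Y j)) = v (σ₀ (Y j))), d * (d ^ N - 1) * v (σ (Y j)) := by
      have h5 := Finset.card_nsmul_le_sum (Finset.univ.filter fun σ : L →ₐ[RatFunc k] AlgebraicClosure (RatFunc k) =>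
        ¬ v (σ (Y j)) = v (σ₀ (Y j)))
        (fun σ : L →ₐ[RatFunc k] AlgebraicClosure (RatFunc k) => d * (d ^ N - 1) * v (σ (Y j))) (-((d : ℚ) ^ n - 1))
        (fun σ _ => hlow σ j hXj)
      rw [nsmul_eq_mul] at h5
      have h6 : ((Finset.univ.filter fun σ : L →ₐ[RatFunc k] AlgebraicClosure (RatFunc k) =>
          ¬ v (σ (Y j)) = v (σ₀ (Y j))).card : ℚ) = D' - S.card := by
        rw [← hcc]
        push_cast
        ring
      rw [h6] at h5
      exact h5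
    have h7 := caseC d N D' S.card (d ^ n - 1) hd hN hdn (v (σ₀ (Y j))) hs2 h1 (by
      rw [← h3]
      linarith)
    omega
  intro σ j
  rcases (hcls σ).2 with h1 | h1 | h1
  · exact absurd ⟨σ, h1⟩ hA
  · exact h1 j
  · exact absurd ⟨σ, h1⟩ hC

theorem core [CharZero k] (N d D : ℕ) (hN : 1 ≤ N) (hd : 2 ≤ d)
    (hD : D < ∑ i ∈ Finset.range (N + 1), d ^ i) (hD' : D + d < d ^ (N + 1))
    (L : IntermediateField (RatFunc k) (AlgebraicClosure (RatFunc k)))
    [FiniteDimensional (RatFunc k) L] (hL : Module.finrank (RatFunc k) L ≤ D)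
    (y : Fin (N + 1) → L) (hy : y ≠ 0) (n : ℕ) (hn : 1 ≤ n) (μ : L) (hμ : μ ≠ 0)
    (h : (app (FL k N d L))^[n] y = μ • y) : False := by
  classical
  obtain ⟨v, hv⟩ := exists_isInf k
  have hC1 := allC1 N d D hN hd hD L hL y hy n hn μ hμ h v hv
  have hμσ : ∀ σ : L →ₐ[RatFunc k] AlgebraicClosure (RatFunc k), σ μ ≠ 0 := fun σ => (map_ne_zero σ).2 hμ
  have hcard : Fintype.card (L →ₐ[RatFunc k] AlgebraicClosure (RatFunc k)) = Module.finrank (RatFunc k) L :=
    AlgHom.card (RatFunc k) L (AlgebraicClosure (RatFunc k))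
  set D' : ℕ := Fintype.card (L →ₐ[RatFunc k] AlgebraicClosure (RatFunc k)) with hD'def
  have hDD : D' ≤ D := hcard.le.trans hL
  have hdN : (0 : ℚ) < d ^ N - 1 := ShV.pow_sub_pos hd hN
  have hdn : (0 : ℚ) < d ^ n - 1 := ShV.pow_sub_pos hd hn
  have hd0 : (0 : ℚ) < d := by positivity
  have hddN : (0 : ℚ) < d * (d ^ N - 1) := mul_pos hd0 hdN
  have hX0 : XL k d L y 0 ≠ 0 := (hC1 L.val 0).1
  have hY0 : YL k d L y n μ 0 ≠ 0 := div_ne_zero (pow_ne_zero _ hX0) (pow_ne_zero _ hμ)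
  obtain ⟨p, hp0, hpn, hp⟩ := sum_eq L v hv _ hY0 fun V hc _ =>
    YL_mem N d hN hd L y hy n μ hμ h 0 V hc
  set Y₀ : L := YL k d L y n μ 0 with hY₀
  have hdeg : d * (d ^ N - 1) * (p.natDegree : ℚ) = D' * (d ^ n - 1) := by
    have h1 : d * (d ^ N - 1) * ∑ σ : L →ₐ[RatFunc k] AlgebraicClosure (RatFunc k), v (σ (Y₀)) = -(D' * (d ^ n - 1)) := by
      rw [Finset.mul_sum, Finset.sum_congr rfl fun σ _ => (hC1 σ 0).2, Finset.sum_const,
        Finset.card_univ, nsmul_eq_mul]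
      ring
    rw [hp] at h1
    linarith
  have hD'pos : 0 < D' := Fintype.card_pos_iff.2 ⟨L.val⟩
  have hppos : 0 < p.natDegree := by
    by_contra h0
    have h1 : p.natDegree = 0 := by omega
    rw [h1, Nat.cast_zero, mul_zero] at hdeg
    have : (0 : ℚ) < D' * (d ^ n - 1) := mul_pos (by exact_mod_cast hD'pos) hdn
    linarith
  obtain ⟨w, hw, hwq, hwp, hwpd⟩ := exists_fin k p hppos
  have hwc : 0 ≤ w (algebraMap (RatFunc k) _ RatFunc.X) := by
    have := hwq X X_ne_zero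
    rwa [RatFunc.algebraMap_X] at this
  have hwsum : ∑ σ : L →ₐ[RatFunc k] AlgebraicClosure (RatFunc k), w (σ (Y₀)) =
      w (algebraMap (RatFunc k) _ (algebraMap k[X] (RatFunc k) p)) := by
    rw [← norm_val w hw L (Y₀) hY0, hpn]
  have hy0 : y 0 ≠ 0 := hX0
  have hfin := fun σ : L →ₐ[RatFunc k] AlgebraicClosure (RatFunc k) => shi_fin N d hN hd w hw hwc (fun i => σ (y i))
    ((map_ne_zero σ).2 hy0) n (σ μ) (hμσ σ) (emb_iter h σ)
  have hYL0 : ∀ σ : L →ₐ[RatFunc k] AlgebraicClosure (RatFunc k), σ (y 0) ^ (d ^ n - 1) / σ μ = σ (Y₀) := by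
    intro σ
    rw [hY₀]
    unfold YL XL
    simp only [map_div₀, map_pow, pow_zero, pow_one, Function.iterate_zero, id_eq]
  simp only [hYL0] at hfin
  have hone : w 1 = 0 := by
    have h1 := hw.mul 1 1 one_ne_zero one_ne_zero
    rw [mul_one] at h1
    linarith
  have hnn : ∀ σ : L →ₐ[RatFunc k] AlgebraicClosure (RatFunc k), 0 ≤ w (σ (Y₀)) := by
    intro σ
    have h1 := (hfin σ).1 0 ((map_ne_zero σ).2 hy0)
    rw [div_self ((map_ne_zero σ).2 hy0), hone, mul_zero] at h1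
    exact h1
  obtain ⟨σ₀, -, hσ₀⟩ : ∃ σ₀ ∈ (Finset.univ : Finset (L →ₐ[RatFunc k] AlgebraicClosure (RatFunc k))), 0 < w (σ₀ (Y₀)) := by
    refine Finset.exists_lt_of_sum_lt (f := fun _ => (0 : ℚ)) ?_
    rw [Finset.sum_const_zero, hwsum]
    exact hwp
  obtain ⟨i, hi, hiv⟩ := (hfin σ₀).2
  have hyi : y i ≠ 0 := (map_ne_zero σ₀).1 hi
  set u : L := y 0 / y i with hu
  have hu0 : u ≠ 0 := div_ne_zero hy0 hyi
  have huσ : ∀ σ : L →ₐ[RatFunc k] AlgebraicClosure (RatFunc k), σ (y 0) / σ (y i) = σ u := fun σ => (map_div₀ σ _ _).symm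
  rw [huσ] at hiv
  have hapos : 0 < w (σ₀ u) := by
    by_contra h0
    push Not at h0
    rw [hiv] at hσ₀
    nlinarith
  have hnw := nwt w hw L u hu0 σ₀
  set S := Finset.univ.filter fun σ : L →ₐ[RatFunc k] AlgebraicClosure (RatFunc k) => w (σ u) = w (σ₀ u) with hS
  have h1 : (S.card : ℚ) * ((d ^ n - 1) * w (σ₀ u)) ≤ ∑ σ : L →ₐ[RatFunc k] AlgebraicClosure (RatFunc k), w (σ (Y₀)) := by
    have h2 := Finset.card_nsmul_le_sum S (fun σ : L →ₐ[RatFunc k] AlgebraicClosure (RatFunc k) => w (σ (Y₀)))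
      ((d ^ n - 1) * w (σ₀ u)) (fun σ hσS => by
        have h3 := (hfin σ).1 i ((map_ne_zero σ).2 hyi)
        rw [huσ, (Finset.mem_filter.1 hσS).2] at h3
        exact h3)
    rw [nsmul_eq_mul] at h2
    exact h2.trans (Finset.sum_le_sum_of_subset_of_nonneg (Finset.subset_univ _)
      fun σ _ _ => hnn σ)
  have h2 : (1 : ℚ) ≤ S.card * w (σ₀ u) := by
    have h3 : (1 : ℚ) ≤ (w (σ₀ u)).den * w (σ₀ u) := by
      rw [mul_comm, Rat.mul_den_eq_num]
      exact_mod_cast Rat.num_pos.2 hapos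
    have h4 : ((w (σ₀ u)).den : ℚ) ≤ S.card := by exact_mod_cast hnw
    nlinarith
  have h3 : (d : ℚ) ^ n - 1 ≤ p.natDegree := by
    refine le_trans ?_ (h1.trans (hwsum.le.trans hwpd))
    nlinarith
  have h4 : (d : ℚ) * (d ^ N - 1) ≤ D' := by
    have h5 : d * (d ^ N - 1) * ((d : ℚ) ^ n - 1) ≤ D' * (d ^ n - 1) := by
      rw [← hdeg]
      exact mul_le_mul_of_nonneg_left h3 hddN.le
    exact le_of_mul_le_mul_right h5 hdn
  have h5 : (D' : ℚ) + d < d ^ (N + 1) := by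
    have : D' + d < d ^ (N + 1) := by omega
    exact_mod_cast this
  rw [pow_succ] at h5
  nlinarith

end ShQ

theorem shi_sharp {k : Type} [Field k] [CharZero k] (N d D : ℕ) (hN : 1 ≤ N) (hd : 2 ≤ d)
    (hD : D < ∑ i ∈ Finset.range (N + 1), d ^ i) (hD' : D + d < d ^ (N + 1))
    (x : Fin (N + 1) → AlgebraicClosure (RatFunc k)) (hx : x ≠ 0) (hxD : DegLe (RatFunc k) D x)
    (a b : ℕ) (hab : a < b) :
    ¬ Par ((app (Sh k N d))^[a] x) ((app (Sh k N d))^[b] x) := by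
  intro hp
  have hcert := (ShIA.cert_shi N d hN (RatFunc.X : RatFunc k)).mp
    (algebraMap (RatFunc k) (AlgebraicClosure (RatFunc k)))
  have h0 : ∀ z, app (Sh k N d) z = 0 → z = 0 := fun z hz =>
    hcert.eq_zero (by rw [map_one]; exact one_ne_zero) z hz
  obtain ⟨θ, hθ, hxθ⟩ := degLe_iter (shi N d (RatFunc.X : RatFunc k)) x hxD a
  have hint : IsIntegral (RatFunc k) θ := Algebra.IsIntegral.isIntegral θ
  set L := IntermediateField.adjoin (RatFunc k) {θ} with hL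
  have : FiniteDimensional (RatFunc k) L := IntermediateField.adjoin.finiteDimensional hint
  have hfr : Module.finrank (RatFunc k) L ≤ D :=
    (IntermediateField.adjoin.finrank hint).le.trans hθ
  set z := (app (Sh k N d))^[a] x with hz
  have hz0 : z ≠ 0 := iter_ne_zero (Sh k N d) h0 a hx
  have hzθ : ∀ i, z i ∈ L := hxθ
  set y : Fin (N + 1) → L := fun i => ⟨z i, hzθ i⟩ with hy
  have hyz : ∀ i, L.val (y i) = z i := fun i => rfl
  have hy0 : y ≠ 0 := by
    intro h1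
    apply hz0
    funext i
    rw [← hyz, h1]
    simp
  obtain ⟨n, hn⟩ : ∃ n, b = n + a := ⟨b - a, by omega⟩
  have hn1 : 1 ≤ n := by omega
  rw [hn, Function.iterate_add_apply, ← hz] at hp
  have hit := ShQ.iter_sh N d L L.val y n
  have hyz' : (fun i => L.val (y i)) = z := rfl
  rw [hyz'] at hit
  have hpar : Par y ((app (ShQ.FL k N d L))^[n] y) := by
    rw [hit] at hp
    intro i j
    have h1 := hp i j
    rw [← hyz i, ← hyz j, ← map_mul, ← map_mul] at h1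
    exact L.val.injective h1
  obtain ⟨μ, hμ⟩ := hpar.exists_smul hy0
  have hμ0 : μ ≠ 0 := by
    rintro rfl
    rw [zero_smul] at hμ
    rw [hμ] at hit
    refine iter_ne_zero (Sh k N d) h0 n hz0 ?_
    rw [hit]
    funext i
    simp
  exact ShQ.core N d D hN hd hD hD' L hfr y hy0 n hn1 μ hμ0 hμ

end Pool.Agent.PNH
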