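import Mathlib
import Pool.Agent.PNH.Nwt

set_option autoImplicit false

/-!
# Totally ramified extensions: all embeddings have the same values
-/

namespace Pool.Agent.PNH

namespace TRmA

open NwtA

variable {E Ω : Type} [Field E] [Field Ω] [Algebra E Ω] {v : Ω → ℚ}

theorem val_pow (hv : IsQv E v) {z : Ω} (hz : z ≠ 0) (i : ℕ) : v (z ^ i) = i * v z := by
  induction i with
  | zero => simpa using one hv
  | succ i ih =>
    rw [pow_succ, hv.mul _ _ (pow_ne_zero _ hz) hz, ih]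
    push_cast
    ring

/-- the value of `∑ e_i z ^ i`, `z` of value `1 / m` -/
theorem val_sum (hv : IsQv E v) {m : ℕ} {z : Ω} (hz : z ≠ 0) (hm : (m : ℚ) * v z = 1)
    (e : Fin m → E) (i0 : Fin m) (h0 : e i0 ≠ 0)
    (hmin : ∀ i, e i ≠ 0 → v (algebraMap E Ω (e i0)) + ((i0 : ℕ) : ℚ) * v z ≤
      v (algebraMap E Ω (e i)) + ((i : ℕ) : ℚ) * v z) :
    (∑ i, algebraMap E Ω (e i) * z ^ (i : ℕ)) ≠ 0 ∧
      v (∑ i, algebraMap E Ω (e i) * z ^ (i : ℕ)) =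
        v (algebraMap E Ω (e i0)) + ((i0 : ℕ) : ℚ) * v z := by
  classical
  have hm0 : (m : ℚ) ≠ 0 := by
    intro h
    rw [h, zero_mul] at hm
    exact zero_ne_one hm
  have hne : ∀ i, e i ≠ 0 → algebraMap E Ω (e i) ≠ 0 := fun i hi =>
    (_root_.map_ne_zero (algebraMap E Ω)).2 hi
  rw [← Finset.add_sum_erase _ _ (Finset.mem_univ i0)]
  refine dom hv (mul_ne_zero (hne i0 h0) (pow_ne_zero _ hz))
    (by rw [hv.mul _ _ (hne i0 h0) (pow_ne_zero _ hz), val_pow hv hz]) ?_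
  refine Gt.sum hv _ _ fun i hi => ?_
  have hi0 : i ≠ i0 := (Finset.mem_erase.1 hi).1
  by_cases h1 : e i = 0
  · left
    rw [h1, map_zero, zero_mul]
  right
  rw [hv.mul _ _ (hne i h1) (pow_ne_zero _ hz), val_pow hv hz]
  refine lt_of_le_of_ne (hmin i h1) fun h2 => hi0 ?_
  obtain ⟨a, ha⟩ := hv.int (e i0) h0
  obtain ⟨b, hb⟩ := hv.int (e i) h1
  rw [ha, hb] at h2
  have h3 : (m : ℚ) * a + ((i0 : ℕ) : ℚ) = m * b + ((i : ℕ) : ℚ) := by
    linear_combination (m : ℚ) * h2 + ((i : ℕ) : ℚ) * hm - ((i0 : ℕ) : ℚ) * hm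
  have h4 : (m : ℤ) * a + ((i0 : ℕ) : ℤ) = m * b + ((i : ℕ) : ℤ) := by exact_mod_cast h3
  have h5 := i.2
  have h6 := i0.2
  have h7 : ((i : ℕ) : ℤ) - ((i0 : ℕ) : ℤ) = m * (a - b) := by linear_combination -h4
  have h8 : (m : ℤ) ∣ ((i : ℕ) : ℤ) - ((i0 : ℕ) : ℤ) := ⟨_, h7⟩
  have h9 : ((i : ℕ) : ℤ) - ((i0 : ℕ) : ℤ) = 0 := by
    refine Int.eq_zero_of_abs_lt_dvd h8 ?_
    rw [abs_lt]
    constructor <;> omega
  exact Fin.ext (by omega)

theorem exists_min {m : ℕ} (w : Fin m → ℚ) (e : Fin m → E) (he : ∃ i, e i ≠ 0) :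
    ∃ i0, e i0 ≠ 0 ∧ ∀ i, e i ≠ 0 → w i0 ≤ w i := by
  classical
  obtain ⟨i, hi⟩ := he
  obtain ⟨i0, h0, h1⟩ := Finset.exists_min_image (Finset.univ.filter fun i => e i ≠ 0) w
    ⟨i, Finset.mem_filter.2 ⟨Finset.mem_univ _, hi⟩⟩
  exact ⟨i0, (Finset.mem_filter.1 h0).2, fun i hi => h1 i (Finset.mem_filter.2
    ⟨Finset.mem_univ _, hi⟩)⟩

end TRmA

open TRmA in
theorem tot_ram {E Ω : Type} [Field E] [CharZero E] [Field Ω] [IsAlgClosed Ω] [Algebra E Ω]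
    (v : Ω → ℚ) (hv : IsQv E v) (L : IntermediateField E Ω) [FiniteDimensional E L] (m : ℕ)
    (hm : Module.finrank E L = m) (z : L) (hz : z ≠ 0)
    (h : ∀ σ : L →ₐ[E] Ω, (m : ℚ) * v (σ z) = 1) (g : L) (hg : g ≠ 0) (σ τ : L →ₐ[E] Ω) :
    v (σ g) = v (τ g) := by
  have hσ : ∀ (ρ : L →ₐ[E] Ω) (e : Fin m → E), ρ (∑ i, e i • z ^ (i : ℕ)) =
      ∑ i, algebraMap E Ω (e i) * (ρ z) ^ (i : ℕ) := by
    intro ρ e
    rw [map_sum]
    refine Finset.sum_congr rfl fun i _ => ?_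
    rw [Algebra.smul_def, map_mul, map_pow, ρ.commutes]
  have hz' : ∀ ρ : L →ₐ[E] Ω, ρ z ≠ 0 := fun ρ => (_root_.map_ne_zero ρ).2 hz
  have hli : LinearIndependent E fun i : Fin m => z ^ (i : ℕ) := by
    rw [Fintype.linearIndependent_iff]
    intro e he i
    by_contra hi
    obtain ⟨i0, h0, hmin⟩ := exists_min (fun i => v (algebraMap E Ω (e i)) +
      ((i : ℕ) : ℚ) * v (σ z)) e ⟨i, hi⟩
    have h1 := (val_sum hv (hz' σ) (h σ) e i0 h0 hmin).1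
    rw [← hσ, he, map_zero] at h1
    exact h1 rfl
  have hspan := hli.span_eq_top_of_card_eq_finrank' (by rw [Fintype.card_fin, hm])
  have hmem : g ∈ Submodule.span E (Set.range fun i : Fin m => z ^ (i : ℕ)) := by
    rw [hspan]
    exact Submodule.mem_top
  obtain ⟨e, he⟩ := (Submodule.mem_span_range_iff_exists_fun E).1 hmem
  have hex : ∃ i, e i ≠ 0 := by
    by_contra hno
    push Not at hno
    apply hg
    rw [← he]
    refine Finset.sum_eq_zero fun i _ => ?_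
    rw [hno i, zero_smul]
  obtain ⟨i0, h0, hmin⟩ := exists_min (fun i => v (algebraMap E Ω (e i)) +
    ((i : ℕ) : ℚ) * v (σ z)) e hex
  have hst : v (σ z) = v (τ z) := by
    have h1 := h σ
    have h2 := h τ
    have hm0 : (m : ℚ) ≠ 0 := by
      intro h3
      rw [h3, zero_mul] at h1
      exact zero_ne_one h1
    exact mul_left_cancel₀ hm0 (h1.trans h2.symm)
  have h1 := (val_sum hv (hz' σ) (h σ) e i0 h0 hmin).2
  have h2 := (val_sum hv (hz' τ) (h τ) e i0 h0 (by rw [← hst]; exact hmin)).2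
  rw [← he, hσ, hσ, h1, h2, hst]

end Pool.Agent.PNH
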