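import Mathlib
import Pool.Agent.PNH.ShQ
import Pool.Agent.PNH.TRm

set_option autoImplicit false

/-!
# The least degree of a preperiodic point of `shi` over `k(c)`: the last case
-/

namespace Pool.Agent.PNH

open Polynomial

namespace ShR

open ShQ

variable {k : Type} [Field k]

section terms

variable {N : ℕ} (L : IntermediateField (RatFunc k) (AlgebraicClosure (RatFunc k)))
  (y : Fin (N + 1) → L)

/-- The recursion over the intermediate field. -/
theorem XL_rec (j : ℕ) : XL k 2 L y (j + N + 1) =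
    algebraMap (RatFunc k) L RatFunc.X * XL k 2 L y (j + N) ^ 2 + XL k 2 L y j ^ 2 ^ (N + 1) := by
  apply L.val.injective
  have h := ShV.rec (d := 2) (fun i => L.val (y i)) j
  have e : ∀ t, ShV.XX N 2 (fun i => L.val (y i)) t = L.val (XL k 2 L y t) := fun t =>
    Xs_emb 2 L y L.val t
  rw [e, e, e] at h
  change L.val (XL k 2 L y (j + N + 1)) = L.val (algebraMap (RatFunc k) L RatFunc.X *
    XL k 2 L y (j + N) ^ 2 + XL k 2 L y j ^ 2 ^ (N + 1))
  rw [h, map_add, map_mul, map_pow, map_pow, AlgHom.commutes]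

/-- `V_j`. -/
noncomputable def VV (j : ℕ) : L := XL k 2 L y j ^ 2 ^ N / XL k 2 L y (j + N)

/-- `Z_j`. -/
noncomputable def ZZ (j : ℕ) : L := XL k 2 L y (j + N + 1) / XL k 2 L y (j + N) ^ 2

theorem ZZ_eq (hX : ∀ j, XL k 2 L y j ≠ 0) (j : ℕ) :
    ZZ L y j = algebraMap (RatFunc k) L RatFunc.X + VV L y j ^ 2 := by
  unfold ZZ VV
  rw [XL_rec, add_div, mul_div_cancel_right₀ _ (pow_ne_zero _ (hX _)), div_pow, ← pow_mul, ← pow_succ]

theorem VV_ne (hX : ∀ j, XL k 2 L y j ≠ 0) (j : ℕ) : VV L y j ≠ 0 :=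
  div_ne_zero (pow_ne_zero _ (hX _)) (hX _)

theorem ZZ_ne (hX : ∀ j, XL k 2 L y j ≠ 0) (j : ℕ) : ZZ L y j ≠ 0 :=
  div_ne_zero (hX _) (pow_ne_zero _ (hX _))

theorem VV_YL (hX : ∀ j, XL k 2 L y j ≠ 0) (n : ℕ) (μ : L) (hμ : μ ≠ 0) (j : ℕ) :
    VV L y j ^ (2 ^ n - 1) * YL k 2 L y n μ (j + N) = YL k 2 L y n μ j ^ 2 ^ N := by
  unfold VV YL
  have h1 := hX (j + N)
  have h2 := hX j
  rw [div_pow, div_pow, ← pow_mul, ← pow_mul, ← pow_mul, ← pow_add, mul_comm (2 ^ N)]
  field_simp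

theorem ZZ_YL (hX : ∀ j, XL k 2 L y j ≠ 0) (n : ℕ) (μ : L) (hμ : μ ≠ 0) (j : ℕ) :
    ZZ L y j ^ (2 ^ n - 1) * YL k 2 L y n μ (j + N) ^ 2 = YL k 2 L y n μ (j + N + 1) := by
  unfold ZZ YL
  have h1 := hX (j + N)
  rw [div_pow, div_pow, ← pow_mul, ← pow_mul, ← pow_mul, pow_succ 2 (j + N), mul_comm 2 (2 ^ n - 1)]
  field_simp

end terms

theorem core2 [CharZero k] (N : ℕ) (hN : 2 ≤ N)
    (L : IntermediateField (RatFunc k) (AlgebraicClosure (RatFunc k)))
    [FiniteDimensional (RatFunc k) L] (hL : Module.finrank (RatFunc k) L = 2 ^ (N + 1) - 2)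
    (y : Fin (N + 1) → L) (hy : y ≠ 0) (n : ℕ) (hn : 1 ≤ n) (μ : L) (hμ : μ ≠ 0)
    (h : (app (FL k N 2 L))^[n] y = μ • y) : False := by
  classical
  obtain ⟨v, hv⟩ := exists_isInf k
  have hpw : 8 ≤ 2 ^ (N + 1) := by
    calc 8 = 2 ^ 3 := by norm_num
      _ ≤ 2 ^ (N + 1) := Nat.pow_le_pow_right (by norm_num) (by omega)
  have hgeo : ∑ i ∈ Finset.range (N + 1), 2 ^ i = 2 ^ (N + 1) - 1 := Nat.geomSum_eq (by norm_num) _ |>.trans (by simp)
  have hC1 := allC1 N 2 (2 ^ (N + 1) - 2) (by omega) le_rfl (by rw [hgeo]; omega) L hL.le y hy n hn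
    μ hμ h v hv
  have hX : ∀ j, XL k 2 L y j ≠ 0 := fun j => (hC1 L.val j).1
  have hcard : Fintype.card (L →ₐ[RatFunc k] AlgebraicClosure (RatFunc k)) =
      2 ^ (N + 1) - 2 := by rw [AlgHom.card, hL]
  have hp2 : (4 : ℚ) ≤ 2 ^ N := by
    calc (4 : ℚ) = 2 ^ 2 := by norm_num
      _ ≤ 2 ^ N := pow_le_pow_right₀ (by norm_num) hN
  have hq0 : (0 : ℚ) < 2 ^ n - 1 := ShV.pow_sub_pos (d := 2) le_rfl hn
  have hqc : ((2 ^ n - 1 : ℕ) : ℚ) = 2 ^ n - 1 := by
    rw [Nat.cast_sub (Nat.one_le_two_pow)]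
    push_cast
    rfl
  have hmc : ((2 ^ (N + 1) - 2 : ℕ) : ℚ) = 2 * 2 ^ N - 2 := by
    rw [Nat.cast_sub (by omega)]
    push_cast
    rw [pow_succ]
    ring
  set P : ℚ := 2 ^ N with hP
  set q : ℚ := 2 ^ n - 1 with hq
  set X := XL k 2 L y with hXdef
  set Y := YL k 2 L y n μ with hYdef
  have hY0 : ∀ j, Y j ≠ 0 := fun j => div_ne_zero (pow_ne_zero _ (hX j)) (pow_ne_zero _ hμ)
  have hσ0 : ∀ (σ : L →ₐ[RatFunc k] AlgebraicClosure (RatFunc k)) {g : L}, g ≠ 0 → σ g ≠ 0 :=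
    fun σ _ hg => (map_ne_zero σ).2 hg
  have hvY : ∀ (σ : L →ₐ[RatFunc k] AlgebraicClosure (RatFunc k)) j,
      v (σ (Y j)) = -q / (2 * (P - 1)) := by
    intro σ j
    have h1 := (hC1 σ j).2
    have h2 : (0 : ℚ) < 2 * (P - 1) := by linarith
    rw [eq_div_iff h2.ne']
    push_cast at h1
    linear_combination h1
  have hvV : ∀ (σ : L →ₐ[RatFunc k] AlgebraicClosure (RatFunc k)) j,
      v (σ (VV L y j)) = -1 / 2 := by
    intro σ j
    have h1 := congrArg (fun t => v (σ t)) (VV_YL L y hX n μ hμ j)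
    simp only [map_mul, map_pow] at h1
    rw [hv.mul _ _ (pow_ne_zero _ (hσ0 σ (VV_ne L y hX j))) (hσ0 σ (hY0 _)),
      ShV.v_pow hv (hσ0 σ (VV_ne L y hX j)), ShV.v_pow hv (hσ0 σ (hY0 _)), hvY, hvY, hqc] at h1
    push_cast at h1
    have h2 : P - 1 ≠ 0 := by linarith
    have e : -q / (2 * (P - 1)) * (P - 1) = -q / 2 := by field_simp
    have h3 : q * v (σ (VV L y j)) = q * (-1 / 2) := by
      rw [← hP] at h1
      linear_combination h1 + e
    exact mul_left_cancel₀ hq0.ne' h3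
  have hvZ : ∀ (σ : L →ₐ[RatFunc k] AlgebraicClosure (RatFunc k)) j,
      v (σ (ZZ L y j)) = 1 / (2 * (P - 1)) := by
    intro σ j
    have h1 := congrArg (fun t => v (σ t)) (ZZ_YL L y hX n μ hμ j)
    simp only [map_mul, map_pow] at h1
    rw [hv.mul _ _ (pow_ne_zero _ (hσ0 σ (ZZ_ne L y hX j))) (pow_ne_zero _ (hσ0 σ (hY0 _))),
      ShV.v_pow hv (hσ0 σ (ZZ_ne L y hX j)), ShV.v_pow hv (hσ0 σ (hY0 _)), hvY, hvY, hqc] at h1
    push_cast at h1
    have h2 : P - 1 ≠ 0 := by linarith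
    have h3 : q * v (σ (ZZ L y j)) = q * (1 / (2 * (P - 1))) := by
      field_simp at h1 ⊢
      linear_combination h1
    exact mul_left_cancel₀ hq0.ne' h3
  have htr := tot_ram v hv.isQv L (2 ^ (N + 1) - 2) hL (ZZ L y 0) (ZZ_ne L y hX 0) (fun σ => by
    rw [hvZ, hmc]
    have h2 : P - 1 ≠ 0 := by linarith
    field_simp)
  have hv2 : v 2 = 0 := by
    have h1 := hv.base (RatFunc.C 2) (by simp)
    rw [RatFunc.intDegree_C, map_ofNat, map_ofNat] at h1
    rw [h1]
    norm_num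
  -- no conjugate sum or difference is small
  have hbound : ∀ (i j : ℕ) (ε : L), ε ^ 2 = 1 → VV L y i + ε * VV L y j ≠ 0 →
      v (L.val (VV L y i + ε * VV L y j)) ≤ 1 / (P - 1) := by
    intro i j ε hε hG
    set G := VV L y i + ε * VV L y j with hGdef
    have hT0 : G ^ (2 ^ n - 1) * Y (i + N) * Y (j + N) ≠ 0 :=
      mul_ne_zero (mul_ne_zero (pow_ne_zero _ hG) (hY0 _)) (hY0 _)
    have h1 := sum_nonpos L v hv _ hT0 fun V hc _ => by
      have hYm : ∀ t, (Y t : AlgebraicClosure (RatFunc k)) ∈ V := fun t =>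
        YL_mem N 2 (by omega) le_rfl L y hy n μ hμ h t V hc
      have hVY : ∀ t, (VV L y t : AlgebraicClosure (RatFunc k)) ^ (2 ^ n - 1) *
          (Y (t + N) : AlgebraicClosure (RatFunc k)) ∈ V := by
        intro t
        have h2 := congrArg (fun z : L => (z : AlgebraicClosure (RatFunc k)))
          (VV_YL L y hX n μ hμ t)
        simp only [IntermediateField.coe_mul, IntermediateField.coe_pow] at h2
        rw [h2]
        exact V.toSubring.pow_mem (hYm t) _
      have hεV : (ε : AlgebraicClosure (RatFunc k)) ∈ V := by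
        have h2 : (ε - 1) * (ε + 1) = 0 := by linear_combination hε
        rcases mul_eq_zero.1 h2 with h3 | h3
        · rw [sub_eq_zero.1 h3]
          exact V.one_mem
        · rw [eq_neg_of_add_eq_zero_left h3]
          exact V.neg_mem _ V.one_mem
      have ha : (VV L y i : AlgebraicClosure (RatFunc k)) ≠ 0 := hσ0 L.val (VV_ne L y hX i)
      have hb : (VV L y j : AlgebraicClosure (RatFunc k)) ≠ 0 := hσ0 L.val (VV_ne L y hX j)
      have hcoe : ((G ^ (2 ^ n - 1) * Y (i + N) * Y (j + N) : L) : AlgebraicClosure (RatFunc k)) =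
          ((VV L y i : AlgebraicClosure (RatFunc k)) + ε * (VV L y j : AlgebraicClosure (RatFunc k)))
            ^ (2 ^ n - 1) * (Y (i + N) : AlgebraicClosure (RatFunc k)) *
            (Y (j + N) : AlgebraicClosure (RatFunc k)) := rfl
      rw [hcoe]
      have hai := hVY i
      have hbj := hVY j
      have hAi := hYm (i + N)
      have hBj := hYm (j + N)
      set a : AlgebraicClosure (RatFunc k) := (VV L y i : AlgebraicClosure (RatFunc k)) with hadef
      set b : AlgebraicClosure (RatFunc k) := (VV L y j : AlgebraicClosure (RatFunc k)) with hbdef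
      set A : AlgebraicClosure (RatFunc k) := (Y (i + N) : AlgebraicClosure (RatFunc k)) with hAdef
      set B : AlgebraicClosure (RatFunc k) := (Y (j + N) : AlgebraicClosure (RatFunc k)) with hBdef
      rcases V.mem_or_inv_mem (b / a) with h3 | h3
      · have e1 : (a + ε * b) ^ (2 ^ n - 1) * A * B =
            (a ^ (2 ^ n - 1) * A) * (1 + ε * (b / a)) ^ (2 ^ n - 1) * B := by
          have e2 : a + ε * b = a * (1 + ε * (b / a)) := by field_simp
          rw [e2, mul_pow]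
          ring
        rw [e1]
        exact V.mul_mem _ _ (V.mul_mem _ _ hai (V.toSubring.pow_mem
          (V.add_mem _ _ V.one_mem (V.mul_mem _ _ hεV h3)) _)) hBj
      · rw [inv_div] at h3
        have e1 : (a + ε * b) ^ (2 ^ n - 1) * A * B =
            (b ^ (2 ^ n - 1) * B) * (a / b + ε) ^ (2 ^ n - 1) * A := by
          have e2 : a + ε * b = b * (a / b + ε) := by field_simp
          rw [e2, mul_pow]
          ring
        rw [e1]
        exact V.mul_mem _ _ (V.mul_mem _ _ hbj (V.toSubring.pow_mem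
          (V.add_mem _ _ h3 hεV) _)) hAi
    have h2 : ∀ σ : L →ₐ[RatFunc k] AlgebraicClosure (RatFunc k),
        v (σ (G ^ (2 ^ n - 1) * Y (i + N) * Y (j + N))) = q * (v (L.val G) - 1 / (P - 1)) := by
      intro σ
      rw [map_mul, map_mul, map_pow, hv.mul _ _ (mul_ne_zero (pow_ne_zero _ (hσ0 σ hG))
        (hσ0 σ (hY0 _))) (hσ0 σ (hY0 _)), hv.mul _ _ (pow_ne_zero _ (hσ0 σ hG)) (hσ0 σ (hY0 _)),
        ShV.v_pow hv (hσ0 σ hG), hvY, hvY, hqc, htr G hG σ L.val]
      have h3 : P - 1 ≠ 0 := by linarith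
      field_simp
      ring
    rw [Finset.sum_congr rfl fun σ _ => h2 σ, Finset.sum_const, nsmul_eq_mul, Finset.card_univ,
      hcard, hmc] at h1
    by_contra h3
    push Not at h3
    have h4 : 0 < q * (v (L.val G) - 1 / (P - 1)) := mul_pos hq0 (by linarith)
    have h5 : (0 : ℚ) < 2 * P - 2 := by linarith
    exact absurd h1 (not_le.2 (mul_pos h5 h4))
  have hsq : ∀ i j, VV L y i ^ 2 = VV L y j ^ 2 := by
    intro i j
    by_contra hne
    have hprod : (VV L y i + 1 * VV L y j) * (VV L y i + (-1) * VV L y j) =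
        ZZ L y i + -ZZ L y j := by
      rw [ZZ_eq L y hX, ZZ_eq L y hX]
      ring
    have hprod0 : (VV L y i + 1 * VV L y j) * (VV L y i + (-1) * VV L y j) ≠ 0 := by
      rw [hprod, ZZ_eq L y hX, ZZ_eq L y hX]
      intro h0
      apply hne
      linear_combination h0
    have hG1 := left_ne_zero_of_mul hprod0
    have hG2 := right_ne_zero_of_mul hprod0
    have b1 := hbound i j 1 (by ring) hG1
    have b2 := hbound i j (-1) (by ring) hG2
    have s1 : 1 / (2 * (P - 1)) ≤ v (L.val (VV L y i + 1 * VV L y j)) +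
        v (L.val (VV L y i + (-1) * VV L y j)) := by
      rw [← hv.mul _ _ (hσ0 L.val hG1) (hσ0 L.val hG2), ← map_mul, hprod, map_add, map_neg]
      have h1 := hv.add (L.val (ZZ L y i)) (-L.val (ZZ L y j)) (hσ0 L.val (ZZ_ne L y hX i))
        (neg_ne_zero.2 (hσ0 L.val (ZZ_ne L y hX j))) (by
          rw [← map_neg, ← map_add, ← hprod]
          exact hσ0 L.val hprod0)
      rw [ShV.v_neg hv (hσ0 L.val (ZZ_ne L y hX j)), hvZ, hvZ, min_self] at h1
      exact h1
    have s2 : min (v (L.val (VV L y i + 1 * VV L y j))) (v (L.val (VV L y i + (-1) * VV L y j))) ≤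
        -1 / 2 := by
      have e1 : L.val (VV L y i + 1 * VV L y j) + L.val (VV L y i + (-1) * VV L y j) =
          2 * L.val (VV L y i) := by
        rw [← map_add]
        have : VV L y i + 1 * VV L y j + (VV L y i + (-1) * VV L y j) = 2 * VV L y i := by ring
        rw [this, map_mul, map_ofNat]
      have h2 : (2 : AlgebraicClosure (RatFunc k)) ≠ 0 := two_ne_zero
      have h1 := hv.add _ _ (hσ0 L.val hG1) (hσ0 L.val hG2) (by
        rw [e1]
        exact mul_ne_zero h2 (hσ0 L.val (VV_ne L y hX i)))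
      rw [e1, hv.mul _ _ h2 (hσ0 L.val (VV_ne L y hX i)), hv2, hvV, zero_add] at h1
      exact h1
    have e2 : 1 / (P - 1) ≤ 1 / 3 := one_div_le_one_div_of_le (by norm_num) (by linarith)
    have e3 : 0 < 1 / (2 * (P - 1)) := by
      have : 0 < P - 1 := by linarith
      positivity
    rcases min_le_iff.1 s2 with h1 | h1 <;> linarith
  -- all `Z_j` are equal
  have hZ : ∀ j, ZZ L y j = ZZ L y 0 := by
    intro j
    rw [ZZ_eq L y hX, ZZ_eq L y hX, hsq j 0]
  set Z := ZZ L y 0 with hZdef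
  have hZ0 : Z ≠ 0 := ZZ_ne L y hX 0
  have hstep : ∀ s, X (N + s) = Z ^ (2 ^ s - 1) * X N ^ 2 ^ s := by
    intro s
    induction s with
    | zero => simp
    | succ s ih =>
      have h1 := hZ s
      unfold ZZ at h1
      rw [div_eq_iff (pow_ne_zero _ (hX _))] at h1
      change X (s + N + 1) = Z * X (s + N) ^ 2 at h1
      have e1 : N + (s + 1) = s + N + 1 := by ring
      have e2 : 2 ^ (s + 1) - 1 = 1 + (2 ^ s - 1) * 2 := by
        have := Nat.one_le_two_pow (n := s)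
        rw [pow_succ]
        omega
      rw [e1, h1, add_comm s N, ih, e2, pow_add, pow_one, mul_pow, ← pow_mul, ← pow_mul,
        pow_succ 2 s]
      ring
  have hVN : VV L y N = (Z ^ (2 ^ N - 1))⁻¹ := by
    unfold VV
    have h1 := hX N
    rw [← hXdef, hstep N]
    field_simp
  have hZeq : Z = algebraMap (RatFunc k) L RatFunc.X + ((Z ^ (2 ^ N - 1))⁻¹) ^ 2 := by
    rw [← hVN, ← ZZ_eq L y hX, hZ]
  have h1 := sum_nonpos L v hv Z hZ0 fun V hc _ => by
    by_contra hn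
    have h2 := (V.mem_or_inv_mem (Z : AlgebraicClosure (RatFunc k))).resolve_left hn
    apply hn
    have h3 := congrArg (fun z : L => (z : AlgebraicClosure (RatFunc k))) hZeq
    have h4 : (Z : AlgebraicClosure (RatFunc k)) =
        algebraMap (RatFunc k) (AlgebraicClosure (RatFunc k)) RatFunc.X +
          ((Z : AlgebraicClosure (RatFunc k))⁻¹ ^ (2 ^ N - 1)) ^ 2 := by
      rw [inv_pow]
      exact h3
    rw [h4]
    exact V.add_mem _ _ hc (V.toSubring.pow_mem (V.toSubring.pow_mem h2 _) _)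
  rw [Finset.sum_congr rfl fun σ _ => hvZ σ 0, Finset.sum_const, nsmul_eq_mul, Finset.card_univ,
    hcard, hmc] at h1
  have h5 : (0 : ℚ) < 2 * P - 2 := by linarith
  have h6 : 0 < 1 / (2 * (P - 1)) := by
    have : 0 < P - 1 := by linarith
    positivity
  exact absurd h1 (not_le.2 (mul_pos h5 h6))

/-- A preperiodic point of degree at most `D` gives a periodic point over an extension of degree at
most `D`. -/
theorem reduce (N d D : ℕ) (hN : 1 ≤ N)
    (x : Fin (N + 1) → AlgebraicClosure (RatFunc k)) (hx : x ≠ 0) (hxD : DegLe (RatFunc k) D x)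
    (a b : ℕ) (hab : a < b) (hp : Par ((app (Sh k N d))^[a] x) ((app (Sh k N d))^[b] x)) :
    ∃ (L : IntermediateField (RatFunc k) (AlgebraicClosure (RatFunc k)))
      (_ : FiniteDimensional (RatFunc k) L) (y : Fin (N + 1) → L) (n : ℕ) (μ : L),
      Module.finrank (RatFunc k) L ≤ D ∧ y ≠ 0 ∧ 1 ≤ n ∧ μ ≠ 0 ∧
        (app (FL k N d L))^[n] y = μ • y := by
  have hcert := (ShIA.cert_shi N d hN (RatFunc.X : RatFunc k)).mp
    (algebraMap (RatFunc k) (AlgebraicClosure (RatFunc k)))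
  have h0 : ∀ z, app (Sh k N d) z = 0 → z = 0 := fun z hz =>
    hcert.eq_zero (by rw [map_one]; exact one_ne_zero) z hz
  obtain ⟨θ, hθ, hxθ⟩ := degLe_iter (shi N d (RatFunc.X : RatFunc k)) x hxD a
  have hint : IsIntegral (RatFunc k) θ := Algebra.IsIntegral.isIntegral θ
  set L := IntermediateField.adjoin (RatFunc k) {θ} with hL
  have hfd : FiniteDimensional (RatFunc k) L := IntermediateField.adjoin.finiteDimensional hint
  have hfr : Module.finrank (RatFunc k) L ≤ D :=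
    (IntermediateField.adjoin.finrank hint).le.trans hθ
  set z := (app (Sh k N d))^[a] x with hz
  have hz0 : z ≠ 0 := iter_ne_zero (Sh k N d) h0 a hx
  have hzθ : ∀ i, z i ∈ L := hxθ
  set y : Fin (N + 1) → L := fun i => ⟨z i, hzθ i⟩ with hy
  have hyz : ∀ i, L.val (y i) = z i := fun i => rfl
  have hy0 : y ≠ 0 := by
    intro h1
    apply hz0
    funext i
    rw [← hyz, h1]
    simp
  obtain ⟨n, hn⟩ : ∃ n, b = n + a := ⟨b - a, by omega⟩
  have hn1 : 1 ≤ n := by omega
  rw [hn, Function.iterate_add_apply, ← hz] at hp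
  have hit := ShQ.iter_sh N d L L.val y n
  have hyz' : (fun i => L.val (y i)) = z := rfl
  rw [hyz'] at hit
  have hpar : Par y ((app (ShQ.FL k N d L))^[n] y) := by
    rw [hit] at hp
    intro i j
    have h1 := hp i j
    rw [← hyz i, ← hyz j, ← map_mul, ← map_mul] at h1
    exact L.val.injective h1
  obtain ⟨μ, hμ⟩ := hpar.exists_smul hy0
  have hμ0 : μ ≠ 0 := by
    rintro rfl
    rw [zero_smul] at hμ
    rw [hμ] at hit
    refine iter_ne_zero (Sh k N d) h0 n hz0 ?_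
    rw [hit]
    funext i
    simp
  exact ⟨L, hfd, y, n, μ, hfr, hy0, hn1, hμ0, hμ⟩

theorem arith (N d D' : ℕ) (hN : 1 ≤ N) (hd : 2 ≤ d)
    (hD : D' < ∑ i ∈ Finset.range (N + 1), d ^ i) (h : d ^ (N + 1) ≤ D' + d) :
    d = 2 ∧ D' = 2 ^ (N + 1) - 2 := by
  have hg : ((d : ℤ) - 1) * ∑ i ∈ Finset.range (N + 1), (d : ℤ) ^ i = d ^ (N + 1) - 1 := by
    rw [mul_comm]
    exact geom_sum_mul _ _
  have h1 : (D' : ℤ) + 1 ≤ ∑ i ∈ Finset.range (N + 1), (d : ℤ) ^ i := by exact_mod_cast hD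
  have h2 : (d : ℤ) ^ (N + 1) ≤ D' + d := by exact_mod_cast h
  have hd2 : (2 : ℤ) ≤ d := by exact_mod_cast hd
  have h3 : ((d : ℤ) - 1) * (D' + 1) ≤ d ^ (N + 1) - 1 := by
    rw [← hg]
    exact mul_le_mul_of_nonneg_left h1 (by linarith)
  have h4 : (d : ℤ) * d ≤ d ^ (N + 1) := by
    rw [← pow_two]
    exact pow_le_pow_right₀ (by linarith) (by omega)
  have hd3 : (d : ℤ) = 2 := by
    by_contra hne
    have h5 : (3 : ℤ) ≤ d := by omega
    nlinarith
  have hd4 : d = 2 := by exact_mod_cast hd3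
  subst hd4
  refine ⟨rfl, ?_⟩
  push_cast at h3
  have h6 : (D' : ℤ) + 1 ≤ 2 ^ (N + 1) - 1 := by linarith
  have h7 : D' + 1 + 1 ≤ 2 ^ (N + 1) := by
    have : (D' : ℤ) + 1 + 1 ≤ 2 ^ (N + 1) := by linarith
    exact_mod_cast this
  omega

end ShR

open ShR in
theorem shi_least {k : Type} [Field k] [CharZero k] (N d D : ℕ) (hN : 1 ≤ N) (hd : 2 ≤ d)
    (hD : D < ∑ i ∈ Finset.range (N + 1), d ^ i) (h12 : N = 1 → d = 2 → D < 2)
    (x : Fin (N + 1) → AlgebraicClosure (RatFunc k)) (hx : x ≠ 0) (hxD : DegLe (RatFunc k) D x)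
    (a b : ℕ) (hab : a < b) :
    ¬ Par ((app (Sh k N d))^[a] x) ((app (Sh k N d))^[b] x) := by
  intro hp
  obtain ⟨L, hfd, y, n, μ, hfr, hy, hn, hμ, h⟩ := reduce N d D hN x hx hxD a b hab hp
  have hlt := lt_of_le_of_lt hfr hD
  rcases Nat.lt_or_ge (Module.finrank (RatFunc k) L + d) (d ^ (N + 1)) with h1 | h1
  · exact ShQ.core N d _ hN hd hlt h1 L le_rfl y hy n hn μ hμ h
  · obtain ⟨rfl, h2⟩ := arith N d _ hN hd hlt h1
    rcases Nat.lt_or_ge N 2 with h3 | h3
    · have h4 : N = 1 := by omega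
      have h5 := h12 h4 rfl
      subst h4
      norm_num at h2
      omega
    · exact core2 N h3 L h2 y hy n hn μ hμ h

end Pool.Agent.PNH
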