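import Mathlib
import Pool.Agent.PNH.Defs
import Pool.Agent.PNH.Bri
import Pool.Agent.FAM.Iter
import Pool.Agent.RDF.ResId

set_option autoImplicit false

/-!
# Morphisms of the projective line and the resultant
-/

namespace Pool.Agent.PNH

theorem mor_iff (k : Type) [Field k] {d : ℕ} (hd : 1 ≤ d) (F : Tup 1 k)
    (hF : ∀ i, (F i).IsHomogeneous d) :
    IsMor d k F ↔ Polynomial.resultant (num F) (den F) d d ≠ 0 := by
  have hF' := hom_mp d (algebraMap k (AlgebraicClosure k)) F hF
  have hdeg := natDegree_num F hF
  have hmp := num_mp (algebraMap k (AlgebraicClosure k)) F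
  have hres : Polynomial.resultant ((num F).map (algebraMap k (AlgebraicClosure k)))
      ((den F).map (algebraMap k (AlgebraicClosure k))) d d =
      algebraMap k (AlgebraicClosure k) (Polynomial.resultant (num F) (den F) d d) :=
    Polynomial.resultant_map_map _ _ _ _ _
  constructor
  · rintro ⟨-, h⟩ h0
    obtain ⟨z, hz, hz0⟩ := FAM.IterAux.exists_zero d hd
      ((num F).map (algebraMap k (AlgebraicClosure k)))
      ((den F).map (algebraMap k (AlgebraicClosure k)))
      (Polynomial.natDegree_map_le.trans hdeg.1) (Polynomial.natDegree_map_le.trans hdeg.2)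
      (by rw [hres, h0, map_zero])
    have h1 := app_swap _ hF' z
    rw [hmp.1, hmp.2, hz0] at h1
    have h2 := h ![z.2, z.1] (h1.trans (by funext i; fin_cases i <;> rfl))
    refine hz (Prod.ext ?_ ?_)
    · exact congrFun h2 1
    · exact congrFun h2 0
  · intro h
    refine ⟨hF, fun x hx => ?_⟩
    by_contra hx0
    have hx' : x = ![(x 1, x 0).2, (x 1, x 0).1] := by funext i; fin_cases i <;> rfl
    have hne : (x 1, x 0) ≠ 0 := by
      intro h0
      refine hx0 (funext fun i => ?_)
      fin_cases i
      · exact congrArg Prod.snd h0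
      · exact congrArg Prod.fst h0
    have h1 := app_swap _ hF' (x 1, x 0)
    rw [← hx', hx, hmp.1, hmp.2] at h1
    refine RDF.lift_ne_zero d hd _ _ (by rw [hres]; exact (map_ne_zero _).mpr h) hne
      (Prod.ext ?_ ?_)
    · exact (congrFun h1 1).symm
    · exact (congrFun h1 0).symm

end Pool.Agent.PNH
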