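import Mathlib
import Pool.Agent.PNH.Defs
import Pool.Agent.PNH.ParL
import Pool.Agent.PNH.Bri
import Pool.Agent.PNH.BriM
import Pool.Agent.LIM.Top

set_option autoImplicit false

/-!
# The limit theorem in dimension one, in the language of tuples of forms
-/

namespace Pool.Agent.PNH

open NumberField Filter
open Pool.Agent.LIM (Null GF)
open Pool.Agent.FamK (ev)
open Pool.Agent.FAM (Cube)

namespace LimN

variable {K : Type} [Field K] [NumberField K] {r d : ℕ}

theorem num_mem (s : Fin r → ℤ) (F : Tup 1 (MvPolynomial (Fin r) (𝓞 K))) :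
    num (mem s F) = LIM.toK (FamK.spec s (num F)) ∧
      den (mem s F) = LIM.toK (FamK.spec s (den F)) := by
  unfold mem LIM.toK FamK.spec
  rw [(num_mp _ F).1, (num_mp _ F).2, Polynomial.map_map, Polynomial.map_map]
  exact ⟨rfl, rfl⟩

theorem num_gen (F : Tup 1 (MvPolynomial (Fin r) (𝓞 K))) :
    num (gen F) = LIM.toG (num F) ∧ den (gen F) = LIM.toG (den F) :=
  num_mp _ F

theorem mor_mem_iff (hd : 1 ≤ d) (F : Tup 1 (MvPolynomial (Fin r) (𝓞 K)))
    (hF : ∀ i, (F i).IsHomogeneous d) (s : Fin r → ℤ) :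
    IsMor d K (mem s F) ↔ ev s (Polynomial.resultant (num F) (den F) d d) ≠ 0 := by
  rw [mor_iff K hd (mem s F) (hom_mp d _ F hF), (num_mem s F).1, (num_mem s F).2]
  unfold LIM.toK
  rw [Polynomial.resultant_map_map, FamK.spec_res]
  exact map_ne_zero_iff _ (IsFractionRing.injective (𝓞 K) K)

theorem vec_injective {A : Type} : Function.Injective fun p : A × A => (![p.2, p.1] : Fin 2 → A) := by
  intro p q h
  have h0 := congrFun h 0
  have h1 := congrFun h 1
  exact Prod.ext h1 h0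

theorem ncard_pre (k : Type) [Field k] (D : ℕ) (F : Tup 1 k) (hF : ∀ i, (F i).IsHomogeneous d) :
    (Pre k D F).ncard = (LIM.Pts k D d (num F) (den F)).ncard := by
  rw [pre_eq_image k D F hF, Set.ncard_image_of_injective _ vec_injective]

end LimN

open Classical in
theorem limitN {K : Type} [Field K] [NumberField K] {r d : ℕ} (hd : 2 ≤ d) (D : ℕ)
    (F : Tup 1 (MvPolynomial (Fin r) (𝓞 K))) (hF : IsMor d (GF r K) (gen F))
    (hv : FamK.Varies d (num F) (den F)) :
    (∃ C : ℝ, ∀ H : ℕ, 1 ≤ H → ∑ s ∈ (Cube r H).filter (fun s => IsMor d K (mem s F)),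
      Real.exp (((Pre K D (mem s F)).ncard : ℝ) ^ ((1 : ℝ) / 3)) ≤ C * (2 * H + 1) ^ r) ∧
    ∀ φ : ℕ → ℝ, (∀ m : ℕ, |φ m| ≤ Real.exp ((m : ℝ) ^ ((1 : ℝ) / 4))) →
      Tendsto (fun H : ℕ => (∑ s ∈ (Cube r H).filter (fun s => IsMor d K (mem s F)),
        φ (Pre K D (mem s F)).ncard) / (2 * (H : ℝ) + 1) ^ r) atTop
        (nhds (φ (Pre (GF r K) D (gen F)).ncard)) := by
  have hhom : ∀ i, (F i).IsHomogeneous d := hom_of_gen F hF.1
  have hR : Polynomial.resultant (num F) (den F) d d ≠ 0 := by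
    have h := (mor_iff (GF r K) (by omega) (gen F) hF.1).1 hF
    rw [(LimN.num_gen F).1, (LimN.num_gen F).2] at h
    unfold LIM.toG at h
    rw [Polynomial.resultant_map_map] at h
    exact fun h0 => h (by rw [h0, map_zero])
  have hn := natDegree_num F hhom
  have h1 := (FamK.average D hd (num F) (den F) hn.1 hn.2 hR hv).2
  have h2 := (LIM.limit D hd (num F) (den F) hn.1 hn.2 hR hv).2.2
  have e1 : ∀ s : Fin r → ℤ, (Pre K D (mem s F)).ncard =
      (LIM.Pts K D d (LIM.toK (FamK.spec s (num F))) (LIM.toK (FamK.spec s (den F)))).ncard := by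
    intro s
    rw [LimN.ncard_pre K D (mem s F) (hom_mp d _ F hhom), (LimN.num_mem s F).1,
      (LimN.num_mem s F).2]
  have e2 : (Pre (GF r K) D (gen F)).ncard =
      (LIM.Pts (GF r K) D d (LIM.toG (num F)) (LIM.toG (den F))).ncard := by
    rw [LimN.ncard_pre (GF r K) D (gen F) hF.1, (LimN.num_gen F).1, (LimN.num_gen F).2]
  have e3 : ∀ s : Fin r → ℤ, IsMor d K (mem s F) ↔
      ev s (Polynomial.resultant (num F) (den F) d d) ≠ 0 :=
    fun s => LimN.mor_mem_iff (by omega) F hhom s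
  simp only [LIM.pts_famK] at h1
  simp only [e1, e2, e3]
  exact ⟨h1, h2⟩

end Pool.Agent.PNH
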