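import Mathlib
import Pool.Agent.PNH.Defs
import Pool.Agent.PNH.Emb
import Pool.Agent.PNH.ParL
import Pool.Agent.LIM.ExVal
import Pool.Agent.LIM.ExDeg
import Pool.Agent.PNH.GFix
import Pool.Agent.PNH.Dyn

set_option autoImplicit false

/-!
# The generic morphism of degree `d` has no preperiodic point of degree less than `d`
-/

namespace Pool.Agent.PNH

open NumberField
open Pool.Agent.LIM (GF)

namespace AllD

section univ

variable {A : Type} [CommRing A] {N d r : ℕ}
  (e : Fin r ≃ Fin (N + 1) × {α : Fin (N + 1) →₀ ℕ // α.degree = d})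

theorem coeff_univ (i : Fin (N + 1)) (α : Fin (N + 1) →₀ ℕ) (hα : α.degree = d) :
    (univ (A := A) e i).coeff α = MvPolynomial.X (e.symm (i, ⟨α, hα⟩)) := by
  unfold univ
  rw [MvPolynomial.coeff_sum, Finset.sum_eq_single (e.symm (i, ⟨α, hα⟩))]
  · rw [Equiv.apply_symm_apply, if_pos rfl, MvPolynomial.coeff_monomial, if_pos rfl]
  · intro t _ ht
    by_cases h1 : (e t).1 = i
    · rw [if_pos h1, MvPolynomial.coeff_monomial, if_neg]
      intro h2
      refine ht ?_
      rw [Equiv.eq_symm_apply]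
      exact Prod.ext h1 (Subtype.ext h2)
    · rw [if_neg h1, MvPolynomial.coeff_zero]
  · intro h
    exact absurd (Finset.mem_univ _) h

theorem hom_univ (i : Fin (N + 1)) : (univ (A := A) e i).IsHomogeneous d := by
  unfold univ
  refine MvPolynomial.IsHomogeneous.sum _ _ _ fun t _ => ?_
  by_cases h1 : (e t).1 = i
  · rw [if_pos h1]
    exact MvPolynomial.isHomogeneous_monomial _ (e t).2.2
  · rw [if_neg h1]
    exact MvPolynomial.isHomogeneous_zero _ _ _

end univ

/-- Elements of `k(θ)` have degree at most that of `θ`. -/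
theorem natDegree_le {k L : Type} [Field k] [Field L] [Algebra k L] [Algebra.IsAlgebraic k L]
    (θ u : L) (hu : u ∈ IntermediateField.adjoin k {θ}) :
    (minpoly k u).natDegree ≤ (minpoly k θ).natDegree := by
  have hθ : IsIntegral k θ := Algebra.IsIntegral.isIntegral θ
  have : FiniteDimensional k (IntermediateField.adjoin k {θ}) :=
    IntermediateField.adjoin.finiteDimensional hθ
  have h1 := minpoly.natDegree_le (A := k) (⟨u, hu⟩ : IntermediateField.adjoin k {θ})
  rw [IntermediateField.adjoin.finrank hθ] at h1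
  rwa [← minpoly.algebraMap_eq (algebraMap (IntermediateField.adjoin k {θ}) L).injective] at h1

theorem one_ne (N : ℕ) (hN : 1 ≤ N) : (1 : Fin (N + 1)) ≠ 0 := by
  obtain ⟨M, rfl⟩ := Nat.exists_eq_add_of_le' hN
  exact one_ne_zero

theorem mem_iter {k L : Type} [Field k] [Field L] [Algebra k L] {N : ℕ} (F : Tup N k)
    (S : IntermediateField k L) (x : Fin (N + 1) → L) (hx : ∀ i, x i ∈ S) (n : ℕ) :
    ∀ i, (app (mp (algebraMap k L) F))^[n] x i ∈ S := by
  induction n generalizing x with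
  | zero => exact hx
  | succ n ih =>
    rw [Function.iterate_succ_apply]
    refine ih _ fun i => ?_
    change MvPolynomial.eval x (MvPolynomial.map (algebraMap k L) (F i)) ∈ _
    rw [MvPolynomial.eval_map, MvPolynomial.eval₂_eq']
    refine sum_mem fun m _ => mul_mem (S.algebraMap_mem _) (prod_mem fun j _ =>
      pow_mem (hx j) _)

end AllD

open AllD

section

variable {K : Type} [Field K] [NumberField K] {N d r : ℕ}

/-- The generic tuple over the algebraic closure. -/
theorem AllD.coeff_gen (e : Fin r ≃ Fin (N + 1) × {α : Fin (N + 1) →₀ ℕ // α.degree = d})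
    (i : Fin (N + 1)) (α : Fin (N + 1) →₀ ℕ) :
    (mp (algebraMap (GF r K) (AlgebraicClosure (GF r K))) (gen (K := K) (univ e)) i).coeff α =
      algebraMap (MvPolynomial (Fin r) (𝓞 K)) (AlgebraicClosure (GF r K))
        ((univ (A := 𝓞 K) e i).coeff α) := by
  unfold mp gen mp
  rw [MvPolynomial.coeff_map, MvPolynomial.coeff_map]
  rfl

theorem AllD.hom_gen (e : Fin r ≃ Fin (N + 1) × {α : Fin (N + 1) →₀ ℕ // α.degree = d})
    (i : Fin (N + 1)) :
    (mp (algebraMap (GF r K) (AlgebraicClosure (GF r K)))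
      (gen (K := K) (univ e)) i).IsHomogeneous d :=
  hom_mp d _ _ (hom_mp d _ _ fun i => hom_univ e i) i

/-- A monomial valuation. -/
theorem AllD.exists_weight (e : Fin r ≃ Fin (N + 1) × {α : Fin (N + 1) →₀ ℕ // α.degree = d})
    (w : Fin (N + 1) → (Fin (N + 1) →₀ ℕ) → ℕ) :
    ∃ (Γ : Type) (_ : LinearOrderedCommGroupWithZero Γ)
      (v : Valuation (AlgebraicClosure (GF r K)) Γ) (g : Γ), 1 < g ∧
      (∀ c : GF r K, c ≠ 0 → ∃ m : ℤ, v (algebraMap (GF r K) _ c) = g ^ m) ∧
      (∀ i α, α.degree = d →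
        v ((mp (algebraMap (GF r K) (AlgebraicClosure (GF r K)))
          (gen (K := K) (univ e)) i).coeff α) = g ^ w i α) ∧
      ∀ i α, w i α = 0 →
        v ((mp (algebraMap (GF r K) (AlgebraicClosure (GF r K)))
          (gen (K := K) (univ e)) i).coeff α) ≤ 1 := by
  obtain ⟨Γ, hΓ, v, g, hg, hX, hk, -, -⟩ := LIM.Ex.exists_val K r fun t => w (e t).1 (e t).2.1
  have h1 : ∀ i α, α.degree = d →
      v ((mp (algebraMap (GF r K) (AlgebraicClosure (GF r K)))
        (gen (K := K) (univ e)) i).coeff α) = g ^ w i α := by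
    intro i α hα
    rw [AllD.coeff_gen, coeff_univ e i α hα, hX, Equiv.apply_symm_apply]
  refine ⟨Γ, hΓ, v, g, hg, hk, h1, fun i α hα => ?_⟩
  by_cases hαd : α.degree = d
  · rw [h1 i α hαd, hα, pow_zero]
  · rw [(AllD.hom_gen e i).coeff_eq_zero hαd, map_zero]
    exact zero_le_one

/-- The generic tuple has no common zero. -/
theorem AllD.eq_zero (e : Fin r ≃ Fin (N + 1) × {α : Fin (N + 1) →₀ ℕ // α.degree = d})
    (x : Fin (N + 1) → AlgebraicClosure (GF r K))
    (hx : app (mp (algebraMap (GF r K) _) (gen (K := K) (univ e))) x = 0) : x = 0 := by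
  classical
  obtain ⟨Γ, hΓ, v, g, hg, -, h1, h2⟩ := AllD.exists_weight (K := K) e
    fun i α => if α = Finsupp.single i d then 1 else 0
  by_contra hne
  obtain ⟨j, -, hj⟩ := Finset.exists_max_image Finset.univ (fun j => v (x j)) Finset.univ_nonempty
  have hxj : x j ≠ 0 := by
    intro h0
    apply hne
    funext i
    have h3 := hj i (Finset.mem_univ _)
    rw [h0, map_zero] at h3
    exact (map_eq_zero v).1 (le_antisymm h3 zero_le)
  have hx1 : ∀ i, v (((x j)⁻¹ • x) i) ≤ 1 := by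
    intro i
    rw [Pi.smul_apply, smul_eq_mul, map_mul, map_inv₀]
    have h0 : v (x j) ≠ 0 := (Valuation.ne_zero_iff v).2 hxj
    calc (v (x j))⁻¹ * v (x i) ≤ (v (x j))⁻¹ * v (x j) :=
          mul_le_mul_right (hj i (Finset.mem_univ _)) _
      _ = 1 := inv_mul_cancel₀ h0
  have h3 := GFix.rest_le v (d := d)
    (mp (algebraMap (GF r K) (AlgebraicClosure (GF r K))) (gen (K := K) (univ e)) j) j
    (fun m hm => h2 j m (if_neg hm)) ((x j)⁻¹ • x) hx1
  have h4 := congrFun (app_smul d _ (AllD.hom_gen (K := K) e) (x j)⁻¹ x) j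
  rw [hx, smul_zero, Pi.zero_apply] at h4
  unfold app at h4
  rw [h4, zero_sub, Valuation.map_neg, map_mul, h1 j _ (Finsupp.degree_single j d), if_pos rfl,
    pow_one, Pi.smul_apply, smul_eq_mul, inv_mul_cancel₀ hxj, one_pow, map_one, mul_one] at h3
  exact absurd hg (not_lt.2 h3)

/-- The generic tuple is a morphism. -/
theorem univ_morD (e : Fin r ≃ Fin (N + 1) × {α : Fin (N + 1) →₀ ℕ // α.degree = d}) :
    IsMor d (GF r K) (gen (K := K) (univ e)) :=
  ⟨hom_mp d _ _ fun i => hom_univ e i, AllD.eq_zero e⟩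

/-- The generic tuple and `Dyn`. -/
theorem AllD.exists_dyn (hN : 1 ≤ N) (hd : 2 ≤ d)
    (e : Fin r ≃ Fin (N + 1) × {α : Fin (N + 1) →₀ ℕ // α.degree = d}) :
    ∃ (Γ : Type) (_ : LinearOrderedCommGroupWithZero Γ)
      (v : Valuation (AlgebraicClosure (GF r K)) Γ) (g : Γ), 1 < g ∧
      (∀ c : GF r K, c ≠ 0 → ∃ m : ℤ, v (algebraMap (GF r K) _ c) = g ^ m) ∧
      ∀ x : Fin (N + 1) → AlgebraicClosure (GF r K), x ≠ 0 →
        (∀ (n : ℕ) (j : Fin (N + 1)),
          (app (mp (algebraMap (GF r K) _) (gen (K := K) (univ e))))^[n] x j ≠ 0 →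
          v ((app (mp (algebraMap (GF r K) _) (gen (K := K) (univ e))))^[n] x 0) ^ d * g ≠
            v ((app (mp (algebraMap (GF r K) _) (gen (K := K) (univ e))))^[n] x j) ^ d) →
        ∀ n : ℕ, 1 ≤ n →
        Par ((app (mp (algebraMap (GF r K) _) (gen (K := K) (univ e))))^[n] x) x →
        Par (app (mp (algebraMap (GF r K) _) (gen (K := K) (univ e))) x) x := by
  classical
  obtain ⟨Γ, hΓ, v, g, hg, hk, h1, h2⟩ := AllD.exists_weight (K := K) e
    fun i α => if i = 0 ∧ α = Finsupp.single 0 d then 2 else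
      if ∃ j : Fin (N + 1), i = j + 1 ∧ α = Finsupp.single j d then 1 else 0
  refine ⟨Γ, hΓ, v, g, hg, hk, fun x hx hv n hn hp => ?_⟩
  refine fixed_of_periodic v g hg hN hd _ (AllD.hom_gen e) 1 le_rfl ?_ ?_ ?_ x hx hv n hn hp
  · rw [h1 _ _ (Finsupp.degree_single _ _), if_pos ⟨rfl, rfl⟩]
  · intro i
    rw [h1 _ _ (Finsupp.degree_single _ _), if_neg, if_pos ⟨i, rfl, rfl⟩]
    rintro ⟨h3, h4⟩
    have h5 : i = 0 := (Finsupp.single_left_inj (by omega)).1 h4
    rw [h5, zero_add] at h3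
    exact one_ne N hN h3
  · intro i α hα0 hα
    refine h2 i α ?_
    rw [if_neg, if_neg]
    · rintro ⟨j, hj1, hj2⟩
      exact hα j hj1 hj2
    · rintro ⟨h3, h4⟩
      exact hα0 h3 h4

/-- A fixed point of the generic tuple has a coordinate of large degree. -/
theorem AllD.exists_fix (hN : 1 ≤ N) (hd : 2 ≤ d)
    (e : Fin r ≃ Fin (N + 1) × {α : Fin (N + 1) →₀ ℕ // α.degree = d}) :
    ∃ (Γ : Type) (_ : LinearOrderedCommGroupWithZero Γ)
      (v : Valuation (AlgebraicClosure (GF r K)) Γ) (g : Γ), 1 < g ∧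
      (∀ c : GF r K, c ≠ 0 → ∃ m : ℤ, v (algebraMap (GF r K) _ c) = g ^ m) ∧
      ∀ x : Fin (N + 1) → AlgebraicClosure (GF r K), x ≠ 0 →
        Par (app (mp (algebraMap (GF r K) _) (gen (K := K) (univ e))) x) x →
        v (x 0 / x 1) ^ (∑ l ∈ Finset.range (N + 1), d ^ l) = g := by
  classical
  obtain ⟨Γ, hΓ, v, g, hg, hk, h1, h2⟩ := AllD.exists_weight (K := K) e
    fun i α => if α = Finsupp.single (i - 1) d then (if i = 0 then 3 else 2) else 0
  refine ⟨Γ, hΓ, v, g, hg, hk, fun x hx hp => ?_⟩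
  refine (fix_val v g hg hN hd le_rfl _ (AllD.hom_gen e) (fun i => ?_) (fun i m hm => ?_) x hx
    hp).2.2
  · rw [h1 _ _ (Finsupp.degree_single _ _), if_pos rfl]
    split_ifs <;> rfl
  · exact h2 i m (if_neg hm)

theorem univ_nopreD (hN : 1 ≤ N) (hd : 2 ≤ d) (D : ℕ) (hD : D < d)
    (e : Fin r ≃ Fin (N + 1) × {α : Fin (N + 1) →₀ ℕ // α.degree = d}) :
    Pre (GF r K) D (gen (K := K) (univ e)) = ∅ := by
  obtain ⟨Γ₁, hΓ₁, v₁, g₁, hg₁, hk₁, hdyn⟩ := AllD.exists_dyn (K := K) hN hd e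
  obtain ⟨Γ₂, hΓ₂, v₂, g₂, hg₂, hk₂, hfix⟩ := AllD.exists_fix (K := K) hN hd e
  rw [Set.eq_empty_iff_forall_notMem]
  rintro x ⟨hnrm, ⟨θ, hθ, hxθ⟩, a, b, hab, hp⟩
  have hit := mem_iter (gen (K := K) (univ e)) _ x hxθ
  set FL := mp (algebraMap (GF r K) (AlgebraicClosure (GF r K))) (gen (K := K) (univ e)) with hFL
  have hz : (app FL)^[a] x ≠ 0 := iter_ne_zero FL (AllD.eq_zero e) a hnrm.ne_zero
  have hfixed : Par (app FL ((app FL)^[a] x)) ((app FL)^[a] x) := by
    refine hdyn _ hz ?_ (b - a) (by omega) ?_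
    · intro n j hj h1
      rw [← Function.iterate_add_apply] at hj h1
      have hy0 : (app FL)^[n + a] x 0 ≠ 0 := by
        intro h2
        rw [h2, map_zero, zero_pow (by omega), zero_mul] at h1
        exact pow_ne_zero d ((Valuation.ne_zero_iff v₁).2 hj) h1.symm
      have h2 : v₁ ((app FL)^[n + a] x j / (app FL)^[n + a] x 0) ^ d = g₁ := by
        rw [map_div₀, div_pow, ← h1, mul_comm, mul_div_assoc, div_self, mul_one]
        exact pow_ne_zero d ((Valuation.ne_zero_iff v₁).2 hy0)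
      have h3 := LIM.Ex.deg_le v₁ g₁ hg₁ hk₁ _ d (by omega) h2
      have h4 := natDegree_le θ _ (div_mem (hit (n + a) j) (hit (n + a) 0))
      omega
    · rw [← Function.iterate_add_apply, Nat.sub_add_cancel hab.le]
      exact hp.symm
  have hval := hfix _ hz hfixed
  set Q := ∑ l ∈ Finset.range (N + 1), d ^ l with hQ
  have hdQ : d ≤ Q := by
    have h2 : d ^ 1 ≤ Q := Finset.single_le_sum (f := fun l => d ^ l) (fun _ _ => Nat.zero_le _)
      (Finset.mem_range.2 (by omega))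
    rwa [pow_one] at h2
  have h6 := LIM.Ex.deg_le v₂ g₂ hg₂ hk₂ _ Q (by omega) hval
  have h7 := natDegree_le θ _ (div_mem (hit a 0) (hit a 1))
  omega

end

end Pool.Agent.PNH
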