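import Mathlib
import Pool.Agent.PNH.Defs
import Pool.Agent.PNH.ParL
import Pool.Agent.PNH.AllD
import Pool.Agent.PNH.UniO

set_option autoImplicit false

/-!
# The generic tuple with coefficients in a lattice has no preperiodic point of degree less than `d`
-/

namespace Pool.Agent.PNH

open NumberField
open Pool.Agent.LIM (GF)
open AllD

namespace AllO

section

variable {K : Type} [Field K] [NumberField K] {N d r m : ℕ} (ω : Fin m → 𝓞 K)
  (e : Fin r ≃ (Fin (N + 1) × {α : Fin (N + 1) →₀ ℕ // α.degree = d}) × Fin m)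

theorem hom_gen (i : Fin (N + 1)) :
    (mp (algebraMap (GF r K) (AlgebraicClosure (GF r K))) (gen (univO ω e)) i).IsHomogeneous d :=
  hom_mp d _ _ (hom_mp d _ _ fun i => UniO.hom_univO ω e i) i

/-- A monomial valuation. -/
theorem exists_weight (hω : ∃ j, ω j ≠ 0) (w : Fin (N + 1) → (Fin (N + 1) →₀ ℕ) → ℕ) :
    ∃ (Γ : Type) (_ : LinearOrderedCommGroupWithZero Γ)
      (v : Valuation (AlgebraicClosure (GF r K)) Γ) (g : Γ), 1 < g ∧
      (∀ c : GF r K, c ≠ 0 → ∃ m : ℤ, v (algebraMap (GF r K) _ c) = g ^ m) ∧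
      (∀ i α, α.degree = d → 1 ≤ w i α →
        v ((mp (algebraMap (GF r K) (AlgebraicClosure (GF r K)))
          (gen (univO ω e)) i).coeff α) = g ^ w i α) ∧
      ∀ i α, w i α = 0 →
        v ((mp (algebraMap (GF r K) (AlgebraicClosure (GF r K)))
          (gen (univO ω e)) i).coeff α) ≤ 1 := by
  obtain ⟨Γ, hΓ, v, g, hg, hk, h1, h2⟩ := UniO.exists_wt ω e hω fun p => w p.1 p.2.1
  refine ⟨Γ, hΓ, v, g, hg, hk, fun i α hα hw => h1 (i, ⟨α, hα⟩) hw, fun i α hw => ?_⟩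
  by_cases hα : α.degree = d
  · exact h2 (i, ⟨α, hα⟩) hw
  · rw [(hom_gen ω e i).coeff_eq_zero hα, map_zero]
    exact zero_le_one

/-- The generic tuple and `Dyn`. -/
theorem exists_dyn (hω : ∃ j, ω j ≠ 0) (hN : 1 ≤ N) (hd : 2 ≤ d) :
    ∃ (Γ : Type) (_ : LinearOrderedCommGroupWithZero Γ)
      (v : Valuation (AlgebraicClosure (GF r K)) Γ) (g : Γ), 1 < g ∧
      (∀ c : GF r K, c ≠ 0 → ∃ m : ℤ, v (algebraMap (GF r K) _ c) = g ^ m) ∧
      ∀ x : Fin (N + 1) → AlgebraicClosure (GF r K), x ≠ 0 →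
        (∀ (n : ℕ) (j : Fin (N + 1)),
          (app (mp (algebraMap (GF r K) _) (gen (univO ω e))))^[n] x j ≠ 0 →
          v ((app (mp (algebraMap (GF r K) _) (gen (univO ω e))))^[n] x 0) ^ d * g ≠
            v ((app (mp (algebraMap (GF r K) _) (gen (univO ω e))))^[n] x j) ^ d) →
        ∀ n : ℕ, 1 ≤ n →
        Par ((app (mp (algebraMap (GF r K) _) (gen (univO ω e))))^[n] x) x →
        Par (app (mp (algebraMap (GF r K) _) (gen (univO ω e))) x) x := by
  classical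
  obtain ⟨Γ, hΓ, v, g, hg, hk, h1, h2⟩ := exists_weight ω e hω
    fun i α => if i = 0 ∧ α = Finsupp.single 0 d then 2 else
      if ∃ j : Fin (N + 1), i = j + 1 ∧ α = Finsupp.single j d then 1 else 0
  refine ⟨Γ, hΓ, v, g, hg, hk, fun x hx hv n hn hp => ?_⟩
  refine fixed_of_periodic v g hg hN hd _ (hom_gen ω e) 1 le_rfl ?_ ?_ ?_ x hx hv n hn hp
  · rw [h1 _ _ (Finsupp.degree_single _ _) (by rw [if_pos ⟨rfl, rfl⟩]; omega), if_pos ⟨rfl, rfl⟩]
  · intro i
    have h3 : ¬ (i + 1 = 0 ∧ Finsupp.single i d = (Finsupp.single 0 d : Fin (N + 1) →₀ ℕ)) := by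
      rintro ⟨h3, h4⟩
      have h5 : i = 0 := (Finsupp.single_left_inj (by omega)).1 h4
      rw [h5, zero_add] at h3
      exact one_ne N hN h3
    rw [h1 _ _ (Finsupp.degree_single _ _) (by rw [if_neg h3, if_pos ⟨i, rfl, rfl⟩]), if_neg h3,
      if_pos ⟨i, rfl, rfl⟩]
  · intro i α hα0 hα
    refine h2 i α ?_
    rw [if_neg, if_neg]
    · rintro ⟨j, hj1, hj2⟩
      exact hα j hj1 hj2
    · rintro ⟨h3, h4⟩
      exact hα0 h3 h4

/-- A fixed point of the generic tuple has a coordinate of large degree. -/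
theorem exists_fix (hω : ∃ j, ω j ≠ 0) (hN : 1 ≤ N) (hd : 2 ≤ d) :
    ∃ (Γ : Type) (_ : LinearOrderedCommGroupWithZero Γ)
      (v : Valuation (AlgebraicClosure (GF r K)) Γ) (g : Γ), 1 < g ∧
      (∀ c : GF r K, c ≠ 0 → ∃ m : ℤ, v (algebraMap (GF r K) _ c) = g ^ m) ∧
      ∀ x : Fin (N + 1) → AlgebraicClosure (GF r K), x ≠ 0 →
        Par (app (mp (algebraMap (GF r K) _) (gen (univO ω e))) x) x →
        v (x 0 / x 1) ^ (∑ l ∈ Finset.range (N + 1), d ^ l) = g := by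
  classical
  obtain ⟨Γ, hΓ, v, g, hg, hk, h1, h2⟩ := exists_weight ω e hω
    fun i α => if α = Finsupp.single (i - 1) d then (if i = 0 then 3 else 2) else 0
  refine ⟨Γ, hΓ, v, g, hg, hk, fun x hx hp => ?_⟩
  refine (fix_val v g hg hN hd le_rfl _ (hom_gen ω e) (fun i => ?_) (fun i m hm => ?_) x hx
    hp).2.2
  · rw [h1 _ _ (Finsupp.degree_single _ _) (by rw [if_pos rfl]; split_ifs <;> omega), if_pos rfl]
    split_ifs <;> rfl
  · exact h2 i m (if_neg hm)

end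

end AllO

open AllO

theorem univO_nopre {K : Type} [Field K] [NumberField K] {N d r m : ℕ} (ω : Fin m → 𝓞 K)
    (hω : ∃ j, ω j ≠ 0) (hN : 1 ≤ N) (hd : 2 ≤ d) (D : ℕ) (hD : D < d)
    (e : Fin r ≃ (Fin (N + 1) × {α : Fin (N + 1) →₀ ℕ // α.degree = d}) × Fin m) :
    Pre (GF r K) D (gen (univO ω e)) = ∅ := by
  obtain ⟨Γ₁, hΓ₁, v₁, g₁, hg₁, hk₁, hdyn⟩ := AllO.exists_dyn ω e hω hN hd
  obtain ⟨Γ₂, hΓ₂, v₂, g₂, hg₂, hk₂, hfix⟩ := AllO.exists_fix ω e hω hN hd
  rw [Set.eq_empty_iff_forall_notMem]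
  rintro x ⟨hnrm, ⟨θ, hθ, hxθ⟩, a, b, hab, hp⟩
  have hit := mem_iter (gen (univO ω e)) _ x hxθ
  have h0 := (univO_mor ω hω e).2
  set FL := mp (algebraMap (GF r K) (AlgebraicClosure (GF r K))) (gen (univO ω e)) with hFL
  have hz : (app FL)^[a] x ≠ 0 := iter_ne_zero FL h0 a hnrm.ne_zero
  have hfixed : Par (app FL ((app FL)^[a] x)) ((app FL)^[a] x) := by
    refine hdyn _ hz ?_ (b - a) (by omega) ?_
    · intro n j hj h1
      rw [← Function.iterate_add_apply] at hj h1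
      have hy0 : (app FL)^[n + a] x 0 ≠ 0 := by
        intro h2
        rw [h2, map_zero, zero_pow (by omega), zero_mul] at h1
        exact pow_ne_zero d ((Valuation.ne_zero_iff v₁).2 hj) h1.symm
      have h2 : v₁ ((app FL)^[n + a] x j / (app FL)^[n + a] x 0) ^ d = g₁ := by
        rw [map_div₀, div_pow, ← h1, mul_comm, mul_div_assoc, div_self, mul_one]
        exact pow_ne_zero d ((Valuation.ne_zero_iff v₁).2 hy0)
      have h3 := LIM.Ex.deg_le v₁ g₁ hg₁ hk₁ _ d (by omega) h2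
      have h4 := natDegree_le θ _ (div_mem (hit (n + a) j) (hit (n + a) 0))
      omega
    · rw [← Function.iterate_add_apply, Nat.sub_add_cancel hab.le]
      exact hp.symm
  have hval := hfix _ hz hfixed
  set Q := ∑ l ∈ Finset.range (N + 1), d ^ l with hQ
  have hdQ : d ≤ Q := by
    have h2 : d ^ 1 ≤ Q := Finset.single_le_sum (f := fun l => d ^ l) (fun _ _ => Nat.zero_le _)
      (Finset.mem_range.2 (by omega))
    rwa [pow_one] at h2
  have h6 := LIM.Ex.deg_le v₂ g₂ hg₂ hk₂ _ Q (by omega) hval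
  have h7 := natDegree_le θ _ (div_mem (hit a 0) (hit a 1))
  omega

end Pool.Agent.PNH
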