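import Mathlib
import Pool.Agent.PNH.AlG
import Pool.Agent.PNH.ShR

set_option autoImplicit false

/-!
# The generic morphism of projective space: the degrees of its preperiodic points
-/

namespace Pool.Agent.PNH

open NumberField
open Pool.Agent.LIM (GF)

theorem shiNo_least {K : Type} [Field K] [CharZero K] {N d D : ℕ} (hN : 1 ≤ N) (hd : 2 ≤ d)
    (hD : D < ∑ i ∈ Finset.range (N + 1), d ^ i) (h12 : N = 1 → d = 2 → D < 2) :
    ShiNo K N d D := fun y hy hyD a b hab => shi_least N d D hN hd hD h12 y hy hyD a b hab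

/-- All tuples of forms with integral coefficients. -/
theorem univ_nopreS {K : Type} [Field K] [NumberField K] {N d r D : ℕ} (hN : 1 ≤ N) (hd : 2 ≤ d)
    (hD : D < ∑ i ∈ Finset.range (N + 1), d ^ i) (h12 : N = 1 → d = 2 → D < 2)
    (e : Fin r ≃ Fin (N + 1) × {α : Fin (N + 1) →₀ ℕ // α.degree = d}) :
    Pre (GF r K) D (gen (K := K) (univ e)) = ∅ :=
  univ_nopre_of hN (shiNo_least hN hd hD h12) e

/-- All tuples of forms whose coefficients are integral combinations of the `ω_j`. -/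
theorem univO_nopreS {K : Type} [Field K] [NumberField K] {N d r m D : ℕ} (ω : Fin m → 𝓞 K)
    (hω : ∃ j, ω j ≠ 0) (hN : 1 ≤ N) (hd : 2 ≤ d)
    (hD : D < ∑ i ∈ Finset.range (N + 1), d ^ i) (h12 : N = 1 → d = 2 → D < 2)
    (e : Fin r ≃ (Fin (N + 1) × {α : Fin (N + 1) →₀ ℕ // α.degree = d}) × Fin m) :
    Pre (GF r K) D (gen (univO ω e)) = ∅ :=
  univO_nopre_of ω hω hN (shiNo_least hN hd hD h12) e

end Pool.Agent.PNH
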