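import Mathlib
import Pool.Agent.PNH.Defs
import Pool.Agent.PNH.ParL

set_option autoImplicit false

/-!
# Dynamics of a morphism with dominant coefficients
-/

namespace Pool.Agent.PNH

namespace DynN

section valuation

variable {N : ℕ} {L Γ : Type} [Field L] [LinearOrderedCommGroupWithZero Γ] (v : Valuation L Γ)

theorem degree_eq {d : ℕ} {P : MvPolynomial (Fin (N + 1)) L} (hP : P.IsHomogeneous d)
    {α : Fin (N + 1) →₀ ℕ} (hα : α ∈ P.support) : ∑ j, α j = d := by
  have h : α.degree = d := by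
    by_contra h
    exact MvPolynomial.mem_support_iff.1 hα (hP.coeff_eq_zero h)
  rw [← h, Finsupp.degree_eq_sum]

/-- The value of a form. -/
theorem val_eval_le {d : ℕ} (P : MvPolynomial (Fin (N + 1)) L) (hP : P.IsHomogeneous d) (C M : Γ)
    (hc : ∀ α, v (P.coeff α) ≤ C) (x : Fin (N + 1) → L) (hx : ∀ i, v (x i) ≤ M) :
    v (MvPolynomial.eval x P) ≤ C * M ^ d := by
  rw [MvPolynomial.eval_eq']
  refine v.map_sum_le fun α hα => ?_
  rw [map_mul, map_prod]
  refine mul_le_mul' (hc α) ?_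
  calc ∏ j, v (x j ^ α j) ≤ ∏ j, M ^ α j := Finset.prod_le_prod' fun j _ => by
        rw [map_pow]
        exact pow_le_pow_left' (hx j) _
    _ = M ^ d := by rw [Finset.prod_pow_eq_pow_sum, degree_eq hP hα]

theorem val_prod_sub_le {ι : Type} (s : Finset ι) (a b : ι → L) (ρ : Γ) (ha : ∀ i, v (a i) ≤ 1)
    (hb : ∀ i, v (b i) ≤ 1) (h : ∀ i, v (a i - b i) ≤ ρ) :
    v (∏ i ∈ s, a i - ∏ i ∈ s, b i) ≤ ρ := by
  classical
  induction s using Finset.induction_on with
  | empty => simp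
  | insert j s hj ih =>
    rw [Finset.prod_insert hj, Finset.prod_insert hj]
    have e : a j * ∏ i ∈ s, a i - b j * ∏ i ∈ s, b i =
        a j * (∏ i ∈ s, a i - ∏ i ∈ s, b i) + (a j - b j) * ∏ i ∈ s, b i := by ring
    rw [e]
    refine v.map_add_le ?_ ?_
    · rw [map_mul]
      exact (mul_le_mul' (ha j) ih).trans (one_mul ρ).le
    · rw [map_mul, map_prod]
      exact (mul_le_mul' (h j) (Finset.prod_le_one' fun i _ => hb i)).trans (mul_one ρ).le

theorem val_pow_sub_le (a b : L) (ρ : Γ) (ha : v a ≤ 1) (hb : v b ≤ 1) (h : v (a - b) ≤ ρ)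
    (n : ℕ) : v (a ^ n - b ^ n) ≤ ρ := by
  have h1 := val_prod_sub_le v (Finset.range n) (fun _ => a) (fun _ => b) ρ (fun _ => ha)
    (fun _ => hb) fun _ => h
  simpa using h1

theorem val_eval_sub_le (P : MvPolynomial (Fin (N + 1)) L) (C ρ : Γ)
    (hc : ∀ α, v (P.coeff α) ≤ C) (u w : Fin (N + 1) → L) (hu : ∀ i, v (u i) ≤ 1)
    (hw : ∀ i, v (w i) ≤ 1) (h : ∀ i, v (u i - w i) ≤ ρ) :
    v (MvPolynomial.eval u P - MvPolynomial.eval w P) ≤ C * ρ := by
  rw [MvPolynomial.eval_eq', MvPolynomial.eval_eq', ← Finset.sum_sub_distrib]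
  refine v.map_sum_le fun α _ => ?_
  rw [← mul_sub, map_mul]
  refine mul_le_mul' (hc α) (val_prod_sub_le v _ _ _ ρ (fun i => ?_) (fun i => ?_) fun i =>
    val_pow_sub_le v _ _ ρ (hu i) (hw i) (h i) _)
  · rw [map_pow]
    exact pow_le_one' (hu i) _
  · rw [map_pow]
    exact pow_le_one' (hw i) _

theorem eval_single (x : Fin (N + 1) → L) (j : Fin (N + 1)) (d : ℕ) (c : L) :
    MvPolynomial.eval x (MvPolynomial.monomial (Finsupp.single j d) c) = c * x j ^ d := by
  rw [MvPolynomial.eval_monomial, Finsupp.prod_single_index (by simp)]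

/-- A form without its main term. -/
theorem val_main {d : ℕ} (P : MvPolynomial (Fin (N + 1)) L) (hP : P.IsHomogeneous d)
    (j : Fin (N + 1)) (C M : Γ) (hc : ∀ α, α ≠ Finsupp.single j d → v (P.coeff α) ≤ C)
    (x : Fin (N + 1) → L) (hx : ∀ i, v (x i) ≤ M) :
    v (MvPolynomial.eval x P - P.coeff (Finsupp.single j d) * x j ^ d) ≤ C * M ^ d := by
  classical
  rw [← eval_single, ← map_sub]
  refine val_eval_le v _ (hP.sub (MvPolynomial.isHomogeneous_monomial _ (by simp))) C M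
    (fun α => ?_) x hx
  rw [MvPolynomial.coeff_sub, MvPolynomial.coeff_monomial]
  by_cases h : Finsupp.single j d = α
  · rw [if_pos h, ← h, sub_self, map_zero]
    exact zero_le
  · rw [if_neg h, sub_zero]
    exact hc α fun e => h e.symm

/-- A form without two main terms. -/
theorem val_main2 {d : ℕ} (P : MvPolynomial (Fin (N + 1)) L) (hP : P.IsHomogeneous d)
    (i j : Fin (N + 1)) (hij : Finsupp.single i d ≠ Finsupp.single j d) (C M : Γ)
    (hc : ∀ α, α ≠ Finsupp.single i d → α ≠ Finsupp.single j d → v (P.coeff α) ≤ C)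
    (x : Fin (N + 1) → L) (hx : ∀ i, v (x i) ≤ M) :
    v (MvPolynomial.eval x P - (P.coeff (Finsupp.single i d) * x i ^ d +
      P.coeff (Finsupp.single j d) * x j ^ d)) ≤ C * M ^ d := by
  classical
  have h := val_main v (P - MvPolynomial.monomial (Finsupp.single i d)
    (P.coeff (Finsupp.single i d))) (hP.sub (MvPolynomial.isHomogeneous_monomial _ (by simp))) j C M
    (fun α hα => ?_) x hx
  · rw [RingHom.map_sub, eval_single, MvPolynomial.coeff_sub, MvPolynomial.coeff_monomial, if_neg hij,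
      sub_zero] at h
    rwa [← sub_sub]
  · rw [MvPolynomial.coeff_sub, MvPolynomial.coeff_monomial]
    by_cases h : Finsupp.single i d = α
    · rw [if_pos h, ← h, sub_self, map_zero]
      exact zero_le
    · rw [if_neg h, sub_zero]
      exact hc α (fun e => h e.symm) hα

end valuation

section dynamics

variable {N d : ℕ} {L Γ : Type} [Field L] [LinearOrderedCommGroupWithZero Γ] (v : Valuation L Γ)
  (g G : Γ) (hg : 1 < g) (hG : 1 < G) (F : Tup N L) (hF : ∀ i, (F i).IsHomogeneous d)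

/-- The coordinate `j` of `x` has the largest value. -/
def Max (j : Fin (N + 1)) (x : Fin (N + 1) → L) : Prop :=
  x j ≠ 0 ∧ ∀ i, v (x i) ≤ v (x j)

/-- The value of the coordinate `0` is the largest one, by a factor `g` at least. -/
def Dom (x : Fin (N + 1) → L) : Prop :=
  x 0 ≠ 0 ∧ ∀ i, i ≠ 0 → g * v (x i) ≤ v (x 0)

theorem exists_max {x : Fin (N + 1) → L} (hx : x ≠ 0) : ∃ j, Max v j x := by
  obtain ⟨j, hj⟩ := Finite.exists_max fun i => v (x i)
  refine ⟨j, fun h0 => hx (funext fun i => ?_), hj⟩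
  have h := hj i
  simp only [h0, map_zero] at h
  exact (map_eq_zero v).1 (le_antisymm h zero_le)

variable (h1 : ∀ i, v ((F i).coeff (Finsupp.single (i - 1) d)) = G)
  (h2 : v ((F 0).coeff (Finsupp.single 0 d)) = g * G)
  (h3 : ∀ i α, α ≠ Finsupp.single (i - 1) d → (i = 0 → α ≠ Finsupp.single 0 d) →
    v ((F i).coeff α) ≤ 1)

include hF h3 in
theorem rest_le {i : Fin (N + 1)} (hi : i ≠ 0) {x : Fin (N + 1) → L} {M : Γ}
    (hx : ∀ j, v (x j) ≤ M) :
    v (app F x i - (F i).coeff (Finsupp.single (i - 1) d) * x (i - 1) ^ d) ≤ M ^ d := by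
  have h := val_main v (F i) (hF i) (i - 1) 1 M (fun α hα => h3 i α hα fun h => absurd h hi) x hx
  rwa [one_mul] at h

include hG hF h1 h3 in
theorem app_le {j i : Fin (N + 1)} (hi : i ≠ 0) {x : Fin (N + 1) → L} (hx : Max v j x) :
    v (app F x i) ≤ G * v (x j) ^ d := by
  have h := rest_le v F hF h3 hi hx.2
  have e : app F x i = (app F x i - (F i).coeff (Finsupp.single (i - 1) d) * x (i - 1) ^ d) +
      (F i).coeff (Finsupp.single (i - 1) d) * x (i - 1) ^ d := by ring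
  rw [e]
  refine v.map_add_le (h.trans ?_) ?_
  · exact le_mul_of_one_le_left' hG.le
  · rw [map_mul, map_pow, h1]
    exact mul_le_mul' le_rfl (pow_le_pow_left' (hx.2 _) _)

include hG hF h1 h3 in
theorem app_eq {j : Fin (N + 1)} (hj : j + 1 ≠ 0) {x : Fin (N + 1) → L} (hx : Max v j x) :
    v (app F x (j + 1)) = G * v (x j) ^ d := by
  have h := rest_le v F hF h3 hj hx.2
  rw [add_sub_cancel_right] at h
  have e : app F x (j + 1) = (app F x (j + 1) - (F (j + 1)).coeff (Finsupp.single j d) * x j ^ d) +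
      (F (j + 1)).coeff (Finsupp.single j d) * x j ^ d := by ring
  have h4 : v ((F (j + 1)).coeff (Finsupp.single j d) * x j ^ d) = G * v (x j) ^ d := by
    have h5 := h1 (j + 1)
    rw [add_sub_cancel_right] at h5
    rw [map_mul, map_pow, h5]
  have hpos : 0 < v (x j) ^ d := zero_lt_iff.2 (pow_ne_zero _ ((v.ne_zero_iff).2 hx.1))
  rw [e, v.map_add_eq_of_lt_right, h4]
  rw [h4]
  exact h.trans_lt (lt_mul_of_one_lt_left hpos hG)

include hG hF h1 h3 in
theorem step_A {j : Fin (N + 1)} (hj : j + 1 ≠ 0) {x : Fin (N + 1) → L} (hx : Max v j x) :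
    Max v 0 (app F x) ∨ Max v (j + 1) (app F x) := by
  have h4 := app_eq v G hG F hF h1 h3 hj hx
  have hpos : 0 < G * v (x j) ^ d := mul_pos (zero_lt_one.trans hG)
    (zero_lt_iff.2 (pow_ne_zero _ ((v.ne_zero_iff).2 hx.1)))
  rcases le_total (G * v (x j) ^ d) (v (app F x 0)) with h5 | h5
  · refine Or.inl ⟨(v.ne_zero_iff).1 (hpos.trans_le h5).ne', fun i => ?_⟩
    by_cases hi : i = 0
    · rw [hi]
    · exact (app_le v G hG F hF h1 h3 hi hx).trans h5
  · refine Or.inr ⟨(v.ne_zero_iff).1 (h4 ▸ hpos.ne'), fun i => ?_⟩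
    rw [h4]
    by_cases hi : i = 0
    · rw [hi]
      exact h5
    · exact app_le v G hG F hF h1 h3 hi hx

include hF h1 h2 h3 in
theorem app_zero (hd : d ≠ 0) (hN : (0 : Fin (N + 1)) - 1 ≠ 0) {x : Fin (N + 1) → L} {M : Γ}
    (hx : ∀ j, v (x j) ≤ M) :
    v (app F x 0 - ((F 0).coeff (Finsupp.single 0 d) * x 0 ^ d +
      (F 0).coeff (Finsupp.single (0 - 1) d) * x (0 - 1) ^ d)) ≤ M ^ d ∧
    v ((F 0).coeff (Finsupp.single 0 d) * x 0 ^ d) = g * G * v (x 0) ^ d ∧
    v ((F 0).coeff (Finsupp.single (0 - 1) d) * x (0 - 1) ^ d) = G * v (x (0 - 1)) ^ d := by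
  have h := val_main2 v (F 0) (hF 0) 0 (0 - 1)
    (fun e => hN (Finsupp.single_left_injective hd e).symm) 1 M
    (fun α hα hα' => h3 0 α hα' fun _ => hα) x hx
  rw [one_mul] at h
  refine ⟨h, ?_, ?_⟩
  · rw [map_mul, map_pow, h2]
  · rw [map_mul, map_pow, h1]

include hG hF h1 h2 h3 in
theorem step_B (hd : d ≠ 0) (hN : (0 : Fin (N + 1)) - 1 ≠ 0) {x : Fin (N + 1) → L}
    (hx : Max v (0 - 1) x) (hc : ¬ (x 0 ≠ 0 ∧ v (x (0 - 1)) ^ d = g * v (x 0) ^ d)) :
    Max v 0 (app F x) := by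
  obtain ⟨h4, h5, h6⟩ := app_zero v g G F hF h1 h2 h3 hd hN hx.2
  set M := v (x (0 - 1)) with hM
  have hM0 : M ≠ 0 := (v.ne_zero_iff).2 hx.1
  have hpos : 0 < M ^ d := zero_lt_iff.2 (pow_ne_zero _ hM0)
  have hG0 : 0 < G := zero_lt_one.trans hG
  have hne : v ((F 0).coeff (Finsupp.single 0 d) * x 0 ^ d) ≠
      v ((F 0).coeff (Finsupp.single (0 - 1) d) * x (0 - 1) ^ d) := by
    rw [h5, h6]
    intro e
    have e' : g * v (x 0) ^ d = M ^ d := by
      have : G * (g * v (x 0) ^ d) = G * M ^ d := by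
        rw [← mul_assoc, mul_comm G g]
        exact e
      exact mul_left_cancel₀ hG0.ne' this
    refine hc ⟨fun h0 => ?_, e'.symm⟩
    rw [h0, map_zero, zero_pow hd, mul_zero] at e'
    exact hpos.ne e'
  have h7 : G * M ^ d ≤ v ((F 0).coeff (Finsupp.single 0 d) * x 0 ^ d +
      (F 0).coeff (Finsupp.single (0 - 1) d) * x (0 - 1) ^ d) := by
    rw [v.map_add_of_distinct_val hne]
    exact h6.ge.trans (le_max_right _ _)
  have h8 : G * M ^ d ≤ v (app F x 0) := by
    have e : app F x 0 = (app F x 0 - ((F 0).coeff (Finsupp.single 0 d) * x 0 ^ d +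
        (F 0).coeff (Finsupp.single (0 - 1) d) * x (0 - 1) ^ d)) +
        ((F 0).coeff (Finsupp.single 0 d) * x 0 ^ d +
        (F 0).coeff (Finsupp.single (0 - 1) d) * x (0 - 1) ^ d) := by ring
    rw [e, v.map_add_eq_of_lt_right]
    · exact h7
    · exact (h4.trans_lt (lt_mul_of_one_lt_left hpos hG)).trans_le h7
  refine ⟨(v.ne_zero_iff).1 ((mul_pos hG0 hpos).trans_le h8).ne', fun i => ?_⟩
  by_cases hi : i = 0
  · rw [hi]
  · exact (app_le v G hG F hF h1 h3 hi hx).trans h8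

include hg hG hF h1 h2 h3 in
theorem app_zero_eq (hd : d ≠ 0) (hN : (0 : Fin (N + 1)) - 1 ≠ 0) {x : Fin (N + 1) → L}
    (hx : Max v 0 x) : v (app F x 0) = g * G * v (x 0) ^ d := by
  obtain ⟨h4, h5, h6⟩ := app_zero v g G F hF h1 h2 h3 hd hN hx.2
  have hpos : 0 < v (x 0) ^ d := zero_lt_iff.2 (pow_ne_zero _ ((v.ne_zero_iff).2 hx.1))
  have hG0 : 0 < G := zero_lt_one.trans hG
  have hlt : G * v (x 0) ^ d < g * G * v (x 0) ^ d := by
    rw [mul_assoc]
    exact lt_mul_of_one_lt_left (mul_pos hG0 hpos) hg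
  have h7 : v ((F 0).coeff (Finsupp.single 0 d) * x 0 ^ d +
      (F 0).coeff (Finsupp.single (0 - 1) d) * x (0 - 1) ^ d) = g * G * v (x 0) ^ d := by
    rw [v.map_add_eq_of_lt_left, h5]
    rw [h5, h6]
    exact (mul_le_mul' le_rfl (pow_le_pow_left' (hx.2 _) _)).trans_lt hlt
  have e : app F x 0 = (app F x 0 - ((F 0).coeff (Finsupp.single 0 d) * x 0 ^ d +
      (F 0).coeff (Finsupp.single (0 - 1) d) * x (0 - 1) ^ d)) +
      ((F 0).coeff (Finsupp.single 0 d) * x 0 ^ d +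
      (F 0).coeff (Finsupp.single (0 - 1) d) * x (0 - 1) ^ d) := by ring
  rw [e, v.map_add_eq_of_lt_right, h7]
  rw [h7]
  exact h4.trans_lt ((lt_mul_of_one_lt_left hpos hG).trans hlt)

include hg hG hF h1 h2 h3 in
theorem step_C (hd : d ≠ 0) (hN : (0 : Fin (N + 1)) - 1 ≠ 0) {x : Fin (N + 1) → L}
    (hx : Max v 0 x) : Dom v g (app F x) := by
  have h4 := app_zero_eq v g G hg hG F hF h1 h2 h3 hd hN hx
  have hpos : 0 < g * G * v (x 0) ^ d := mul_pos (mul_pos (zero_lt_one.trans hg)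
    (zero_lt_one.trans hG)) (zero_lt_iff.2 (pow_ne_zero _ ((v.ne_zero_iff).2 hx.1)))
  refine ⟨(v.ne_zero_iff).1 (h4 ▸ hpos.ne'), fun i hi => ?_⟩
  rw [h4, mul_assoc]
  exact mul_le_mul' le_rfl (app_le v G hG F hF h1 h3 hi hx)

theorem Dom.max (hg : 1 < g) {x : Fin (N + 1) → L} (hx : Dom v g x) : Max v 0 x := by
  refine ⟨hx.1, fun i => ?_⟩
  by_cases hi : i = 0
  · rw [hi]
  · exact (le_mul_of_one_le_left' hg.le).trans (hx.2 i hi)

include hG hF h1 h2 h3 in
/-- Without cancellation every orbit reaches the dominant region. -/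
theorem reach (hd : d ≠ 0) (hN : (0 : Fin (N + 1)) - 1 ≠ 0) (j : Fin (N + 1))
    (x : Fin (N + 1) → L) (hx : Max v j x)
    (hc : ∀ n, ¬ ((app F)^[n] x 0 ≠ 0 ∧
      v ((app F)^[n] x (0 - 1)) ^ d = g * v ((app F)^[n] x 0) ^ d)) :
    ∃ n, Max v 0 ((app F)^[n] x) := by
  induction j using Fin.reverseInduction generalizing x with
  | last =>
    have hj' : Fin.last N = 0 - 1 := eq_sub_of_add_eq (Fin.last_add_one N)
    rw [hj'] at hx
    exact ⟨1, step_B v g G hG F hF h1 h2 h3 hd hN hx (hc 0)⟩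
  | cast i ih =>
    have hi : i.castSucc + 1 = i.succ := Fin.coeSucc_eq_succ
    rcases step_A v G hG F hF h1 h3 (hi ▸ Fin.succ_ne_zero i) hx with h4 | h4
    · exact ⟨1, h4⟩
    · rw [hi] at h4
      obtain ⟨n, hn⟩ := ih (app F x) h4 fun n => by
        have h5 := hc (n + 1)
        rwa [Function.iterate_succ_apply] at h5
      exact ⟨n + 1, by rwa [Function.iterate_succ_apply]⟩

include hg hG hF h1 h2 h3 in
theorem app_ne_zero (hd : d ≠ 0) (hN : (0 : Fin (N + 1)) - 1 ≠ 0) {x : Fin (N + 1) → L}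
    (hx : x ≠ 0) (hc : ¬ (x 0 ≠ 0 ∧ v (x (0 - 1)) ^ d = g * v (x 0) ^ d)) : app F x ≠ 0 := by
  obtain ⟨j, hj⟩ := exists_max v hx
  have h4 : ∃ i, app F x i ≠ 0 := by
    by_cases hj' : j + 1 = 0
    · rw [eq_sub_of_add_eq hj'] at hj
      exact ⟨_, (step_B v g G hG F hF h1 h2 h3 hd hN hj hc).1⟩
    · rcases step_A v G hG F hF h1 h3 hj' hj with h4 | h4
      · exact ⟨_, h4.1⟩
      · exact ⟨_, h4.1⟩
  obtain ⟨i, hi⟩ := h4
  exact fun h0 => hi (congrFun h0 i)

/-- Normalisation by the coordinate `0`. -/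
noncomputable def nu (x : Fin (N + 1) → L) : Fin (N + 1) → L := (x 0)⁻¹ • x

include hF in
theorem nu_app {x : Fin (N + 1) → L} (hx : x 0 ≠ 0) : nu (app F (nu x)) = nu (app F x) := by
  unfold nu
  rw [app_smul d F hF]
  have h : (x 0)⁻¹ ^ d ≠ 0 := pow_ne_zero _ (inv_ne_zero hx)
  rw [Pi.smul_apply, smul_eq_mul, mul_inv, smul_smul, mul_right_comm, inv_mul_cancel₀ h, one_mul]

/-- The normalised dominant vectors. -/
def Wn (u : Fin (N + 1) → L) : Prop := u 0 = 1 ∧ ∀ i, i ≠ 0 → v (u i) ≤ g⁻¹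

include hg in
theorem Dom.wn {x : Fin (N + 1) → L} (hx : Dom v g x) : Wn v g (nu x) := by
  have hg0 : 0 < g := zero_lt_one.trans hg
  refine ⟨inv_mul_cancel₀ hx.1, fun i hi => ?_⟩
  change v ((x 0)⁻¹ * x i) ≤ g⁻¹
  have h0 : 0 < v (x 0) := zero_lt_iff.2 ((v.ne_zero_iff).2 hx.1)
  rw [map_mul, map_inv₀, inv_mul_le_iff₀ h0, le_mul_inv_iff₀ hg0, mul_comm]
  exact hx.2 i hi

include hg in
theorem Wn.dom {u : Fin (N + 1) → L} (hu : Wn v g u) : Dom v g u := by
  have hg0 : 0 < g := zero_lt_one.trans hg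
  refine ⟨by rw [hu.1]; exact one_ne_zero, fun i hi => ?_⟩
  rw [hu.1, map_one]
  have h := mul_le_mul' (le_refl g) (hu.2 i hi)
  rwa [mul_inv_cancel₀ hg0.ne'] at h

include hG h1 h3 in
theorem coeff_le {i : Fin (N + 1)} (hi : i ≠ 0) (α : Fin (N + 1) →₀ ℕ) :
    v ((F i).coeff α) ≤ G := by
  by_cases h : α = Finsupp.single (i - 1) d
  · rw [h, h1]
  · exact (h3 i α h fun h => absurd h hi).trans hG.le

include hG h1 h3 in
theorem sub_zero_le {u w : Fin (N + 1) → L} (hu0 : u 0 = 1) (hw0 : w 0 = 1)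
    (hu : ∀ i, v (u i) ≤ 1) (hw : ∀ i, v (w i) ≤ 1) (ρ : Γ) (h : ∀ i, v (u i - w i) ≤ ρ) :
    v (app F u 0 - app F w 0) ≤ G * ρ := by
  classical
  have h4 := val_eval_sub_le v (F 0 - MvPolynomial.monomial (Finsupp.single 0 d)
    ((F 0).coeff (Finsupp.single 0 d))) G ρ (fun α => ?_) u w hu hw h
  · rw [RingHom.map_sub, RingHom.map_sub, eval_single, eval_single, hu0, hw0,
      sub_sub_sub_cancel_right] at h4
    exact h4
  · rw [MvPolynomial.coeff_sub, MvPolynomial.coeff_monomial]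
    by_cases h : Finsupp.single 0 d = α
    · rw [if_pos h, ← h, sub_self, map_zero]
      exact zero_le
    · rw [if_neg h, sub_zero]
      by_cases h' : α = Finsupp.single (0 - 1) d
      · rw [h', h1]
      · exact (h3 0 α h' fun _ e => h e.symm).trans hG.le

include hg hG hF h1 h2 h3 in
theorem contract (hd : d ≠ 0) (hN : (0 : Fin (N + 1)) - 1 ≠ 0) {u w : Fin (N + 1) → L}
    (hu : Wn v g u) (hw : Wn v g w) (ρ : Γ) (h : ∀ i, v (u i - w i) ≤ ρ) (i : Fin (N + 1)) :
    v (nu (app F u) i - nu (app F w) i) ≤ g⁻¹ * ρ := by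
  have hg0 : 0 < g := zero_lt_one.trans hg
  have mu := (hu.dom v g hg).max v g hg
  have mw := (hw.dom v g hg).max v g hg
  have hG0 : 0 < G := zero_lt_one.trans hG
  have eu : v (app F u 0) = g * G := by
    rw [app_zero_eq v g G hg hG F hF h1 h2 h3 hd hN mu, hu.1, map_one, one_pow, mul_one]
  have ew : v (app F w 0) = g * G := by
    rw [app_zero_eq v g G hg hG F hF h1 h2 h3 hd hN mw, hw.1, map_one, one_pow, mul_one]
  have nu0 : app F u 0 ≠ 0 := (v.ne_zero_iff).1 (eu ▸ (mul_pos hg0 hG0).ne')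
  have nw0 : app F w 0 ≠ 0 := (v.ne_zero_iff).1 (ew ▸ (mul_pos hg0 hG0).ne')
  by_cases hi : i = 0
  · subst hi
    have e1 : nu (app F u) 0 = 1 := inv_mul_cancel₀ nu0
    have e2 : nu (app F w) 0 = 1 := inv_mul_cancel₀ nw0
    rw [e1, e2, sub_self, map_zero]
    exact zero_le
  · have hu1 : ∀ i, v (u i) ≤ 1 := fun i => by
      have := mu.2 i
      rwa [hu.1, map_one] at this
    have hw1 : ∀ i, v (w i) ≤ 1 := fun i => by
      have := mw.2 i
      rwa [hw.1, map_one] at this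
    have h4 : v (app F u i - app F w i) ≤ G * ρ :=
      val_eval_sub_le v (F i) G ρ (coeff_le v G hG F h1 h3 hi) u w hu1 hw1 h
    have h5 := sub_zero_le v G hG F h1 h3 hu.1 hw.1 hu1 hw1 ρ h
    have h6 : v (app F w i) ≤ G := by
      have := app_le v G hG F hF h1 h3 hi mw
      rwa [hw.1, map_one, one_pow, mul_one] at this
    have e : nu (app F u) i - nu (app F w) i =
        ((app F u i - app F w i) * app F w 0 - app F w i * (app F u 0 - app F w 0)) *
          (app F u 0 * app F w 0)⁻¹ := by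
      change (app F u 0)⁻¹ * app F u i - (app F w 0)⁻¹ * app F w i = _
      field_simp
      ring
    rw [e, map_mul, map_inv₀, map_mul, eu, ew]
    have h7 : v ((app F u i - app F w i) * app F w 0 - app F w i * (app F u 0 - app F w 0)) ≤
        g * G * G * ρ := by
      refine v.map_sub_le ?_ ?_
      · rw [map_mul, ew]
        calc v (app F u i - app F w i) * (g * G) ≤ G * ρ * (g * G) := mul_le_mul' h4 le_rfl
          _ = g * G * G * ρ := by
            rw [mul_right_comm, mul_comm G (g * G)]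
      · rw [map_mul]
        calc v (app F w i) * v (app F u 0 - app F w 0) ≤ G * (G * ρ) := mul_le_mul' h6 h5
          _ = G * G * ρ := by rw [← mul_assoc]
          _ ≤ g * G * G * ρ := mul_le_mul' (mul_le_mul' (le_mul_of_one_le_left' hg.le) le_rfl)
              le_rfl
    refine (mul_le_mul' h7 le_rfl).trans (le_of_eq ?_)
    have e2 : g * G * G * ρ = g⁻¹ * ρ * (g * G * (g * G)) := by
      field_simp
    rw [e2, mul_assoc, mul_inv_cancel₀ (mul_ne_zero (mul_pos hg0 hG0).ne'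
      (mul_pos hg0 hG0).ne'), mul_one]

include hg hG hF h1 h2 h3 in
theorem wn_iter (hd : d ≠ 0) (hN : (0 : Fin (N + 1)) - 1 ≠ 0) {u : Fin (N + 1) → L}
    (hu : Wn v g u) (n : ℕ) : Wn v g ((fun y => nu (app F y))^[n] u) := by
  induction n with
  | zero => exact hu
  | succ n ih =>
    rw [Function.iterate_succ_apply']
    exact Dom.wn v g hg (step_C v g G hg hG F hF h1 h2 h3 hd hN ((ih.dom v g hg).max v g hg))

include hg hG hF h1 h2 h3 in
theorem iter_contract (hd : d ≠ 0) (hN : (0 : Fin (N + 1)) - 1 ≠ 0) {u w : Fin (N + 1) → L}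
    (hu : Wn v g u) (hw : Wn v g w) (ρ : Γ) (h : ∀ i, v (u i - w i) ≤ ρ) (n : ℕ)
    (i : Fin (N + 1)) :
    v ((fun y => nu (app F y))^[n] u i - (fun y => nu (app F y))^[n] w i) ≤ g⁻¹ ^ n * ρ := by
  induction n generalizing i with
  | zero => simpa using h i
  | succ n ih =>
    rw [Function.iterate_succ_apply', Function.iterate_succ_apply', pow_succ', mul_assoc]
    exact contract v g G hg hG F hF h1 h2 h3 hd hN (wn_iter v g G hg hG F hF h1 h2 h3 hd hN hu n)
      (wn_iter v g G hg hG F hF h1 h2 h3 hd hN hw n) _ ih i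

include hg hG hF h1 h2 h3 in
theorem fixed_of_iter (hd : d ≠ 0) (hN : (0 : Fin (N + 1)) - 1 ≠ 0) {u : Fin (N + 1) → L}
    (hu : Wn v g u) {p : ℕ} (hp : p ≠ 0) (h : (fun y => nu (app F y))^[p] u = u) :
    nu (app F u) = u := by
  have hg0 : 0 < g := zero_lt_one.trans hg
  obtain ⟨j, hj⟩ := Finite.exists_max fun i => v (nu (app F u) i - u i)
  have h4 := iter_contract v g G hg hG F hF h1 h2 h3 hd hN (wn_iter v g G hg hG F hF h1 h2 h3 hd hN hu 1) hu
    (v (nu (app F u) j - u j)) (fun i => hj i) p j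
  have e1 : (fun y => nu (app F y))^[p] ((fun y => nu (app F y))^[1] u) =
      (fun y => nu (app F y))^[1] u := by
    rw [← Function.iterate_add_apply, Nat.add_comm p 1, Function.iterate_add_apply, h]
  rw [e1, h] at h4
  have h5 : v (nu (app F u) j - u j) ≤ g⁻¹ ^ p * v (nu (app F u) j - u j) := h4
  have h6 : v (nu (app F u) j - u j) = 0 := by
    by_contra h0
    have h7 : 0 < v (nu (app F u) j - u j) := zero_lt_iff.2 h0
    have h8 : g⁻¹ ^ p < 1 := pow_lt_one₀ (inv_nonneg.2 hg0.le) (inv_lt_one_of_one_lt₀ hg) hp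
    exact absurd h5 (not_le.2 (mul_lt_of_lt_one_left h7 h8))
  funext i
  have h7 := hj i
  simp only [h6] at h7
  exact sub_eq_zero.1 ((map_eq_zero v).1 (le_antisymm h7 zero_le))

include hg hG hF h1 h2 h3 in
theorem dom_iter (hd : d ≠ 0) (hN : (0 : Fin (N + 1)) - 1 ≠ 0) {x : Fin (N + 1) → L}
    (hx : Dom v g x) (n : ℕ) : Dom v g ((app F)^[n] x) := by
  induction n with
  | zero => exact hx
  | succ n ih =>
    rw [Function.iterate_succ_apply']
    exact step_C v g G hg hG F hF h1 h2 h3 hd hN (ih.max v g hg)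

include hg hG hF h1 h2 h3 in
theorem nu_iter (hd : d ≠ 0) (hN : (0 : Fin (N + 1)) - 1 ≠ 0) {x : Fin (N + 1) → L}
    (hx : Dom v g x) (n : ℕ) :
    nu ((app F)^[n] x) = (fun y => nu (app F y))^[n] (nu x) := by
  induction n with
  | zero => rfl
  | succ n ih =>
    rw [Function.iterate_succ_apply', Function.iterate_succ_apply', ← ih]
    exact (nu_app F hF (dom_iter v g G hg hG F hF h1 h2 h3 hd hN hx n).1).symm

theorem nu_eq_of_par {x y : Fin (N + 1) → L} (hx : x 0 ≠ 0) (hy : y 0 ≠ 0) (h : Par x y) :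
    nu x = nu y := by
  funext i
  change (x 0)⁻¹ * x i = (y 0)⁻¹ * y i
  field_simp
  linear_combination h i 0

theorem par_of_nu_eq {x y : Fin (N + 1) → L} (hx : x 0 ≠ 0) (hy : y 0 ≠ 0) (h : nu x = nu y) :
    Par x y := by
  have h4 : ∀ i, x i * y 0 = x 0 * y i := fun i => by
    have h5 : (x 0)⁻¹ * x i = (y 0)⁻¹ * y i := congrFun h i
    field_simp at h5
    linear_combination h5
  intro i j
  have h5 : x i * y j * (x 0 * y 0) = x j * y i * (x 0 * y 0) := by
    linear_combination (y j * x 0) * h4 i - (y i * x 0) * h4 j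
  exact mul_right_cancel₀ (mul_ne_zero hx hy) h5

include hg hG hF h1 h2 h3 in
theorem iter_ne (hd : d ≠ 0) (hN : (0 : Fin (N + 1)) - 1 ≠ 0) {x : Fin (N + 1) → L} (hx : x ≠ 0)
    (hc : ∀ n, ¬ ((app F)^[n] x 0 ≠ 0 ∧
      v ((app F)^[n] x (0 - 1)) ^ d = g * v ((app F)^[n] x 0) ^ d)) (n : ℕ) :
    (app F)^[n] x ≠ 0 := by
  induction n with
  | zero => exact hx
  | succ n ih =>
    rw [Function.iterate_succ_apply']
    exact app_ne_zero v g G hg hG F hF h1 h2 h3 hd hN ih (hc n)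

include hg hG hF h1 h2 h3 in
/-- A preperiodic point without cancellation in its orbit ends in a fixed point. -/
theorem fixed_of_pre (hd : d ≠ 0) (hN : (0 : Fin (N + 1)) - 1 ≠ 0) (x : Fin (N + 1) → L)
    (hx : x ≠ 0) (hc : ∀ n, ¬ ((app F)^[n] x 0 ≠ 0 ∧
      v ((app F)^[n] x (0 - 1)) ^ d = g * v ((app F)^[n] x 0) ^ d)) (a b : ℕ) (hab : a < b)
    (hp : Par ((app F)^[a] x) ((app F)^[b] x)) :
    ∃ n, (app F)^[n] x ≠ 0 ∧ Par ((app F)^[n] x) (app F ((app F)^[n] x)) := by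
  obtain ⟨j, hj⟩ := exists_max v hx
  obtain ⟨n, hn⟩ := reach v g G hG F hF h1 h2 h3 hd hN j x hj hc
  have hdom : Dom v g ((app F)^[n + 1] x) := by
    rw [Function.iterate_succ_apply']
    exact step_C v g G hg hG F hF h1 h2 h3 hd hN hn
  generalize n + 1 = m at hdom
  have hne := iter_ne v g G hg hG F hF h1 h2 h3 hd hN hx hc
  obtain ⟨p, rfl⟩ := Nat.exists_eq_add_of_lt hab
  have h4 := Par.iter F hF (hne a) hp m
  rw [← Function.iterate_add_apply _ m a, ← Function.iterate_add_apply _ m (a + p + 1),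
    add_comm m a, (by ring : m + (a + p + 1) = (p + 1) + (a + m)),
    Function.iterate_add_apply _ (p + 1) (a + m), Function.iterate_add_apply _ a m] at h4
  have hdq : Dom v g ((app F)^[a] ((app F)^[m] x)) :=
    dom_iter v g G hg hG F hF h1 h2 h3 hd hN hdom a
  have h5 := nu_eq_of_par hdq.1 (dom_iter v g G hg hG F hF h1 h2 h3 hd hN hdq (p + 1)).1 h4
  rw [nu_iter v g G hg hG F hF h1 h2 h3 hd hN hdq] at h5
  have h6 := fixed_of_iter v g G hg hG F hF h1 h2 h3 hd hN (hdq.wn v g hg) (Nat.succ_ne_zero p) h5.symm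
  rw [nu_app F hF hdq.1] at h6
  have h7 := par_of_nu_eq (dom_iter v g G hg hG F hF h1 h2 h3 hd hN hdq 1).1 hdq.1 h6
  refine ⟨a + m, hne _, ?_⟩
  rw [Function.iterate_add_apply]
  exact h7.symm

end dynamics

end DynN

/-- A periodic point of a tuple of forms with dominant coefficients at `x_0 ^ d` in `F_0` and at
`x_i ^ d` in `F_(i+1)` (cyclically) is fixed. -/
theorem fixed_of_periodic {L Γ : Type} [Field L] [LinearOrderedCommGroupWithZero Γ]
    (v : Valuation L Γ) (g : Γ) (hg : 1 < g) {N d : ℕ} (hN : 1 ≤ N) (hd : 2 ≤ d) (F : Tup N L)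
    (hF : ∀ i, (F i).IsHomogeneous d) (E : ℕ) (hE : 1 ≤ E)
    (hc : v ((F 0).coeff (Finsupp.single 0 d)) = g ^ (E + 1))
    (ha : ∀ i : Fin (N + 1), v ((F (i + 1)).coeff (Finsupp.single i d)) = g ^ E)
    (hs : ∀ (i : Fin (N + 1)) (α : Fin (N + 1) →₀ ℕ), (i = 0 → α ≠ Finsupp.single 0 d) →
      (∀ j : Fin (N + 1), i = j + 1 → α ≠ Finsupp.single j d) → v ((F i).coeff α) ≤ 1)
    (x : Fin (N + 1) → L) (hx : x ≠ 0)
    (hv : ∀ (n : ℕ) (j : Fin (N + 1)), (app F)^[n] x j ≠ 0 →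
      v ((app F)^[n] x 0) ^ d * g ≠ v ((app F)^[n] x j) ^ d)
    (n : ℕ) (hn : 1 ≤ n) (hp : Par ((app F)^[n] x) x) : Par (app F x) x := by
  have hg0 : 0 < g := zero_lt_one.trans hg
  have hG : 1 < g ^ E := one_lt_pow' hg (by omega)
  have h1 : ∀ i, v ((F i).coeff (Finsupp.single (i - 1) d)) = g ^ E := fun i => by
    have h := ha (i - 1)
    rwa [sub_add_cancel] at h
  have h2 : v ((F 0).coeff (Finsupp.single 0 d)) = g * g ^ E := by rw [hc, pow_succ']
  have h3 : ∀ i α, α ≠ Finsupp.single (i - 1) d → (i = 0 → α ≠ Finsupp.single 0 d) →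
      v ((F i).coeff α) ≤ 1 := fun i α h h' => hs i α h' fun j hj => by
    rwa [← eq_sub_of_add_eq hj.symm] at h
  have hd0 : d ≠ 0 := by omega
  have hN0 : (0 : Fin (N + 1)) - 1 ≠ 0 := by
    intro h
    have h4 : (0 : Fin (N + 1)) = 1 := by
      have := sub_eq_zero.1 h
      exact this
    have h5 := congrArg Fin.val h4
    rw [Fin.val_zero, Fin.val_one', Nat.mod_eq_of_lt (by omega)] at h5
    exact zero_ne_one h5
  have hcan : ∀ n, ¬ ((app F)^[n] x 0 ≠ 0 ∧
      v ((app F)^[n] x (0 - 1)) ^ d = g * v ((app F)^[n] x 0) ^ d) := by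
    rintro n ⟨h4, h5⟩
    refine hv n (0 - 1) (fun h0 => ?_) (by rw [h5, mul_comm])
    rw [h0, map_zero, zero_pow hd0] at h5
    exact (mul_pos hg0 (zero_lt_iff.2 (pow_ne_zero d ((v.ne_zero_iff).2 h4)))).ne h5
  have hne := DynN.iter_ne v g (g ^ E) hg hG F hF h1 h2 h3 hd0 hN0 hx hcan
  obtain ⟨m, -, hm⟩ := DynN.fixed_of_pre v g (g ^ E) hg hG F hF h1 h2 h3 hd0 hN0 x hx hcan 0 n
    (by omega) hp.symm
  -- all later iterates are fixed
  have hlate : ∀ k, Par ((app F)^[m + k] x) (app F ((app F)^[m + k] x)) := by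
    intro k
    have h4 := Par.iter F hF (hne m) hm k
    rw [← Function.iterate_add_apply, ← Function.iterate_succ_apply' (app F) m x,
      ← Function.iterate_add_apply, Nat.add_comm k m, (by omega : k + m.succ = (m + k).succ),
      Function.iterate_succ_apply'] at h4
    exact h4
  -- `x` is parallel to its iterates with index divisible by `n`
  have hmul : ∀ k, Par ((app F)^[n * k] x) x := by
    intro k
    induction k with
    | zero => exact Par.refl x
    | succ k ih =>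
      have e : n * (k + 1) = n * k + n := by ring
      rw [e, Function.iterate_add_apply]
      have h4 := Par.iter F hF (hne n) hp (n * k)
      exact h4.trans (hne (n * k)) ih
  have h4 := hmul m
  obtain ⟨k, hk⟩ : ∃ k, n * m = m + k := ⟨n * m - m, by
    have : m ≤ n * m := Nat.le_mul_of_pos_left m (by omega)
    omega⟩
  have h5 := hlate k
  rw [← hk] at h5
  have h6 := Par.iter F hF (hne (n * m)) h4 1
  have h6' : Par (app F ((app F)^[n * m] x)) (app F x) := h6
  have hne1 : app F ((app F)^[n * m] x) ≠ 0 := by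
    have := hne (n * m + 1)
    rwa [Function.iterate_succ_apply'] at this
  exact h6'.symm.trans hne1 (h5.symm.trans (hne (n * m)) h4)

end Pool.Agent.PNH
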