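import Pool.Agent.PNH.GVal

set_option autoImplicit false

/-!
# Preperiodic points of a morphism with one large and `N + 1` medium coefficients are
eventually fixed, if they are unramified
-/

namespace Pool.Agent.PNH.G

open MvPolynomial

variable {L Γ : Type} [Field L] [LinearOrderedCommGroupWithZero Γ] {N d : ℕ}

/-- The coefficient of `X_0 ^ d` in `F_0` has value `g ^ 2`, that of `X_(i-1) ^ d` in `F_i` has value
`g` (with `0 - 1 = N`), the other coefficients have values at most `1`. -/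
structure Big (v : Valuation L Γ) (g : Γ) (d : ℕ) (F : Tup N L) : Prop where
  hom : ∀ i, (F i).IsHomogeneous d
  big : v (coeff (Finsupp.single 0 d) (F 0)) = g ^ 2
  main : ∀ i, v (coeff (Finsupp.single (i - 1) d) (F i)) = g
  rest : ∀ i α, α ≠ Finsupp.single (i - 1) d → ¬ (i = 0 ∧ α = Finsupp.single 0 d) →
    v (coeff α (F i)) ≤ 1

variable (v : Valuation L Γ) {g : Γ} (hg : 1 < g) {F : Tup N L} (hF : Big v g d F)

include hg

include hF in
theorem coeff_le (i : Fin (N + 1)) (α : Fin (N + 1) →₀ ℕ) (h : ¬ (i = 0 ∧ α = Finsupp.single 0 d)) :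
    v (coeff α (F i)) ≤ g := by
  by_cases h1 : α = Finsupp.single (i - 1) d
  · rw [h1, hF.main]
  · exact (hF.rest i α h1 h).trans hg.le

include hF in
theorem app_le (i : Fin (N + 1)) (hi : i ≠ 0) (x : Fin (N + 1) → L) (m : Γ)
    (hx : ∀ j, v (x j) ≤ m) : v (app F x i) ≤ g * m ^ d :=
  val_eval_le v (F i) (hF.hom i) g m (fun α => coeff_le v hg hF i α fun h => hi h.1) x hx

/-- The coordinate `0` dominates. -/
def Dom (x : Fin (N + 1) → L) : Prop := x 0 ≠ 0 ∧ ∀ i, i ≠ 0 → v (x i) < v (x 0)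

include hF in
theorem case_one (x : Fin (N + 1) → L) (m : Γ) (hx : ∀ j, v (x j) ≤ m)
    (h : m ^ d < g * v (x 0) ^ d) : v (app F x 0) = g ^ 2 * v (x 0) ^ d := by
  have hg0 : 0 < g := zero_lt_one.trans hg
  have h1 : g * m ^ d < v (coeff (Finsupp.single 0 d) (F 0)) * v (x 0) ^ d := by
    rw [hF.big, pow_two, mul_assoc]
    exact (mul_lt_mul_iff_right₀ hg0).2 h
  have h2 := val_main v (F 0) (hF.hom 0) 0 g m
    (fun α hα => coeff_le v hg hF 0 α fun h => hα h.2) x hx h1
  rw [hF.big] at h2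
  exact h2

include hF in
theorem dom_of_case_one (hd : d ≠ 0) (x : Fin (N + 1) → L) (j : Fin (N + 1))
    (hx : ∀ i, v (x i) ≤ v (x j)) (h : v (x j) ^ d < g * v (x 0) ^ d) : Dom v (app F x) := by
  have hg0 : 0 < g := zero_lt_one.trans hg
  have h1 := case_one v hg hF x _ hx h
  have hx0 : v (x 0) ≠ 0 := by
    intro h0
    rw [h0, zero_pow hd, mul_zero] at h
    exact not_lt_zero h
  refine ⟨fun h0 => ?_, fun i hi => ?_⟩
  · rw [h0, map_zero] at h1
    exact mul_ne_zero (pow_ne_zero _ hg0.ne') (pow_ne_zero _ hx0) h1.symm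
  · rw [h1]
    refine (app_le v hg hF i hi x _ hx).trans_lt ?_
    rw [pow_two, mul_assoc]
    exact (mul_lt_mul_iff_right₀ hg0).2 h

include hF in
/-- If the maximum is at `j` and the coordinate `0` is small, then the next maximum is at `j + 1`. -/
theorem case_two (hN : 1 ≤ N) (x : Fin (N + 1) → L) (j : Fin (N + 1))
    (hx : ∀ i, v (x i) ≤ v (x j)) (h : g * v (x 0) ^ d < v (x j) ^ d) :
    app F x (j + 1) ≠ 0 ∧ ∀ i, v (app F x i) ≤ v (app F x (j + 1)) := by
  have hg0 : 0 < g := zero_lt_one.trans hg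
  have hjd : 0 < v (x j) ^ d := lt_of_le_of_lt zero_le h
  have hm : v (x j) ^ d < g * v (x j) ^ d := by
    have := (mul_lt_mul_iff_left₀ hjd).2 hg
    rwa [one_mul] at this
  -- the zeroth form without its first monomial
  set P := F 0 - monomial (Finsupp.single 0 d) (coeff (Finsupp.single 0 d) (F 0)) with hP
  have hPh : P.IsHomogeneous d := hom_split (hF.hom 0) 0
  have hs : (Finsupp.single (0 - 1 : Fin (N + 1)) d : Fin (N + 1) →₀ ℕ) ≠ Finsupp.single 0 d ∨
      d = 0 := by
    by_cases hd : d = 0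
    · exact Or.inr hd
    · left
      intro h1
      have h2 := (Finsupp.single_left_inj hd).1 h1
      have h3 : (1 : Fin (N + 1)) = 0 := by
        have := congrArg (fun t => 0 - t) h2
        simpa using this
      have h4 := congrArg Fin.val h3
      have : (1 : Fin (N + 1)).val = 1 := by
        rw [Fin.val_one']
        exact Nat.mod_eq_of_lt (by omega)
      rw [this] at h4
      exact one_ne_zero h4
  have hd : d ≠ 0 := by
    rintro rfl
    rw [pow_zero, pow_zero, mul_one] at h
    exact absurd h (not_lt.2 hg.le)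
  have hs' : (Finsupp.single (0 - 1 : Fin (N + 1)) d : Fin (N + 1) →₀ ℕ) ≠ Finsupp.single 0 d :=
    hs.resolve_right hd
  have hP1 : v (coeff (Finsupp.single (0 - 1 : Fin (N + 1)) d) P) = g := by
    rw [hP, coeff_split, if_neg hs', hF.main]
  have hP2 : ∀ α, α ≠ Finsupp.single (0 - 1 : Fin (N + 1)) d → v (coeff α P) ≤ 1 := by
    intro α hα
    rw [hP, coeff_split]
    split_ifs with h1
    · rw [map_zero]
      exact zero_le
    · exact hF.rest 0 α hα fun h2 => h1 h2.2
  have hPg : ∀ α, v (coeff α P) ≤ g := by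
    intro α
    by_cases hα : α = Finsupp.single (0 - 1 : Fin (N + 1)) d
    · rw [hα, hP1]
    · exact (hP2 α hα).trans hg.le
  have h00 : v (coeff (Finsupp.single 0 d) (F 0) * x 0 ^ d) < g * v (x j) ^ d := by
    rw [map_mul, map_pow, hF.big, pow_two, mul_assoc]
    exact (mul_lt_mul_iff_right₀ hg0).2 h
  have hup : ∀ i, v (app F x i) ≤ g * v (x j) ^ d := by
    intro i
    by_cases hi : i = 0
    · subst hi
      change v (eval x (F 0)) ≤ _
      rw [eval_split (d := d) (F 0) 0 x]
      exact v.map_add_le h00.le (val_eval_le v P hPh g _ hPg x hx)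
    · exact app_le v hg hF i hi x _ hx
  have hlow : v (app F x (j + 1)) = g * v (x j) ^ d := by
    by_cases hj : j + 1 = 0
    · have hj' : j = 0 - 1 := by rw [← hj]; simp
      rw [hj]
      change v (eval x (F 0)) = _
      have h2 : v (eval x P) = g * v (x j) ^ d := by
        have h3 := val_main v P hPh (0 - 1) 1 (v (x j)) hP2 x hx
          (by rw [hP1, one_mul, ← hj']; exact hm)
        rw [h3, hP1, ← hj']
      rw [eval_split (d := d) (F 0) 0 x, Valuation.map_add_eq_of_lt_right v (by rw [h2]; exact h00),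
        h2]
    · have h3 := val_main v (F (j + 1)) (hF.hom _) (j + 1 - 1) 1 (v (x j))
        (fun α hα => hF.rest (j + 1) α hα fun h2 => hj h2.1) x hx
        (by rw [hF.main, one_mul, add_sub_cancel_right]; exact hm)
      rw [hF.main, add_sub_cancel_right] at h3
      exact h3
  refine ⟨fun h0 => ?_, fun i => ?_⟩
  · rw [h0, map_zero] at hlow
    exact mul_ne_zero hg0.ne' hjd.ne' hlow.symm
  · rw [hlow]
    exact hup i

include hF in
/-- After some steps the coordinate `0` dominates. -/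
theorem exists_dom (hN : 1 ≤ N) (hd : d ≠ 0) (t : ℕ) : ∀ (x : Fin (N + 1) → L) (j : Fin (N + 1)),
    (∀ i, v (x i) ≤ v (x j)) → x j ≠ 0 → N - (j : ℕ) ≤ t →
    (∀ n i, (app F)^[n] x i ≠ 0 → g * v ((app F)^[n] x 0) ^ d ≠ v ((app F)^[n] x i) ^ d) →
    ∃ n, Dom v ((app F)^[n] x) := by
  have hmul : ∀ a : Γ, a ≠ 0 → a ^ d < g * a ^ d := by
    intro a ha
    have h1 : 0 < a ^ d := pow_pos (zero_lt_iff.2 ha) d
    have := (mul_lt_mul_iff_left₀ h1).2 hg
    rwa [one_mul] at this
  induction t with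
  | zero =>
    intro x j hx hj ht H
    rcases lt_trichotomy (g * v (x 0) ^ d) (v (x j) ^ d) with h | h | h
    · obtain ⟨h1, h2⟩ := case_two v hg hF hN x j hx h
      have hj1 : j + 1 = 0 := by
        have h3 : j = Fin.last N := Fin.ext (by
          have := j.is_lt
          rw [Fin.val_last]
          omega)
        rw [h3, Fin.last_add_one]
      rw [hj1] at h1 h2
      refine ⟨2, ?_⟩
      exact dom_of_case_one v hg hF hd (app F x) 0 h2 (hmul _ (v.ne_zero_iff.2 h1))
    · exact absurd h (H 0 j hj)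
    · exact ⟨1, dom_of_case_one v hg hF hd x j hx h⟩
  | succ t ih =>
    intro x j hx hj ht H
    rcases lt_trichotomy (g * v (x 0) ^ d) (v (x j) ^ d) with h | h | h
    · obtain ⟨h1, h2⟩ := case_two v hg hF hN x j hx h
      by_cases hj1 : j = Fin.last N
      · rw [hj1, Fin.last_add_one] at h1 h2
        refine ⟨2, ?_⟩
        exact dom_of_case_one v hg hF hd (app F x) 0 h2 (hmul _ (v.ne_zero_iff.2 h1))
      · have hjlt : (j : ℕ) < N := Fin.val_lt_last hj1
        have hv : ((j + 1 : Fin (N + 1)) : ℕ) = (j : ℕ) + 1 := by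
          rw [Fin.val_add_one_of_lt]
          exact Fin.lt_last_iff_ne_last.2 hj1
        obtain ⟨n, hn⟩ := ih (app F x) (j + 1) h2 h1 (by omega) (fun n i => H (n + 1) i)
        exact ⟨n + 1, hn⟩
    · exact absurd h (H 0 j hj)
    · exact ⟨1, dom_of_case_one v hg hF hd x j hx h⟩

/-- The region of the contraction, normalised. -/
def VV (g : Γ) (t : Fin (N + 1) → L) : Prop := t 0 = 1 ∧ ∀ i, i ≠ 0 → g * v (t i) ≤ 1

/-- The map in affine coordinates. -/
noncomputable def TT (F : Tup N L) (t : Fin (N + 1) → L) : Fin (N + 1) → L :=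
  (app F t 0)⁻¹ • app F t

omit hg in
omit [LinearOrderedCommGroupWithZero Γ] in
theorem app_eq_smul (F : Tup N L) (s : Fin (N + 1) → L) (h : app F s 0 ≠ 0) :
    app F s = app F s 0 • TT F s := by
  unfold TT
  rw [smul_smul, mul_inv_cancel₀ h, one_smul]

theorem VV.le_one {t : Fin (N + 1) → L} (ht : VV v g t) (i : Fin (N + 1)) : v (t i) ≤ 1 := by
  by_cases hi : i = 0
  · rw [hi, ht.1, map_one]
  · refine le_trans ?_ (ht.2 i hi)
    have := mul_le_mul_left hg.le (v (t i))
    rwa [one_mul] at this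

include hF in
theorem val_zero {t : Fin (N + 1) → L} (ht : t 0 = 1) (h1 : ∀ i, v (t i) ≤ 1) :
    v (app F t 0) = g ^ 2 := by
  have := case_one v hg hF t 1 h1 (by
    rw [ht, map_one, one_pow, mul_one]
    exact hg)
  rwa [ht, map_one, one_pow, mul_one] at this

include hF in
theorem TT_VV {t : Fin (N + 1) → L} (ht : t 0 = 1) (h1 : ∀ i, v (t i) ≤ 1) :
    VV v g (TT F t) := by
  have hg0 : g ≠ 0 := (zero_lt_one.trans hg).ne'
  have h2 := val_zero v hg hF ht h1
  have h3 : app F t 0 ≠ 0 := by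
    intro h
    rw [h, map_zero] at h2
    exact pow_ne_zero _ hg0 h2.symm
  refine ⟨?_, fun i hi => ?_⟩
  · change (app F t 0)⁻¹ * app F t 0 = 1
    exact inv_mul_cancel₀ h3
  · change g * v ((app F t 0)⁻¹ * app F t i) ≤ 1
    rw [map_mul, map_inv₀, h2]
    have h4 := app_le v hg hF i hi t 1 h1
    rw [one_pow, mul_one] at h4
    calc g * ((g ^ 2)⁻¹ * v (app F t i)) ≤ g * ((g ^ 2)⁻¹ * g) := by gcongr
      _ = 1 := by field_simp

include hF in
/-- The map is a contraction. -/
theorem TT_contr {t u : Fin (N + 1) → L} (ht : VV v g t) (hu : VV v g u) (Δ : Γ)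
    (h : ∀ i, v (t i - u i) ≤ Δ) (i : Fin (N + 1)) : g * v (TT F t i - TT F u i) ≤ Δ := by
  have hg0 : g ≠ 0 := (zero_lt_one.trans hg).ne'
  have ht1 := ht.le_one v hg
  have hu1 := hu.le_one v hg
  have h1 := val_zero v hg hF ht.1 ht1
  have h2 := val_zero v hg hF hu.1 hu1
  have h3 : app F t 0 ≠ 0 := by
    intro h
    rw [h, map_zero] at h1
    exact pow_ne_zero _ hg0 h1.symm
  have h4 : app F u 0 ≠ 0 := by
    intro h
    rw [h, map_zero] at h2
    exact pow_ne_zero _ hg0 h2.symm
  by_cases hi : i = 0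
  · subst hi
    have e1 : TT F t 0 = 1 := inv_mul_cancel₀ h3
    have e2 : TT F u 0 = 1 := inv_mul_cancel₀ h4
    rw [e1, e2, sub_self, map_zero, mul_zero]
    exact zero_le
  · have e : TT F t i - TT F u i =
        ((app F t i - app F u i) * app F u 0 - app F u i * (app F t 0 - app F u 0)) *
          (app F t 0 * app F u 0)⁻¹ := by
      change (app F t 0)⁻¹ * app F t i - (app F u 0)⁻¹ * app F u i = _
      field_simp
      ring
    have h5 : v (app F t i - app F u i) ≤ g * Δ :=
      val_sub_le (d := d) v (F i) g Δ (fun α _ => coeff_le v hg hF i α fun h => hi h.1) t u ht.1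
        hu.1 ht1 hu1 h
    have h6 : v (app F t 0 - app F u 0) ≤ g * Δ :=
      val_sub_le (d := d) v (F 0) g Δ (fun α hα => coeff_le v hg hF 0 α fun h => hα h.2) t u ht.1
        hu.1 ht1 hu1 h
    have h7 : v (app F u i) ≤ g := by
      have := app_le v hg hF i hi u 1 hu1
      rwa [one_pow, mul_one] at this
    have h8 : v ((app F t i - app F u i) * app F u 0 - app F u i * (app F t 0 - app F u 0)) ≤
        g ^ 3 * Δ := by
      refine v.map_sub_le ?_ ?_
      · rw [map_mul, h2]
        calc v (app F t i - app F u i) * g ^ 2 ≤ (g * Δ) * g ^ 2 := by gcongr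
          _ = g ^ 3 * Δ := by rw [pow_succ g 2]; ac_rfl
      · rw [map_mul]
        calc v (app F u i) * v (app F t 0 - app F u 0) ≤ g * (g * Δ) := by gcongr
          _ = g ^ 2 * Δ := by rw [pow_two, mul_assoc]
          _ ≤ g ^ 3 * Δ := by
            gcongr
            · exact hg.le
            · norm_num
    rw [e, map_mul, map_inv₀, map_mul, h1, h2]
    calc g * (v ((app F t i - app F u i) * app F u 0 - app F u i * (app F t 0 - app F u 0)) *
          (g ^ 2 * g ^ 2)⁻¹) ≤ g * (g ^ 3 * Δ * (g ^ 2 * g ^ 2)⁻¹) := by gcongr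
      _ = Δ := by
        field_simp

include hF in
theorem TT_iter {t : Fin (N + 1) → L} (ht : VV v g t) (n : ℕ) : VV v g ((TT F)^[n] t) := by
  induction n generalizing t with
  | zero => exact ht
  | succ n ih =>
    rw [Function.iterate_succ_apply]
    exact ih (TT_VV v hg hF ht.1 (ht.le_one v hg))

include hF in
theorem TT_contr_iter {t u : Fin (N + 1) → L} (ht : VV v g t) (hu : VV v g u) (Δ : Γ) (n : ℕ)
    (h : ∀ i, v (t i - u i) ≤ Δ) (i : Fin (N + 1)) :
    g ^ n * v ((TT F)^[n] t i - (TT F)^[n] u i) ≤ Δ := by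
  have hg0 : 0 < g := zero_lt_one.trans hg
  induction n generalizing t u Δ with
  | zero => simpa using h i
  | succ n ih =>
    rw [Function.iterate_succ_apply, Function.iterate_succ_apply]
    have h1 := TT_VV v hg hF ht.1 (ht.le_one v hg)
    have h2 := TT_VV v hg hF hu.1 (hu.le_one v hg)
    have h3 := ih h1 h2 (g⁻¹ * Δ) (fun j => by
      have := TT_contr v hg hF ht hu Δ h j
      rwa [mul_comm, ← le_div_iff₀ hg0, div_eq_inv_mul] at this)
    rw [inv_mul_eq_div, le_div_iff₀ hg0] at h3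
    calc g ^ (n + 1) * _ = g ^ n * _ * g := by rw [pow_succ, mul_right_comm]
      _ ≤ Δ := h3

include hF in
theorem TT_fixed {q : Fin (N + 1) → L} (hq : VV v g q) (m : ℕ) (hm : m ≠ 0)
    (h : (TT F)^[m] q = q) : TT F q = q := by
  obtain ⟨j, -, hj⟩ := Finset.exists_max_image (Finset.univ : Finset (Fin (N + 1)))
    (fun i => v (q i - TT F q i)) Finset.univ_nonempty
  have h1 := TT_contr_iter v hg hF hq (TT_VV v hg hF hq.1 (hq.le_one v hg)) _ m
    (fun i => hj i (Finset.mem_univ i)) j
  rw [← Function.iterate_succ_apply, Function.iterate_succ_apply', h] at h1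
  have h2 : v (q j - TT F q j) = 0 := by
    by_contra h0
    have h3 : 0 < v (q j - TT F q j) := zero_lt_iff.2 h0
    have h4 : 1 < g ^ m := one_lt_pow₀ hg hm
    have h5 := (mul_lt_mul_iff_left₀ h3).2 h4
    rw [one_mul] at h5
    exact absurd h1 (not_le.2 h5)
  funext i
  have h3 : v (q i - TT F q i) = 0 := le_antisymm ((hj i (Finset.mem_univ i)).trans h2.le) zero_le
  exact (sub_eq_zero.1 ((Valuation.zero_iff v).1 h3)).symm

include hF in
/-- An unramified preperiodic point is eventually fixed. -/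
theorem fixed_of_preper (hN : 1 ≤ N) (hd : d ≠ 0) (x : Fin (N + 1) → L) (hx : x ≠ 0)
    (H : ∀ n i, (app F)^[n] x i ≠ 0 → g * v ((app F)^[n] x 0) ^ d ≠ v ((app F)^[n] x i) ^ d)
    (a b : ℕ) (hab : a < b) (hp : Par ((app F)^[a] x) ((app F)^[b] x)) :
    ∃ n, (app F)^[n] x ≠ 0 ∧ Par (app F ((app F)^[n] x)) ((app F)^[n] x) := by
  have hg0 : g ≠ 0 := (zero_lt_one.trans hg).ne'
  -- the first time in the region
  obtain ⟨j, -, hj⟩ := Finset.exists_max_image (Finset.univ : Finset (Fin (N + 1)))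
    (fun i => v (x i)) Finset.univ_nonempty
  have hj0 : x j ≠ 0 := by
    intro h0
    refine hx (funext fun i => ?_)
    have h1 := hj i (Finset.mem_univ i)
    rw [h0, map_zero] at h1
    exact (Valuation.zero_iff v).1 (le_antisymm h1 zero_le)
  obtain ⟨n₀, h0, hdom⟩ := exists_dom v hg hF hN hd _ x j (fun i => hj i (Finset.mem_univ i)) hj0
    le_rfl H
  obtain ⟨y, hy⟩ : ∃ y, y = (app F)^[n₀] x := ⟨_, rfl⟩
  rw [← hy] at h0 hdom
  obtain ⟨t, ht⟩ : ∃ t : Fin (N + 1) → L, t = (y 0)⁻¹ • y := ⟨_, rfl⟩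
  have hyt : y = y 0 • t := by rw [ht, smul_smul, mul_inv_cancel₀ h0, one_smul]
  have ht0 : t 0 = 1 := by
    rw [ht]
    exact inv_mul_cancel₀ h0
  have ht1 : ∀ i, v (t i) ≤ 1 := by
    intro i
    by_cases hi : i = 0
    · rw [hi, ht0, map_one]
    · rw [ht]
      change v ((y 0)⁻¹ * y i) ≤ 1
      rw [map_mul, map_inv₀]
      have h1 := hdom i hi
      have h2 : v (y 0) ≠ 0 := v.ne_zero_iff.2 h0
      calc (v (y 0))⁻¹ * v (y i) ≤ (v (y 0))⁻¹ * v (y 0) := by gcongr
        _ = 1 := inv_mul_cancel₀ h2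
  have hV := TT_VV v hg hF ht0 ht1
  -- iterates
  have key : ∀ s : Fin (N + 1) → L, s 0 = 1 → (∀ i, v (s i) ≤ 1) → ∀ n, ∃ c : L, c ≠ 0 ∧
      (app F)^[n] s = c • (TT F)^[n] s := by
    intro s hs hs1 n
    induction n generalizing s with
    | zero => exact ⟨1, one_ne_zero, by simp⟩
    | succ n ih =>
      have h1 := val_zero v hg hF hs hs1
      have h2 : app F s 0 ≠ 0 := by
        intro h
        rw [h, map_zero] at h1
        exact pow_ne_zero _ hg0 h1.symm
      have h3 := TT_VV v hg hF hs hs1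
      obtain ⟨c, hc, hc'⟩ := ih (TT F s) h3.1 (h3.le_one v hg)
      have h4 : app F s = app F s 0 • TT F s := app_eq_smul F s h2
      refine ⟨(app F s 0) ^ d ^ n * c, mul_ne_zero (pow_ne_zero _ h2) hc, ?_⟩
      rw [Function.iterate_succ_apply, Function.iterate_succ_apply]
      conv_lhs => rw [h4]
      rw [iter_smul d F hF.hom, hc', smul_smul]
  have key2 : ∀ n, ∃ c : L, c ≠ 0 ∧ (app F)^[n + n₀] x = c • (TT F)^[n] t := by
    intro n
    obtain ⟨c, hc, hc'⟩ := key t ht0 ht1 n
    refine ⟨(y 0) ^ d ^ n * c, mul_ne_zero (pow_ne_zero _ h0) hc, ?_⟩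
    rw [Function.iterate_add_apply, ← hy, hyt, iter_smul d F hF.hom, hc', smul_smul]
    simp [ht0]
  have hTT0 : ∀ n, (TT F)^[n] t 0 = 1 := by
    intro n
    cases n with
    | zero => exact ht0
    | succ n =>
      rw [Function.iterate_succ_apply]
      exact (TT_iter v hg hF hV n).1
  have hTTne : ∀ n, (TT F)^[n] t ≠ 0 := by
    intro n h
    have := hTT0 n
    rw [h] at this
    exact zero_ne_one this
  have hne : ∀ n, (app F)^[n] x ≠ 0 := by
    intro n h
    obtain ⟨c, hc, hc'⟩ := key2 n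
    rw [add_comm n n₀, Function.iterate_add_apply, h] at hc'
    have h1 : (app F)^[n₀] (0 : Fin (N + 1) → L) = 0 := by
      have := iter_smul d F hF.hom n₀ (0 : L) 0
      rwa [zero_smul, zero_pow (pow_ne_zero _ hd), zero_smul] at this
    rw [h1] at hc'
    exact smul_ne_zero hc (hTTne n) hc'.symm
  -- periodicity
  have hpar := Par.iter F hF.hom (hne a) hp n₀
  rw [← Function.iterate_add_apply, ← Function.iterate_add_apply, add_comm n₀ a, add_comm n₀ b]
    at hpar
  obtain ⟨ca, hca, ha⟩ := key2 a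
  obtain ⟨cb, hcb, hb⟩ := key2 b
  rw [ha, hb] at hpar
  have heq : (TT F)^[b] t = (TT F)^[a] t := by
    have h1 := (hpar.of_smul_left hca).symm.of_smul_left hcb
    funext i
    have h2 := h1 i 0
    rw [hTT0 a, hTT0 b, mul_one, one_mul] at h2
    exact h2
  -- the vector `TT^(a+1) t` is in the region
  have hfix : TT F ((TT F)^[a + 1] t) = (TT F)^[a + 1] t := by
    refine TT_fixed v hg hF ?_ (b - a) (by omega) ?_
    · rw [Function.iterate_succ_apply]
      exact TT_iter v hg hF hV a
    · rw [← Function.iterate_add_apply]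
      have e : b - a + (a + 1) = 1 + b := by omega
      rw [e, Function.iterate_add_apply, heq, ← Function.iterate_add_apply, add_comm 1 a]
  refine ⟨a + 1 + n₀, hne _, ?_⟩
  obtain ⟨c, hc, hc'⟩ := key2 (a + 1)
  rw [hc', app_smul d F hF.hom]
  refine (Par.smul_left _ ?_).smul_right c
  have h1 : app F ((TT F)^[a + 1] t) = app F ((TT F)^[a + 1] t) 0 • TT F ((TT F)^[a + 1] t) := by
    have h2 := val_zero v hg hF (hTT0 (a + 1)) (by
      rw [Function.iterate_succ_apply]
      exact (TT_iter v hg hF hV a).le_one v hg)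
    have h3 : app F ((TT F)^[a + 1] t) 0 ≠ 0 := by
      intro h
      rw [h, map_zero] at h2
      exact pow_ne_zero _ hg0 h2.symm
    exact app_eq_smul F _ h3
  rw [h1, hfix]
  exact (Par.refl _).smul_left _

end Pool.Agent.PNH.G
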