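import Pool.Agent.PNH.ParL

set_option autoImplicit false

/-!
# Values of forms
-/

namespace Pool.Agent.PNH.G

open MvPolynomial

variable {L Γ : Type} [Field L] [LinearOrderedCommGroupWithZero Γ]

theorem deg_sum {n d : ℕ} {P : MvPolynomial (Fin n) L} (hP : P.IsHomogeneous d)
    {α : Fin n →₀ ℕ} (h : α ∈ P.support) : ∑ j, α j = d := by
  have h1 : α.degree = d := by
    by_contra h2
    exact mem_support_iff.1 h (hP.coeff_eq_zero h2)
  rw [← h1, Finsupp.degree_eq_sum]

/-- The value of a form. -/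
theorem val_eval_le (v : Valuation L Γ) {n d : ℕ} (P : MvPolynomial (Fin n) L)
    (hP : P.IsHomogeneous d) (C m : Γ) (hC : ∀ α, v (coeff α P) ≤ C) (x : Fin n → L)
    (hx : ∀ i, v (x i) ≤ m) : v (eval x P) ≤ C * m ^ d := by
  rw [eval_eq']
  refine v.map_sum_le fun α hα => ?_
  rw [map_mul, map_prod]
  calc v (coeff α P) * ∏ i, v (x i ^ α i) ≤ C * ∏ i, m ^ α i :=
        mul_le_mul' (hC α) (Finset.prod_le_prod' fun j _ => by
          rw [map_pow]
          exact pow_le_pow_left' (hx j) _)
    _ = C * m ^ d := by rw [Finset.prod_pow_eq_pow_sum, deg_sum hP hα]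

theorem eval_split {n d : ℕ} (P : MvPolynomial (Fin n) L) (j : Fin n) (x : Fin n → L) :
    eval x P = coeff (Finsupp.single j d) P * x j ^ d +
      eval x (P - monomial (Finsupp.single j d) (coeff (Finsupp.single j d) P)) := by
  rw [map_sub, eval_monomial, Finsupp.prod_single_index (by simp)]
  ring

theorem hom_split {n d : ℕ} {P : MvPolynomial (Fin n) L} (hP : P.IsHomogeneous d) (j : Fin n) :
    (P - monomial (Finsupp.single j d) (coeff (Finsupp.single j d) P)).IsHomogeneous d := by
  exact hP.sub (isHomogeneous_monomial _ (Finsupp.degree_single j d))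

theorem coeff_split {n d : ℕ} (P : MvPolynomial (Fin n) L) (j : Fin n) (α : Fin n →₀ ℕ) :
    coeff α (P - monomial (Finsupp.single j d) (coeff (Finsupp.single j d) P)) =
      if α = Finsupp.single j d then 0 else coeff α P := by
  classical
  rw [coeff_sub, coeff_monomial]
  by_cases h : α = Finsupp.single j d
  · subst h
    simp
  · rw [if_neg h, if_neg (fun h' => h h'.symm), sub_zero]

/-- One monomial dominates. -/
theorem val_main (v : Valuation L Γ) {n d : ℕ} (P : MvPolynomial (Fin n) L)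
    (hP : P.IsHomogeneous d) (j : Fin n) (C m : Γ)
    (hC : ∀ α, α ≠ Finsupp.single j d → v (coeff α P) ≤ C) (x : Fin n → L)
    (hx : ∀ i, v (x i) ≤ m) (h : C * m ^ d < v (coeff (Finsupp.single j d) P) * v (x j) ^ d) :
    v (eval x P) = v (coeff (Finsupp.single j d) P) * v (x j) ^ d := by
  rw [eval_split (d := d) P j x]
  have h1 : v (eval x (P - monomial (Finsupp.single j d) (coeff (Finsupp.single j d) P))) ≤
      C * m ^ d := by
    refine val_eval_le v _ (hom_split hP j) C m (fun α => ?_) x hx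
    rw [coeff_split]
    split_ifs with h2
    · rw [map_zero]
      exact zero_le
    · exact hC α h2
  have h2 : v (coeff (Finsupp.single j d) P * x j ^ d) =
      v (coeff (Finsupp.single j d) P) * v (x j) ^ d := by rw [map_mul, map_pow]
  rw [Valuation.map_add_eq_of_lt_left v (by rw [h2]; exact h1.trans_lt h), h2]

theorem val_prod_sub (v : Valuation L Γ) {ι : Type} (s : Finset ι) (a b : ι → L) (Δ : Γ)
    (ha : ∀ i, v (a i) ≤ 1) (hb : ∀ i, v (b i) ≤ 1) (hab : ∀ i, v (a i - b i) ≤ Δ) :
    v (∏ i ∈ s, a i - ∏ i ∈ s, b i) ≤ Δ := by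
  classical
  induction s using Finset.induction_on with
  | empty => simp
  | insert i s hi ih =>
    rw [Finset.prod_insert hi, Finset.prod_insert hi]
    have e : a i * ∏ j ∈ s, a j - b i * ∏ j ∈ s, b j =
        a i * (∏ j ∈ s, a j - ∏ j ∈ s, b j) + (∏ j ∈ s, b j) * (a i - b i) := by ring
    rw [e]
    refine v.map_add_le ?_ ?_
    · rw [map_mul]
      exact (mul_le_mul' (ha i) ih).trans (one_mul Δ).le
    · rw [map_mul, map_prod]
      exact (mul_le_mul' (Finset.prod_le_one' fun j _ => hb j) (hab i)).trans (one_mul Δ).le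

theorem val_pow_sub (v : Valuation L Γ) (a b : L) (Δ : Γ) (ha : v a ≤ 1) (hb : v b ≤ 1)
    (hab : v (a - b) ≤ Δ) (n : ℕ) : v (a ^ n - b ^ n) ≤ Δ := by
  have := val_prod_sub v (Finset.univ : Finset (Fin n)) (fun _ => a) (fun _ => b) Δ
    (fun _ => ha) (fun _ => hb) (fun _ => hab)
  simpa using this

/-- The difference of the values of a form at two vectors with first coordinate `1`. -/
theorem val_sub_le (v : Valuation L Γ) {N d : ℕ} (P : MvPolynomial (Fin (N + 1)) L)
    (C Δ : Γ) (hC : ∀ α, α ≠ Finsupp.single 0 d → v (coeff α P) ≤ C) (x y : Fin (N + 1) → L)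
    (hx0 : x 0 = 1) (hy0 : y 0 = 1) (hx : ∀ i, v (x i) ≤ 1) (hy : ∀ i, v (y i) ≤ 1)
    (hxy : ∀ i, v (x i - y i) ≤ Δ) : v (eval x P - eval y P) ≤ C * Δ := by
  rw [eval_eq', eval_eq', ← Finset.sum_sub_distrib]
  refine v.map_sum_le fun α _ => ?_
  rw [← mul_sub, map_mul]
  by_cases h : α = Finsupp.single 0 d
  · subst h
    have h1 : ∀ z : Fin (N + 1) → L, z 0 = 1 → ∏ i, z i ^ (Finsupp.single 0 d : Fin (N + 1) →₀ ℕ) i = 1 := by
      intro z hz
      refine Finset.prod_eq_one fun i _ => ?_
      by_cases hi : i = 0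
      · rw [hi, hz, one_pow]
      · rw [Finsupp.single_eq_of_ne hi, pow_zero]
    rw [h1 x hx0, h1 y hy0, sub_self, map_zero, mul_zero]
    exact zero_le
  · refine mul_le_mul' (hC α h) ?_
    exact val_prod_sub v Finset.univ _ _ Δ (fun i => by
        rw [map_pow]
        exact pow_le_one' (hx i) _) (fun i => by
        rw [map_pow]
        exact pow_le_one' (hy i) _) (fun i => val_pow_sub v _ _ Δ (hx i) (hy i) (hxy i) _)

end Pool.Agent.PNH.G
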